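import Mathlib

/-!
Project AHL (MP_27775c_an): Ahlfors currents of the leaves of flat projective bundles.
Basic definitions: translations of the disc, hyperbolic distance and area, averages over hyperbolic
circles, equicontinuous families, groups of isometries, ultrafilter limits.
-/

set_option autoImplicit false

open MeasureTheory Metric Filter Topology Set

namespace Pool.Agent.MP27775c.AHL

/-- The hyperbolic translation of the unit disc which maps `0` to `z`. -/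
noncomputable def mob (z ζ : ℂ) : ℂ := (ζ + z) / (1 + starRingEnd ℂ z * ζ)

/-- The hyperbolic distance of the unit disc (curvature `-1`). -/
noncomputable def dh (z w : ℂ) : ℝ :=
  2 * Real.arsinh (‖z - w‖ / √((1 - ‖z‖ ^ 2) * (1 - ‖w‖ ^ 2)))

/-- The density of the hyperbolic area. -/
noncomputable def hw (z : ℂ) : ℝ := 4 / (1 - ‖z‖ ^ 2) ^ 2

/-- The average of `u` over the hyperbolic circle of centre `z` and radius `R`. -/
noncomputable def Av (R : ℝ) (u : ℂ → ℝ) (z : ℂ) : ℝ :=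
  Real.circleAverage (fun ζ => u (mob z ζ)) 0 (Real.tanh (R / 2))

/-- The distance between `0` and the point of angle `ψ` of the circle of radius `R` around the
point at distance `S` of `0`. -/
noncomputable def rr (S R ψ : ℝ) : ℝ :=
  dh 0 (mob ((Real.tanh (S / 2) : ℝ) : ℂ) (circleMap 0 (Real.tanh (R / 2)) ψ))

/-- The limit of `rr S R ψ - R` when `R` goes to infinity. -/
noncomputable def bs (S ψ : ℝ) : ℝ := Real.log (Real.cosh S + Real.sinh S * Real.cos ψ)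

/-- Uniform equicontinuity of a family of functions on the disc, for the hyperbolic distance. -/
def UEC {ι : Type*} (F : ι → ℂ → ℝ) : Prop :=
  ∀ ε : ℝ, 0 < ε → ∃ δ : ℝ, 0 < δ ∧ ∀ i z w, ‖z‖ < 1 → ‖w‖ < 1 → dh z w ≤ δ → |F i z - F i w| ≤ ε

/-- Uniform boundedness of a family of functions on the disc. -/
def UBd {ι : Type*} (F : ι → ℂ → ℝ) : Prop := ∃ B : ℝ, ∀ i z, ‖z‖ < 1 → |F i z| ≤ B

/-- Continuous functions with the mean value property for all the hyperbolic circles. -/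
structure Harm (u : ℂ → ℝ) : Prop where
  cont : ContinuousOn u (ball 0 1)
  mean : ∀ S z, 0 ≤ S → ‖z‖ < 1 → Av S u z = u z

/-- A group acting on the unit disc by orientation preserving isometries, properly, with compact
quotient. -/
structure Fuchs {Γ : Type*} [Group Γ] (a : Γ → ℂ → ℂ) : Prop where
  one : ∀ z, ‖z‖ < 1 → a 1 z = z
  mul : ∀ γ δ z, ‖z‖ < 1 → a (γ * δ) z = a γ (a δ z)
  lt : ∀ γ z, ‖z‖ < 1 → ‖a γ z‖ < 1
  iso : ∀ γ z, ‖z‖ < 1 → ∃ c : ℂ, ‖c‖ = 1 ∧ ∀ ζ, ‖ζ‖ < 1 → a γ (mob z ζ) = mob (a γ z) (c * ζ)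
  proper : ∀ r : ℝ, r < 1 → {γ | ‖a γ 0‖ ≤ r}.Finite
  cocompact : ∃ r : ℝ, r < 1 ∧ ∀ z, ‖z‖ < 1 → ∃ γ, ‖a γ z‖ ≤ r

/-- The limit of a sequence along a fixed ultrafilter. -/
noncomputable def UL (x : ℕ → ℝ) : ℝ := limUnder (hyperfilter ℕ : Filter ℕ) x

/-- The Cesaro limit (along the ultrafilter) of the averages over circles. -/
noncomputable def Ces (u : ℂ → ℝ) (z : ℂ) : ℝ :=
  UL (fun n => ((n : ℝ) + 1)⁻¹ * ∫ t in (0 : ℝ)..((n : ℝ) + 1), Av t u z)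

/-- A partition of unity of the quotient, lifted to the disc. -/
structure Cut {Γ : Type*} [Group Γ] (a : Γ → ℂ → ℂ) (χ : ℂ → ℝ) : Prop where
  cont : Continuous χ
  nonneg : ∀ z, 0 ≤ χ z
  supp : ∃ r : ℝ, r < 1 ∧ ∀ z, r < ‖z‖ → χ z = 0
  sum : ∀ r : ℝ, r < 1 → ∃ s : Finset Γ, ∀ z, ‖z‖ ≤ r →
    (∀ γ, γ ∉ s → χ (a γ z) = 0) ∧ ∑ γ ∈ s, χ (a γ z) = 1

/-- The integral over the quotient of an invariant function. -/
noncomputable def II (χ g : ℂ → ℝ) : ℝ := ∫ z in ball (0 : ℂ) 1, χ z * g z * hw z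

/-- Bounded, uniformly continuous, invariant families `Φ t`, `t` real, with
`Av S (Φ t) z = average over ψ of Φ (t + bs S ψ) z`. -/
structure Sol {Γ : Type*} [Group Γ] (a : Γ → ℂ → ℂ) (Φ : ℝ → ℂ → ℝ) : Prop where
  bdd : UBd Φ
  uec : UEC Φ
  tcont : ∀ ε : ℝ, 0 < ε → ∃ δ : ℝ, 0 < δ ∧ ∀ t t' z, ‖z‖ < 1 → |t - t'| ≤ δ →
    |Φ t z - Φ t' z| ≤ ε
  inv : ∀ γ t z, ‖z‖ < 1 → Φ t (a γ z) = Φ t z
  wave : ∀ S t z, 0 ≤ S → ‖z‖ < 1 →
    Av S (Φ t) z = (2 * Real.pi)⁻¹ * ∫ ψ in (0 : ℝ)..(2 * Real.pi), Φ (t + bs S ψ) z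

/-- Average in time. -/
noncomputable def Mt (h : ℝ) (Φ : ℝ → ℂ → ℝ) (t : ℝ) (z : ℂ) : ℝ :=
  h⁻¹ * ∫ s in (0 : ℝ)..h, Φ (t + s) z

/-- Difference quotient in time. -/
noncomputable def Dt (h : ℝ) (Φ : ℝ → ℂ → ℝ) (t : ℝ) (z : ℂ) : ℝ :=
  h⁻¹ * (Φ (t + h) z - Φ t z)

/-- Mean square oscillation of `u` on the circle of radius `S` around `w`. -/
noncomputable def Dv (u : ℂ → ℝ) (S : ℝ) (w : ℂ) : ℝ := Av S (fun y => u y ^ 2) w - u w ^ 2

end Pool.Agent.MP27775c.AHL
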