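import Mathlib
import Pool.Agent.Lib.MP_27775c_an_AHL.Base

/-!
Algebra of the translations `mob z` of the disc.
-/

set_option autoImplicit false
set_option linter.unusedSectionVars false

open MeasureTheory Metric Filter Topology Set

namespace Pool.Agent.MP27775c.AHL

variable {z ζ a c : ℂ}

theorem one_add_ne (hz : ‖z‖ < 1) (hζ : ‖ζ‖ ≤ 1) : 1 + starRingEnd ℂ z * ζ ≠ 0 := by
  intro h
  have h1 : starRingEnd ℂ z * ζ = -1 := by linear_combination h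
  have h2 : ‖starRingEnd ℂ z * ζ‖ = 1 := by rw [h1, norm_neg, norm_one]
  rw [norm_mul, Complex.norm_conj] at h2
  nlinarith [norm_nonneg z, norm_nonneg ζ]

private theorem mb_key (z ζ : ℂ) : ‖1 + starRingEnd ℂ z * ζ‖ ^ 2 - ‖ζ + z‖ ^ 2 =
    (1 - ‖z‖ ^ 2) * (1 - ‖ζ‖ ^ 2) := by
  have h1 : ((‖1 + starRingEnd ℂ z * ζ‖ ^ 2 - ‖ζ + z‖ ^ 2 : ℝ) : ℂ) =
      (((1 - ‖z‖ ^ 2) * (1 - ‖ζ‖ ^ 2) : ℝ) : ℂ) := by
    push_cast
    rw [← Complex.mul_conj', ← Complex.mul_conj', ← Complex.mul_conj', ← Complex.mul_conj']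
    simp only [map_add, map_mul, map_one, Complex.conj_conj]
    ring
  exact_mod_cast h1

theorem one_sub_norm_sq_mob (hz : ‖z‖ < 1) (hζ : ‖ζ‖ ≤ 1) :
    1 - ‖mob z ζ‖ ^ 2 = (1 - ‖z‖ ^ 2) * (1 - ‖ζ‖ ^ 2) / ‖1 + starRingEnd ℂ z * ζ‖ ^ 2 := by
  have h1 := norm_pos_iff.2 (one_add_ne hz hζ)
  rw [← mb_key]
  unfold mob
  rw [norm_div]
  generalize ‖1 + starRingEnd ℂ z * ζ‖ = D at h1 ⊢
  field_simp

private theorem mb_sq {z : ℂ} (hz : ‖z‖ < 1) : 0 < 1 - ‖z‖ ^ 2 := by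
  nlinarith [norm_nonneg z]

theorem norm_mob_lt (hz : ‖z‖ < 1) (hζ : ‖ζ‖ < 1) : ‖mob z ζ‖ < 1 := by
  have h0 := norm_pos_iff.2 (one_add_ne hz hζ.le)
  have h1 := mb_key z ζ
  have h2 := mul_pos (mb_sq hz) (mb_sq hζ)
  unfold mob
  rw [norm_div, div_lt_one h0]
  exact lt_of_pow_lt_pow_left₀ 2 h0.le (by linarith)

theorem mob_zero (z : ℂ) : mob z 0 = z := by
  simp [mob]

theorem zero_mob (ζ : ℂ) : mob 0 ζ = ζ := by
  simp [mob]

theorem mob_neg_mob (hz : ‖z‖ < 1) (hζ : ‖ζ‖ < 1) : mob (-z) (mob z ζ) = ζ := by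
  have h1 := one_add_ne hz hζ.le
  have hm : mob z ζ * (1 + starRingEnd ℂ z * ζ) = ζ + z := div_mul_cancel₀ _ h1
  have hz' : ‖-z‖ < 1 := by rwa [norm_neg]
  have h2 := one_add_ne hz' (norm_mob_lt hz hζ).le
  rw [show mob (-z) (mob z ζ) = (mob z ζ + -z) / (1 + starRingEnd ℂ (-z) * mob z ζ) from rfl,
    div_eq_iff h2, map_neg]
  linear_combination hm

theorem mob_mob_neg (hz : ‖z‖ < 1) (hζ : ‖ζ‖ < 1) : mob z (mob (-z) ζ) = ζ := by
  have hz' : ‖-z‖ < 1 := by rwa [norm_neg]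
  have h := mob_neg_mob hz' hζ
  rwa [neg_neg] at h

theorem mob_rot (hc : ‖c‖ = 1) (z ζ : ℂ) : mob (c * z) (c * ζ) = c * mob z ζ := by
  have h1 : c * starRingEnd ℂ c = 1 := by
    rw [Complex.mul_conj', hc]
    simp
  have h2 : starRingEnd ℂ (c * z) * (c * ζ) = starRingEnd ℂ z * ζ := by
    rw [map_mul]
    linear_combination (starRingEnd ℂ z * ζ) * h1
  unfold mob
  rw [h2, ← mul_add, mul_div_assoc]

/-- the rotation in the composition -/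
private noncomputable def mbE (z a : ℂ) : ℂ :=
  starRingEnd ℂ (1 + starRingEnd ℂ z * a) / (1 + starRingEnd ℂ z * a)

private theorem mbE_norm (hz : ‖z‖ < 1) (ha : ‖a‖ < 1) : ‖mbE z a‖ = 1 := by
  have h1 := norm_pos_iff.2 (one_add_ne hz ha.le)
  unfold mbE
  rw [norm_div, Complex.norm_conj, div_self h1.ne']

private theorem mb_comp {ξ : ℂ} (hz : ‖z‖ < 1) (ha : ‖a‖ < 1) (hξ : ‖ξ‖ < 1) :
    mob z (mob a ξ) = mob (mob z a) (mbE z a * ξ) := by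
  have hD := one_add_ne hz ha.le
  have hDc : starRingEnd ℂ (1 + starRingEnd ℂ z * a) ≠ 0 := (map_ne_zero _).2 hD
  have h1 := one_add_ne ha hξ.le
  have hm : mob a ξ * (1 + starRingEnd ℂ a * ξ) = ξ + a := div_mul_cancel₀ _ h1
  have hw' := norm_mob_lt ha hξ
  have h2 := one_add_ne hz hw'.le
  have h3 : 1 + starRingEnd ℂ (mob z a) * (mbE z a * ξ) ≠ 0 := by
    refine one_add_ne (norm_mob_lt hz ha) ?_
    rw [norm_mul, mbE_norm hz ha, one_mul]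
    exact hξ.le
  have e1 : (mob a ξ + z) * (1 + starRingEnd ℂ a * ξ) =
      starRingEnd ℂ (1 + starRingEnd ℂ z * a) * ξ + (a + z) := by
    simp only [map_add, map_mul, map_one, Complex.conj_conj]
    linear_combination hm
  have e2 : (1 + starRingEnd ℂ z * mob a ξ) * (1 + starRingEnd ℂ a * ξ) =
      (starRingEnd ℂ z + starRingEnd ℂ a) * ξ + (1 + starRingEnd ℂ z * a) := by
    linear_combination (starRingEnd ℂ z) * hm
  have h4 : (starRingEnd ℂ z + starRingEnd ℂ a) * ξ + (1 + starRingEnd ℂ z * a) ≠ 0 := by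
    rw [← e2]
    exact mul_ne_zero h2 h1
  have e3 : mob (mob z a) (mbE z a * ξ) =
      (starRingEnd ℂ (1 + starRingEnd ℂ z * a) * ξ + (a + z)) /
        ((starRingEnd ℂ z + starRingEnd ℂ a) * ξ + (1 + starRingEnd ℂ z * a)) := by
    have e4 : starRingEnd ℂ (mob z a) * mbE z a =
        (starRingEnd ℂ z + starRingEnd ℂ a) / (1 + starRingEnd ℂ z * a) := by
      unfold mob mbE
      rw [map_div₀, map_add]
      generalize starRingEnd ℂ (1 + starRingEnd ℂ z * a) = Dc at hDc ⊢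
      field_simp
      ring
    rw [show mob (mob z a) (mbE z a * ξ) = (mbE z a * ξ + mob z a) /
      (1 + starRingEnd ℂ (mob z a) * (mbE z a * ξ)) from rfl, div_eq_div_iff h3 h4, ← mul_assoc,
      e4]
    unfold mob mbE
    generalize starRingEnd ℂ (1 + starRingEnd ℂ z * a) = Dc at hDc ⊢
    field_simp
    ring
  rw [e3, ← e1, ← e2, mul_div_mul_right _ _ h1]
  rfl

theorem mob_comp (hz : ‖z‖ < 1) (ha : ‖a‖ < 1) :
    ∃ c : ℂ, ‖c‖ = 1 ∧ ∀ ζ, ‖ζ‖ < 1 → mob (mob z a) ζ = mob z (mob a (c * ζ)) := by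
  have h1 := mbE_norm hz ha
  refine ⟨(mbE z a)⁻¹, by rw [norm_inv, h1, inv_one], fun ζ hζ => ?_⟩
  have h2 : ‖(mbE z a)⁻¹ * ζ‖ < 1 := by rwa [norm_mul, norm_inv, h1, inv_one, one_mul]
  have h3 : mbE z a ≠ 0 := by
    intro h
    rw [h, norm_zero] at h1
    exact zero_ne_one h1
  rw [mb_comp hz ha h2, ← mul_assoc, mul_inv_cancel₀ h3, one_mul]

theorem mob_comp' (hz : ‖z‖ < 1) (ha : ‖a‖ < 1) :
    ∃ c : ℂ, ‖c‖ = 1 ∧ ∀ ζ, ‖ζ‖ < 1 → mob z (mob a ζ) = mob (mob z a) (c * ζ) :=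
  ⟨mbE z a, mbE_norm hz ha, fun _ hζ => mb_comp hz ha hζ⟩

theorem contDiffOn_mob {n : WithTop ℕ∞} :
    ContDiffOn ℝ n (fun p : ℂ × ℂ => mob p.1 p.2) {p | ‖p.1‖ < 1 ∧ ‖p.2‖ < 1} := by
  have hconj : ContDiff ℝ n (fun p : ℂ × ℂ => starRingEnd ℂ p.1) :=
    Complex.conjCLE.contDiff.comp contDiff_fst
  have hden : ContDiff ℝ n (fun p : ℂ × ℂ => 1 + starRingEnd ℂ p.1 * p.2) :=
    contDiff_const.add (hconj.mul contDiff_snd)
  have hnum : ContDiff ℝ n (fun p : ℂ × ℂ => p.2 + p.1) := contDiff_snd.add contDiff_fst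
  have hinv : ContDiffOn ℝ n (fun p : ℂ × ℂ => (1 + starRingEnd ℂ p.1 * p.2)⁻¹)
      {p | ‖p.1‖ < 1 ∧ ‖p.2‖ < 1} :=
    hden.contDiffOn.inv fun p hp => one_add_ne hp.1 hp.2.le
  have h := hnum.contDiffOn.mul hinv
  exact h.congr fun p _ => div_eq_mul_inv _ _

theorem continuousOn_mob :
    ContinuousOn (fun p : ℂ × ℂ => mob p.1 p.2) {p | ‖p.1‖ < 1 ∧ ‖p.2‖ < 1} :=
  (contDiffOn_mob (n := 0)).continuousOn

theorem hasDerivAt_mob (hz : ‖z‖ < 1) (hζ : ‖ζ‖ < 1) :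
    HasDerivAt (mob z) (((1 - ‖z‖ ^ 2 : ℝ) : ℂ) / (1 + starRingEnd ℂ z * ζ) ^ 2) ζ := by
  have h1 : HasDerivAt (fun w : ℂ => w + z) 1 ζ := (hasDerivAt_id ζ).add_const z
  have h2 : HasDerivAt (fun w : ℂ => 1 + starRingEnd ℂ z * w) (starRingEnd ℂ z) ζ := by
    simpa using ((hasDerivAt_id ζ).const_mul (starRingEnd ℂ z)).const_add 1
  have h3 := h1.div h2 (one_add_ne hz hζ.le)
  have h4 : 1 * (1 + starRingEnd ℂ z * ζ) - (ζ + z) * starRingEnd ℂ z =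
      ((1 - ‖z‖ ^ 2 : ℝ) : ℂ) := by
    push_cast
    rw [← Complex.mul_conj']
    ring
  rw [h4] at h3
  exact h3

theorem hw_mob (hz : ‖z‖ < 1) (hζ : ‖ζ‖ < 1) :
    hw (mob z ζ) * ‖deriv (mob z) ζ‖ ^ 2 = hw ζ := by
  have h0 := norm_pos_iff.2 (one_add_ne hz hζ.le)
  have h1 := mb_sq hz
  have h2 := mb_sq hζ
  rw [(hasDerivAt_mob hz hζ).deriv]
  unfold hw
  rw [one_sub_norm_sq_mob hz hζ.le, norm_div, Complex.norm_real, Real.norm_eq_abs,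
    abs_of_pos h1, norm_pow]
  generalize ‖1 + starRingEnd ℂ z * ζ‖ = D at h0 ⊢
  field_simp

theorem bijOn_mob (hz : ‖z‖ < 1) : BijOn (mob z) (ball 0 1) (ball 0 1) := by
  have hz' : ‖-z‖ < 1 := by rwa [norm_neg]
  refine ⟨?_, ?_, ?_⟩
  · intro w hw'
    rw [mem_ball_zero_iff] at hw' ⊢
    exact norm_mob_lt hz hw'
  · intro w hw' v hv h
    rw [mem_ball_zero_iff] at hw' hv
    rw [← mob_neg_mob hz hw', h, mob_neg_mob hz hv]
  · intro w hw'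
    rw [mem_ball_zero_iff] at hw'
    exact ⟨mob (-z) w, mem_ball_zero_iff.2 (norm_mob_lt hz' hw'), mob_mob_neg hz hw'⟩

end Pool.Agent.MP27775c.AHL
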