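import Mathlib
import Pool.Agent.Lib.MP_27775c_an_AHL.Mb

/-!
The hyperbolic distance of the disc.
-/

set_option autoImplicit false
set_option linter.unusedSectionVars false

open MeasureTheory Metric Filter Topology Set

namespace Pool.Agent.MP27775c.AHL

variable {z w x y ζ ξ c : ℂ} {r R R' : ℝ}

private theorem ds_dh (z w : ℂ) :
    dh z w = 2 * Real.arsinh (√(‖z - w‖ ^ 2 / ((1 - ‖z‖ ^ 2) * (1 - ‖w‖ ^ 2)))) := by
  rw [Real.sqrt_div (sq_nonneg _), Real.sqrt_sq (norm_nonneg _)]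
  rfl

private theorem ds_pos (hz : ‖z‖ < 1) : 0 < 1 - ‖z‖ ^ 2 := by
  have h1 := norm_nonneg z
  nlinarith

private theorem ds_tanh_lt (a b : ℝ) : Real.tanh a < Real.tanh b ↔ a < b := by
  rw [← Real.artanh_lt_artanh_iff ⟨Real.neg_one_lt_tanh a, Real.tanh_lt_one a⟩
    ⟨Real.neg_one_lt_tanh b, Real.tanh_lt_one b⟩, Real.artanh_tanh, Real.artanh_tanh]

theorem dh_self (z : ℂ) : dh z z = 0 := by
  unfold dh
  rw [sub_self, norm_zero, zero_div, Real.arsinh_zero, mul_zero]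

theorem dh_comm (z w : ℂ) : dh z w = dh w z := by
  unfold dh
  rw [norm_sub_rev, mul_comm (1 - ‖z‖ ^ 2)]

theorem dh_nonneg (z w : ℂ) : 0 ≤ dh z w := by
  unfold dh
  have h1 : 0 ≤ Real.arsinh (‖z - w‖ / √((1 - ‖z‖ ^ 2) * (1 - ‖w‖ ^ 2))) :=
    Real.arsinh_nonneg_iff.2 (div_nonneg (norm_nonneg _) (Real.sqrt_nonneg _))
  linarith

theorem cosh_dh (hz : ‖z‖ < 1) (hw : ‖w‖ < 1) :
    Real.cosh (dh z w) = 1 + 2 * ‖z - w‖ ^ 2 / ((1 - ‖z‖ ^ 2) * (1 - ‖w‖ ^ 2)) := by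
  have h1 := ds_pos hz
  have h2 := ds_pos hw
  rw [ds_dh, Real.cosh_two_mul, Real.cosh_sq, Real.sinh_arsinh, Real.sq_sqrt (by positivity)]
  ring

theorem dh_rot (hc : ‖c‖ = 1) (z w : ℂ) : dh (c * z) (c * w) = dh z w := by
  unfold dh
  rw [← mul_sub, norm_mul, norm_mul, norm_mul, hc, one_mul, one_mul, one_mul]

theorem dh_mob (hz : ‖z‖ < 1) (hζ : ‖ζ‖ < 1) (hξ : ‖ξ‖ < 1) :
    dh (mob z ζ) (mob z ξ) = dh ζ ξ := by
  have hr := ds_pos hz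
  have h1 := ds_pos hζ
  have h2 := ds_pos hξ
  have hA := one_add_ne hz hζ.le
  have hB := one_add_ne hz hξ.le
  have hnA := norm_pos_iff.2 hA
  have hnB := norm_pos_iff.2 hB
  have hd : mob z ζ - mob z ξ = ((1 - ‖z‖ ^ 2 : ℝ) : ℂ) * (ζ - ξ) /
      ((1 + starRingEnd ℂ z * ζ) * (1 + starRingEnd ℂ z * ξ)) := by
    unfold mob
    rw [div_sub_div _ _ hA hB]
    congr 1
    have h3 := Complex.mul_conj' z
    push_cast
    linear_combination (ξ - ζ) * h3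
  rw [ds_dh, ds_dh, one_sub_norm_sq_mob hz hζ.le, one_sub_norm_sq_mob hz hξ.le, hd, norm_div,
    norm_mul, norm_mul, Complex.norm_real, Real.norm_of_nonneg hr.le]
  congr 3
  generalize ‖1 + starRingEnd ℂ z * ζ‖ = A at hnA
  generalize ‖1 + starRingEnd ℂ z * ξ‖ = B at hnB
  generalize 1 - ‖z‖ ^ 2 = q at hr
  generalize 1 - ‖ζ‖ ^ 2 = q1 at h1
  generalize 1 - ‖ξ‖ ^ 2 = q2 at h2
  field_simp

theorem dh_self_mob (hz : ‖z‖ < 1) (hζ : ‖ζ‖ < 1) : dh z (mob z ζ) = dh 0 ζ := by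
  have h1 := dh_mob hz (show ‖(0 : ℂ)‖ < 1 by simp) hζ
  rwa [mob_zero] at h1

private theorem ds_sqrt {a : ℝ} (ha0 : 0 ≤ a) (ha : a < 1) :
    √(1 + (a / √(1 - a ^ 2)) ^ 2) = 1 / √(1 - a ^ 2) := by
  have h1 : 0 < 1 - a ^ 2 := by nlinarith
  rw [div_pow, Real.sq_sqrt h1.le]
  have h2 : 1 + a ^ 2 / (1 - a ^ 2) = 1 / (1 - a ^ 2) := by
    field_simp
    ring
  rw [h2, Real.sqrt_div zero_le_one, Real.sqrt_one]

private theorem ds_zero (w : ℂ) : dh 0 w = 2 * Real.arsinh (‖w‖ / √(1 - ‖w‖ ^ 2)) := by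
  unfold dh
  rw [zero_sub, norm_neg, norm_zero]
  congr 4
  ring

theorem tanh_half_dh (hw : ‖w‖ < 1) : Real.tanh (dh 0 w / 2) = ‖w‖ := by
  have h1 := ds_pos hw
  have h2 : 0 < √(1 - ‖w‖ ^ 2) := Real.sqrt_pos.2 h1
  rw [ds_zero, mul_div_cancel_left₀ _ two_ne_zero, Real.tanh_arsinh,
    ds_sqrt (norm_nonneg w) hw]
  field_simp

theorem dh_zero_eq (hR : 0 ≤ R) (h : ‖w‖ = Real.tanh (R / 2)) : dh 0 w = R := by
  have hw : ‖w‖ < 1 := h ▸ Real.tanh_lt_one _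
  have h1 := tanh_half_dh hw
  rw [h] at h1
  have h2 := Real.tanh_injective h1
  linarith

theorem dh_zero_lt_iff (hw : ‖w‖ < 1) : dh 0 w < R ↔ ‖w‖ < Real.tanh (R / 2) := by
  have h1 := tanh_half_dh hw
  have h2 := ds_tanh_lt (dh 0 w / 2) (R / 2)
  rw [h1] at h2
  rw [h2]
  constructor
  · intro h
    linarith
  · intro h
    linarith

private theorem ds_sinh (hw : ‖w‖ < 1) : Real.sinh (dh 0 w) = 2 * ‖w‖ / (1 - ‖w‖ ^ 2) := by
  have h1 := ds_pos hw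
  have h2 : 0 < √(1 - ‖w‖ ^ 2) := Real.sqrt_pos.2 h1
  have h3 : √(1 - ‖w‖ ^ 2) * √(1 - ‖w‖ ^ 2) = 1 - ‖w‖ ^ 2 := Real.mul_self_sqrt h1.le
  rw [ds_zero, Real.sinh_two_mul, Real.sinh_arsinh, Real.cosh_arsinh,
    ds_sqrt (norm_nonneg w) hw, mul_assoc, div_mul_div_comm, h3, mul_one, mul_div_assoc]

private theorem ds_cosh (hw : ‖w‖ < 1) :
    Real.cosh (dh 0 w) = 1 + 2 * ‖w‖ ^ 2 / (1 - ‖w‖ ^ 2) := by
  rw [cosh_dh (by simp) hw, zero_sub, norm_neg, norm_zero]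
  congr 2
  ring

theorem dh_triangle (hx : ‖x‖ < 1) (hy : ‖y‖ < 1) (hz : ‖z‖ < 1) :
    dh x z ≤ dh x y + dh y z := by
  have hy' : ‖-y‖ < 1 := by rwa [norm_neg]
  have e0 : mob (-y) y = 0 := by
    unfold mob
    rw [add_neg_cancel, zero_div]
  have hp := norm_mob_lt hy' hx
  have hq := norm_mob_lt hy' hz
  rw [← dh_mob hy' hx hz, ← dh_mob hy' hx hy, ← dh_mob hy' hy hz, e0]
  generalize mob (-y) x = p at hp
  generalize mob (-y) z = q at hq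
  rw [dh_comm p 0]
  have h1 : |dh p q| ≤ |dh 0 p + dh 0 q| := by
    rw [← Real.cosh_le_cosh, Real.cosh_add, cosh_dh hp hq, ds_cosh hp, ds_cosh hq, ds_sinh hp,
      ds_sinh hq]
    have hP := ds_pos hp
    have hQ := ds_pos hq
    have hpq : ‖p - q‖ ^ 2 ≤ (‖p‖ + ‖q‖) ^ 2 :=
      pow_le_pow_left₀ (norm_nonneg _) (norm_sub_le p q) 2
    have h2 : (1 + 2 * ‖p‖ ^ 2 / (1 - ‖p‖ ^ 2)) * (1 + 2 * ‖q‖ ^ 2 / (1 - ‖q‖ ^ 2)) +
        2 * ‖p‖ / (1 - ‖p‖ ^ 2) * (2 * ‖q‖ / (1 - ‖q‖ ^ 2)) =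
        1 + 2 * (‖p‖ + ‖q‖) ^ 2 / ((1 - ‖p‖ ^ 2) * (1 - ‖q‖ ^ 2)) := by
      field_simp
      ring
    rw [h2]
    gcongr
  rwa [abs_of_nonneg (dh_nonneg _ _),
    abs_of_nonneg (add_nonneg (dh_nonneg _ _) (dh_nonneg _ _))] at h1

theorem dh_radial (R R' θ : ℝ) :
    dh (circleMap 0 (Real.tanh (R / 2)) θ) (circleMap 0 (Real.tanh (R' / 2)) θ) = |R - R'| := by
  have h1 : ∀ u : ℝ, 1 - Real.tanh u ^ 2 = (1 / Real.cosh u) ^ 2 := by
    intro u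
    have h2 := Real.cosh_sq u
    have h3 := (Real.cosh_pos u).ne'
    rw [Real.tanh_eq_sinh_div_cosh]
    field_simp
    rw [h2]
    ring
  have h2 : ‖circleMap 0 (Real.tanh (R / 2)) θ - circleMap 0 (Real.tanh (R' / 2)) θ‖ =
      |Real.tanh (R / 2) - Real.tanh (R' / 2)| := by
    have h3 : circleMap 0 (Real.tanh (R / 2)) θ - circleMap 0 (Real.tanh (R' / 2)) θ =
        circleMap 0 (Real.tanh (R / 2) - Real.tanh (R' / 2)) θ := by
      simp only [circleMap]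
      push_cast
      ring
    rw [h3, norm_circleMap_zero]
  unfold dh
  rw [h2, norm_circleMap_zero, norm_circleMap_zero, sq_abs, sq_abs, h1, h1, ← mul_pow,
    Real.sqrt_sq (by positivity)]
  have h4 : |Real.tanh (R / 2) - Real.tanh (R' / 2)| / (1 / Real.cosh (R / 2) *
      (1 / Real.cosh (R' / 2))) = |Real.sinh (R / 2 - R' / 2)| := by
    have c1 := Real.cosh_pos (R / 2)
    have c2 := Real.cosh_pos (R' / 2)
    have h5 : Real.sinh (R / 2 - R' / 2) = (Real.tanh (R / 2) - Real.tanh (R' / 2)) *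
        (Real.cosh (R / 2) * Real.cosh (R' / 2)) := by
      rw [Real.sinh_sub, Real.tanh_eq_sinh_div_cosh, Real.tanh_eq_sinh_div_cosh]
      field_simp
    rw [h5, abs_mul, abs_of_pos (mul_pos c1 c2)]
    field_simp
  rw [h4, Real.abs_sinh, Real.arsinh_sinh]
  have h6 : R - R' = 2 * (R / 2 - R' / 2) := by ring
  rw [h6, abs_mul, abs_two]

theorem norm_circleMap_tanh_lt (R θ : ℝ) : ‖circleMap 0 (Real.tanh (R / 2)) θ‖ < 1 := by
  rw [norm_circleMap_zero]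
  exact Real.abs_tanh_lt_one _

end Pool.Agent.MP27775c.AHL
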