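import Mathlib
import Pool.Agent.Lib.MP_27775c_an_AHL.Ds

/-!
Comparison of the hyperbolic and of the euclidean distance.
-/

set_option autoImplicit false
set_option linter.unusedSectionVars false

open MeasureTheory Metric Filter Topology Set

namespace Pool.Agent.MP27775c.AHL

variable {z w : ℂ} {r : ℝ}

private theorem de_sinh_le {s : ℝ} (hs : 0 ≤ s) : Real.sinh s ≤ s * Real.cosh s := by
  have hder : ∀ x : ℝ, HasDerivAt (fun y : ℝ => y * Real.cosh y - Real.sinh y)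
      (x * Real.sinh x) x := by
    intro x
    refine (((hasDerivAt_id' x).mul (Real.hasDerivAt_cosh x)).sub
      (Real.hasDerivAt_sinh x)).congr_deriv ?_
    ring
  have hmono : MonotoneOn (fun y : ℝ => y * Real.cosh y - Real.sinh y) (Ici 0) := by
    refine monotoneOn_of_deriv_nonneg (convex_Ici 0)
      (fun x _ => (hder x).continuousAt.continuousWithinAt)
      (fun x _ => (hder x).differentiableAt.differentiableWithinAt) ?_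
    intro x hx
    rw [interior_Ici, mem_Ioi] at hx
    rw [(hder x).deriv]
    exact mul_nonneg hx.le (Real.sinh_nonneg_iff.2 hx.le)
  have h := hmono (self_mem_Ici (a := (0 : ℝ))) hs hs
  simp only [zero_mul, Real.sinh_zero, sub_zero] at h
  linarith

private theorem de_tanh_mono {a b : ℝ} (h : a ≤ b) : Real.tanh a ≤ Real.tanh b := by
  rw [Real.tanh_eq_sinh_div_cosh, Real.tanh_eq_sinh_div_cosh,
    div_le_div_iff₀ (Real.cosh_pos a) (Real.cosh_pos b)]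
  have h1 : 0 ≤ Real.sinh (b - a) := Real.sinh_nonneg_iff.2 (sub_nonneg.2 h)
  rw [Real.sinh_sub] at h1
  linarith

private theorem de_q_pos (hz : ‖z‖ < 1) (hw : ‖w‖ < 1) :
    0 < (1 - ‖z‖ ^ 2) * (1 - ‖w‖ ^ 2) := by
  have h1 := norm_nonneg z
  have h2 := norm_nonneg w
  apply mul_pos <;> nlinarith

theorem norm_sub_le_dh (hz : ‖z‖ < 1) (hw : ‖w‖ < 1) : ‖z - w‖ ≤ dh z w := by
  have hq := de_q_pos hz hw
  have hz0 := norm_nonneg z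
  have hw0 := norm_nonneg w
  have hd0 := norm_nonneg (z - w)
  obtain ⟨q, hqd⟩ : ∃ q, q = (1 - ‖z‖ ^ 2) * (1 - ‖w‖ ^ 2) := ⟨_, rfl⟩
  rw [← hqd] at hq
  obtain ⟨x, hx⟩ : ∃ x, x = ‖z - w‖ / √q := ⟨_, rfl⟩
  have hsq : 0 < √q := Real.sqrt_pos.2 hq
  have hx0 : 0 ≤ x := by rw [hx]; positivity
  have hdh : dh z w = 2 * Real.arsinh x := by rw [dh, hx, hqd]
  have hs : 0 ≤ Real.arsinh x := Real.arsinh_nonneg_iff.2 hx0
  have h1 := de_sinh_le hs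
  rw [Real.sinh_arsinh, Real.cosh_arsinh] at h1
  have h2 : √q * √(1 + x ^ 2) ≤ 2 := by
    rw [← Real.sqrt_mul hq.le]
    have h3 : q * (1 + x ^ 2) = q + ‖z - w‖ ^ 2 := by
      rw [hx, div_pow, Real.sq_sqrt hq.le]
      field_simp
    rw [h3]
    have h4 : ‖z - w‖ ^ 2 ≤ 2 * ‖z‖ ^ 2 + 2 * ‖w‖ ^ 2 := by
      have h5 := norm_sub_le z w
      nlinarith [sq_nonneg (‖z‖ - ‖w‖)]
    have h6 : q + ‖z - w‖ ^ 2 ≤ 2 ^ 2 := by
      rw [hqd]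
      have a1 : ‖z‖ ^ 2 ≤ 1 := by nlinarith
      have a2 : ‖w‖ ^ 2 ≤ 1 := by nlinarith
      nlinarith [mul_nonneg (sub_nonneg.2 a1) (sub_nonneg.2 a2), sq_nonneg ‖z‖, sq_nonneg ‖w‖]
    calc √(q + ‖z - w‖ ^ 2) ≤ √(2 ^ 2) := Real.sqrt_le_sqrt h6
      _ = 2 := Real.sqrt_sq (by norm_num)
  have h3 : ‖z - w‖ = √q * x := by
    rw [hx]
    field_simp
  rw [hdh, h3]
  calc √q * x ≤ √q * (Real.arsinh x * √(1 + x ^ 2)) := mul_le_mul_of_nonneg_left h1 hsq.le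
    _ = Real.arsinh x * (√q * √(1 + x ^ 2)) := by ring
    _ ≤ Real.arsinh x * 2 := mul_le_mul_of_nonneg_left h2 hs
    _ = 2 * Real.arsinh x := by ring

theorem dh_le (hr : r < 1) (hz : ‖z‖ ≤ r) (hw : ‖w‖ ≤ r) :
    dh z w ≤ 2 * ‖z - w‖ / (1 - r ^ 2) := by
  have hz0 := norm_nonneg z
  have hw0 := norm_nonneg w
  have hr0 : 0 ≤ r := hz0.trans hz
  have h1 : 0 < 1 - r ^ 2 := by nlinarith
  have hx0 : 0 ≤ ‖z - w‖ / √((1 - ‖z‖ ^ 2) * (1 - ‖w‖ ^ 2)) := by positivity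
  have h2 : Real.arsinh (‖z - w‖ / √((1 - ‖z‖ ^ 2) * (1 - ‖w‖ ^ 2))) ≤
      ‖z - w‖ / √((1 - ‖z‖ ^ 2) * (1 - ‖w‖ ^ 2)) := by
    have h3 := Real.arsinh_le_arsinh.2 (Real.self_le_sinh_iff.2 hx0)
    rwa [Real.arsinh_sinh] at h3
  have h4 : 1 - r ^ 2 ≤ √((1 - ‖z‖ ^ 2) * (1 - ‖w‖ ^ 2)) := by
    apply Real.le_sqrt_of_sq_le
    have a1 : 1 - r ^ 2 ≤ 1 - ‖z‖ ^ 2 := by nlinarith
    have a2 : 1 - r ^ 2 ≤ 1 - ‖w‖ ^ 2 := by nlinarith
    calc (1 - r ^ 2) ^ 2 = (1 - r ^ 2) * (1 - r ^ 2) := by ring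
      _ ≤ (1 - ‖z‖ ^ 2) * (1 - ‖w‖ ^ 2) := mul_le_mul a1 a2 h1.le (h1.le.trans a1)
  have h5 : ‖z - w‖ / √((1 - ‖z‖ ^ 2) * (1 - ‖w‖ ^ 2)) ≤ ‖z - w‖ / (1 - r ^ 2) :=
    div_le_div_of_nonneg_left (norm_nonneg _) h1 h4
  rw [dh, mul_div_assoc]
  linarith

theorem exists_radius (hr : r < 1) (ρ : ℝ) :
    ∃ r' : ℝ, r' < 1 ∧ ∀ z w : ℂ, ‖z‖ ≤ r → ‖w‖ < 1 → dh z w ≤ ρ → ‖w‖ ≤ r' := by
  refine ⟨Real.tanh ((2 * r / (1 - r ^ 2) + ρ) / 2), Real.tanh_lt_one _, ?_⟩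
  intro z w hz hw hd
  have hz0 := norm_nonneg z
  have hr0 : 0 ≤ r := hz0.trans hz
  have h1 : 0 < 1 - r ^ 2 := by nlinarith
  have h2 : dh 0 z ≤ 2 * ‖(0 : ℂ) - z‖ / (1 - r ^ 2) := dh_le hr (by simpa using hr0) hz
  have h3 : dh 0 z ≤ 2 * r / (1 - r ^ 2) := by
    refine h2.trans ?_
    rw [zero_sub, norm_neg]
    gcongr
  have h4 : dh 0 w ≤ dh 0 z + dh z w :=
    dh_triangle (by simp) (hz.trans_lt hr) hw
  rw [← tanh_half_dh hw]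
  exact de_tanh_mono (by linarith)

theorem continuousOn_dh :
    ContinuousOn (fun p : ℂ × ℂ => dh p.1 p.2) {p | ‖p.1‖ < 1 ∧ ‖p.2‖ < 1} := by
  unfold dh
  refine continuousOn_const.mul (Real.continuous_arsinh.comp_continuousOn ?_)
  refine ContinuousOn.div (by fun_prop) (by fun_prop) ?_
  intro p hp
  exact (Real.sqrt_pos.2 (de_q_pos hp.1 hp.2)).ne'

theorem measurable_dh : Measurable (fun p : ℂ × ℂ => dh p.1 p.2) := by
  unfold dh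
  refine measurable_const.mul (Real.continuous_arsinh.measurable.comp ?_)
  fun_prop

end Pool.Agent.MP27775c.AHL
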