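import Mathlib
import Pool.Agent.Lib.MP_27775c_an_AHL.De

/-!
Elementary properties of Fuchsian groups acting on the disc.
-/

set_option autoImplicit false
set_option linter.unusedSectionVars false

open MeasureTheory Metric Filter Topology Set

namespace Pool.Agent.MP27775c.AHL

variable {Γ : Type*} [Group Γ] {a : Γ → ℂ → ℂ}

theorem Fuchs.inv_apply (hF : Fuchs a) (γ : Γ) {z : ℂ} (hz : ‖z‖ < 1) : a γ⁻¹ (a γ z) = z := by
  rw [← hF.mul γ⁻¹ γ z hz, inv_mul_cancel, hF.one z hz]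

theorem Fuchs.apply_inv (hF : Fuchs a) (γ : Γ) {z : ℂ} (hz : ‖z‖ < 1) : a γ (a γ⁻¹ z) = z := by
  rw [← hF.mul γ γ⁻¹ z hz, mul_inv_cancel, hF.one z hz]

theorem Fuchs.dh_eq (hF : Fuchs a) (γ : Γ) {z w : ℂ} (hz : ‖z‖ < 1) (hw : ‖w‖ < 1) :
    dh (a γ z) (a γ w) = dh z w := by
  obtain ⟨c, hc, h⟩ := hF.iso γ z hz
  have hζ : ‖mob (-z) w‖ < 1 := norm_mob_lt (by rwa [norm_neg]) hw
  have hw' : mob z (mob (-z) w) = w := mob_mob_neg hz hw
  have h1 := h (mob (-z) w) hζ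
  rw [hw'] at h1
  have hcζ : ‖c * mob (-z) w‖ < 1 := by rwa [norm_mul, hc, one_mul]
  rw [h1, dh_self_mob (hF.lt γ z hz) hcζ]
  conv_rhs => rw [← hw', dh_self_mob hz hζ]
  have h2 := dh_rot hc 0 (mob (-z) w)
  rwa [mul_zero] at h2

theorem Fuchs.continuousOn (hF : Fuchs a) (γ : Γ) : ContinuousOn (a γ) (ball 0 1) := by
  have h0 : ‖(0 : ℂ)‖ < 1 := by simp
  obtain ⟨c, hc, h⟩ := hF.iso γ 0 h0
  have h1 : ContinuousOn (fun u : ℂ => mob (a γ 0) (c * u)) (ball 0 1) := by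
    have h2 : ContinuousOn (fun u : ℂ => (a γ 0, c * u)) (ball 0 1) := by fun_prop
    refine continuousOn_mob.comp h2 ?_
    intro u hu
    rw [mem_ball_zero_iff] at hu
    refine ⟨hF.lt γ 0 h0, ?_⟩
    change ‖c * u‖ < 1
    rwa [norm_mul, hc, one_mul]
  refine h1.congr ?_
  intro u hu
  rw [mem_ball_zero_iff] at hu
  have h3 := h u hu
  rwa [zero_mob] at h3

theorem Fuchs.bijOn (hF : Fuchs a) (γ : Γ) : BijOn (a γ) (ball 0 1) (ball 0 1) := by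
  refine ⟨?_, ?_, ?_⟩
  · intro z hz
    rw [mem_ball_zero_iff] at hz ⊢
    exact hF.lt γ z hz
  · intro z hz w hw h
    rw [mem_ball_zero_iff] at hz hw
    rw [← hF.inv_apply γ hz, h, hF.inv_apply γ hw]
  · intro z hz
    rw [mem_ball_zero_iff] at hz
    exact ⟨a γ⁻¹ z, mem_ball_zero_iff.2 (hF.lt _ z hz), hF.apply_inv γ hz⟩

theorem Fuchs.finite (hF : Fuchs a) {r : ℝ} (hr : r < 1) :
    ∃ s : Finset Γ, ∀ γ z, ‖z‖ ≤ r → ‖a γ z‖ ≤ r → γ ∈ s := by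
  rcases lt_or_ge r 0 with h0 | h0
  · refine ⟨∅, fun γ z hz _ => ?_⟩
    have := norm_nonneg z
    linarith
  · obtain ⟨r', hr', h⟩ := exists_radius (r := 0) zero_lt_one (2 * (2 * r / (1 - r ^ 2)))
    refine ⟨(hF.proper r' hr').toFinset, fun γ z hz haz => ?_⟩
    rw [Set.Finite.mem_toFinset]
    have hr2 : 0 < 1 - r ^ 2 := by nlinarith
    have hb : ∀ w : ℂ, ‖w‖ ≤ r → dh 0 w ≤ 2 * r / (1 - r ^ 2) := by
      intro w hw
      refine (dh_le hr (by rwa [norm_zero]) hw).trans ?_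
      rw [zero_sub, norm_neg]
      gcongr
    have hz1 : ‖z‖ < 1 := hz.trans_lt hr
    have h01 : ‖(0 : ℂ)‖ < 1 := by simp
    refine h 0 (a γ 0) (by simp) (hF.lt γ 0 h01) ?_
    have h1 := dh_triangle h01 (hF.lt γ z hz1) (hF.lt γ 0 h01)
    rw [hF.dh_eq γ hz1 h01, dh_comm z 0] at h1
    have h2 := hb z hz
    have h3 := hb (a γ z) haz
    linarith

/-- The cocompactness with a positive radius. -/
theorem Fuchs.cpt (hF : Fuchs a) :
    ∃ r : ℝ, 0 < r ∧ r < 1 ∧ ∀ z, ‖z‖ < 1 → ∃ γ, ‖a γ z‖ ≤ r := by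
  obtain ⟨r, hr, h⟩ := hF.cocompact
  refine ⟨max r (1 / 2), lt_max_of_lt_right (by norm_num), max_lt hr (by norm_num),
    fun z hz => ?_⟩
  obtain ⟨γ, hγ⟩ := h z hz
  exact ⟨γ, hγ.trans (le_max_left _ _)⟩

end Pool.Agent.MP27775c.AHL
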