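import Mathlib
import Pool.Agent.Lib.MP_27775c_an_AHL.De

/-!
Basic properties of the averages over hyperbolic circles.
-/

set_option autoImplicit false
set_option linter.unusedSectionVars false

open MeasureTheory Metric Filter Topology Set

namespace Pool.Agent.MP27775c.AHL

variable {u v : ℂ → ℝ} {z : ℂ} {R B : ℝ}

theorem mob_circle_lt (hz : ‖z‖ < 1) (R θ : ℝ) :
    ‖mob z (circleMap 0 (Real.tanh (R / 2)) θ)‖ < 1 :=
  norm_mob_lt hz (norm_circleMap_tanh_lt R θ)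

theorem Av_eq (R : ℝ) (u : ℂ → ℝ) (z : ℂ) : Av R u z =
    (2 * Real.pi)⁻¹ * ∫ θ in (0 : ℝ)..(2 * Real.pi), u (mob z (circleMap 0 (Real.tanh (R / 2)) θ)) :=
  rfl

theorem continuous_circle (hu : ContinuousOn u (ball 0 1)) (hz : ‖z‖ < 1) (R : ℝ) :
    Continuous (fun θ : ℝ => u (mob z (circleMap 0 (Real.tanh (R / 2)) θ))) := by
  refine hu.comp_continuous ?_ fun θ => ?_
  · exact continuousOn_mob.comp_continuous
      (continuous_const.prodMk (continuous_circleMap 0 (Real.tanh (R / 2))))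
      fun θ => ⟨hz, norm_circleMap_tanh_lt R θ⟩
  · rw [mem_ball_zero_iff]
    exact mob_circle_lt hz R θ

private theorem av_int (hu : ContinuousOn u (ball 0 1)) (hz : ‖z‖ < 1) (R : ℝ) :
    IntervalIntegrable (fun θ : ℝ => u (mob z (circleMap 0 (Real.tanh (R / 2)) θ)))
      volume 0 (2 * Real.pi) :=
  (continuous_circle hu hz R).intervalIntegrable _ _

theorem Av_congr (h : ∀ w, ‖w‖ < 1 → u w = v w) (hz : ‖z‖ < 1) (R : ℝ) : Av R u z = Av R v z := by
  rw [Av_eq, Av_eq]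
  congr 1
  exact intervalIntegral.integral_congr fun θ _ => h _ (mob_circle_lt hz R θ)

theorem Av_const (c : ℝ) (R : ℝ) (z : ℂ) : Av R (fun _ => c) z = c := by
  rw [Av_eq, intervalIntegral.integral_const, sub_zero, smul_eq_mul]
  have := Real.pi_pos
  field_simp

theorem Av_add (hu : ContinuousOn u (ball 0 1)) (hv : ContinuousOn v (ball 0 1)) (hz : ‖z‖ < 1)
    (R : ℝ) : Av R (fun w => u w + v w) z = Av R u z + Av R v z := by
  rw [Av_eq, Av_eq, Av_eq, intervalIntegral.integral_add (av_int hu hz R) (av_int hv hz R),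
    mul_add]

theorem Av_sub (hu : ContinuousOn u (ball 0 1)) (hv : ContinuousOn v (ball 0 1)) (hz : ‖z‖ < 1)
    (R : ℝ) : Av R (fun w => u w - v w) z = Av R u z - Av R v z := by
  rw [Av_eq, Av_eq, Av_eq, intervalIntegral.integral_sub (av_int hu hz R) (av_int hv hz R),
    mul_sub]

theorem Av_const_mul (c : ℝ) (u : ℂ → ℝ) (R : ℝ) (z : ℂ) :
    Av R (fun w => c * u w) z = c * Av R u z := by
  rw [Av_eq, Av_eq, intervalIntegral.integral_const_mul]
  ring

theorem Av_sum {κ : Type*} (s : Finset κ) (F : κ → ℂ → ℝ)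
    (hF : ∀ i ∈ s, ContinuousOn (F i) (ball 0 1)) (hz : ‖z‖ < 1) (R : ℝ) :
    Av R (fun w => ∑ i ∈ s, F i w) z = ∑ i ∈ s, Av R (F i) z := by
  rw [Av_eq, intervalIntegral.integral_finsetSum fun i hi => av_int (hF i hi) hz R,
    Finset.mul_sum]
  rfl

theorem Av_mono (hu : ContinuousOn u (ball 0 1)) (hv : ContinuousOn v (ball 0 1)) (hz : ‖z‖ < 1)
    (h : ∀ w, ‖w‖ < 1 → u w ≤ v w) (R : ℝ) : Av R u z ≤ Av R v z := by
  rw [Av_eq, Av_eq]
  have hp := Real.pi_pos
  refine mul_le_mul_of_nonneg_left ?_ (by positivity)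
  exact intervalIntegral.integral_mono (by positivity) (av_int hu hz R) (av_int hv hz R)
    fun θ => h _ (mob_circle_lt hz R θ)

theorem abs_Av_le (hu : ContinuousOn u (ball 0 1)) (hz : ‖z‖ < 1)
    (h : ∀ w, ‖w‖ < 1 → |u w| ≤ B) (R : ℝ) : |Av R u z| ≤ B := by
  have h1 := Av_mono (u := fun _ => -B) (v := u) continuousOn_const hu hz
    (fun w hw => (abs_le.1 (h w hw)).1) R
  have h2 := Av_mono (u := u) (v := fun _ => B) hu continuousOn_const hz
    (fun w hw => (abs_le.1 (h w hw)).2) R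
  rw [Av_const] at h1 h2
  exact abs_le.2 ⟨h1, h2⟩

theorem Av_zero (u : ℂ → ℝ) (z : ℂ) : Av 0 u z = u z := by
  have h1 : ∀ θ : ℝ, u (mob z (circleMap 0 (Real.tanh ((0 : ℝ) / 2)) θ)) = u z := by
    intro θ
    rw [zero_div, Real.tanh_zero]
    have h2 : circleMap 0 0 θ = 0 := by simp [circleMap]
    rw [h2, mob_zero]
  rw [Av_eq]
  simp only [h1]
  exact Av_const (u z) 0 z

theorem Av_neg (R : ℝ) (u : ℂ → ℝ) (z : ℂ) : Av (-R) u z = Av R u z := by
  unfold Av
  rw [neg_div, Real.tanh_neg, Real.circleAverage_neg_radius]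

theorem sq_Av_le (hu : ContinuousOn u (ball 0 1)) (hz : ‖z‖ < 1) (R : ℝ) :
    (Av R u z) ^ 2 ≤ Av R (fun w => u w ^ 2) z := by
  obtain ⟨m, hm⟩ : ∃ m, m = Av R u z := ⟨_, rfl⟩
  have hu2 : ContinuousOn (fun w => u w ^ 2) (ball 0 1) := hu.pow 2
  have hmu : ContinuousOn (fun w => (2 * m) * u w) (ball 0 1) := continuousOn_const.mul hu
  have h1 := Av_mono (u := fun _ => 0) (v := fun w => (u w ^ 2 - (2 * m) * u w) + m ^ 2)
    continuousOn_const ((hu2.sub hmu).add continuousOn_const) hz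
    (fun w _ => by nlinarith [sq_nonneg (u w - m)]) R
  rw [Av_add (u := fun w => u w ^ 2 - (2 * m) * u w) (v := fun _ => m ^ 2)
    (hu2.sub hmu) continuousOn_const hz R,
    Av_sub hu2 hmu hz R, Av_const_mul, Av_const, Av_const, ← hm] at h1
  rw [← hm]
  linarith

theorem eq_zero_of_Av (hu : ContinuousOn u (ball 0 1)) (hz : ‖z‖ < 1)
    (h0 : ∀ w, ‖w‖ < 1 → 0 ≤ u w) (h : Av R u z = 0) (θ : ℝ) :
    u (mob z (circleMap 0 (Real.tanh (R / 2)) θ)) = 0 := by
  by_contra hne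
  have hp := Real.two_pi_pos
  obtain ⟨y, hy, hxy⟩ := (periodic_circleMap 0 (Real.tanh (R / 2))).exists_mem_Ico₀ hp θ
  rw [hxy] at hne
  have hpos : 0 < u (mob z (circleMap 0 (Real.tanh (R / 2)) y)) :=
    lt_of_le_of_ne (h0 _ (mob_circle_lt hz R y)) (Ne.symm hne)
  have h1 : 0 < ∫ θ in (0 : ℝ)..(2 * Real.pi),
      u (mob z (circleMap 0 (Real.tanh (R / 2)) θ)) :=
    intervalIntegral.integral_pos hp (continuous_circle hu hz R).continuousOn
      (fun x _ => h0 _ (mob_circle_lt hz R x)) ⟨y, ⟨hy.1, hy.2.le⟩, hpos⟩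
  rw [Av_eq] at h
  have h2 : 0 < (2 * Real.pi)⁻¹ := inv_pos.2 hp
  exact (mul_pos h2 h1).ne' h

theorem continuousOn_Av (hu : ContinuousOn u (ball 0 1)) :
    ContinuousOn (fun p : ℝ × ℂ => Av p.1 u p.2) {p | ‖p.2‖ < 1} := by
  rw [continuousOn_iff_continuous_domRestrict]
  have hth : Continuous Real.tanh := by
    have h1 : Real.tanh = fun x => Real.sinh x / Real.cosh x := by
      funext x
      exact Real.tanh_eq_sinh_div_cosh x
    rw [h1]
    exact Real.continuous_sinh.div Real.continuous_cosh fun x => (Real.cosh_pos x).ne'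
  have hc : Continuous (fun q : {p : ℝ × ℂ | ‖p.2‖ < 1} × ℝ =>
      u (mob q.1.1.2 (circleMap 0 (Real.tanh (q.1.1.1 / 2)) q.2))) := by
    refine hu.comp_continuous ?_ fun q => ?_
    · refine continuousOn_mob.comp_continuous (f := fun q : {p : ℝ × ℂ | ‖p.2‖ < 1} × ℝ =>
        (q.1.1.2, circleMap 0 (Real.tanh (q.1.1.1 / 2)) q.2)) ?_
        fun q => ⟨q.1.2, norm_circleMap_tanh_lt q.1.1.1 q.2⟩
      have h2 : Continuous (fun q : {p : ℝ × ℂ | ‖p.2‖ < 1} × ℝ =>
          Real.tanh (q.1.1.1 / 2)) := hth.comp (by fun_prop)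
      unfold circleMap
      fun_prop
    · rw [mem_ball_zero_iff]
      exact mob_circle_lt q.1.2 _ _
  have h3 := intervalIntegral.continuous_parametric_intervalIntegral_of_continuous'
    (μ := volume) (f := fun (p : {p : ℝ × ℂ | ‖p.2‖ < 1}) (θ : ℝ) =>
      u (mob p.1.2 (circleMap 0 (Real.tanh (p.1.1 / 2)) θ))) hc 0 (2 * Real.pi)
  exact continuous_const.mul h3

/-- Points of `D` on the circle of radius `dh z w` around `z`. -/
theorem exists_circle {w : ℂ} (hz : ‖z‖ < 1) (hw : ‖w‖ < 1) :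
    ∃ θ : ℝ, mob z (circleMap 0 (Real.tanh (dh z w / 2)) θ) = w := by
  have hz' : ‖-z‖ < 1 := by rwa [norm_neg]
  have hζ := norm_mob_lt hz' hw
  have e0 : mob (-z) z = 0 := by
    unfold mob
    rw [add_neg_cancel, zero_div]
  refine ⟨(mob (-z) w).arg, ?_⟩
  have h1 : Real.tanh (dh z w / 2) = ‖mob (-z) w‖ := by
    rw [← dh_mob hz' hz hw, e0]
    exact tanh_half_dh hζ
  have h2 : circleMap 0 ‖mob (-z) w‖ (mob (-z) w).arg = mob (-z) w := by
    rw [circleMap_zero]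
    exact Complex.norm_mul_exp_arg_mul_I _
  rw [h1, h2]
  exact mob_mob_neg hz hw

end Pool.Agent.MP27775c.AHL
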