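import Mathlib
import Pool.Agent.Lib.MP_27775c_an_AHL.Av

/-!
Hyperbolic polar coordinates.
-/

set_option autoImplicit false
set_option linter.unusedSectionVars false

open MeasureTheory Metric Filter Topology Set

namespace Pool.Agent.MP27775c.AHL

private theorem po_tanh (x : ℝ) : 1 - Real.tanh x ^ 2 = 1 / Real.cosh x ^ 2 := by
  have h := Real.cosh_pos x
  rw [Real.tanh_eq_sinh_div_cosh]
  field_simp
  linarith [Real.cosh_sq x]

private theorem po_deriv (t : ℝ) :
    HasDerivAt (fun t : ℝ => Real.tanh (t / 2)) ((1 - Real.tanh (t / 2) ^ 2) / 2) t := by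
  have h0 := (Real.cosh_pos (t / 2)).ne'
  have h1 : HasDerivAt (fun x : ℝ => Real.sinh x / Real.cosh x)
      ((Real.cosh (t / 2) * Real.cosh (t / 2) - Real.sinh (t / 2) * Real.sinh (t / 2)) /
        Real.cosh (t / 2) ^ 2) (t / 2) :=
    (Real.hasDerivAt_sinh (t / 2)).div (Real.hasDerivAt_cosh (t / 2)) h0
  have h2 : HasDerivAt (fun t : ℝ => t / 2) (1 / 2) t := (hasDerivAt_id t).div_const 2
  have h3 := HasDerivAt.comp t h1 h2
  have h4 : (fun t : ℝ => Real.tanh (t / 2)) =
      (fun x : ℝ => Real.sinh x / Real.cosh x) ∘ fun t : ℝ => t / 2 := by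
    funext x
    exact Real.tanh_eq_sinh_div_cosh _
  rw [h4]
  have h5 : (1 - Real.tanh (t / 2) ^ 2) / 2 =
      (Real.cosh (t / 2) * Real.cosh (t / 2) - Real.sinh (t / 2) * Real.sinh (t / 2)) /
        Real.cosh (t / 2) ^ 2 * (1 / 2) := by
    rw [po_tanh]
    have h6 : Real.cosh (t / 2) * Real.cosh (t / 2) -
        Real.sinh (t / 2) * Real.sinh (t / 2) = 1 := by
      have := Real.cosh_sq (t / 2)
      nlinarith
    rw [h6]
    ring
  rw [h5]
  exact h3

private theorem po_pos (x : ℝ) : 0 < 1 - Real.tanh x ^ 2 := by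
  rw [po_tanh]
  have := Real.cosh_pos x
  positivity

private theorem po_strictMono : StrictMono (fun t : ℝ => Real.tanh (t / 2)) := by
  apply strictMono_of_deriv_pos
  intro t
  rw [(po_deriv t).deriv]
  have := po_pos (t / 2)
  linarith

private theorem po_image (R : ℝ) :
    (fun t : ℝ => Real.tanh (t / 2)) '' Ioo 0 R = Ioo 0 (Real.tanh (R / 2)) := by
  ext r
  constructor
  · rintro ⟨t, ⟨h0, h1⟩, rfl⟩
    have e0 := po_strictMono h0
    simp only [zero_div, Real.tanh_zero] at e0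
    exact ⟨e0, po_strictMono h1⟩
  · rintro ⟨h0, h1⟩
    have hr1 : r < 1 := h1.trans (Real.tanh_lt_one _)
    refine ⟨2 * Real.artanh r, ⟨?_, ?_⟩, ?_⟩
    · have := Real.artanh_pos ⟨h0, hr1⟩
      linarith
    · by_contra hcon
      have h2 := po_strictMono.monotone (not_lt.1 hcon)
      simp only [mul_div_cancel_left₀ (Real.artanh r) (two_ne_zero' ℝ)] at h2
      rw [Real.tanh_artanh ⟨by linarith, hr1⟩] at h2
      linarith
    · simp only [mul_div_cancel_left₀ (Real.artanh r) (two_ne_zero' ℝ)]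
      exact Real.tanh_artanh ⟨by linarith, hr1⟩

private theorem po_weight (t x : ℝ) : |(1 - Real.tanh (t / 2) ^ 2) / 2| *
    (Real.tanh (t / 2) * (x * (4 / (1 - Real.tanh (t / 2) ^ 2) ^ 2))) = Real.sinh t * x := by
  have h0 := po_pos (t / 2)
  rw [abs_of_pos (by linarith)]
  have h1 : Real.sinh t = 2 * Real.sinh (t / 2) * Real.cosh (t / 2) := by
    rw [← Real.sinh_two_mul]
    congr 1
    ring
  rw [h1, po_tanh, Real.tanh_eq_sinh_div_cosh]
  have h2 := (Real.cosh_pos (t / 2)).ne'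
  field_simp
  ring

private theorem po_circle (F : ℂ → ℝ) (r : ℝ) :
    ∫ θ in Ioo (-Real.pi) Real.pi, F (circleMap 0 r θ) =
      2 * Real.pi * Real.circleAverage F 0 r := by
  rw [← integral_Ioc_eq_integral_Ioo,
    ← intervalIntegral.integral_of_le (by linarith [Real.pi_pos])]
  have hper : Function.Periodic (fun θ => F (circleMap 0 r θ)) (2 * Real.pi) := by
    intro θ
    change F (circleMap 0 r (θ + 2 * Real.pi)) = F (circleMap 0 r θ)
    rw [periodic_circleMap]
  have h1 := hper.intervalIntegral_add_eq (-Real.pi) 0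
  have h2 : -Real.pi + 2 * Real.pi = Real.pi := by ring
  rw [h2, zero_add] at h1
  rw [h1, Real.circleAverage, smul_eq_mul, ← mul_assoc, mul_inv_cancel₀, one_mul]
  have := Real.pi_pos
  positivity

/-- Polar coordinates with a radial weight `k`. -/
theorem polar_weight {F : ℂ → ℝ} (hF : ContinuousOn F (ball 0 1)) {R : ℝ} (hR : 0 ≤ R)
    {k : ℝ → ℝ} (hk : Measurable k)
    (hki : IntegrableOn (fun t => Real.sinh t * k (Real.tanh (t / 2))) (Ioc 0 R)) :
    IntegrableOn (fun ζ => k ‖ζ‖ * F ζ * hw ζ) (ball 0 (Real.tanh (R / 2))) ∧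
    ∫ ζ in ball (0 : ℂ) (Real.tanh (R / 2)), k ‖ζ‖ * F ζ * hw ζ =
      ∫ t in (0 : ℝ)..R, 2 * Real.pi * Real.sinh t * k (Real.tanh (t / 2)) *
        Real.circleAverage F 0 (Real.tanh (t / 2)) := by
  set ρ : ℝ := Real.tanh (R / 2) with hρ
  have hρ1 : ρ < 1 := Real.tanh_lt_one _
  set g : ℝ → ℝ := fun r => r * (k r * (4 / (1 - r ^ 2) ^ 2)) with hg
  have hder : ∀ t ∈ Ioo (0 : ℝ) R, HasDerivWithinAt (fun t : ℝ => Real.tanh (t / 2))
      ((1 - Real.tanh (t / 2) ^ 2) / 2) (Ioo (0 : ℝ) R) t :=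
    fun t _ => (po_deriv t).hasDerivWithinAt
  have hinj : InjOn (fun t : ℝ => Real.tanh (t / 2)) (Ioo (0 : ℝ) R) :=
    po_strictMono.injective.injOn
  have h1 : IntegrableOn g (Ioo 0 ρ) := by
    rw [hρ, ← po_image, integrableOn_image_iff_integrableOn_abs_deriv_smul measurableSet_Ioo
      hder hinj]
    refine (hki.mono_set Ioo_subset_Ioc_self).congr_fun (fun t _ => ?_) measurableSet_Ioo
    change Real.sinh t * k (Real.tanh (t / 2)) = _ • _
    rw [smul_eq_mul]
    exact (po_weight t _).symm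
  -- the bound of `F`
  obtain ⟨M, hM⟩ := (isCompact_closedBall (0 : ℂ) ρ).exists_bound_of_continuousOn
    (hF.mono (closedBall_subset_ball hρ1))
  set Q : ℝ × ℝ → ℝ := fun p => g p.1 * F (circleMap 0 p.1 p.2) with hQ
  set T : Set ℝ := Ioo (-Real.pi) Real.pi with hT
  have hcm : Continuous (fun p : ℝ × ℝ => circleMap 0 p.1 p.2) := by
    unfold circleMap
    fun_prop
  have hnorm : ∀ p : ℝ × ℝ, ‖circleMap 0 p.1 p.2‖ = |p.1| := fun p => norm_circleMap_zero _ _
  have hmS : MeasurableSet (Ioo 0 ρ ×ˢ T) := measurableSet_Ioo.prod measurableSet_Ioo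
  have hFc : ContinuousOn (fun p : ℝ × ℝ => F (circleMap 0 p.1 p.2)) (Ioo 0 ρ ×ˢ T) := by
    refine hF.comp hcm.continuousOn ?_
    rintro p ⟨hp, -⟩
    rw [mem_ball_zero_iff, hnorm, abs_of_pos hp.1]
    exact hp.2.trans hρ1
  have h2 : IntegrableOn Q (Ioo 0 ρ ×ˢ T) (volume.prod volume) := by
    have e1 : Integrable (fun _ : ℝ => (1 : ℝ)) (volume.restrict T) := by
      apply integrableOn_const
      · rw [hT, Real.volume_Ioo]
        exact ENNReal.ofReal_ne_top
      · exact enorm_ne_top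
    have e2 := h1.integrable.mul_prod e1
    simp only [mul_one] at e2
    rw [Measure.prod_restrict] at e2
    refine e2.mul_bdd (c := M) (hFc.aestronglyMeasurable hmS) ?_
    filter_upwards [ae_restrict_mem hmS] with p hp
    apply hM
    rw [mem_closedBall_zero_iff, hnorm, abs_of_pos hp.1.1]
    exact hp.1.2.le
  have h3 : ∫ p in Ioo 0 ρ ×ˢ T, Q p = ∫ t in (0 : ℝ)..R, 2 * Real.pi * Real.sinh t *
      k (Real.tanh (t / 2)) * Real.circleAverage F 0 (Real.tanh (t / 2)) := by
    rw [Measure.volume_eq_prod, setIntegral_prod _ h2]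
    have e1 : ∀ r : ℝ, ∫ θ in T, Q (r, θ) = g r * (2 * Real.pi * Real.circleAverage F 0 r) := by
      intro r
      rw [← po_circle, ← integral_const_mul]
    simp only [e1]
    rw [hρ, ← po_image, integral_image_eq_integral_abs_deriv_smul measurableSet_Ioo hder hinj,
      intervalIntegral.integral_of_le hR, integral_Ioc_eq_integral_Ioo]
    refine setIntegral_congr_fun measurableSet_Ioo fun t _ => ?_
    change |(1 - Real.tanh (t / 2) ^ 2) / 2| • (Real.tanh (t / 2) * (k (Real.tanh (t / 2)) *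
      (4 / (1 - Real.tanh (t / 2) ^ 2) ^ 2)) * (2 * Real.pi *
        Real.circleAverage F 0 (Real.tanh (t / 2)))) = _
    rw [smul_eq_mul, ← mul_assoc, po_weight]
    ring
  -- polar coordinates
  have hsymm : ∀ p : ℝ × ℝ, Complex.polarCoord.symm p = circleMap 0 p.1 p.2 := by
    intro p
    rw [Complex.polarCoord_symm_apply, circleMap, zero_add, Complex.exp_mul_I,
      Complex.ofReal_cos, Complex.ofReal_sin]
  have htar : polarCoord.target = Ioi (0 : ℝ) ×ˢ T := rfl
  have hmtar : MeasurableSet polarCoord.target := polarCoord.open_target.measurableSet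
  have hmem : ∀ p ∈ polarCoord.target,
      (circleMap 0 p.1 p.2 ∈ ball (0 : ℂ) ρ ↔ p ∈ Ioo 0 ρ ×ˢ T) := by
    rintro p ⟨hp1, hp2⟩
    rw [mem_ball_zero_iff, hnorm, abs_of_pos hp1]
    exact ⟨fun h => ⟨⟨hp1, h⟩, hp2⟩, fun h => h.1.2⟩
  have hval : ∀ p ∈ polarCoord.target, p.1 * (k ‖circleMap 0 p.1 p.2‖ *
      F (circleMap 0 p.1 p.2) * hw (circleMap 0 p.1 p.2)) = Q p := by
    rintro p ⟨hp1, hp2⟩
    rw [hw, hnorm, abs_of_pos hp1, hQ, hg]
    ring
  have hsub : Ioo 0 ρ ×ˢ T ⊆ polarCoord.target := by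
    rintro p ⟨hp1, hp2⟩
    exact ⟨hp1.1, hp2⟩
  constructor
  · constructor
    · refine AEStronglyMeasurable.mul (AEStronglyMeasurable.mul ?_ ?_) ?_
      · exact (hk.comp measurable_norm).aestronglyMeasurable
      · exact (hF.mono (ball_subset_ball hρ1.le)).aestronglyMeasurable measurableSet_ball
      · have : Measurable hw := by
          unfold hw
          fun_prop
        exact this.aestronglyMeasurable
    · rw [hasFiniteIntegral_iff_enorm, ← lintegral_indicator measurableSet_ball,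
        ← Complex.lintegral_comp_polarCoord_symm]
      have e1 : ∫⁻ p in polarCoord.target, ENNReal.ofReal p.1 •
          (ball (0 : ℂ) ρ).indicator (fun ζ => ‖k ‖ζ‖ * F ζ * hw ζ‖ₑ)
            (Complex.polarCoord.symm p) =
          ∫⁻ p in polarCoord.target, (Ioo 0 ρ ×ˢ T).indicator (fun p => ‖Q p‖ₑ) p := by
        refine setLIntegral_congr_fun hmtar fun p hp => ?_
        rw [hsymm]
        by_cases h : p ∈ Ioo 0 ρ ×ˢ T
        · rw [indicator_of_mem h, indicator_of_mem ((hmem p hp).2 h), ← hval p hp,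
            enorm_mul p.1, smul_eq_mul, Real.enorm_eq_ofReal (le_of_lt hp.1)]
        · rw [indicator_of_notMem h, indicator_of_notMem (fun h' => h ((hmem p hp).1 h')),
            smul_zero]
      rw [e1]
      refine lt_of_le_of_lt (setLIntegral_le_lintegral _ _) ?_
      rw [lintegral_indicator hmS]
      exact h2.2
  · rw [← h3, ← integral_indicator measurableSet_ball, ← Complex.integral_comp_polarCoord_symm]
    have e1 : ∫ p in polarCoord.target, p.1 •
        (ball (0 : ℂ) ρ).indicator (fun ζ => k ‖ζ‖ * F ζ * hw ζ) (Complex.polarCoord.symm p) =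
        ∫ p in polarCoord.target, (Ioo 0 ρ ×ˢ T).indicator Q p := by
      refine setIntegral_congr_fun hmtar fun p hp => ?_
      rw [hsymm]
      by_cases h : p ∈ Ioo 0 ρ ×ˢ T
      · rw [indicator_of_mem h, indicator_of_mem ((hmem p hp).2 h), smul_eq_mul, hval p hp]
      · rw [indicator_of_notMem h, indicator_of_notMem (fun h' => h ((hmem p hp).1 h')),
          smul_zero]
    rw [e1, setIntegral_indicator hmS, inter_eq_self_of_subset_right hsub]

theorem polar {F : ℂ → ℝ} (hF : ContinuousOn F (ball 0 1)) {R : ℝ} (hR : 0 ≤ R) :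
    ∫ ζ in ball (0 : ℂ) (Real.tanh (R / 2)), F ζ * hw ζ =
      ∫ t in (0 : ℝ)..R, 2 * Real.pi * Real.sinh t *
        Real.circleAverage F 0 (Real.tanh (t / 2)) := by
  have h := (polar_weight hF hR (k := fun _ => 1) measurable_const (by
    simp only [mul_one]
    exact (Real.continuous_sinh.integrableOn_Icc).mono_set Ioc_subset_Icc_self)).2
  simp only [one_mul, mul_one] at h
  exact h

theorem polar_mob {u : ℂ → ℝ} (hu : ContinuousOn u (ball 0 1)) {z : ℂ} (hz : ‖z‖ < 1) {R : ℝ}
    (hR : 0 ≤ R) :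
    ∫ ζ in ball (0 : ℂ) (Real.tanh (R / 2)), u (mob z ζ) * hw ζ =
      ∫ t in (0 : ℝ)..R, 2 * Real.pi * Real.sinh t * Av t u z := by
  have hc : ContinuousOn (fun ζ => u (mob z ζ)) (ball 0 1) := by
    have h1 : ContinuousOn (fun ζ => mob z ζ) (ball (0 : ℂ) 1) := by
      refine (continuousOn_mob.comp (f := fun ζ : ℂ => (z, ζ))
        (by fun_prop) ?_)
      intro ζ hζ
      exact ⟨hz, mem_ball_zero_iff.1 hζ⟩
    refine hu.comp h1 ?_
    intro ζ hζ
    exact mem_ball_zero_iff.2 (norm_mob_lt hz (mem_ball_zero_iff.1 hζ))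
  exact polar hc hR

/-- The area of a disc. -/
theorem area_ball {R : ℝ} (hR : 0 ≤ R) :
    ∫ ζ in ball (0 : ℂ) (Real.tanh (R / 2)), hw ζ = 2 * Real.pi * (Real.cosh R - 1) := by
  have h := polar (F := fun _ => 1) continuousOn_const hR
  simp only [one_mul] at h
  rw [h]
  have h1 : ∀ t : ℝ, Real.circleAverage (fun _ : ℂ => (1 : ℝ)) 0 (Real.tanh (t / 2)) = 1 :=
    fun t => Real.circleAverage_const 1 0 _
  simp only [h1, mul_one]
  have h2 : ∫ t in (0 : ℝ)..R, Real.sinh t = Real.cosh R - Real.cosh 0 :=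
    intervalIntegral.integral_eq_sub_of_hasDerivAt (fun t _ => Real.hasDerivAt_cosh t)
      (Real.continuous_sinh.intervalIntegrable _ _)
  rw [intervalIntegral.integral_const_mul, h2, Real.cosh_zero]

end Pool.Agent.MP27775c.AHL
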