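import Mathlib
import Pool.Agent.Lib.MP_27775c_an_AHL.Po
import Pool.Agent.Lib.MP_27775c_an_AHL.Fu

/-!
Invariance of the hyperbolic area.
-/

set_option autoImplicit false
set_option linter.unusedSectionVars false

open MeasureTheory Metric Filter Topology Set

namespace Pool.Agent.MP27775c.AHL

variable {Γ : Type*} [Group Γ] {a : Γ → ℂ → ℂ}

private theorem ar_det (c : ℂ) : (c • (1 : ℂ →L[ℝ] ℂ)).det = ‖c‖ ^ 2 := by
  have h : ((c • (1 : ℂ →L[ℝ] ℂ) : ℂ →L[ℝ] ℂ) : ℂ →ₗ[ℝ] ℂ) = Algebra.lmul ℝ ℂ c := by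
    ext x
    simp
  rw [ContinuousLinearMap.det, h, ← Algebra.norm_apply, Algebra.norm_complex_apply,
    Complex.normSq_eq_norm_sq]

private theorem ar_change {g g' : ℂ → ℂ} {s : Set ℂ} (hs : MeasurableSet s)
    (hd : ∀ x ∈ s, HasDerivAt g (g' x) x) (hi : InjOn g s) (f : ℂ → ℝ) :
    ∫ x in g '' s, f x = ∫ x in s, ‖g' x‖ ^ 2 * f (g x) := by
  rw [integral_image_eq_integral_abs_det_fderiv_smul volume hs
    (fun x hx => (hd x hx).complexToReal_fderiv.hasFDerivWithinAt) hi]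
  refine setIntegral_congr_fun hs fun x _ => ?_
  simp only [ar_det, smul_eq_mul]
  rw [abs_of_nonneg (sq_nonneg _)]

private theorem ar_integrable {g g' : ℂ → ℂ} {s : Set ℂ} (hs : MeasurableSet s)
    (hd : ∀ x ∈ s, HasDerivAt g (g' x) x) (hi : InjOn g s) (f : ℂ → ℝ) :
    IntegrableOn f (g '' s) ↔ IntegrableOn (fun x => ‖g' x‖ ^ 2 * f (g x)) s := by
  rw [integrableOn_image_iff_integrableOn_abs_det_fderiv_smul volume hs
    (fun x hx => (hd x hx).complexToReal_fderiv.hasFDerivWithinAt) hi]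
  refine integrableOn_congr_fun (fun x _ => ?_) hs
  simp only [ar_det, smul_eq_mul]
  rw [abs_of_nonneg (sq_nonneg _)]

private theorem ar_mob_deriv {z ζ : ℂ} (hz : ‖z‖ < 1) (hζ : ‖ζ‖ < 1) :
    HasDerivAt (mob z) (deriv (mob z) ζ) ζ :=
  (hasDerivAt_mob hz hζ).differentiableAt.hasDerivAt

theorem integral_mob (F : ℂ → ℝ) {z : ℂ} (hz : ‖z‖ < 1) :
    ∫ ζ in ball (0 : ℂ) 1, F (mob z ζ) * hw ζ = ∫ ζ in ball (0 : ℂ) 1, F ζ * hw ζ := by
  have h := ar_change (g := mob z) (g' := deriv (mob z)) (s := ball 0 1) measurableSet_ball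
    (fun x hx => ar_mob_deriv hz (by simpa using hx)) (bijOn_mob hz).injOn
    (fun ζ => F ζ * hw ζ)
  rw [(bijOn_mob hz).image_eq] at h
  rw [h]
  refine setIntegral_congr_fun measurableSet_ball fun x hx => ?_
  have h1 := hw_mob hz (ζ := x) (by simpa using hx)
  rw [← h1]
  ring

/-- an element of the group as a translation composed with a rotation -/
private theorem ar_fuchs (hF : Fuchs a) (γ : Γ) : ∃ g' : ℂ → ℂ,
    (∀ x ∈ ball (0 : ℂ) 1, HasDerivAt (a γ) (g' x) x) ∧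
      ∀ x ∈ ball (0 : ℂ) 1, ‖g' x‖ ^ 2 * hw (a γ x) = hw x := by
  obtain ⟨c, hc, h⟩ := hF.iso γ 0 (by simp)
  have hb : ‖a γ 0‖ < 1 := hF.lt γ 0 (by simp)
  have h1 : ∀ ζ : ℂ, ‖ζ‖ < 1 → a γ ζ = mob (a γ 0) (c * ζ) := by
    intro ζ hζ
    have h2 := h ζ hζ
    rwa [zero_mob] at h2
  have hcn : ∀ x : ℂ, ‖c * x‖ = ‖x‖ := by
    intro x
    rw [norm_mul, hc, one_mul]
  refine ⟨fun x => deriv (mob (a γ 0)) (c * x) * c, fun x hx => ?_, fun x hx => ?_⟩
  · have hx1 : ‖x‖ < 1 := by simpa using hx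
    have hcx : ‖c * x‖ < 1 := by rw [hcn]; exact hx1
    have h3 : HasDerivAt (fun y : ℂ => c * y) c x := by
      simpa using (hasDerivAt_id' x).const_mul c
    have h4 : HasDerivAt (fun y : ℂ => mob (a γ 0) (c * y)) (deriv (mob (a γ 0)) (c * x) * c) x :=
      HasDerivAt.comp x (ar_mob_deriv hb hcx) h3
    refine h4.congr_of_eventuallyEq ?_
    filter_upwards [isOpen_ball.mem_nhds hx] with y hy
    exact h1 y (by simpa using hy)
  · have hx1 : ‖x‖ < 1 := by simpa using hx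
    have hcx : ‖c * x‖ < 1 := by rw [hcn]; exact hx1
    have h5 := hw_mob hb hcx
    simp only
    rw [norm_mul, hc, mul_one, h1 x hx1, mul_comm, h5, hw, hw, hcn]

theorem integral_fuchs (hF : Fuchs a) (γ : Γ) (F : ℂ → ℝ) :
    ∫ ζ in ball (0 : ℂ) 1, F (a γ ζ) * hw ζ = ∫ ζ in ball (0 : ℂ) 1, F ζ * hw ζ := by
  obtain ⟨g', h1, h2⟩ := ar_fuchs hF γ
  have h := ar_change (g := a γ) (g' := g') (s := ball 0 1) measurableSet_ball h1
    (hF.bijOn γ).injOn (fun ζ => F ζ * hw ζ)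
  rw [(hF.bijOn γ).image_eq] at h
  rw [h]
  refine setIntegral_congr_fun measurableSet_ball fun x hx => ?_
  rw [← h2 x hx]
  ring

theorem integrableOn_fuchs (hF : Fuchs a) (γ : Γ) (F : ℂ → ℝ) :
    IntegrableOn (fun ζ => F (a γ ζ) * hw ζ) (ball (0 : ℂ) 1) ↔
      IntegrableOn (fun ζ => F ζ * hw ζ) (ball (0 : ℂ) 1) := by
  obtain ⟨g', h1, h2⟩ := ar_fuchs hF γ
  have h := ar_integrable (g := a γ) (g' := g') (s := ball 0 1) measurableSet_ball h1
    (hF.bijOn γ).injOn (fun ζ => F ζ * hw ζ)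
  rw [(hF.bijOn γ).image_eq] at h
  rw [h]
  refine integrableOn_congr_fun (fun x hx => ?_) measurableSet_ball
  rw [← h2 x hx]
  ring

theorem integral_ball_mob (F : ℂ → ℝ) {z : ℂ} (hz : ‖z‖ < 1) (R : ℝ) :
    ∫ ζ in ball (0 : ℂ) (Real.tanh (R / 2)), F (mob z ζ) * hw ζ =
      ∫ w in {w : ℂ | ‖w‖ < 1 ∧ dh z w < R}, F w * hw w := by
  have hsub : ∀ x ∈ ball (0 : ℂ) (Real.tanh (R / 2)), ‖x‖ < 1 := by
    intro x hx
    rw [mem_ball_zero_iff] at hx
    exact hx.trans (Real.tanh_lt_one _)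
  have himg : mob z '' ball (0 : ℂ) (Real.tanh (R / 2)) = {w : ℂ | ‖w‖ < 1 ∧ dh z w < R} := by
    ext w
    constructor
    · rintro ⟨x, hx, rfl⟩
      have hx1 := hsub x hx
      refine ⟨norm_mob_lt hz hx1, ?_⟩
      rw [dh_self_mob hz hx1, dh_zero_lt_iff hx1]
      simpa using hx
    · rintro ⟨hw1, hw2⟩
      have hz' : ‖-z‖ < 1 := by rwa [norm_neg]
      have hx1 : ‖mob (-z) w‖ < 1 := norm_mob_lt hz' hw1
      refine ⟨mob (-z) w, ?_, mob_mob_neg hz hw1⟩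
      rw [mem_ball_zero_iff, ← dh_zero_lt_iff hx1, ← dh_self_mob hz hx1, mob_mob_neg hz hw1]
      exact hw2
  have h := ar_change (g := mob z) (g' := deriv (mob z)) (s := ball 0 (Real.tanh (R / 2)))
    measurableSet_ball (fun x hx => ar_mob_deriv hz (hsub x hx))
    ((bijOn_mob hz).injOn.mono fun x hx => by simpa using hsub x hx) (fun ζ => F ζ * hw ζ)
  rw [himg] at h
  rw [h]
  refine setIntegral_congr_fun measurableSet_ball fun x hx => ?_
  have h1 := hw_mob hz (hsub x hx)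
  rw [← h1]
  ring

end Pool.Agent.MP27775c.AHL
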