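import Mathlib
import Pool.Agent.Lib.MP_27775c_an_AHL.Av
import Pool.Agent.Lib.MP_27775c_an_AHL.Fu

/-!
Invariance of the averages under isometries, dependence on the radius.
-/

set_option autoImplicit false
set_option linter.unusedSectionVars false

open MeasureTheory Metric Filter Topology Set

namespace Pool.Agent.MP27775c.AHL

variable {Γ : Type*} [Group Γ] {a : Γ → ℂ → ℂ}

private theorem circle_rot (f : ℂ → ℝ) {c : ℂ} (hc : ‖c‖ = 1) (r : ℝ) :
    Real.circleAverage (fun ζ => f (c * ζ)) 0 r = Real.circleAverage f 0 r := by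
  have h1 : c = circleMap 0 1 (Complex.arg c) := by
    have h2 := Complex.norm_mul_exp_arg_mul_I c
    rw [hc] at h2
    rw [circleMap_zero]
    exact h2.symm
  rw [Real.circleAverage_eq_integral_add (f := f) (Complex.arg c)]
  rw [Real.circleAverage_def]
  congr 1
  refine intervalIntegral.integral_congr fun θ _ => ?_
  change f (c * circleMap 0 r θ) = f (circleMap 0 r (θ + Complex.arg c))
  nth_rewrite 1 [h1]
  rw [circleMap_zero_mul, one_mul, add_comm]

private theorem circle_congr {f g : ℂ → ℝ} (R : ℝ) (h : ∀ ζ, ‖ζ‖ < 1 → f ζ = g ζ) :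
    Real.circleAverage f 0 (Real.tanh (R / 2)) = Real.circleAverage g 0 (Real.tanh (R / 2)) := by
  refine Real.circleAverage_congr_sphere fun ζ hζ => h ζ ?_
  rw [mem_sphere_zero_iff_norm] at hζ
  rw [hζ]
  exact Real.abs_tanh_lt_one _

theorem Av_mob {z b : ℂ} (hz : ‖z‖ < 1) (hb : ‖b‖ < 1) (u : ℂ → ℝ) (R : ℝ) :
    Av R (fun w => u (mob b w)) z = Av R u (mob b z) := by
  obtain ⟨c, hc, h⟩ := mob_comp' hb hz
  unfold Av
  rw [circle_congr (g := fun ζ => (fun ξ => u (mob (mob b z) ξ)) (c * ζ)) R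
    fun ζ hζ => by dsimp only; rw [h ζ hζ]]
  exact circle_rot (fun ξ => u (mob (mob b z) ξ)) hc (Real.tanh (R / 2))

theorem Av_fuchs (hF : Fuchs a) (γ : Γ) {z : ℂ} (hz : ‖z‖ < 1) (u : ℂ → ℝ) (R : ℝ) :
    Av R (fun w => u (a γ w)) z = Av R u (a γ z) := by
  obtain ⟨c, hc, h⟩ := hF.iso γ z hz
  unfold Av
  rw [circle_congr (g := fun ζ => (fun ξ => u (mob (a γ z) ξ)) (c * ζ)) R
    fun ζ hζ => by dsimp only; rw [h ζ hζ]]
  exact circle_rot (fun ξ => u (mob (a γ z) ξ)) hc (Real.tanh (R / 2))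

theorem Av_inv (hF : Fuchs a) {u : ℂ → ℝ} (hu : ∀ γ z, ‖z‖ < 1 → u (a γ z) = u z) (γ : Γ) {z : ℂ}
    (hz : ‖z‖ < 1) (R : ℝ) : Av R u (a γ z) = Av R u z := by
  rw [← Av_fuchs hF γ hz]
  exact Av_congr (fun w hw => hu γ w hw) hz R

theorem Av_radius {u : ℂ → ℝ} (hu : ContinuousOn u (ball 0 1)) {z : ℂ} (hz : ‖z‖ < 1)
    {δ ε R R' : ℝ}
    (h : ∀ w w', ‖w‖ < 1 → ‖w'‖ < 1 → dh w w' ≤ δ → |u w - u w'| ≤ ε) (hR : |R - R'| ≤ δ) :
    |Av R u z - Av R' u z| ≤ ε := by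
  have hi : ∀ S : ℝ, IntervalIntegrable
      (fun θ : ℝ => u (mob z (circleMap 0 (Real.tanh (S / 2)) θ))) volume 0 (2 * Real.pi) :=
    fun S => (continuous_circle hu hz S).intervalIntegrable _ _
  have hpi : 0 < 2 * Real.pi := by positivity
  have hb : ‖∫ θ in (0 : ℝ)..(2 * Real.pi), (u (mob z (circleMap 0 (Real.tanh (R / 2)) θ)) -
      u (mob z (circleMap 0 (Real.tanh (R' / 2)) θ)))‖ ≤ ε * |2 * Real.pi - 0| := by
    refine intervalIntegral.norm_integral_le_of_norm_le_const fun θ _ => ?_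
    rw [Real.norm_eq_abs]
    refine h _ _ (mob_circle_lt hz R θ) (mob_circle_lt hz R' θ) ?_
    rw [dh_mob hz (norm_circleMap_tanh_lt R θ) (norm_circleMap_tanh_lt R' θ), dh_radial]
    exact hR
  rw [Av_eq, Av_eq, ← mul_sub, ← intervalIntegral.integral_sub (hi R) (hi R'), abs_mul,
    abs_of_pos (inv_pos.2 hpi), ← Real.norm_eq_abs]
  rw [sub_zero, abs_of_pos hpi] at hb
  rw [inv_mul_le_iff₀ hpi]
  exact hb.trans (le_of_eq (mul_comm _ _))

end Pool.Agent.MP27775c.AHL
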