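import Mathlib
import Pool.Agent.Lib.MP_27775c_an_AHL.Base

/-!
A function with integrable Lipschitz nonnegative derivative: the derivative tends to zero.
-/

set_option autoImplicit false
set_option linter.unusedSectionVars false

open MeasureTheory Metric Filter Topology Set

namespace Pool.Agent.MP27775c.AHL

theorem barbalat {E P : ℝ → ℝ} {M L : ℝ} (hE : ∀ t, HasDerivAt E (-2 * P t) t)
    (hM : ∀ t, |E t| ≤ M) (hP : ∀ t, 0 ≤ P t) (hL : ∀ s t, |P s - P t| ≤ L * |s - t|) :
    Tendsto P atBot (𝓝 0) := by
  have hanti : Antitone E := antitone_of_hasDerivAt_nonpos hE fun t => by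
    have := hP t
    change -2 * P t ≤ 0
    linarith
  have hbdd : BddAbove (Set.range E) := ⟨M, by
    rintro _ ⟨t, rfl⟩
    exact (le_abs_self _).trans (hM t)⟩
  have hlim := tendsto_atBot_ciSup hanti hbdd
  rw [Metric.tendsto_nhds]
  intro ε hε
  have hL1 : 0 < |L| + 1 := by positivity
  set δ : ℝ := ε / (2 * (|L| + 1)) with hδ
  have hδ0 : 0 < δ := by positivity
  have hδL : (|L| + 1) * δ = ε / 2 := by
    rw [hδ]
    field_simp
  have hshift : Tendsto (fun t : ℝ => t + δ) atBot atBot :=
    tendsto_atBot_add_const_right _ _ tendsto_id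
  have hdiff := hlim.sub (hlim.comp hshift)
  rw [sub_self] at hdiff
  have hev := hdiff.eventually_lt_const (show 0 < δ * ε by positivity)
  filter_upwards [hev] with t ht
  rw [Real.dist_eq, sub_zero, abs_of_nonneg (hP t)]
  by_contra hcon
  rw [not_lt] at hcon
  obtain ⟨c, hc, hceq⟩ := exists_hasDerivAt_eq_slope E (fun t => -2 * P t)
    (show t < t + δ by linarith) (fun x _ => (hE x).continuousAt.continuousWithinAt)
    (fun x _ => hE x)
  have h1 : E t - E (t + δ) = 2 * P c * δ := by
    rw [eq_div_iff (by linarith)] at hceq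
    have h2 : t + δ - t = δ := by ring
    rw [h2] at hceq
    linarith
  have h3 : P t - P c ≤ ε / 2 := by
    have h4 := (le_abs_self _).trans (hL t c)
    have h5 : |t - c| ≤ δ := by
      rw [abs_le]
      constructor <;> linarith [hc.1, hc.2]
    have h6 : L * |t - c| ≤ (|L| + 1) * δ :=
      mul_le_mul (by linarith [le_abs_self L]) h5 (abs_nonneg _) hL1.le
    linarith
  have h7 : E t - E (t + δ) < δ * ε := ht
  have h8 : ε / 2 ≤ P c := by linarith
  have h9 := mul_le_mul_of_nonneg_right h8 hδ0.le
  nlinarith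

end Pool.Agent.MP27775c.AHL
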