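import Mathlib
import Pool.Agent.Lib.MP_27775c_an_AHL.Ar

/-!
The averages over balls are Lipschitz functions of the centre.
-/

set_option autoImplicit false
set_option linter.unusedSectionVars false

open MeasureTheory Metric Filter Topology Set

namespace Pool.Agent.MP27775c.AHL

/-- the open hyperbolic ball -/
private def blS (z : ℂ) (R : ℝ) : Set ℂ := {y | ‖y‖ < 1 ∧ dh z y < R}

private theorem bl_meas (z : ℂ) (R : ℝ) : MeasurableSet (blS z R) := by
  have h1 : MeasurableSet {y : ℂ | ‖y‖ < 1} := measurableSet_lt measurable_norm measurable_const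
  have h2 : MeasurableSet {y : ℂ | dh z y < R} :=
    measurableSet_lt (measurable_dh.comp (measurable_const.prodMk measurable_id)) measurable_const
  exact h1.inter h2

private theorem bl_hw_cont : ContinuousOn hw (ball (0 : ℂ) 1) := by
  unfold hw
  refine ContinuousOn.div continuousOn_const (by fun_prop) fun y hy => ?_
  rw [mem_ball_zero_iff] at hy
  have h1 : ‖y‖ ^ 2 < 1 := by
    have := norm_nonneg y
    nlinarith
  have h2 : (0 : ℝ) < 1 - ‖y‖ ^ 2 := by linarith
  positivity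

private theorem bl_hw_nonneg (y : ℂ) : 0 ≤ hw y := by
  unfold hw
  positivity

private theorem bl_int {u : ℂ → ℝ} {z : ℂ} (hu : ContinuousOn u (ball 0 1)) (hz : ‖z‖ < 1) (R : ℝ) :
    IntegrableOn (fun y => u y * hw y) (blS z R) := by
  obtain ⟨r', hr', h⟩ := exists_radius (r := ‖z‖) hz R
  have hc : ContinuousOn (fun y => u y * hw y) (closedBall 0 r') :=
    (hu.mul bl_hw_cont).mono (closedBall_subset_ball hr')
  refine (hc.integrableOn_compact (isCompact_closedBall 0 r')).mono_set fun y hy => ?_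
  rw [mem_closedBall_zero_iff]
  exact h z y le_rfl hy.1 hy.2.le

private theorem bl_int_hw {z : ℂ} (hz : ‖z‖ < 1) (R : ℝ) : IntegrableOn hw (blS z R) := by
  have h := bl_int (u := fun _ => 1) continuousOn_const hz R
  simpa only [one_mul] using h

private theorem bl_area {z : ℂ} (hz : ‖z‖ < 1) {R : ℝ} (hR : 0 ≤ R) :
    ∫ y in blS z R, hw y = 2 * Real.pi * (Real.cosh R - 1) := by
  have h1 := integral_ball_mob (fun _ => 1) hz R
  simp only [one_mul] at h1
  rw [area_ball hR] at h1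
  exact h1.symm

private theorem bl_cosh {ρ η : ℝ} (h : 0 ≤ ρ) (hρ : ρ ≤ η) :
    Real.cosh η - Real.cosh ρ ≤ Real.sinh η * (η - ρ) := by
  refine Convex.image_sub_le_mul_sub_of_deriv_le (convex_Icc ρ η) Real.continuous_cosh.continuousOn
    Real.differentiable_cosh.differentiableOn ?_ ρ ⟨le_rfl, hρ⟩ η ⟨hρ, le_rfl⟩ hρ
  intro x hx
  rw [interior_Icc] at hx
  rw [Real.deriv_cosh]
  exact Real.sinh_le_sinh.2 hx.2.le

private theorem bl_diff {z w : ℂ} (hz : ‖z‖ < 1) (hw' : ‖w‖ < 1) {η : ℝ} (hη : 0 < η) :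
    ∫ y in blS z η \ blS w η, hw y ≤ 2 * Real.pi * (Real.sinh η * dh z w) := by
  obtain ⟨ρ, hρ⟩ : ∃ ρ : ℝ, ρ = max (η - dh z w) 0 := ⟨_, rfl⟩
  have hd := dh_nonneg z w
  have hρ0 : 0 ≤ ρ := by
    rw [hρ]
    exact le_max_right _ _
  have hρη : ρ ≤ η := by
    rw [hρ]
    exact max_le (by linarith) hη.le
  have hρd : η - ρ ≤ dh z w := by
    have h1 : η - dh z w ≤ ρ := by
      rw [hρ]
      exact le_max_left _ _
    linarith
  have hsub : blS z η \ blS w η ⊆ blS z η \ blS z ρ := by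
    rintro y ⟨hy, hyw⟩
    refine ⟨hy, fun h => hyw ⟨hy.1, ?_⟩⟩
    have ht := dh_triangle hw' hz hy.1
    rw [dh_comm w z] at ht
    have h1 := h.2
    have h2 := dh_nonneg z y
    rcases max_cases (η - dh z w) 0 with ⟨he, _⟩ | ⟨he, _⟩
    · rw [hρ, he] at h1
      linarith
    · rw [hρ, he] at h1
      linarith
  have hρS : blS z ρ ⊆ blS z η := fun y hy => ⟨hy.1, hy.2.trans_le hρη⟩
  have hint := bl_int_hw hz η
  have h1 : ∫ y in blS z η \ blS w η, hw y ≤ ∫ y in blS z η \ blS z ρ, hw y :=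
    setIntegral_mono_set (hint.mono_set sdiff_subset)
      (Eventually.of_forall fun y => bl_hw_nonneg y) (HasSubset.Subset.eventuallyLE hsub)
  have h2 : ∫ y in blS z η \ blS z ρ, hw y = (∫ y in blS z η, hw y) - ∫ y in blS z ρ, hw y :=
    integral_diff (bl_meas z ρ) hint hρS
  rw [h2, bl_area hz hη.le, bl_area hz hρ0] at h1
  refine h1.trans ?_
  have h3 := bl_cosh hρ0 hρη
  have h4 : Real.sinh η * (η - ρ) ≤ Real.sinh η * dh z w :=
    mul_le_mul_of_nonneg_left hρd (Real.sinh_nonneg_iff.2 hη.le)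
  have h5 : 2 * Real.pi * (Real.cosh η - 1) - 2 * Real.pi * (Real.cosh ρ - 1) =
      2 * Real.pi * (Real.cosh η - Real.cosh ρ) := by ring
  rw [h5]
  exact mul_le_mul_of_nonneg_left (h3.trans h4) (by positivity)

private theorem bl_part {u : ℂ → ℝ} {z w : ℂ} {B : ℝ} (hB : ∀ y, ‖y‖ < 1 → |u y| ≤ B)
    (hB0 : 0 ≤ B) (hz : ‖z‖ < 1) (hw' : ‖w‖ < 1) {η : ℝ} (hη : 0 < η) :
    |∫ y in blS z η \ blS w η, u y * hw y| ≤ B * (2 * Real.pi * (Real.sinh η * dh z w)) := by
  have hint : IntegrableOn (fun y => B * hw y) (blS z η \ blS w η) :=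
    ((bl_int_hw hz η).mono_set sdiff_subset).const_mul B
  have h1 : ‖∫ y in blS z η \ blS w η, u y * hw y‖ ≤ ∫ y in blS z η \ blS w η, B * hw y := by
    refine norm_integral_le_of_norm_le hint ?_
    refine (ae_restrict_iff' ((bl_meas z η).diff (bl_meas w η))).2
      (Eventually.of_forall fun y hy => ?_)
    rw [norm_mul, Real.norm_eq_abs, Real.norm_of_nonneg (bl_hw_nonneg y)]
    exact mul_le_mul_of_nonneg_right (hB y hy.1.1) (bl_hw_nonneg y)
  rw [Real.norm_eq_abs, integral_const_mul] at h1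
  exact h1.trans (mul_le_mul_of_nonneg_left (bl_diff hz hw' hη) hB0)

private theorem bl_polar {u : ℂ → ℝ} {z : ℂ} (hu : ContinuousOn u (ball 0 1)) (hz : ‖z‖ < 1)
    {η : ℝ} (hη : 0 < η) :
    2 * Real.pi * (∫ t in (0 : ℝ)..η, Real.sinh t * Av t u z) = ∫ y in blS z η, u y * hw y := by
  have h1 := polar_mob hu hz hη.le
  rw [integral_ball_mob u hz η] at h1
  rw [← intervalIntegral.integral_const_mul]
  refine Eq.trans ?_ h1.symm
  refine intervalIntegral.integral_congr fun t _ => ?_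
  ring

theorem ball_lip {η : ℝ} (hη : 0 < η) : ∃ C : ℝ, 0 ≤ C ∧ ∀ (u : ℂ → ℝ) (B : ℝ) (z w : ℂ),
    ContinuousOn u (ball 0 1) → (∀ y, ‖y‖ < 1 → |u y| ≤ B) → ‖z‖ < 1 → ‖w‖ < 1 →
    |(∫ t in (0 : ℝ)..η, Real.sinh t * Av t u z) - ∫ t in (0 : ℝ)..η, Real.sinh t * Av t u w| ≤
      C * B * dh z w := by
  refine ⟨2 * Real.sinh η, ?_, ?_⟩
  · have := Real.sinh_nonneg_iff.2 hη.le
    linarith
  intro u B z w hu hB hz hw'
  have hB0 : 0 ≤ B := (abs_nonneg _).trans (hB 0 (by simp))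
  have e1 := bl_polar hu hz hη
  have e2 := bl_polar hu hw' hη
  have h1 : (∫ y in blS z η ∩ blS w η, u y * hw y) + ∫ y in blS z η \ blS w η, u y * hw y =
      ∫ y in blS z η, u y * hw y := integral_inter_add_sdiff (bl_meas w η) (bl_int hu hz η)
  have h2 : (∫ y in blS w η ∩ blS z η, u y * hw y) + ∫ y in blS w η \ blS z η, u y * hw y =
      ∫ y in blS w η, u y * hw y := integral_inter_add_sdiff (bl_meas z η) (bl_int hu hw' η)
  rw [inter_comm] at h2
  have h3 := bl_part hB hB0 hz hw' hη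
  have h4 := bl_part hB hB0 hw' hz hη
  rw [dh_comm w z] at h4
  have hpi : (0 : ℝ) < 2 * Real.pi := by positivity
  have h5 : 2 * Real.pi * ((∫ t in (0 : ℝ)..η, Real.sinh t * Av t u z) -
      ∫ t in (0 : ℝ)..η, Real.sinh t * Av t u w) =
      (∫ y in blS z η \ blS w η, u y * hw y) - ∫ y in blS w η \ blS z η, u y * hw y := by
    rw [mul_sub, e1, e2, ← h1, ← h2]
    ring
  have h6 : 2 * Real.pi * |(∫ t in (0 : ℝ)..η, Real.sinh t * Av t u z) -
      ∫ t in (0 : ℝ)..η, Real.sinh t * Av t u w| ≤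
      2 * Real.pi * (2 * Real.sinh η * B * dh z w) := by
    rw [← abs_of_pos hpi, ← abs_mul, abs_of_pos hpi, h5]
    refine (abs_sub _ _).trans ?_
    refine (add_le_add h3 h4).trans (le_of_eq ?_)
    ring
  exact le_of_mul_le_mul_left h6 hpi

end Pool.Agent.MP27775c.AHL
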