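import Mathlib
import Pool.Agent.Lib.MP_27775c_an_AHL.De

/-!
The functions `rr` (hyperbolic law of cosines) and `bs`.
-/

set_option autoImplicit false
set_option linter.unusedSectionVars false

open MeasureTheory Metric Filter Topology Set

namespace Pool.Agent.MP27775c.AHL

variable {S R ψ : ℝ}

private theorem Rr_tanh_sq (x : ℝ) :
    1 - Real.tanh x ^ 2 = 1 / Real.cosh x ^ 2 := by
  have h := (Real.cosh_pos x).ne'
  rw [Real.tanh_eq_sinh_div_cosh]
  field_simp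
  linarith [Real.cosh_sq_sub_sinh_sq x]

private theorem Rr_norm_tanh (S : ℝ) : ‖((Real.tanh (S / 2) : ℝ) : ℂ)‖ < 1 := by
  rw [Complex.norm_real, Real.norm_eq_abs]
  exact Real.abs_tanh_lt_one _

private theorem Rr_normsq (s r ψ : ℝ) :
    ‖1 + starRingEnd ℂ ((s : ℝ) : ℂ) * circleMap 0 r ψ‖ ^ 2 =
      1 + 2 * (s * r) * Real.cos ψ + (s * r) ^ 2 := by
  have h1 : 1 + starRingEnd ℂ ((s : ℝ) : ℂ) * circleMap 0 r ψ =
      ((1 + s * r * Real.cos ψ : ℝ) : ℂ) + ((s * r * Real.sin ψ : ℝ) : ℂ) * Complex.I := by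
    rw [Complex.conj_ofReal, circleMap, Complex.exp_mul_I]
    push_cast
    ring
  rw [h1, ← Complex.normSq_eq_norm_sq, Complex.normSq_add_mul_I]
  have := Real.sin_sq_add_cos_sq ψ
  linear_combination (s * r) ^ 2 * this

theorem cosh_rr (S R ψ : ℝ) :
    Real.cosh (rr S R ψ) = Real.cosh S * Real.cosh R + Real.sinh S * Real.sinh R * Real.cos ψ := by
  have hs := Rr_norm_tanh S
  have hr := norm_circleMap_tanh_lt R ψ
  have hm := norm_mob_lt hs hr
  have h1 := one_sub_norm_sq_mob hs hr.le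
  have h0 : ‖(0 : ℂ)‖ < 1 := by simp
  unfold rr
  rw [cosh_dh h0 hm, zero_sub, norm_neg, norm_zero]
  set w := ‖mob ((Real.tanh (S / 2) : ℝ) : ℂ) (circleMap 0 (Real.tanh (R / 2)) ψ)‖ with hw
  have hw0 : 0 ≤ w := norm_nonneg _
  have hw1 : 0 < 1 - w ^ 2 := by nlinarith
  have e1 : ‖circleMap 0 (Real.tanh (R / 2)) ψ‖ ^ 2 = Real.tanh (R / 2) ^ 2 := by
    rw [norm_circleMap_zero, sq_abs]
  have e2 : ‖((Real.tanh (S / 2) : ℝ) : ℂ)‖ ^ 2 = Real.tanh (S / 2) ^ 2 := by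
    rw [Complex.norm_real, Real.norm_eq_abs, sq_abs]
  rw [e1, e2, Rr_normsq, Rr_tanh_sq, Rr_tanh_sq, Real.tanh_eq_sinh_div_cosh,
    Real.tanh_eq_sinh_div_cosh] at h1
  have c1 := Real.cosh_pos (S / 2)
  have c2 := Real.cosh_pos (R / 2)
  have q1 := Real.cosh_sq_sub_sinh_sq (S / 2)
  have q2 := Real.cosh_sq_sub_sinh_sq (R / 2)
  have d1 : Real.cosh S = Real.cosh (S / 2) ^ 2 + Real.sinh (S / 2) ^ 2 := by
    rw [← Real.cosh_two_mul]
    congr 1
    ring
  have d2 : Real.cosh R = Real.cosh (R / 2) ^ 2 + Real.sinh (R / 2) ^ 2 := by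
    rw [← Real.cosh_two_mul]
    congr 1
    ring
  have d3 : Real.sinh S = 2 * Real.sinh (S / 2) * Real.cosh (S / 2) := by
    rw [← Real.sinh_two_mul]
    congr 1
    ring
  have d4 : Real.sinh R = 2 * Real.sinh (R / 2) * Real.cosh (R / 2) := by
    rw [← Real.sinh_two_mul]
    congr 1
    ring
  rw [d1, d2, d3, d4]
  set a := Real.cosh (S / 2)
  set b := Real.sinh (S / 2)
  set c := Real.cosh (R / 2)
  set d := Real.sinh (R / 2)
  have hpos : 0 < 1 + 2 * (b / a * (d / c)) * Real.cos ψ + (b / a * (d / c)) ^ 2 := by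
    by_contra hcon
    have hle := not_lt.1 hcon
    have : (1 / a ^ 2 * (1 / c ^ 2)) / (1 + 2 * (b / a * (d / c)) * Real.cos ψ +
        (b / a * (d / c)) ^ 2) ≤ 0 := div_nonpos_of_nonneg_of_nonpos (by positivity) hle
    linarith
  have h2 : (1 - w ^ 2) * (a ^ 2 * c ^ 2 + 2 * (a * b * c * d) * Real.cos ψ + b ^ 2 * d ^ 2) =
      1 := by
    have e3 : (1 + 2 * (b / a * (d / c)) * Real.cos ψ + (b / a * (d / c)) ^ 2) * (a ^ 2 * c ^ 2) =
        a ^ 2 * c ^ 2 + 2 * (a * b * c * d) * Real.cos ψ + b ^ 2 * d ^ 2 := by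
      field_simp
    have e4 : ∀ X : ℝ, X ≠ 0 → 1 / a ^ 2 * (1 / c ^ 2) / X * (X * (a ^ 2 * c ^ 2)) = 1 := by
      intro X hX
      field_simp
    rw [← e3, h1]
    exact e4 _ hpos.ne'
  have h3 : 2 * w ^ 2 / ((1 - 0 ^ 2) * (1 - w ^ 2)) =
      2 * (a ^ 2 * c ^ 2 + 2 * (a * b * c * d) * Real.cos ψ + b ^ 2 * d ^ 2) - 2 := by
    rw [div_eq_iff (by nlinarith)]
    linear_combination -2 * h2
  rw [h3]
  linear_combination (c ^ 2 - d ^ 2) * q1 + q2

theorem rr_nonneg (S R ψ : ℝ) : 0 ≤ rr S R ψ := dh_nonneg _ _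

theorem tanh_half_rr (S R ψ : ℝ) : Real.tanh (rr S R ψ / 2) =
    ‖mob ((Real.tanh (S / 2) : ℝ) : ℂ) (circleMap 0 (Real.tanh (R / 2)) ψ)‖ :=
  tanh_half_dh (norm_mob_lt (Rr_norm_tanh S) (norm_circleMap_tanh_lt R ψ))

private theorem Rr_inj {x y : ℝ} (hx : 0 ≤ x) (hy : 0 ≤ y) (h : Real.cosh x = Real.cosh y) :
    x = y := by
  have h1 := Real.cosh_le_cosh.1 h.le
  have h2 := Real.cosh_le_cosh.1 h.ge
  rw [abs_of_nonneg hx, abs_of_nonneg hy] at h1 h2
  exact le_antisymm h1 h2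

theorem rr_comm (S R ψ : ℝ) : rr S R ψ = rr R S ψ := by
  refine Rr_inj (rr_nonneg _ _ _) (rr_nonneg _ _ _) ?_
  rw [cosh_rr, cosh_rr]
  ring

theorem rr_le (hS : 0 ≤ S) (hR : 0 ≤ R) (ψ : ℝ) : rr S R ψ ≤ S + R := by
  have h1 : Real.cosh (rr S R ψ) ≤ Real.cosh (S + R) := by
    rw [cosh_rr, Real.cosh_add]
    have h2 := Real.sinh_nonneg_iff.2 hS
    have h3 := Real.sinh_nonneg_iff.2 hR
    have h4 := Real.cos_le_one ψ
    have h5 := mul_nonneg h2 h3
    nlinarith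
  have h2 := Real.cosh_le_cosh.1 h1
  rwa [abs_of_nonneg (rr_nonneg _ _ _), abs_of_nonneg (add_nonneg hS hR)] at h2

private theorem Rr_ge (hS : 0 ≤ S) (hR : 0 ≤ R) (ψ : ℝ) : R - S ≤ rr S R ψ := by
  have h1 : Real.cosh (R - S) ≤ Real.cosh (rr S R ψ) := by
    rw [cosh_rr, Real.cosh_sub]
    have h2 := Real.sinh_nonneg_iff.2 hS
    have h3 := Real.sinh_nonneg_iff.2 hR
    have h4 := Real.neg_one_le_cos ψ
    have h5 := mul_nonneg h2 h3
    nlinarith
  have h2 := Real.cosh_le_cosh.1 h1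
  rw [abs_of_nonneg (rr_nonneg S R ψ)] at h2
  exact (le_abs_self _).trans h2

theorem abs_rr_sub_le (hS : 0 ≤ S) (hR : 0 ≤ R) (ψ : ℝ) : |rr S R ψ - R| ≤ S := by
  have h1 := rr_le hS hR ψ
  have h2 := Rr_ge hS hR ψ
  rw [abs_le]
  constructor <;> linarith

theorem rr_psi_zero (hS : 0 ≤ S) (hR : 0 ≤ R) : rr S R 0 = S + R := by
  refine Rr_inj (rr_nonneg _ _ _) (add_nonneg hS hR) ?_
  rw [cosh_rr, Real.cosh_add, Real.cos_zero, mul_one]

private theorem Rr_eq_log {x : ℝ} (hx : 0 ≤ x) :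
    x = Real.log (Real.cosh x + √(Real.cosh x ^ 2 - 1)) := by
  have h1 : √(Real.cosh x ^ 2 - 1) = Real.sinh x := by
    have h2 : Real.cosh x ^ 2 - 1 = Real.sinh x ^ 2 := by
      linarith [Real.cosh_sq_sub_sinh_sq x]
    rw [h2, Real.sqrt_sq (Real.sinh_nonneg_iff.2 hx)]
  rw [h1, Real.cosh_add_sinh, Real.log_exp]

theorem continuous_rr : Continuous (fun p : ℝ × ℝ × ℝ => rr p.1 p.2.1 p.2.2) := by
  have h1 : (fun p : ℝ × ℝ × ℝ => rr p.1 p.2.1 p.2.2) = fun p : ℝ × ℝ × ℝ =>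
      Real.log ((Real.cosh p.1 * Real.cosh p.2.1 + Real.sinh p.1 * Real.sinh p.2.1 *
        Real.cos p.2.2) + √((Real.cosh p.1 * Real.cosh p.2.1 + Real.sinh p.1 *
        Real.sinh p.2.1 * Real.cos p.2.2) ^ 2 - 1)) := by
    funext p
    rw [← cosh_rr]
    exact Rr_eq_log (rr_nonneg _ _ _)
  rw [h1]
  refine Continuous.log (by fun_prop) fun p => ?_
  rw [← cosh_rr]
  have := Real.cosh_pos (rr p.1 p.2.1 p.2.2)
  positivity

private theorem Rr_abs_sinh (S : ℝ) : |Real.sinh S| < Real.cosh S := by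
  rw [abs_lt]
  have h1 := Real.exp_pos S
  have h2 := Real.exp_pos (-S)
  rw [Real.sinh_eq, Real.cosh_eq]
  constructor <;> linarith

private theorem Rr_bs_pos (S x : ℝ) (hx : |x| ≤ 1) : 0 < Real.cosh S + Real.sinh S * x := by
  have h1 := Rr_abs_sinh S
  have h2 : |Real.sinh S * x| ≤ |Real.sinh S| := by
    rw [abs_mul]
    exact mul_le_of_le_one_right (abs_nonneg _) hx
  have h3 := neg_abs_le (Real.sinh S * x)
  linarith

theorem continuous_bs : Continuous (fun p : ℝ × ℝ => bs p.1 p.2) := by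
  unfold bs
  exact Continuous.log (by fun_prop) fun p => (Rr_bs_pos _ _ (Real.abs_cos_le_one _)).ne'

private theorem Rr_lower (hS : 0 ≤ S) {x : ℝ} (hx : |x| ≤ 1) :
    Real.exp (-S) ≤ Real.cosh S + Real.sinh S * x := by
  rw [← Real.cosh_sub_sinh]
  have h1 := Real.sinh_nonneg_iff.2 hS
  have h2 := (abs_le.1 hx).1
  nlinarith

private theorem Rr_upper (hS : 0 ≤ S) {x : ℝ} (hx : |x| ≤ 1) :
    Real.cosh S + Real.sinh S * x ≤ Real.exp S := by
  rw [← Real.cosh_add_sinh]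
  have h1 := Real.sinh_nonneg_iff.2 hS
  have h2 := (abs_le.1 hx).2
  nlinarith

theorem abs_bs_le (hS : 0 ≤ S) (ψ : ℝ) : |bs S ψ| ≤ S := by
  unfold bs
  have hc := Real.abs_cos_le_one ψ
  have h0 := Rr_bs_pos S _ hc
  rw [abs_le]
  constructor
  · rw [Real.le_log_iff_exp_le h0]
    exact Rr_lower hS hc
  · rw [Real.log_le_iff_le_exp h0]
    exact Rr_upper hS hc

private theorem Rr_log_cosh (x : ℝ) :
    Real.log (Real.cosh x) = x - Real.log 2 + Real.log (1 + Real.exp (-2 * x)) := by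
  have h1 : Real.cosh x = Real.exp x * (1 + Real.exp (-2 * x)) / 2 := by
    rw [Real.cosh_eq, mul_add, ← Real.exp_add]
    have : x + -2 * x = -x := by ring
    rw [this, mul_one]
  have h2 : 0 < 1 + Real.exp (-2 * x) := by positivity
  rw [h1, Real.log_div (by positivity) two_ne_zero, Real.log_mul (Real.exp_pos x).ne' h2.ne',
    Real.log_exp]
  ring

private theorem Rr_log_one (x : ℝ) :
    0 ≤ Real.log (1 + Real.exp x) ∧ Real.log (1 + Real.exp x) ≤ Real.exp x := by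
  have h := Real.exp_pos x
  refine ⟨Real.log_nonneg (by linarith), ?_⟩
  have := Real.log_le_sub_one_of_pos (show 0 < 1 + Real.exp x by linarith)
  linarith

private theorem Rr_log_diff {a b m : ℝ} (hm : 0 < m) (ha : m ≤ a) (hb : m ≤ b) :
    |Real.log a - Real.log b| ≤ |a - b| / m := by
  have key : ∀ x y : ℝ, m ≤ x → m ≤ y → Real.log x - Real.log y ≤ |x - y| / m := by
    intro x y hx hy
    have hx0 := hm.trans_le hx
    have hy0 := hm.trans_le hy
    rw [← Real.log_div hx0.ne' hy0.ne']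
    have h1 := Real.log_le_sub_one_of_pos (div_pos hx0 hy0)
    have h2 : x / y - 1 = (x - y) / y := by
      field_simp
    rw [h2] at h1
    refine h1.trans ?_
    calc (x - y) / y ≤ |x - y| / y := by
          gcongr
          exact le_abs_self _
      _ ≤ |x - y| / m := by gcongr
  rw [abs_le]
  constructor
  · have := key b a hb ha
    rw [abs_sub_comm] at this
    linarith
  · exact key a b ha hb

private theorem Rr_one_sub_tanh (R : ℝ) :
    0 ≤ 1 - Real.tanh R ∧ 1 - Real.tanh R ≤ 2 * Real.exp (-2 * R) := by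
  have h0 := (Real.tanh_lt_one R).le
  refine ⟨by linarith, ?_⟩
  have hc := Real.cosh_pos R
  rw [Real.tanh_eq_sinh_div_cosh]
  have h1 : 1 - Real.sinh R / Real.cosh R = Real.exp (-R) / Real.cosh R := by
    rw [← Real.cosh_sub_sinh]
    field_simp
  rw [h1, div_le_iff₀ hc]
  have h2 : Real.exp R / 2 ≤ Real.cosh R := by
    rw [Real.cosh_eq]
    have := Real.exp_pos (-R)
    linarith
  calc Real.exp (-R) = 2 * Real.exp (-2 * R) * (Real.exp R / 2) := by
        have : Real.exp (-R) = Real.exp (-2 * R) * Real.exp R := by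
          rw [← Real.exp_add]
          congr 1
          ring
        rw [this]
        ring
    _ ≤ 2 * Real.exp (-2 * R) * Real.cosh R := by gcongr

private theorem Rr_main (hS : 0 ≤ S) (hR : 0 ≤ R) (ψ : ℝ) :
    |rr S R ψ - R - bs S ψ| ≤
      (Real.exp (2 * S) + 1 + 2 * Real.sinh S * Real.exp S) * Real.exp (-2 * R) := by
  set A := Real.cosh S + Real.sinh S * (Real.tanh R * Real.cos ψ) with hA
  have hc := Real.abs_cos_le_one ψ
  have hct : |Real.tanh R * Real.cos ψ| ≤ 1 := by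
    rw [abs_mul]
    exact mul_le_one₀ (Real.abs_tanh_lt_one R).le (abs_nonneg _) hc
  have hA0 : 0 < A := Rr_bs_pos _ _ hct
  have hcR := Real.cosh_pos R
  have h1 : Real.cosh (rr S R ψ) = Real.cosh R * A := by
    rw [cosh_rr, hA, Real.tanh_eq_sinh_div_cosh]
    field_simp
  have h2 := Rr_log_cosh (rr S R ψ)
  rw [h1, Real.log_mul hcR.ne' hA0.ne', Rr_log_cosh R] at h2
  obtain ⟨p1, p2⟩ := Rr_log_one (-2 * R)
  obtain ⟨p3, p4⟩ := Rr_log_one (-2 * rr S R ψ)
  have h3 : Real.exp (-2 * rr S R ψ) ≤ Real.exp (2 * S) * Real.exp (-2 * R) := by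
    rw [← Real.exp_add]
    have := Rr_ge hS hR ψ
    exact Real.exp_le_exp.2 (by linarith)
  have h4 := Rr_log_diff (Real.exp_pos (-S)) (Rr_lower hS hct) (Rr_lower hS hc)
  obtain ⟨t1, t2⟩ := Rr_one_sub_tanh R
  have hsS := Real.sinh_nonneg_iff.2 hS
  have h5 : |Real.cosh S + Real.sinh S * (Real.tanh R * Real.cos ψ) -
      (Real.cosh S + Real.sinh S * Real.cos ψ)| ≤ Real.sinh S * (2 * Real.exp (-2 * R)) := by
    have e1 : Real.cosh S + Real.sinh S * (Real.tanh R * Real.cos ψ) -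
      (Real.cosh S + Real.sinh S * Real.cos ψ) =
        -(Real.sinh S * ((1 - Real.tanh R) * Real.cos ψ)) := by ring
    rw [e1, abs_neg, abs_mul, abs_of_nonneg hsS, abs_mul, abs_of_nonneg t1]
    refine mul_le_mul_of_nonneg_left ?_ hsS
    have e5 : (1 - Real.tanh R) * |Real.cos ψ| ≤ (1 - Real.tanh R) * 1 :=
      mul_le_mul_of_nonneg_left hc t1
    linarith
  have h6 : |Real.log A - bs S ψ| ≤ 2 * Real.sinh S * Real.exp S * Real.exp (-2 * R) := by
    unfold bs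
    refine h4.trans ?_
    rw [div_le_iff₀ (Real.exp_pos _)]
    refine h5.trans (le_of_eq ?_)
    have : Real.exp S * Real.exp (-S) = 1 := by
      rw [← Real.exp_add]
      simp
    linear_combination (-2 * Real.sinh S * Real.exp (-2 * R)) * this
  obtain ⟨a1, a2⟩ := abs_le.1 h6
  have hE := Real.exp_pos (-2 * R)
  rw [abs_le]
  constructor
  · nlinarith
  · nlinarith [mul_nonneg (Real.exp_pos (2 * S)).le hE.le]

/-- `rr S R ψ - R` converges to `bs S ψ`, uniformly in `ψ`. -/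
theorem rr_sub_tendsto (hS : 0 ≤ S) {ε : ℝ} (hε : 0 < ε) :
    ∃ R₀ : ℝ, 0 ≤ R₀ ∧ ∀ R, R₀ ≤ R → ∀ ψ, |rr S R ψ - R - bs S ψ| ≤ ε := by
  set K := Real.exp (2 * S) + 1 + 2 * Real.sinh S * Real.exp S with hK
  have hK0 : 0 < K := by
    have := Real.sinh_nonneg_iff.2 hS
    positivity
  refine ⟨max 0 (Real.log (K / ε) / 2), le_max_left _ _, fun R hR ψ => ?_⟩
  have hR0 : 0 ≤ R := (le_max_left _ _).trans hR
  have hR1 : Real.log (K / ε) / 2 ≤ R := (le_max_right _ _).trans hR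
  refine (Rr_main hS hR0 ψ).trans ?_
  have h1 : K / ε ≤ Real.exp (2 * R) := by
    rw [← Real.log_le_iff_le_exp (by positivity)]
    linarith
  rw [div_le_iff₀ hε] at h1
  have h2 : Real.exp (2 * R) * Real.exp (-2 * R) = 1 := by
    rw [← Real.exp_add]
    simp
  have hE := Real.exp_pos (-2 * R)
  calc K * Real.exp (-2 * R) ≤ Real.exp (2 * R) * ε * Real.exp (-2 * R) := by gcongr
    _ = ε := by linear_combination ε * h2

end Pool.Agent.MP27775c.AHL
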