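import Mathlib
import Pool.Agent.Lib.MP_27775c_an_AHL.Rr

/-!
Second order expansion of the averages of `φ (t + bs S ψ)` over `ψ` when `S` is small.
-/

set_option autoImplicit false
set_option linter.unusedSectionVars false

open MeasureTheory Metric Filter Topology Set

namespace Pool.Agent.MP27775c.AHL

private theorem cosh_exp {S : ℝ} (h0 : 0 ≤ S) (h1 : S ≤ 1) :
    |Real.cosh S - 1 - S ^ 2 / 2| ≤ S ^ 4 ∧ |Real.sinh S - S| ≤ S ^ 3 := by
  have a1 := Real.exp_bound (x := S) (by rw [abs_of_nonneg h0]; exact h1) (n := 4) (by norm_num)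
  have a2 := Real.exp_bound (x := -S) (by rw [abs_neg, abs_of_nonneg h0]; exact h1) (n := 4)
    (by norm_num)
  rw [abs_neg, abs_of_nonneg h0] at a2
  rw [abs_of_nonneg h0] at a1
  simp only [Finset.sum_range_succ, Finset.sum_range_zero] at a1 a2
  norm_num [Nat.factorial] at a1 a2
  rw [abs_le] at a1 a2
  have h4 : 0 ≤ S ^ 4 := by positivity
  have h34 : S ^ 4 ≤ S ^ 3 := by
    have : 0 ≤ S ^ 3 := by positivity
    nlinarith
  have e3 : (-S) ^ 3 = -S ^ 3 := by ring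
  rw [e3] at a2
  rw [Real.cosh_eq, Real.sinh_eq]
  constructor
  · rw [abs_le]
    constructor
    · linarith [a1.1, a2.1]
    · linarith [a1.2, a2.2]
  · rw [abs_le]
    constructor
    · linarith [a1.1, a2.2]
    · linarith [a1.2, a2.1]

private theorem log_exp' {x : ℝ} (hx : |x| ≤ 1 / 2) :
    |Real.log (1 + x) - x + x ^ 2 / 2| ≤ 2 * |x| ^ 3 := by
  have h := Real.abs_log_sub_add_sum_range_le (x := -x) (by rw [abs_neg]; linarith) 2
  rw [abs_neg, sub_neg_eq_add] at h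
  simp only [Finset.sum_range_succ, Finset.sum_range_zero] at h
  norm_num at h
  have e : -x + x ^ 2 / 2 + Real.log (1 + x) = Real.log (1 + x) - x + x ^ 2 / 2 := by ring
  rw [e] at h
  refine h.trans ?_
  rw [div_le_iff₀ (by linarith)]
  have h3 : 0 ≤ |x| ^ 3 := by positivity
  nlinarith

theorem bs_expand : ∃ C : ℝ, 0 ≤ C ∧ ∀ S ψ : ℝ, 0 ≤ S → S ≤ 1 →
    |bs S ψ - (S * Real.cos ψ + S ^ 2 / 2 * Real.sin ψ ^ 2)| ≤ C * S ^ 3 := by
  refine ⟨160, by norm_num, fun S ψ h0 h1 => ?_⟩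
  have hc1 := Real.neg_one_le_cos ψ
  have hc2 := Real.cos_le_one ψ
  have hs := Real.sin_sq_add_cos_sq ψ
  by_cases h4 : S ≤ 1 / 4
  · obtain ⟨b1, b2⟩ := cosh_exp h0 h1
    set c := Real.cos ψ with hc
    have hca : |c| ≤ 1 := abs_le.2 ⟨hc1, hc2⟩
    set x : ℝ := Real.cosh S - 1 + c * Real.sinh S with hx
    have hbs : bs S ψ = Real.log (1 + x) := by
      unfold bs
      congr 1
      rw [hx]
      ring
    have hS2 : S ^ 2 ≤ S / 4 := by nlinarith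
    have hS3 : S ^ 3 ≤ S ^ 2 / 4 := by nlinarith [sq_nonneg S]
    have hS4 : S ^ 4 ≤ S ^ 3 / 4 := by nlinarith [pow_nonneg h0 3]
    have hp2 : 0 ≤ S ^ 2 := by positivity
    have hp3 : 0 ≤ S ^ 3 := by positivity
    have hp4 : 0 ≤ S ^ 4 := by positivity
    have e1 : |x - (S * c + S ^ 2 / 2)| ≤ 2 * S ^ 3 := by
      have : x - (S * c + S ^ 2 / 2) =
          (Real.cosh S - 1 - S ^ 2 / 2) + c * (Real.sinh S - S) := by
        rw [hx]
        ring
      rw [this]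
      calc |(Real.cosh S - 1 - S ^ 2 / 2) + c * (Real.sinh S - S)|
          ≤ |Real.cosh S - 1 - S ^ 2 / 2| + |c * (Real.sinh S - S)| := abs_add_le _ _
        _ ≤ S ^ 4 + 1 * S ^ 3 := by
            rw [abs_mul]
            exact add_le_add b1 (mul_le_mul hca b2 (abs_nonneg _) zero_le_one)
        _ ≤ 2 * S ^ 3 := by linarith
    have e1' := abs_le.1 e1
    have hSc : |S * c| ≤ S := by
      rw [abs_mul, abs_of_nonneg h0]
      nlinarith
    have hSc' := abs_le.1 hSc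
    have hxS : |x| ≤ 2 * S := by
      rw [abs_le]
      constructor
      · linarith [e1'.1, hSc'.1]
      · linarith [e1'.2, hSc'.2]
    have hlog := log_exp' (x := x) (by linarith)
    have hx3 : |x| ^ 3 ≤ 8 * S ^ 3 := by
      calc |x| ^ 3 ≤ (2 * S) ^ 3 := pow_le_pow_left₀ (abs_nonneg _) hxS 3
        _ = 8 * S ^ 3 := by ring
    have e2 : |x ^ 2 - S ^ 2 * c ^ 2| ≤ 3 * S ^ 3 := by
      have : x ^ 2 - S ^ 2 * c ^ 2 = (x - S * c) * (x + S * c) := by ring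
      rw [this, abs_mul]
      have k1 : |x - S * c| ≤ S ^ 2 := by
        rw [abs_le]
        constructor
        · linarith [e1'.1]
        · linarith [e1'.2]
      have k2 : |x + S * c| ≤ 3 * S := (abs_add_le _ _).trans (by linarith)
      calc |x - S * c| * |x + S * c| ≤ S ^ 2 * (3 * S) :=
            mul_le_mul k1 k2 (abs_nonneg _) hp2
        _ = 3 * S ^ 3 := by ring
    rw [hbs]
    have hsin : Real.sin ψ ^ 2 = 1 - c ^ 2 := by linarith
    rw [hsin]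
    have hlog' := abs_le.1 hlog
    have e2' := abs_le.1 e2
    rw [abs_le]
    constructor
    · nlinarith [hlog'.1, e1'.1, e2'.2]
    · nlinarith [hlog'.2, e1'.2, e2'.1]
  · push Not at h4
    have hb := abs_le.1 (abs_bs_le h0 ψ)
    have hs1 : Real.sin ψ ^ 2 ≤ 1 := by nlinarith [sq_nonneg (Real.cos ψ)]
    have hs0 : 0 ≤ Real.sin ψ ^ 2 := sq_nonneg _
    have hS3 : (1 : ℝ) / 64 ≤ S ^ 3 := by
      have : (1 / 4 : ℝ) ^ 3 ≤ S ^ 3 := pow_le_pow_left₀ (by norm_num) h4.le 3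
      norm_num at this
      linarith
    have hS2 : S ^ 2 ≤ 1 := by nlinarith
    have hS20 : 0 ≤ S ^ 2 := sq_nonneg _
    have k1 : |S * Real.cos ψ| ≤ 1 := by
      rw [abs_mul, abs_of_nonneg h0]
      have : |Real.cos ψ| ≤ 1 := abs_le.2 ⟨hc1, hc2⟩
      nlinarith [abs_nonneg (Real.cos ψ)]
    have k1' := abs_le.1 k1
    have k2 : S ^ 2 / 2 * Real.sin ψ ^ 2 ≤ 1 / 2 := by nlinarith
    have k3 : 0 ≤ S ^ 2 / 2 * Real.sin ψ ^ 2 := by positivity
    rw [abs_le]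
    constructor
    · linarith [hb.1, k1'.2]
    · linarith [hb.2, k1'.1]

private theorem mvt {f f' : ℝ → ℝ} {b K : ℝ} (hf : ∀ x, HasDerivAt f (f' x) x)
    (hK : ∀ x, |x| ≤ |b| → |f' x| ≤ K) : |f b - f 0| ≤ K * |b| := by
  have h := (convex_Icc (-|b|) |b|).norm_image_sub_le_of_norm_hasDerivWithin_le (f := f)
    (f' := f') (C := K) (x := 0) (y := b) (fun x _ => (hf x).hasDerivWithinAt)
    (fun x hx => hK x (abs_le.2 hx)) ⟨by linarith [abs_nonneg b], abs_nonneg b⟩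
    ⟨neg_abs_le b, le_abs_self b⟩
  rw [sub_zero] at h
  exact h

private theorem taylor3 {φ₀ φ₁ φ₂ φ₃ : ℝ → ℝ} {M : ℝ} (h0 : ∀ t, HasDerivAt φ₀ (φ₁ t) t)
    (h1 : ∀ t, HasDerivAt φ₁ (φ₂ t) t) (h2 : ∀ t, HasDerivAt φ₂ (φ₃ t) t)
    (h3 : ∀ t, |φ₃ t| ≤ M) (t b : ℝ) :
    |φ₀ (t + b) - φ₀ t - b * φ₁ t - b ^ 2 / 2 * φ₂ t| ≤ M * |b| ^ 3 := by
  have hM : 0 ≤ M := (abs_nonneg _).trans (h3 0)
  have hs : ∀ x : ℝ, HasDerivAt (fun y : ℝ => t + y) 1 x := fun x =>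
    (hasDerivAt_id x).const_add t
  have c2 : ∀ x, |φ₂ (t + x) - φ₂ t| ≤ M * |x| := by
    intro x
    have h := mvt (f := fun y => φ₂ (t + y)) (f' := fun y => φ₃ (t + y)) (b := x) (K := M)
      (fun y => by
        have := (h2 (t + y)).comp y (hs y)
        rwa [mul_one] at this) (fun y _ => h3 _)
    simpa using h
  have c1 : ∀ x, |φ₁ (t + x) - φ₁ t - x * φ₂ t| ≤ M * |x| ^ 2 := by
    intro x
    have h := mvt (f := fun y => φ₁ (t + y) - y * φ₂ t)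
      (f' := fun y => φ₂ (t + y) - φ₂ t) (b := x) (K := M * |x|)
      (fun y => by
        have k1 := (h1 (t + y)).comp y (hs y)
        rw [mul_one] at k1
        have k2 := (hasDerivAt_id y).mul_const (φ₂ t)
        rw [one_mul] at k2
        exact k1.sub k2)
      (fun y hy => (c2 y).trans (mul_le_mul_of_nonneg_left hy hM))
    simp only [add_zero, zero_mul, sub_zero] at h
    have e : φ₁ (t + x) - φ₁ t - x * φ₂ t = φ₁ (t + x) - x * φ₂ t - φ₁ t := by ring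
    rw [e]
    refine h.trans (le_of_eq ?_)
    ring
  have h := mvt (f := fun y => φ₀ (t + y) - y * φ₁ t - y ^ 2 / 2 * φ₂ t)
    (f' := fun y => φ₁ (t + y) - φ₁ t - y * φ₂ t) (b := b) (K := M * |b| ^ 2)
    (fun y => by
      have k1 := (h0 (t + y)).comp y (hs y)
      rw [mul_one] at k1
      have k2 := (hasDerivAt_id y).mul_const (φ₁ t)
      rw [one_mul] at k2
      have k3 : HasDerivAt (fun y : ℝ => y ^ 2 / 2 * φ₂ t) (y * φ₂ t) y := by
        have := (((hasDerivAt_id y).pow 2).div_const 2).mul_const (φ₂ t)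
        refine this.congr_deriv ?_
        simp
      exact (k1.sub k2).sub k3)
    (fun y hy => (c1 y).trans (mul_le_mul_of_nonneg_left
      (pow_le_pow_left₀ (abs_nonneg _) hy 2) hM))
  have e0 : φ₀ (t + 0) - 0 * φ₁ t - (0 : ℝ) ^ 2 / 2 * φ₂ t = φ₀ t := by
    rw [add_zero]
    ring
  rw [e0] at h
  have e : φ₀ (t + b) - φ₀ t - b * φ₁ t - b ^ 2 / 2 * φ₂ t =
      φ₀ (t + b) - b * φ₁ t - b ^ 2 / 2 * φ₂ t - φ₀ t := by ring
  rw [e]
  refine h.trans (le_of_eq ?_)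
  ring

theorem taylor_avg : ∃ C : ℝ, 0 ≤ C ∧ ∀ (φ₀ φ₁ φ₂ φ₃ : ℝ → ℝ) (M : ℝ),
    (∀ t, HasDerivAt φ₀ (φ₁ t) t) → (∀ t, HasDerivAt φ₁ (φ₂ t) t) →
    (∀ t, HasDerivAt φ₂ (φ₃ t) t) → (∀ t, |φ₁ t| ≤ M) → (∀ t, |φ₂ t| ≤ M) → (∀ t, |φ₃ t| ≤ M) →
    ∀ t S : ℝ, 0 ≤ S → S ≤ 1 →
      |(2 * Real.pi)⁻¹ * (∫ ψ in (0 : ℝ)..(2 * Real.pi), φ₀ (t + bs S ψ)) - φ₀ t
        - S ^ 2 / 4 * (φ₁ t + φ₂ t)| ≤ C * M * S ^ 3 := by
  obtain ⟨C, hC, hexp⟩ := bs_expand
  refine ⟨2 * C + 3 / 2, by positivity, ?_⟩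
  intro φ₀ φ₁ φ₂ φ₃ M h0 h1 h2 m1 m2 m3 t S hS hS1
  have hM : 0 ≤ M := (abs_nonneg _).trans (m1 0)
  have hS3 : 0 ≤ S ^ 3 := by positivity
  set P : ℝ → ℝ := fun ψ => φ₀ t + φ₁ t * S * Real.cos ψ + φ₁ t * S ^ 2 / 2 * Real.sin ψ ^ 2 +
    φ₂ t * S ^ 2 / 2 * Real.cos ψ ^ 2 with hP
  have hpt : ∀ ψ, |φ₀ (t + bs S ψ) - P ψ| ≤ (2 * C + 3 / 2) * M * S ^ 3 := by
    intro ψ
    have a1 := taylor3 h0 h1 h2 m3 t (bs S ψ)
    have a2 := hexp S ψ hS hS1
    have a3 := abs_bs_le hS ψ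
    have hc1 := Real.neg_one_le_cos ψ
    have hc2 := Real.cos_le_one ψ
    have hca : |Real.cos ψ| ≤ 1 := abs_le.2 ⟨hc1, hc2⟩
    have hsc := Real.sin_sq_add_cos_sq ψ
    have hs1 : Real.sin ψ ^ 2 ≤ 1 := by nlinarith [sq_nonneg (Real.cos ψ)]
    have hs0 : 0 ≤ Real.sin ψ ^ 2 := sq_nonneg _
    have hSc : |S * Real.cos ψ| ≤ S := by
      rw [abs_mul, abs_of_nonneg hS]
      nlinarith
    have a4 : |bs S ψ ^ 2 - S ^ 2 * Real.cos ψ ^ 2| ≤ (1 + 2 * C) * S ^ 3 := by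
      have : bs S ψ ^ 2 - S ^ 2 * Real.cos ψ ^ 2 =
          (bs S ψ - S * Real.cos ψ) * (bs S ψ + S * Real.cos ψ) := by ring
      rw [this, abs_mul]
      have k1 : |bs S ψ - S * Real.cos ψ| ≤ C * S ^ 3 + S ^ 2 / 2 := by
        have e : bs S ψ - S * Real.cos ψ = (bs S ψ - (S * Real.cos ψ +
          S ^ 2 / 2 * Real.sin ψ ^ 2)) + S ^ 2 / 2 * Real.sin ψ ^ 2 := by ring
        rw [e]
        refine (abs_add_le _ _).trans (add_le_add a2 ?_)
        rw [abs_of_nonneg (by positivity)]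
        nlinarith [sq_nonneg S]
      have k2 : |bs S ψ + S * Real.cos ψ| ≤ 2 * S := (abs_add_le _ _).trans (by linarith)
      calc |bs S ψ - S * Real.cos ψ| * |bs S ψ + S * Real.cos ψ|
          ≤ (C * S ^ 3 + S ^ 2 / 2) * (2 * S) := mul_le_mul k1 k2 (abs_nonneg _) (by positivity)
        _ = 2 * C * S ^ 3 * S + S ^ 3 := by ring
        _ ≤ 2 * C * S ^ 3 * 1 + S ^ 3 := by
            have : 0 ≤ 2 * C * S ^ 3 := by positivity
            nlinarith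
        _ = (1 + 2 * C) * S ^ 3 := by ring
    have a5 : |bs S ψ| ^ 3 ≤ S ^ 3 := pow_le_pow_left₀ (abs_nonneg _) a3 3
    have e : φ₀ (t + bs S ψ) - P ψ =
        (φ₀ (t + bs S ψ) - φ₀ t - bs S ψ * φ₁ t - bs S ψ ^ 2 / 2 * φ₂ t) +
        φ₁ t * (bs S ψ - (S * Real.cos ψ + S ^ 2 / 2 * Real.sin ψ ^ 2)) +
        φ₂ t / 2 * (bs S ψ ^ 2 - S ^ 2 * Real.cos ψ ^ 2) := by
      rw [hP]
      ring
    rw [e]
    have t1 : |φ₀ (t + bs S ψ) - φ₀ t - bs S ψ * φ₁ t - bs S ψ ^ 2 / 2 * φ₂ t| ≤ M * S ^ 3 :=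
      a1.trans (mul_le_mul_of_nonneg_left a5 hM)
    have t2 : |φ₁ t * (bs S ψ - (S * Real.cos ψ + S ^ 2 / 2 * Real.sin ψ ^ 2))| ≤
        M * (C * S ^ 3) := by
      rw [abs_mul]
      exact mul_le_mul (m1 t) a2 (abs_nonneg _) hM
    have t3 : |φ₂ t / 2 * (bs S ψ ^ 2 - S ^ 2 * Real.cos ψ ^ 2)| ≤
        M / 2 * ((1 + 2 * C) * S ^ 3) := by
      rw [abs_mul, abs_div, abs_two]
      exact mul_le_mul (div_le_div_of_nonneg_right (m2 t) (by norm_num)) a4 (abs_nonneg _)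
        (by positivity)
    calc _ ≤ M * S ^ 3 + M * (C * S ^ 3) + M / 2 * ((1 + 2 * C) * S ^ 3) :=
          (abs_add_le _ _).trans (add_le_add ((abs_add_le _ _).trans (add_le_add t1 t2)) t3)
      _ = (2 * C + 3 / 2) * M * S ^ 3 := by ring
  have hcφ : Continuous φ₀ := continuous_iff_continuousAt.2 fun x => (h0 x).continuousAt
  have hcb : Continuous fun ψ => bs S ψ :=
    continuous_bs.comp (continuous_const.prodMk continuous_id)
  have hcf : Continuous fun ψ => φ₀ (t + bs S ψ) := hcφ.comp (continuous_const.add hcb)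
  have hcP : Continuous P := by
    rw [hP]
    fun_prop
  have hIP : ∫ ψ in (0 : ℝ)..(2 * Real.pi), P ψ =
      2 * Real.pi * (φ₀ t + S ^ 2 / 4 * (φ₁ t + φ₂ t)) := by
    rw [hP]
    have i1 : IntervalIntegrable (fun _ : ℝ => φ₀ t) volume 0 (2 * Real.pi) :=
      intervalIntegrable_const
    have i2 : IntervalIntegrable (fun ψ : ℝ => φ₁ t * S * Real.cos ψ) volume 0 (2 * Real.pi) :=
      (by fun_prop : Continuous fun ψ : ℝ => φ₁ t * S * Real.cos ψ).intervalIntegrable _ _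
    have i3 : IntervalIntegrable (fun ψ : ℝ => φ₁ t * S ^ 2 / 2 * Real.sin ψ ^ 2) volume 0
        (2 * Real.pi) :=
      (by fun_prop : Continuous fun ψ : ℝ =>
        φ₁ t * S ^ 2 / 2 * Real.sin ψ ^ 2).intervalIntegrable _ _
    have i4 : IntervalIntegrable (fun ψ : ℝ => φ₂ t * S ^ 2 / 2 * Real.cos ψ ^ 2) volume 0
        (2 * Real.pi) :=
      (by fun_prop : Continuous fun ψ : ℝ =>
        φ₂ t * S ^ 2 / 2 * Real.cos ψ ^ 2).intervalIntegrable _ _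
    rw [intervalIntegral.integral_add ((i1.add i2).add i3) i4,
      intervalIntegral.integral_add (i1.add i2) i3, intervalIntegral.integral_add i1 i2,
      intervalIntegral.integral_const, intervalIntegral.integral_const_mul,
      intervalIntegral.integral_const_mul, intervalIntegral.integral_const_mul, integral_cos,
      integral_sin_sq, integral_cos_sq]
    simp only [Real.sin_two_pi, Real.sin_zero, Real.cos_two_pi, Real.cos_zero, smul_eq_mul]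
    ring
  have hsub : (2 * Real.pi)⁻¹ * (∫ ψ in (0 : ℝ)..(2 * Real.pi), φ₀ (t + bs S ψ)) - φ₀ t
      - S ^ 2 / 4 * (φ₁ t + φ₂ t) =
      (2 * Real.pi)⁻¹ * ∫ ψ in (0 : ℝ)..(2 * Real.pi), (φ₀ (t + bs S ψ) - P ψ) := by
    rw [intervalIntegral.integral_sub (hcf.intervalIntegrable _ _)
      (hcP.intervalIntegrable _ _), hIP, mul_sub]
    have hp := Real.pi_ne_zero
    field_simp
    ring
  rw [hsub, abs_mul]
  have hI := intervalIntegral.norm_integral_le_of_norm_le_const (a := (0 : ℝ))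
    (b := 2 * Real.pi) (f := fun ψ => φ₀ (t + bs S ψ) - P ψ) (C := (2 * C + 3 / 2) * M * S ^ 3)
    (fun ψ _ => hpt ψ)
  rw [Real.norm_eq_abs, sub_zero] at hI
  have hpi := Real.pi_pos
  rw [abs_of_pos (by positivity : 0 < 2 * Real.pi)] at hI
  rw [abs_of_pos (by positivity : 0 < (2 * Real.pi)⁻¹)]
  calc (2 * Real.pi)⁻¹ * |∫ ψ in (0 : ℝ)..(2 * Real.pi), (φ₀ (t + bs S ψ) - P ψ)|
      ≤ (2 * Real.pi)⁻¹ * ((2 * C + 3 / 2) * M * S ^ 3 * (2 * Real.pi)) :=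
        mul_le_mul_of_nonneg_left hI (by positivity)
    _ = (2 * C + 3 / 2) * M * S ^ 3 := by
        field_simp

end Pool.Agent.MP27775c.AHL
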