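import Mathlib
import Pool.Agent.Lib.MP_27775c_an_AHL.Aw
import Pool.Agent.Lib.MP_27775c_an_AHL.Rr

/-!
The product formula for the averaging operators.
-/

set_option autoImplicit false
set_option linter.unusedSectionVars false

open MeasureTheory Metric Filter Topology Set

namespace Pool.Agent.MP27775c.AHL

/-- translation invariance of the integral over a period -/
private theorem per_shift {f : ℝ → ℝ} (hf : Function.Periodic f (2 * Real.pi)) (α : ℝ) :
    ∫ θ in (0 : ℝ)..(2 * Real.pi), f (θ + α) = ∫ θ in (0 : ℝ)..(2 * Real.pi), f θ := by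
  rw [intervalIntegral.integral_comp_add_right, zero_add, add_comm (2 * Real.pi) α,
    hf.intervalIntegral_add_eq α 0, zero_add]

private theorem cm_rot (r θ φ : ℝ) :
    circleMap 0 r (θ + φ) = Complex.exp (φ * Complex.I) * circleMap 0 r θ := by
  rw [circleMap_zero, circleMap_zero]
  push_cast
  rw [add_mul, Complex.exp_add]
  ring

private theorem norm_e (φ : ℝ) : ‖Complex.exp (φ * Complex.I)‖ = 1 :=
  Complex.norm_exp_ofReal_mul_I φ

private theorem norm_tanh (S : ℝ) : ‖((Real.tanh S : ℝ) : ℂ)‖ < 1 := by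
  rw [Complex.norm_real, Real.norm_eq_abs]
  exact Real.abs_tanh_lt_one S

private theorem w_lt (S R ψ : ℝ) :
    ‖mob ((Real.tanh (S / 2) : ℝ) : ℂ) (circleMap 0 (Real.tanh (R / 2)) ψ)‖ < 1 :=
  mob_circle_lt (norm_tanh _) R ψ

private theorem w_cont (S R : ℝ) : Continuous (fun ψ : ℝ =>
    mob ((Real.tanh (S / 2) : ℝ) : ℂ) (circleMap 0 (Real.tanh (R / 2)) ψ)) := by
  have h1 : Continuous (fun ψ : ℝ =>
      ((((Real.tanh (S / 2) : ℝ) : ℂ), circleMap 0 (Real.tanh (R / 2)) ψ) : ℂ × ℂ)) :=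
    continuous_const.prodMk (continuous_circleMap 0 _)
  exact continuousOn_mob.comp_continuous h1 (fun ψ => ⟨norm_tanh _, by
    simpa using Real.abs_tanh_lt_one (R / 2)⟩)

private theorem g_cont {u : ℂ → ℝ} (hu : ContinuousOn u (ball 0 1)) {z : ℂ} (hz : ‖z‖ < 1)
    (S R : ℝ) : Continuous (fun p : ℝ × ℝ => u (mob z (Complex.exp (p.1 * Complex.I) *
      mob ((Real.tanh (S / 2) : ℝ) : ℂ) (circleMap 0 (Real.tanh (R / 2)) p.2)))) := by
  have hlt : ∀ p : ℝ × ℝ, ‖Complex.exp (p.1 * Complex.I) *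
      mob ((Real.tanh (S / 2) : ℝ) : ℂ) (circleMap 0 (Real.tanh (R / 2)) p.2)‖ < 1 := by
    intro p
    rw [norm_mul, norm_e, one_mul]
    exact w_lt S R p.2
  have h0 : Continuous (fun p : ℝ × ℝ => Complex.exp (p.1 * Complex.I) *
      mob ((Real.tanh (S / 2) : ℝ) : ℂ) (circleMap 0 (Real.tanh (R / 2)) p.2)) := by
    refine Continuous.mul ?_ ((w_cont S R).comp continuous_snd)
    fun_prop
  have h1 : Continuous (fun p : ℝ × ℝ => mob z (Complex.exp (p.1 * Complex.I) *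
      mob ((Real.tanh (S / 2) : ℝ) : ℂ) (circleMap 0 (Real.tanh (R / 2)) p.2))) :=
    continuousOn_mob.comp_continuous (continuous_const.prodMk h0) (fun p => ⟨hz, hlt p⟩)
  refine hu.comp_continuous h1 (fun p => ?_)
  rw [mem_ball_zero_iff]
  exact norm_mob_lt hz (hlt p)

private theorem inner_eq {u : ℂ → ℝ} {z : ℂ} (hz : ‖z‖ < 1) (S R φ : ℝ) :
    Av R u (mob z (circleMap 0 (Real.tanh (S / 2)) φ)) = (2 * Real.pi)⁻¹ *
      ∫ ψ in (0 : ℝ)..(2 * Real.pi), u (mob z (Complex.exp (φ * Complex.I) *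
      mob ((Real.tanh (S / 2) : ℝ) : ℂ) (circleMap 0 (Real.tanh (R / 2)) ψ))) := by
  have hp : ‖circleMap 0 (Real.tanh (S / 2)) φ‖ < 1 := by
    simpa using Real.abs_tanh_lt_one (S / 2)
  rw [← Av_mob hp hz u R, Av_eq]
  congr 1
  set g : ℝ → ℝ := fun ψ => u (mob z (Complex.exp (φ * Complex.I) *
      mob ((Real.tanh (S / 2) : ℝ) : ℂ) (circleMap 0 (Real.tanh (R / 2)) ψ))) with hg
  have hper : Function.Periodic g (2 * Real.pi) := by
    intro ψ
    simp only [hg, periodic_circleMap 0 (Real.tanh (R / 2)) ψ]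
  have hshift := per_shift hper (-φ)
  rw [← hshift]
  refine intervalIntegral.integral_congr fun θ _ => ?_
  simp only [hg]
  have h1 : circleMap 0 (Real.tanh (S / 2)) φ =
      Complex.exp (φ * Complex.I) * ((Real.tanh (S / 2) : ℝ) : ℂ) := by
    rw [circleMap_zero, mul_comm]
  have h2 : circleMap 0 (Real.tanh (R / 2)) θ = Complex.exp (φ * Complex.I) *
      circleMap 0 (Real.tanh (R / 2)) (θ + -φ) := by
    rw [← cm_rot]
    congr 1
    ring
  rw [h2, h1, mob_rot (norm_e φ)]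

private theorem outer_eq {u : ℂ → ℝ} {z : ℂ} (S R ψ : ℝ) :
    ∫ φ in (0 : ℝ)..(2 * Real.pi), u (mob z (Complex.exp (φ * Complex.I) *
      mob ((Real.tanh (S / 2) : ℝ) : ℂ) (circleMap 0 (Real.tanh (R / 2)) ψ))) =
    (2 * Real.pi) * Av (rr S R ψ) u z := by
  rw [Av_eq, ← mul_assoc, mul_inv_cancel₀ Real.two_pi_pos.ne', one_mul, tanh_half_rr]
  set w := mob ((Real.tanh (S / 2) : ℝ) : ℂ) (circleMap 0 (Real.tanh (R / 2)) ψ) with hw
  set f : ℝ → ℝ := fun φ => u (mob z (circleMap 0 ‖w‖ φ)) with hf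
  have hper : Function.Periodic f (2 * Real.pi) := by
    intro φ
    simp only [hf, periodic_circleMap 0 ‖w‖ φ]
  have hshift := per_shift hper (Complex.arg w)
  change _ = ∫ φ in (0 : ℝ)..(2 * Real.pi), f φ
  rw [← hshift]
  refine intervalIntegral.integral_congr fun φ _ => ?_
  simp only [hf]
  congr 2
  rw [add_comm φ, cm_rot]
  conv_lhs => rw [← Complex.norm_mul_exp_arg_mul_I w]
  rw [circleMap_zero]

theorem Av_Av {u : ℂ → ℝ} (hu : ContinuousOn u (ball 0 1)) {z : ℂ} (hz : ‖z‖ < 1) (S R : ℝ) :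
    Av S (fun w => Av R u w) z =
      (2 * Real.pi)⁻¹ * ∫ ψ in (0 : ℝ)..(2 * Real.pi), Av (rr S R ψ) u z := by
  rw [Av_eq]
  congr 1
  have h1 : (∫ θ in (0 : ℝ)..(2 * Real.pi),
      (fun w => Av R u w) (mob z (circleMap 0 (Real.tanh (S / 2)) θ))) =
      ∫ φ in (0 : ℝ)..(2 * Real.pi), (2 * Real.pi)⁻¹ *
      ∫ ψ in (0 : ℝ)..(2 * Real.pi), u (mob z (Complex.exp (φ * Complex.I) *
      mob ((Real.tanh (S / 2) : ℝ) : ℂ) (circleMap 0 (Real.tanh (R / 2)) ψ))) :=
    intervalIntegral.integral_congr fun φ _ => inner_eq hz S R φ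
  rw [h1, intervalIntegral.integral_const_mul,
    intervalIntegral_intervalIntegral_swap
      (F := fun φ ψ => u (mob z (Complex.exp (φ * Complex.I) *
      mob ((Real.tanh (S / 2) : ℝ) : ℂ) (circleMap 0 (Real.tanh (R / 2)) ψ)))),
    ← intervalIntegral.integral_const_mul]
  · refine intervalIntegral.integral_congr fun ψ _ => ?_
    rw [outer_eq, ← mul_assoc, inv_mul_cancel₀ Real.two_pi_pos.ne', one_mul]
  · have hc : ContinuousOn (Function.uncurry fun φ ψ : ℝ => u (mob z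
        (Complex.exp (φ * Complex.I) *
        mob ((Real.tanh (S / 2) : ℝ) : ℂ) (circleMap 0 (Real.tanh (R / 2)) ψ))))
        (uIcc (0 : ℝ) (2 * Real.pi) ×ˢ uIcc (0 : ℝ) (2 * Real.pi)) :=
      (g_cont hu hz S R).continuousOn
    exact (hc.integrableOn_compact (isCompact_uIcc.prod isCompact_uIcc)).mono_set
      (prod_mono uIoc_subset_uIcc uIoc_subset_uIcc)

theorem Av_comm {u : ℂ → ℝ} (hu : ContinuousOn u (ball 0 1)) {z : ℂ} (hz : ‖z‖ < 1) (S R : ℝ) :
    Av S (fun w => Av R u w) z = Av R (fun w => Av S u w) z := by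
  rw [Av_Av hu hz, Av_Av hu hz]
  simp_rw [rr_comm S R]

end Pool.Agent.MP27775c.AHL
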