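import Mathlib
import Pool.Agent.Lib.MP_27775c_an_AHL.Bl
import Pool.Agent.Lib.MP_27775c_an_AHL.Pr

/-!
Equicontinuity of the averages of an equicontinuous family.
-/

set_option autoImplicit false
set_option linter.unusedSectionVars false

open MeasureTheory Metric Filter Topology Set

namespace Pool.Agent.MP27775c.AHL

variable {ι κ : Type*} {F G : ι → ℂ → ℝ}

theorem UEC.continuousOn (hU : UEC F) (i : ι) : ContinuousOn (F i) (ball 0 1) := by
  intro z hz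
  rw [mem_ball_zero_iff] at hz
  have hc : ContinuousWithinAt (fun w => dh z w) (ball 0 1) z := by
    have h1 : ContinuousWithinAt (fun p : ℂ × ℂ => dh p.1 p.2) {p | ‖p.1‖ < 1 ∧ ‖p.2‖ < 1}
        (z, z) := continuousOn_dh (z, z) ⟨hz, hz⟩
    have h2 : ContinuousWithinAt (fun w : ℂ => (z, w)) (ball 0 1) z := by fun_prop
    exact ContinuousWithinAt.comp (f := fun w : ℂ => (z, w)) h1 h2
      (fun w hw => ⟨hz, mem_ball_zero_iff.1 hw⟩)
  rw [Metric.continuousWithinAt_iff']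
  intro ε hε
  obtain ⟨δ, hδ, h⟩ := hU (ε / 2) (half_pos hε)
  have h2 : ∀ᶠ w in 𝓝[ball 0 1] z, dh z w < δ := by
    have h3 : Tendsto (fun w => dh z w) (𝓝[ball 0 1] z) (𝓝 (dh z z)) := hc
    rw [dh_self] at h3
    exact h3.eventually_lt_const hδ
  filter_upwards [h2, self_mem_nhdsWithin] with w hw hwb
  rw [Real.dist_eq, abs_sub_comm]
  have h4 := h i z w hz (mem_ball_zero_iff.1 hwb) hw.le
  linarith

theorem UEC.reindex (hU : UEC F) (g : κ → ι) : UEC (fun k => F (g k)) := by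
  intro ε hε
  obtain ⟨δ, hδ, h⟩ := hU ε hε
  exact ⟨δ, hδ, fun k z w hz hw hd => h (g k) z w hz hw hd⟩

theorem UEC.add (hF : UEC F) (hG : UEC G) : UEC (fun i z => F i z + G i z) := by
  intro ε hε
  obtain ⟨δ₁, hδ₁, h₁⟩ := hF (ε / 2) (half_pos hε)
  obtain ⟨δ₂, hδ₂, h₂⟩ := hG (ε / 2) (half_pos hε)
  refine ⟨min δ₁ δ₂, lt_min hδ₁ hδ₂, fun i z w hz hw hd => ?_⟩
  have a1 := h₁ i z w hz hw (hd.trans (min_le_left _ _))
  have a2 := h₂ i z w hz hw (hd.trans (min_le_right _ _))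
  have e : F i z + G i z - (F i w + G i w) = (F i z - F i w) + (G i z - G i w) := by ring
  show |F i z + G i z - (F i w + G i w)| ≤ ε
  rw [e]
  refine (abs_add_le _ _).trans ?_
  linarith

theorem UEC.const_mul (hF : UEC F) (c : ℝ) : UEC (fun i z => c * F i z) := by
  intro ε hε
  have hc : 0 < |c| + 1 := by positivity
  obtain ⟨δ, hδ, h⟩ := hF (ε / (|c| + 1)) (div_pos hε hc)
  refine ⟨δ, hδ, fun i z w hz hw hd => ?_⟩
  have a1 := h i z w hz hw hd
  show |c * F i z - c * F i w| ≤ ε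
  rw [← mul_sub, abs_mul]
  calc |c| * |F i z - F i w| ≤ (|c| + 1) * (ε / (|c| + 1)) := by
        apply mul_le_mul _ a1 (abs_nonneg _) hc.le
        linarith
    _ = ε := by field_simp

theorem UEC.sub (hF : UEC F) (hG : UEC G) : UEC (fun i z => F i z - G i z) := by
  have h := hF.add (hG.const_mul (-1))
  intro ε hε
  obtain ⟨δ, hδ, h'⟩ := h ε hε
  refine ⟨δ, hδ, fun i z w hz hw hd => ?_⟩
  have a := h' i z w hz hw hd
  have e : F i z + -1 * G i z - (F i w + -1 * G i w) = F i z - G i z - (F i w - G i w) := by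
    ring
  rwa [e] at a

theorem UEC.mul (hF : UEC F) (hG : UEC G) (bF : UBd F) (bG : UBd G) :
    UEC (fun i z => F i z * G i z) := by
  obtain ⟨B₁, hB₁⟩ := bF
  obtain ⟨B₂, hB₂⟩ := bG
  obtain ⟨B, hB, h1, h2⟩ : ∃ B : ℝ, 0 < B ∧ B₁ ≤ B ∧ B₂ ≤ B := by
    refine ⟨max (max B₁ B₂) 1, ?_, ?_, ?_⟩
    · exact lt_of_lt_of_le one_pos (le_max_right _ _)
    · exact (le_max_left _ _).trans (le_max_left _ _)
    · exact (le_max_right _ _).trans (le_max_left _ _)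
  intro ε hε
  have hε' : 0 < ε / (2 * B) := by positivity
  obtain ⟨δ₁, hδ₁, h₁⟩ := hF _ hε'
  obtain ⟨δ₂, hδ₂, h₂⟩ := hG _ hε'
  refine ⟨min δ₁ δ₂, lt_min hδ₁ hδ₂, fun i z w hz hw hd => ?_⟩
  have a1 := h₁ i z w hz hw (hd.trans (min_le_left _ _))
  have a2 := h₂ i z w hz hw (hd.trans (min_le_right _ _))
  have b1 : |F i z| ≤ B := (hB₁ i z hz).trans h1
  have b2 : |G i w| ≤ B := (hB₂ i w hw).trans h2
  have e : F i z * G i z - F i w * G i w = F i z * (G i z - G i w) + (F i z - F i w) * G i w := by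
    ring
  show |F i z * G i z - F i w * G i w| ≤ ε
  rw [e]
  refine (abs_add_le _ _).trans ?_
  rw [abs_mul, abs_mul]
  have c1 : |F i z| * |G i z - G i w| ≤ B * (ε / (2 * B)) :=
    mul_le_mul b1 a2 (abs_nonneg _) hB.le
  have c2 : |F i z - F i w| * |G i w| ≤ (ε / (2 * B)) * B :=
    mul_le_mul a1 b2 (abs_nonneg _) hε'.le
  have e1 : B * (ε / (2 * B)) = ε / 2 := by field_simp
  have e2 : (ε / (2 * B)) * B = ε / 2 := by field_simp
  rw [e1] at c1
  rw [e2] at c2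
  linarith

/-- A uniform limit of families. -/
theorem UEC.of_approx (h : ∀ ε : ℝ, 0 < ε → ∃ G : ι → ℂ → ℝ, UEC G ∧
    ∀ i z, ‖z‖ < 1 → |F i z - G i z| ≤ ε) : UEC F := by
  intro ε hε
  obtain ⟨G, hG, hFG⟩ := h (ε / 3) (by positivity)
  obtain ⟨δ, hδ, h'⟩ := hG (ε / 3) (by positivity)
  refine ⟨δ, hδ, fun i z w hz hw hd => ?_⟩
  have a1 := hFG i z hz
  have a2 := hFG i w hw
  have a3 := h' i z w hz hw hd
  rw [abs_le] at a1 a2 a3 ⊢
  constructor
  · linarith [a1.1, a2.2, a3.1]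
  · linarith [a1.2, a2.1, a3.2]

theorem UEC.radius (hU : UEC F) : ∀ ε : ℝ, 0 < ε → ∃ δ : ℝ, 0 < δ ∧ ∀ i R R' z, ‖z‖ < 1 →
    |R - R'| ≤ δ → |Av R (F i) z - Av R' (F i) z| ≤ ε := by
  intro ε hε
  obtain ⟨δ, hδ, h⟩ := hU ε hε
  exact ⟨δ, hδ, fun i R R' z hz hR =>
    Av_radius (hU.continuousOn i) hz (fun w w' hw hw' hd => h i w w' hw hw' hd) hR⟩

theorem UBd_Av (hU : UEC F) (hB : UBd F) : UBd (fun (p : ℝ × ι) => Av p.1 (F p.2)) := by
  obtain ⟨B, hB⟩ := hB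
  exact ⟨B, fun p z hz => abs_Av_le (hU.continuousOn p.2) hz (fun w hw => hB p.2 w hw) p.1⟩

/-- A mean of small numbers is small. -/
theorem eq_mean {f : ℝ → ℝ} (hf : Continuous f) {c ε : ℝ} (h : ∀ ψ, |f ψ - c| ≤ ε) :
    |(2 * Real.pi)⁻¹ * (∫ ψ in (0 : ℝ)..(2 * Real.pi), f ψ) - c| ≤ ε := by
  have hpi : 0 < 2 * Real.pi := by positivity
  have e : (2 * Real.pi)⁻¹ * (∫ ψ in (0 : ℝ)..(2 * Real.pi), f ψ) - c =
      (2 * Real.pi)⁻¹ * ∫ ψ in (0 : ℝ)..(2 * Real.pi), (f ψ - c) := by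
    rw [intervalIntegral.integral_sub (hf.intervalIntegrable _ _)
      (continuous_const.intervalIntegrable _ _), intervalIntegral.integral_const, mul_sub,
      smul_eq_mul, sub_zero, ← mul_assoc, inv_mul_cancel₀ hpi.ne', one_mul]
  rw [e, abs_mul, abs_of_pos (inv_pos.2 hpi)]
  have h1 : ‖∫ ψ in (0 : ℝ)..(2 * Real.pi), (f ψ - c)‖ ≤ ε * |2 * Real.pi - 0| :=
    intervalIntegral.norm_integral_le_of_norm_le_const (fun ψ _ => h ψ)
  rw [Real.norm_eq_abs, sub_zero, abs_of_pos hpi] at h1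
  calc (2 * Real.pi)⁻¹ * |∫ ψ in (0 : ℝ)..(2 * Real.pi), (f ψ - c)|
      ≤ (2 * Real.pi)⁻¹ * (ε * (2 * Real.pi)) :=
        mul_le_mul_of_nonneg_left h1 (inv_pos.2 hpi).le
    _ = ε := by field_simp

theorem eq_int_sinh (η : ℝ) : ∫ t in (0 : ℝ)..η, Real.sinh t = Real.cosh η - 1 := by
  rw [intervalIntegral.integral_eq_sub_of_hasDerivAt (fun x _ => Real.hasDerivAt_cosh x)
    (Real.continuous_sinh.intervalIntegrable _ _), Real.cosh_zero]

/-- A weighted mean of small numbers is small. -/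
theorem eq_mean_sinh {f : ℝ → ℝ} (hf : Continuous f) {c ε η : ℝ} (hη : 0 < η)
    (h : ∀ t, 0 ≤ t → t ≤ η → |f t - c| ≤ ε) :
    |(Real.cosh η - 1)⁻¹ * (∫ t in (0 : ℝ)..η, Real.sinh t * f t) - c| ≤ ε := by
  have hk : 0 < Real.cosh η - 1 := by
    have := Real.one_lt_cosh.2 hη.ne'
    linarith
  have hc1 : Continuous (fun t => Real.sinh t * f t) := Real.continuous_sinh.mul hf
  have hc2 : Continuous (fun t => Real.sinh t * c) := Real.continuous_sinh.mul continuous_const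
  have e : (Real.cosh η - 1)⁻¹ * (∫ t in (0 : ℝ)..η, Real.sinh t * f t) - c =
      (Real.cosh η - 1)⁻¹ * ∫ t in (0 : ℝ)..η, Real.sinh t * (f t - c) := by
    have e1 : (fun t => Real.sinh t * (f t - c)) =
        fun t => Real.sinh t * f t - Real.sinh t * c := by
      funext t
      ring
    rw [e1, intervalIntegral.integral_sub (hc1.intervalIntegrable _ _)
      (hc2.intervalIntegrable _ _), intervalIntegral.integral_mul_const, eq_int_sinh, mul_sub,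
      ← mul_assoc _ _ c, inv_mul_cancel₀ hk.ne', one_mul]
  rw [e, abs_mul, abs_of_pos (inv_pos.2 hk)]
  have h1 : ‖∫ t in (0 : ℝ)..η, Real.sinh t * (f t - c)‖ ≤
      ∫ t in (0 : ℝ)..η, Real.sinh t * ε := by
    refine intervalIntegral.norm_integral_le_of_norm_le hη.le ?_
      ((Real.continuous_sinh.mul continuous_const).intervalIntegrable _ _)
    refine Filter.Eventually.of_forall fun t ht => ?_
    have ht0 : 0 ≤ Real.sinh t := Real.sinh_nonneg_iff.2 ht.1.le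
    rw [Real.norm_eq_abs, abs_mul, abs_of_nonneg ht0]
    exact mul_le_mul_of_nonneg_left (h t ht.1.le ht.2) ht0
  rw [Real.norm_eq_abs, intervalIntegral.integral_mul_const, eq_int_sinh] at h1
  calc (Real.cosh η - 1)⁻¹ * |∫ t in (0 : ℝ)..η, Real.sinh t * (f t - c)|
      ≤ (Real.cosh η - 1)⁻¹ * ((Real.cosh η - 1) * ε) :=
        mul_le_mul_of_nonneg_left h1 (inv_pos.2 hk).le
    _ = ε := by field_simp

theorem eq_near {u : ℂ → ℝ} (hu : ContinuousOn u (ball 0 1)) {η R ε : ℝ} (hR : 0 ≤ R)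
    (h : ∀ R' z, ‖z‖ < 1 → |R' - R| ≤ η → |Av R' u z - Av R u z| ≤ ε) {z : ℂ} (hz : ‖z‖ < 1)
    {t : ℝ} (ht0 : 0 ≤ t) (ht : t ≤ η) :
    |Av t (fun w => Av R u w) z - Av R u z| ≤ ε := by
  rw [Av_Av hu hz t R]
  refine eq_mean ?_ fun ψ => h _ z hz ((abs_rr_sub_le ht0 hR ψ).trans ht)
  have h1 : Continuous (fun ψ : ℝ => ((rr t R ψ, z) : ℝ × ℂ)) := by
    refine Continuous.prodMk ?_ continuous_const
    have h2 : Continuous (fun ψ : ℝ => ((t, R, ψ) : ℝ × ℝ × ℝ)) := by fun_prop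
    have h4 := continuous_rr.comp h2
    exact h4
  have h0 := continuousOn_Av hu
  have hm : ∀ ψ : ℝ, ((rr t R ψ, z) : ℝ × ℂ) ∈ {p : ℝ × ℂ | ‖p.2‖ < 1} := fun _ => hz
  have h3 := h0.comp_continuous h1 hm
  exact h3

theorem eq_slice {u : ℂ → ℝ} (hu : ContinuousOn u (ball 0 1)) (R : ℝ) :
    ContinuousOn (fun w => Av R u w) (ball 0 1) := by
  have h1 : Continuous (fun w : ℂ => ((R, w) : ℝ × ℂ)) := by fun_prop
  have h0 := continuousOn_Av hu
  have h2 : MapsTo (fun w : ℂ => ((R, w) : ℝ × ℂ)) (ball 0 1) {p : ℝ × ℂ | ‖p.2‖ < 1} := by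
    intro w hw
    exact mem_ball_zero_iff.1 hw
  have h3 := h0.comp h1.continuousOn h2
  exact h3

theorem eq_slice_t {u : ℂ → ℝ} (hu : ContinuousOn u (ball 0 1)) {z : ℂ} (hz : ‖z‖ < 1) :
    Continuous (fun t : ℝ => Av t u z) := by
  have h1 : Continuous (fun t : ℝ => ((t, z) : ℝ × ℂ)) := by fun_prop
  have h0 := continuousOn_Av hu
  have hm : ∀ t : ℝ, ((t, z) : ℝ × ℂ) ∈ {p : ℝ × ℂ | ‖p.2‖ < 1} := fun _ => hz
  have h3 := h0.comp_continuous h1 hm
  exact h3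

theorem UEC_Av (hU : UEC F) (hB : UBd F) : UEC (fun (p : ℝ × ι) => Av p.1 (F p.2)) := by
  intro ε hε
  obtain ⟨δ₀, hδ₀, hrad⟩ := hU.radius (ε / 3) (by positivity)
  obtain ⟨C, hC, hlip⟩ := ball_lip hδ₀
  obtain ⟨B₀, hB₀⟩ := hB
  obtain ⟨B, hBpos, hB⟩ : ∃ B : ℝ, 0 < B ∧ ∀ i z, ‖z‖ < 1 → |F i z| ≤ B :=
    ⟨max B₀ 1, lt_of_lt_of_le one_pos (le_max_right _ _),
      fun i z hz => (hB₀ i z hz).trans (le_max_left _ _)⟩
  have hk : 0 < Real.cosh δ₀ - 1 := by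
    have := Real.one_lt_cosh.2 hδ₀.ne'
    linarith
  have hD : 0 < C * B + 1 := by positivity
  have hδ : 0 < ε / 3 * (Real.cosh δ₀ - 1) / (C * B + 1) := by positivity
  have key : ∀ (i : ι) (R : ℝ) (z w : ℂ), 0 ≤ R → ‖z‖ < 1 → ‖w‖ < 1 →
      dh z w ≤ ε / 3 * (Real.cosh δ₀ - 1) / (C * B + 1) →
      |Av R (F i) z - Av R (F i) w| ≤ ε := by
    intro i R z w hR hz hw hd
    have hc := hU.continuousOn i
    have hc' := eq_slice hc R
    have hb' : ∀ y, ‖y‖ < 1 → |Av R (F i) y| ≤ B :=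
      fun y hy => abs_Av_le hc hy (fun w hw => hB i w hw) R
    have hn : ∀ y, ‖y‖ < 1 → |(Real.cosh δ₀ - 1)⁻¹ * (∫ t in (0 : ℝ)..δ₀, Real.sinh t *
        Av t (fun w => Av R (F i) w) y) - Av R (F i) y| ≤ ε / 3 := by
      intro y hy
      refine eq_mean_sinh (eq_slice_t hc' hy) hδ₀ fun t ht0 ht => ?_
      exact eq_near hc hR (fun R' z' hz' hR' => hrad i R' R z' hz' hR') hy ht0 ht
    have a1 := hn z hz
    have a2 := hn w hw
    have a3 : |(Real.cosh δ₀ - 1)⁻¹ * (∫ t in (0 : ℝ)..δ₀, Real.sinh t *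
        Av t (fun w => Av R (F i) w) z) - (Real.cosh δ₀ - 1)⁻¹ * (∫ t in (0 : ℝ)..δ₀, Real.sinh t *
        Av t (fun w => Av R (F i) w) w)| ≤ ε / 3 := by
      rw [← mul_sub, abs_mul, abs_of_pos (inv_pos.2 hk)]
      have h1 := hlip (fun w => Av R (F i) w) B z w hc' hb' hz hw
      have h2 : C * B * dh z w ≤ (Real.cosh δ₀ - 1) * (ε / 3) := by
        have h3 : C * B ≤ C * B + 1 := by linarith
        calc C * B * dh z w ≤ (C * B + 1) * (ε / 3 * (Real.cosh δ₀ - 1) / (C * B + 1)) :=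
              mul_le_mul h3 hd (dh_nonneg _ _) hD.le
          _ = (Real.cosh δ₀ - 1) * (ε / 3) := by field_simp
      calc (Real.cosh δ₀ - 1)⁻¹ * _ ≤ (Real.cosh δ₀ - 1)⁻¹ * ((Real.cosh δ₀ - 1) * (ε / 3)) :=
            mul_le_mul_of_nonneg_left (h1.trans h2) (inv_pos.2 hk).le
        _ = ε / 3 := by field_simp
    rw [abs_le] at a1 a2 a3 ⊢
    constructor
    · linarith [a1.2, a2.1, a3.1]
    · linarith [a1.1, a2.2, a3.2]
  refine ⟨_, hδ, fun p z w hz hw hd => ?_⟩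
  obtain ⟨R, i⟩ := p
  show |Av R (F i) z - Av R (F i) w| ≤ ε
  rcases le_total 0 R with hR | hR
  · exact key i R z w hR hz hw hd
  · have h1 := key i (-R) z w (by linarith) hz hw hd
    rwa [Av_neg, Av_neg] at h1

/-- A continuous invariant function is bounded and uniformly continuous. -/
theorem unif_of_inv {Γ : Type*} [Group Γ] {a : Γ → ℂ → ℂ} (hF : Fuchs a) {u : ℂ → ℝ}
    (hu : ContinuousOn u (ball 0 1)) (hinv : ∀ γ z, ‖z‖ < 1 → u (a γ z) = u z) :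
    UEC (fun _ : Unit => u) ∧ UBd (fun _ : Unit => u) := by
  obtain ⟨r, hr0, hr, hcpt⟩ := hF.cpt
  obtain ⟨r', hr', hrad⟩ := exists_radius hr 1
  constructor
  · have hsub : closedBall (0 : ℂ) r' ⊆ ball 0 1 := closedBall_subset_ball hr'
    have hunif : UniformContinuousOn u (closedBall 0 r') :=
      (isCompact_closedBall 0 r').uniformContinuousOn_of_continuous (hu.mono hsub)
    intro ε hε
    obtain ⟨δ, hδ, h⟩ := Metric.uniformContinuousOn_iff.1 hunif ε hε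
    refine ⟨min (δ / 2) 1, lt_min (half_pos hδ) one_pos, fun _ z w hz hw hd => ?_⟩
    obtain ⟨γ, hγ⟩ := hcpt z hz
    have hz' := hF.lt γ z hz
    have hw' := hF.lt γ w hw
    have e := hF.dh_eq γ hz hw
    have h1 : ‖a γ w‖ ≤ r' := by
      refine hrad (a γ z) (a γ w) hγ hw' ?_
      rw [e]
      exact hd.trans (min_le_right _ _)
    have h2 : ‖a γ z‖ ≤ r' := by
      refine hrad (a γ z) (a γ z) hγ hz' ?_
      rw [dh_self]
      exact zero_le_one
    have h3 : dist (a γ z) (a γ w) < δ := by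
      rw [dist_eq_norm]
      have h4 := norm_sub_le_dh hz' hw'
      rw [e] at h4
      have h5 : ‖a γ z - a γ w‖ ≤ δ / 2 := h4.trans (hd.trans (min_le_left _ _))
      linarith
    have h6 := h (a γ z) (by rwa [mem_closedBall_zero_iff]) (a γ w)
      (by rwa [mem_closedBall_zero_iff]) h3
    rw [hinv γ z hz, hinv γ w hw, Real.dist_eq] at h6
    exact h6.le
  · have hsub : closedBall (0 : ℂ) r ⊆ ball 0 1 := closedBall_subset_ball hr
    obtain ⟨B, hB⟩ := (isCompact_closedBall (0 : ℂ) r).exists_bound_of_continuousOn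
      (hu.mono hsub)
    refine ⟨B, fun _ z hz => ?_⟩
    obtain ⟨γ, hγ⟩ := hcpt z hz
    have h1 := hB (a γ z) (by rwa [mem_closedBall_zero_iff])
    rwa [hinv γ z hz, Real.norm_eq_abs] at h1

end Pool.Agent.MP27775c.AHL
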