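import Mathlib
import Pool.Agent.Lib.MP_27775c_an_AHL.Base

/-!
Ultrafilter limits of bounded sequences.
-/

set_option autoImplicit false
set_option linter.unusedSectionVars false

open MeasureTheory Metric Filter Topology Set

namespace Pool.Agent.MP27775c.AHL

variable {x y : ℕ → ℝ} {B c : ℝ}

theorem tendsto_UL (h : ∀ n, |x n| ≤ B) :
    Tendsto x (hyperfilter ℕ : Filter ℕ) (𝓝 (UL x)) := by
  have h1 : ((hyperfilter ℕ).map x : Filter ℝ) ≤ 𝓟 (Icc (-B) B) := by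
    rw [le_principal_iff]
    show x ⁻¹' (Icc (-B) B) ∈ (hyperfilter ℕ : Filter ℕ)
    exact Filter.univ_mem' fun n => abs_le.1 (h n)
  obtain ⟨a, -, ha⟩ := isCompact_Icc.ultrafilter_le_nhds ((hyperfilter ℕ).map x) h1
  have h2 : Tendsto x (hyperfilter ℕ : Filter ℕ) (𝓝 a) := ha
  exact tendsto_nhds_limUnder ⟨a, h2⟩

theorem UL_eq (h : Tendsto x (hyperfilter ℕ : Filter ℕ) (𝓝 c)) : UL x = c :=
  h.limUnder_eq

theorem UL_eq_of_atTop (h : Tendsto x atTop (𝓝 c)) : UL x = c :=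
  UL_eq (h.mono_left Nat.hyperfilter_le_atTop)

theorem UL_mono (hx : ∀ n, |x n| ≤ B) (hy : ∀ n, |y n| ≤ B) (h : ∀ n, x n ≤ y n) :
    UL x ≤ UL y :=
  le_of_tendsto_of_tendsto (tendsto_UL hx) (tendsto_UL hy) (Filter.Eventually.of_forall h)

theorem abs_UL_le (h : ∀ n, |x n| ≤ B) : |UL x| ≤ B :=
  le_of_tendsto (tendsto_UL h).abs (Filter.Eventually.of_forall h)

theorem abs_UL_sub_le (hx : ∀ n, |x n| ≤ B) (hy : ∀ n, |y n| ≤ B) {ε : ℝ}
    (h : ∀ᶠ n in (hyperfilter ℕ : Filter ℕ), |x n - y n| ≤ ε) : |UL x - UL y| ≤ ε :=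
  le_of_tendsto ((tendsto_UL hx).sub (tendsto_UL hy)).abs h

/-- Interchange of the ultrafilter limit and of an integral, for equicontinuous functions. -/
theorem UL_integral {G : ℕ → ℝ → ℝ} {p q : ℝ} (hpq : p ≤ q)
    (hB : ∀ n, ∀ s ∈ Icc p q, |G n s| ≤ B)
    (hG : ∀ ε : ℝ, 0 < ε → ∃ δ : ℝ, 0 < δ ∧ ∀ n, ∀ s ∈ Icc p q, ∀ t ∈ Icc p q, |s - t| ≤ δ →
      |G n s - G n t| ≤ ε) :
    ContinuousOn (fun s => UL (fun n => G n s)) (Icc p q) ∧
    Tendsto (fun n => ∫ s in p..q, G n s) (hyperfilter ℕ : Filter ℕ)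
      (𝓝 (∫ s in p..q, UL (fun n => G n s))) := by
  have hcg : ∀ ε : ℝ, 0 < ε → ∃ δ : ℝ, 0 < δ ∧ ∀ s ∈ Icc p q, ∀ t ∈ Icc p q, |s - t| ≤ δ →
      |UL (fun n => G n s) - UL (fun n => G n t)| ≤ ε := by
    intro ε hε
    obtain ⟨δ, hδ, h⟩ := hG ε hε
    refine ⟨δ, hδ, fun s hs t ht hst => ?_⟩
    exact abs_UL_sub_le (fun n => hB n s hs) (fun n => hB n t ht)
      (Filter.Eventually.of_forall fun n => h n s hs t ht hst)
  have hco : ∀ f : ℝ → ℝ, (∀ ε : ℝ, 0 < ε → ∃ δ : ℝ, 0 < δ ∧ ∀ s ∈ Icc p q, ∀ t ∈ Icc p q,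
      |s - t| ≤ δ → |f s - f t| ≤ ε) → ContinuousOn f (Icc p q) := by
    intro f hf
    rw [Metric.continuousOn_iff]
    intro t ht ε hε
    obtain ⟨δ, hδ, h⟩ := hf (ε / 2) (by positivity)
    refine ⟨δ, hδ, fun s hs hst => ?_⟩
    rw [Real.dist_eq] at hst ⊢
    exact lt_of_le_of_lt (h s hs t ht hst.le) (by linarith)
  have hgc := hco _ hcg
  refine ⟨hgc, ?_⟩
  rw [Metric.tendsto_nhds]
  intro ε hε
  set e : ℝ := ε / (3 * (q - p) + 1) with he
  have hqp : 0 ≤ q - p := sub_nonneg.2 hpq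
  have he0 : 0 < e := by positivity
  obtain ⟨δ, hδ, hδG⟩ := hG e he0
  obtain ⟨δ', hδ', hδg⟩ := hcg e he0
  obtain ⟨T, hT, hTf, hTc⟩ := Metric.finite_approx_of_totallyBounded
    (isCompact_Icc (a := p) (b := q)).totallyBounded (min δ δ') (lt_min hδ hδ')
  have hev : ∀ᶠ n in (hyperfilter ℕ : Filter ℕ), ∀ s ∈ T,
      |G n s - UL (fun n => G n s)| ≤ e := by
    rw [Filter.eventually_all_finite hTf]
    intro s hs
    have h1 := tendsto_UL (x := fun n => G n s) (fun n => hB n s (hT hs))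
    rw [Metric.tendsto_nhds] at h1
    filter_upwards [h1 e he0] with n hn
    rw [Real.dist_eq] at hn
    exact hn.le
  filter_upwards [hev] with n hn
  have hGc : ContinuousOn (G n) (Icc p q) := hco _ fun ε' hε' => by
    obtain ⟨d, hd, h⟩ := hG ε' hε'
    exact ⟨d, hd, fun s hs t ht hst => h n s hs t ht hst⟩
  have hpt : ∀ s ∈ Icc p q, |G n s - UL (fun n => G n s)| ≤ 3 * e := by
    intro s hs
    obtain ⟨t, ht, hst⟩ := mem_iUnion₂.1 (hTc hs)
    rw [mem_ball, Real.dist_eq] at hst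
    have h1 := hδG n s hs t (hT ht) (hst.le.trans (min_le_left _ _))
    have h2 := hδg s hs t (hT ht) (hst.le.trans (min_le_right _ _))
    have h3 := hn t ht
    rw [abs_le] at h1 h2 h3 ⊢
    constructor <;> linarith
  have hGi : IntervalIntegrable (G n) volume p q := by
    apply ContinuousOn.intervalIntegrable
    rwa [uIcc_of_le hpq]
  have hgi : IntervalIntegrable (fun s => UL (fun n => G n s)) volume p q := by
    apply ContinuousOn.intervalIntegrable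
    rwa [uIcc_of_le hpq]
  rw [Real.dist_eq, ← intervalIntegral.integral_sub hGi hgi]
  have h4 := intervalIntegral.norm_integral_le_of_norm_le_const (a := p) (b := q) (C := 3 * e)
    (f := fun s => G n s - UL (fun n => G n s)) (fun s hs => by
      rw [uIoc_of_le hpq] at hs
      exact hpt s ⟨hs.1.le, hs.2⟩)
  rw [Real.norm_eq_abs] at h4
  refine lt_of_le_of_lt h4 ?_
  rw [abs_of_nonneg hqp]
  have h5 : e * (3 * (q - p) + 1) = ε := by
    rw [he]
    field_simp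
  nlinarith

end Pool.Agent.MP27775c.AHL
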