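import Mathlib
import Pool.Agent.Lib.MP_27775c_an_AHL.Ul
import Pool.Agent.Lib.MP_27775c_an_AHL.Eq

/-!
Ultrafilter limits of equicontinuous families of functions on the disc.
-/

set_option autoImplicit false
set_option linter.unusedSectionVars false

open MeasureTheory Metric Filter Topology Set

namespace Pool.Agent.MP27775c.AHL

theorem UEC_UL {ι : Type*} {F : ι → ℕ → ℂ → ℝ} (hU : UEC (fun p : ι × ℕ => F p.1 p.2))
    (hB : UBd (fun p : ι × ℕ => F p.1 p.2)) : UEC (fun i z => UL (fun n => F i n z)) := by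
  obtain ⟨B, hBd⟩ := hB
  intro ε hε
  obtain ⟨δ, hδ, h⟩ := hU ε hε
  refine ⟨δ, hδ, fun i z w hz hw hd => ?_⟩
  exact abs_UL_sub_le (B := B) (fun n => hBd (i, n) z hz) (fun n => hBd (i, n) w hw)
    (Eventually.of_forall fun n => h (i, n) z w hz hw hd)

theorem UBd_UL {ι : Type*} {F : ι → ℕ → ℂ → ℝ} (hB : UBd (fun p : ι × ℕ => F p.1 p.2)) :
    UBd (fun i z => UL (fun n => F i n z)) := by
  obtain ⟨B, hBd⟩ := hB
  exact ⟨B, fun i z hz => abs_UL_le fun n => hBd (i, n) z hz⟩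

/-- The averages commute with the ultrafilter limit. -/
theorem tendsto_Av_UL {F : ℕ → ℂ → ℝ} (hU : UEC F) (hB : UBd F) (S : ℝ) {z : ℂ} (hz : ‖z‖ < 1) :
    Tendsto (fun n => Av S (F n) z) (hyperfilter ℕ : Filter ℕ)
      (𝓝 (Av S (fun w => UL (fun n => F n w)) z)) := by
  obtain ⟨B, hBd⟩ := hB
  have hρ : |Real.tanh (S / 2)| < 1 := Real.abs_tanh_lt_one _
  have hρ2 : 0 < 1 - |Real.tanh (S / 2)| ^ 2 := by
    have := abs_nonneg (Real.tanh (S / 2))
    nlinarith
  have hmain := (UL_integral (G := fun n θ => F n (mob z (circleMap 0 (Real.tanh (S / 2)) θ)))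
    (p := 0) (q := 2 * Real.pi) (B := B) (by positivity)
    (fun n θ _ => hBd n _ (mob_circle_lt hz S θ)) (fun ε hε => by
      obtain ⟨δ, hδ, h⟩ := hU ε hε
      refine ⟨δ * (1 - |Real.tanh (S / 2)| ^ 2) / 2, by positivity, fun n s _ t _ hst => ?_⟩
      refine h n _ _ (mob_circle_lt hz S s) (mob_circle_lt hz S t) ?_
      rw [dh_mob hz (norm_circleMap_tanh_lt S s) (norm_circleMap_tanh_lt S t)]
      refine (dh_le hρ (norm_circleMap_zero _ _).le (norm_circleMap_zero _ _).le).trans ?_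
      rw [div_le_iff₀ hρ2]
      have h1 : ‖circleMap 0 (Real.tanh (S / 2)) s - circleMap 0 (Real.tanh (S / 2)) t‖ ≤
          |Real.tanh (S / 2)| * |s - t| := by
        have h2 := (lipschitzWith_circleMap 0 (Real.tanh (S / 2))).dist_le_mul s t
        rwa [dist_eq_norm, Real.dist_eq, Real.coe_nnabs] at h2
      have h3 : |Real.tanh (S / 2)| * |s - t| ≤ 1 * |s - t| :=
        mul_le_mul_of_nonneg_right hρ.le (abs_nonneg _)
      linarith)).2
  simp only [Av_eq]
  exact hmain.const_mul _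

/-- For a uniformly bounded, equicontinuous sequence the convergence along the ultrafilter is uniform
on compact sets. -/
theorem UL_unif {F : ℕ → ℂ → ℝ} (hU : UEC F) (hB : UBd F) {r ε : ℝ} (hr : r < 1) (hε : 0 < ε) :
    ∀ᶠ n in (hyperfilter ℕ : Filter ℕ), ∀ z : ℂ, ‖z‖ ≤ r →
      |F n z - UL (fun m => F m z)| ≤ ε := by
  obtain ⟨B, hBd⟩ := hB
  rcases lt_or_ge r 0 with hr0 | hr0
  · exact Eventually.of_forall fun n z hz => absurd (norm_nonneg z) (not_le.2 (hz.trans_lt hr0))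
  have hr2 : 0 < 1 - r ^ 2 := by nlinarith
  obtain ⟨δ, hδ, h⟩ := hU (ε / 3) (by positivity)
  have hδ2 : 0 < δ * (1 - r ^ 2) / 2 := by positivity
  obtain ⟨t, hts, htf, hcov⟩ := (isCompact_closedBall (0 : ℂ) r).finite_cover_balls hδ2
  have hlt : ∀ z : ℂ, ‖z‖ ≤ r → ‖z‖ < 1 := fun z hz => hz.trans_lt hr
  have ht : ∀ x ∈ t, ‖x‖ ≤ r := fun x hx => mem_closedBall_zero_iff.1 (hts hx)
  have hev : ∀ᶠ n in (hyperfilter ℕ : Filter ℕ), ∀ x ∈ t, |F n x - UL (fun m => F m x)| ≤ ε / 3 := by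
    rw [Filter.eventually_all_finite htf]
    intro x hx
    have h1 := tendsto_UL (x := fun m => F m x) (B := B) fun n => hBd n x (hlt x (ht x hx))
    have h2 := (Metric.tendsto_nhds.1 h1) (ε / 3) (by positivity)
    filter_upwards [h2] with n hn
    rw [Real.dist_eq] at hn
    exact hn.le
  filter_upwards [hev] with n hn z hz
  have hzc : z ∈ ⋃ x ∈ t, ball x (δ * (1 - r ^ 2) / 2) := hcov (mem_closedBall_zero_iff.2 hz)
  rw [Set.mem_iUnion₂] at hzc
  obtain ⟨x, hxt, hzx⟩ := hzc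
  rw [mem_ball, dist_eq_norm] at hzx
  have hd : dh z x ≤ δ := by
    refine (dh_le hr hz (ht x hxt)).trans ?_
    rw [div_le_iff₀ hr2]
    linarith
  have h1 := h n z x (hlt z hz) (hlt x (ht x hxt)) hd
  have h2 := hn x hxt
  have h3 : |UL (fun m => F m z) - UL (fun m => F m x)| ≤ ε / 3 :=
    abs_UL_sub_le (B := B) (fun m => hBd m z (hlt z hz)) (fun m => hBd m x (hlt x (ht x hxt)))
      (Eventually.of_forall fun m => h m z x (hlt z hz) (hlt x (ht x hxt)) hd)
  rw [abs_le] at h1 h2 h3 ⊢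
  constructor <;> linarith [h1.1, h1.2, h2.1, h2.2, h3.1, h3.2]

end Pool.Agent.MP27775c.AHL
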