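import Mathlib
import Pool.Agent.Lib.MP_27775c_an_AHL.Uu

/-!
The Cesaro limit of the averages of a bounded uniformly continuous function.
-/

set_option autoImplicit false
set_option linter.unusedSectionVars false

open MeasureTheory Metric Filter Topology Set

namespace Pool.Agent.MP27775c.AHL

variable {u v : ℂ → ℝ} {z : ℂ} {B : ℝ}

private theorem ce_cont (hu : ContinuousOn u (ball 0 1)) (hz : ‖z‖ < 1) :
    Continuous (fun t : ℝ => Av t u z) :=
  (continuousOn_Av hu).comp_continuous (f := fun t : ℝ => (t, z)) (by fun_prop) fun _ => hz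

private theorem ce_pos (n : ℕ) : (0 : ℝ) < (n : ℝ) + 1 := by positivity

theorem Ces_bound (hu : ContinuousOn u (ball 0 1)) (hB : ∀ w, ‖w‖ < 1 → |u w| ≤ B) (hz : ‖z‖ < 1)
    (n : ℕ) : |((n : ℝ) + 1)⁻¹ * ∫ t in (0 : ℝ)..((n : ℝ) + 1), Av t u z| ≤ B := by
  have hT := ce_pos n
  have h1 : ‖∫ t in (0 : ℝ)..((n : ℝ) + 1), Av t u z‖ ≤ B * |((n : ℝ) + 1) - 0| :=
    intervalIntegral.norm_integral_le_of_norm_le_const fun t _ => abs_Av_le hu hz hB t
  rw [sub_zero, abs_of_pos hT, Real.norm_eq_abs] at h1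
  rw [abs_mul, abs_of_pos (inv_pos.2 hT), inv_mul_le_iff₀ hT]
  linarith

theorem abs_Ces_le (hu : ContinuousOn u (ball 0 1)) (hB : ∀ w, ‖w‖ < 1 → |u w| ≤ B)
    (hz : ‖z‖ < 1) : |Ces u z| ≤ B :=
  abs_UL_le (Ces_bound hu hB hz)

theorem Ces_const (c : ℝ) (z : ℂ) : Ces (fun _ => c) z = c := by
  unfold Ces
  refine UL_eq ?_
  have h : (fun n : ℕ => ((n : ℝ) + 1)⁻¹ * ∫ t in (0 : ℝ)..((n : ℝ) + 1), Av t (fun _ => c) z) =
      fun _ => c := by
    funext n
    have hT := (ce_pos n).ne'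
    simp only [Av_const, intervalIntegral.integral_const, sub_zero, smul_eq_mul]
    rw [← mul_assoc, inv_mul_cancel₀ hT, one_mul]
  rw [h]
  exact tendsto_const_nhds

theorem Ces_add (hu : ContinuousOn u (ball 0 1)) (hv : ContinuousOn v (ball 0 1))
    (hB : ∀ w, ‖w‖ < 1 → |u w| ≤ B) (hB' : ∀ w, ‖w‖ < 1 → |v w| ≤ B) (hz : ‖z‖ < 1) :
    Ces (fun w => u w + v w) z = Ces u z + Ces v z := by
  have h1 := (tendsto_UL (Ces_bound hu hB hz)).add (tendsto_UL (Ces_bound hv hB' hz))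
  refine UL_eq (h1.congr fun n => ?_)
  have h2 : ∀ t : ℝ, Av t (fun w => u w + v w) z = Av t u z + Av t v z :=
    fun t => Av_add hu hv hz t
  simp only [h2]
  rw [intervalIntegral.integral_add ((ce_cont hu hz).intervalIntegrable _ _)
    ((ce_cont hv hz).intervalIntegrable _ _), mul_add]

theorem Ces_const_mul (hu : ContinuousOn u (ball 0 1)) (hB : ∀ w, ‖w‖ < 1 → |u w| ≤ B)
    (c : ℝ) (hz : ‖z‖ < 1) : Ces (fun w => c * u w) z = c * Ces u z := by
  have h1 := (tendsto_UL (Ces_bound hu hB hz)).const_mul c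
  refine UL_eq (h1.congr fun n => ?_)
  have h2 : ∀ t : ℝ, Av t (fun w => c * u w) z = c * Av t u z :=
    fun t => Av_const_mul c u t z
  simp only [h2]
  rw [intervalIntegral.integral_const_mul]
  ring

theorem Ces_nonneg (hu : ContinuousOn u (ball 0 1)) (hB : ∀ w, ‖w‖ < 1 → |u w| ≤ B)
    (h : ∀ w, ‖w‖ < 1 → 0 ≤ u w) (hz : ‖z‖ < 1) : 0 ≤ Ces u z := by
  have hB0 : 0 ≤ B := (abs_nonneg _).trans (hB z hz)
  have h0 : UL (fun _ => (0 : ℝ)) = 0 := UL_eq tendsto_const_nhds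
  have h1 := UL_mono (x := fun _ => 0) (fun _ => by simpa using hB0) (Ces_bound hu hB hz)
    (fun n => by
      refine mul_nonneg (inv_nonneg.2 (ce_pos n).le)
        (intervalIntegral.integral_nonneg (ce_pos n).le fun t _ => ?_)
      have h2 := Av_mono (u := fun _ => 0) (v := u) continuousOn_const hu hz h t
      rwa [Av_const] at h2)
  rwa [h0] at h1

theorem Ces_fuchs {Γ : Type*} [Group Γ] {a : Γ → ℂ → ℂ} (hF : Fuchs a) (γ : Γ) (u : ℂ → ℝ)
    (hz : ‖z‖ < 1) : Ces (fun w => u (a γ w)) z = Ces u (a γ z) := by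
  have h2 : ∀ t : ℝ, Av t (fun w => u (a γ w)) z = Av t u (a γ z) :=
    fun t => Av_fuchs hF γ hz u t
  unfold Ces
  simp only [h2]

end Pool.Agent.MP27775c.AHL
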