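import Mathlib
import Pool.Agent.Lib.MP_27775c_an_AHL.Ce

/-!
The Cesaro limit has the mean value property.
-/

set_option autoImplicit false
set_option linter.unusedSectionVars false

open MeasureTheory Metric Filter Topology Set

namespace Pool.Agent.MP27775c.AHL

private theorem cf_swap {F : ℝ → ℝ → ℝ} (hF : Continuous (Function.uncurry F)) (a b c d : ℝ) :
    ∫ x in a..b, ∫ y in c..d, F x y = ∫ y in c..d, ∫ x in a..b, F x y := by
  apply intervalIntegral_intervalIntegral_swap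
  have h1 : IntegrableOn (Function.uncurry F) (uIcc a b ×ˢ uIcc c d) :=
    hF.continuousOn.integrableOn_compact (isCompact_uIcc.prod isCompact_uIcc)
  exact h1.mono_set (prod_mono uIoc_subset_uIcc uIoc_subset_uIcc)

private theorem cf_shift {a : ℝ → ℝ} (ha : Continuous a) {B : ℝ} (hB : ∀ t, |a t| ≤ B)
    (b N : ℝ) : |(∫ t in (0 : ℝ)..N, a (t + b)) - ∫ t in (0 : ℝ)..N, a t| ≤ 2 * B * |b| := by
  rw [intervalIntegral.integral_comp_add_right, zero_add,
    intervalIntegral.integral_interval_sub_interval_comm' (ha.intervalIntegrable _ _)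
      (ha.intervalIntegrable _ _) (ha.intervalIntegrable _ _)]
  have h1 : ‖∫ x in N..N + b, a x‖ ≤ B * |N + b - N| :=
    intervalIntegral.norm_integral_le_of_norm_le_const fun x _ => hB x
  have h2 : ‖∫ x in (0 : ℝ)..b, a x‖ ≤ B * |b - 0| :=
    intervalIntegral.norm_integral_le_of_norm_le_const fun x _ => hB x
  rw [add_sub_cancel_left] at h1
  rw [sub_zero] at h2
  rw [Real.norm_eq_abs] at h1 h2
  have h3 := abs_sub (∫ x in N..N + b, a x) (∫ x in (0 : ℝ)..b, a x)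
  linarith

private theorem cf_fix {a : ℝ → ℝ} (ha : Continuous a) {B : ℝ} (hB : ∀ t, |a t| ≤ B)
    {ρ : ℝ → ℝ} (hρ : Continuous ρ) {b ε R₀ N : ℝ} (hR₀ : 0 ≤ R₀) (hN : R₀ ≤ N)
    (h : ∀ t, R₀ ≤ t → |a (ρ t) - a (t + b)| ≤ ε) :
    |(∫ t in (0 : ℝ)..N, a (ρ t)) - ∫ t in (0 : ℝ)..N, a t| ≤
      2 * B * R₀ + ε * (N - R₀) + 2 * B * |b| := by
  have hc1 : Continuous (fun t => a (ρ t)) := ha.comp hρ
  have hc2 : Continuous (fun t => a (t + b)) := ha.comp (continuous_id.add continuous_const)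
  have hc3 : Continuous (fun t => a (ρ t) - a (t + b)) := hc1.sub hc2
  have h1 := cf_shift ha hB b N
  have h2 : (∫ t in (0 : ℝ)..N, a (ρ t)) - (∫ t in (0 : ℝ)..N, a (t + b)) =
      (∫ t in (0 : ℝ)..R₀, (a (ρ t) - a (t + b))) + ∫ t in R₀..N, (a (ρ t) - a (t + b)) := by
    rw [intervalIntegral.integral_add_adjacent_intervals (hc3.intervalIntegrable _ _)
      (hc3.intervalIntegrable _ _), intervalIntegral.integral_sub (hc1.intervalIntegrable _ _)
      (hc2.intervalIntegrable _ _)]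
  have h3 : ‖∫ t in (0 : ℝ)..R₀, (a (ρ t) - a (t + b))‖ ≤ 2 * B * |R₀ - 0| := by
    refine intervalIntegral.norm_integral_le_of_norm_le_const fun x _ => ?_
    rw [Real.norm_eq_abs]
    have := abs_sub (a (ρ x)) (a (x + b))
    have h4 := hB (ρ x)
    have h5 := hB (x + b)
    linarith
  have h4 : ‖∫ t in R₀..N, (a (ρ t) - a (t + b))‖ ≤ ε * |N - R₀| := by
    refine intervalIntegral.norm_integral_le_of_norm_le_const fun x hx => ?_
    rw [uIoc_of_le hN] at hx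
    exact h x hx.1.le
  rw [sub_zero, abs_of_nonneg hR₀, Real.norm_eq_abs] at h3
  rw [abs_of_nonneg (sub_nonneg.2 hN), Real.norm_eq_abs] at h4
  have h5 := abs_add_le (∫ t in (0 : ℝ)..R₀, (a (ρ t) - a (t + b)))
    (∫ t in R₀..N, (a (ρ t) - a (t + b)))
  rw [← h2] at h5
  have h6 := abs_add_le ((∫ t in (0 : ℝ)..N, a (ρ t)) - (∫ t in (0 : ℝ)..N, a (t + b)))
    ((∫ t in (0 : ℝ)..N, a (t + b)) - ∫ t in (0 : ℝ)..N, a t)
  rw [sub_add_sub_cancel] at h6
  linarith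

private theorem cf_circle {z : ℂ} (hz : ‖z‖ < 1) (S : ℝ) :
    Continuous (fun θ : ℝ => mob z (circleMap 0 (Real.tanh (S / 2)) θ)) := by
  have h1 := continuous_circle (u := Complex.re) Complex.continuous_re.continuousOn hz S
  have h2 := continuous_circle (u := Complex.im) Complex.continuous_im.continuousOn hz S
  have h3 := (Complex.continuous_ofReal.comp h1).add
    ((Complex.continuous_ofReal.comp h2).mul (continuous_const (y := Complex.I)))
  refine h3.congr fun θ => ?_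
  exact Complex.re_add_im _

private theorem cf_av_cont {u : ℂ → ℝ} (hu : ContinuousOn u (ball 0 1)) {z : ℂ} (hz : ‖z‖ < 1) :
    Continuous (fun t => Av t u z) := by
  have h := continuousOn_Av hu
  have h2 : Continuous (fun t : ℝ => ((t, z) : ℝ × ℂ)) := continuous_id.prodMk continuous_const
  have h4 : ∀ t : ℝ, (fun t : ℝ => ((t, z) : ℝ × ℂ)) t ∈ {p : ℝ × ℂ | ‖p.2‖ < 1} := by
    intro t
    exact hz
  have h3 := ContinuousOn.comp_continuous h h2 h4
  exact h3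

private theorem cf_av2_cont {u : ℂ → ℝ} (hu : ContinuousOn u (ball 0 1)) {z : ℂ} (hz : ‖z‖ < 1)
    (S : ℝ) : Continuous (Function.uncurry (fun θ t : ℝ =>
      Av t u (mob z (circleMap 0 (Real.tanh (S / 2)) θ)))) := by
  have h := continuousOn_Av hu
  have h2 : Continuous (fun p : ℝ × ℝ =>
      (p.2, mob z (circleMap 0 (Real.tanh (S / 2)) p.1))) :=
    continuous_snd.prodMk ((cf_circle hz S).comp continuous_fst)
  have h4 : ∀ p : ℝ × ℝ, (fun p : ℝ × ℝ =>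
      (p.2, mob z (circleMap 0 (Real.tanh (S / 2)) p.1))) p ∈ {p : ℝ × ℂ | ‖p.2‖ < 1} := by
    intro p
    exact mob_circle_lt hz S p.1
  have h3 := ContinuousOn.comp_continuous h h2 h4
  exact h3

/-- A continuous function of the radius, composed. -/
private theorem cf_rr_cont {a : ℝ → ℝ} (ha : Continuous a) (S : ℝ) :
    Continuous (Function.uncurry (fun t ψ : ℝ => a (rr S t ψ))) ∧
    Continuous (Function.uncurry (fun ψ t : ℝ => a (rr S t ψ))) := by
  have h0 : Continuous (fun p : ℝ × ℝ => ((S, p.1, p.2) : ℝ × ℝ × ℝ)) :=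
    continuous_const.prodMk (continuous_fst.prodMk continuous_snd)
  have h0' : Continuous (fun p : ℝ × ℝ => ((S, p.2, p.1) : ℝ × ℝ × ℝ)) :=
    continuous_const.prodMk (continuous_snd.prodMk continuous_fst)
  have h1 := ha.comp (continuous_rr.comp h0)
  have h2 := ha.comp (continuous_rr.comp h0')
  exact ⟨h1, h2⟩

private theorem cf_rr_t (S ψ : ℝ) : Continuous (fun t : ℝ => rr S t ψ) := by
  have h0 : Continuous (fun t : ℝ => ((S, t, ψ) : ℝ × ℝ × ℝ)) :=
    continuous_const.prodMk (continuous_id.prodMk continuous_const)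
  have h1 := continuous_rr.comp h0
  exact h1

/-- The average of the Cesaro means, as an average over `ψ`. -/
private theorem cf_fubini {u : ℂ → ℝ} (hu : ContinuousOn u (ball 0 1)) {z : ℂ} (hz : ‖z‖ < 1)
    (S N : ℝ) :
    Av S (fun w => N⁻¹ * ∫ t in (0 : ℝ)..N, Av t u w) z =
      (2 * Real.pi)⁻¹ * ∫ ψ in (0 : ℝ)..(2 * Real.pi),
        N⁻¹ * ∫ t in (0 : ℝ)..N, Av (rr S t ψ) u z := by
  have hAc := cf_av_cont hu hz
  rw [Av_const_mul, Av_eq]
  have hsw := cf_swap (cf_av2_cont hu hz S) 0 (2 * Real.pi) 0 N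
  rw [hsw]
  have h1 : ∀ t, (∫ θ in (0 : ℝ)..(2 * Real.pi),
      Av t u (mob z (circleMap 0 (Real.tanh (S / 2)) θ))) =
      ∫ ψ in (0 : ℝ)..(2 * Real.pi), Av (rr S t ψ) u z := by
    intro t
    have h2 := Av_Av hu hz S t
    rw [Av_eq] at h2
    have hpi : (2 * Real.pi)⁻¹ ≠ 0 := inv_ne_zero (by positivity)
    exact mul_left_cancel₀ hpi h2
  have h3 : (∫ t in (0 : ℝ)..N, ∫ θ in (0 : ℝ)..(2 * Real.pi),
      Av t u (mob z (circleMap 0 (Real.tanh (S / 2)) θ))) =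
      ∫ t in (0 : ℝ)..N, ∫ ψ in (0 : ℝ)..(2 * Real.pi), Av (rr S t ψ) u z := by
    congr 1
    funext t
    exact h1 t
  rw [h3]
  have hc : Continuous (Function.uncurry (fun t ψ : ℝ => Av (rr S t ψ) u z)) :=
    (cf_rr_cont hAc S).1
  have hsw2 := cf_swap hc 0 N 0 (2 * Real.pi)
  rw [hsw2, intervalIntegral.integral_const_mul, ← mul_assoc, ← mul_assoc,
    mul_comm N⁻¹ (2 * Real.pi)⁻¹]

private theorem cf_est {u : ℂ → ℝ} (hU : UEC (fun _ : Unit => u)) {B : ℝ}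
    (hB : ∀ w, ‖w‖ < 1 → |u w| ≤ B) {S : ℝ} (hS : 0 ≤ S) {z : ℂ} (hz : ‖z‖ < 1) {ε : ℝ}
    (hε : 0 < ε) : ∃ C R₀ : ℝ, 0 ≤ R₀ ∧ ∀ N : ℝ, R₀ ≤ N → 0 < N →
      |Av S (fun w => N⁻¹ * ∫ t in (0 : ℝ)..N, Av t u w) z - N⁻¹ * ∫ t in (0 : ℝ)..N, Av t u z|
        ≤ ε + C / N := by
  have hu : ContinuousOn u (ball 0 1) := hU.continuousOn ()
  have hAc := cf_av_cont hu hz
  have hAB : ∀ t, |Av t u z| ≤ B := fun t => abs_Av_le hu hz hB t
  have hB0 : 0 ≤ B := (abs_nonneg _).trans (hAB 0)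
  obtain ⟨δ, hδ, hrad⟩ := hU.radius ε hε
  obtain ⟨R₀, hR₀, hbs⟩ := rr_sub_tendsto hS hδ
  refine ⟨2 * B * R₀ + 2 * B * S, R₀, hR₀, fun N hN hN0 => ?_⟩
  have hfix : ∀ ψ, |N⁻¹ * (∫ t in (0 : ℝ)..N, Av (rr S t ψ) u z) -
      N⁻¹ * ∫ t in (0 : ℝ)..N, Av t u z| ≤ ε + (2 * B * R₀ + 2 * B * S) / N := by
    intro ψ
    have hh : ∀ t, R₀ ≤ t → |Av (rr S t ψ) u z - Av (t + bs S ψ) u z| ≤ ε := by
      intro t ht
      refine hrad () (rr S t ψ) (t + bs S ψ) z hz ?_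
      have h9 := hbs t ht ψ
      rw [sub_sub] at h9
      exact h9
    have h1 := cf_fix (a := fun t => Av t u z) hAc hAB (cf_rr_t S ψ) hR₀ hN hh
    have h2 : 2 * B * |bs S ψ| ≤ 2 * B * S :=
      mul_le_mul_of_nonneg_left (abs_bs_le hS ψ) (by positivity)
    rw [← mul_sub, abs_mul, abs_of_pos (inv_pos.2 hN0)]
    have h3 : N⁻¹ * |(∫ t in (0 : ℝ)..N, Av (rr S t ψ) u z) - ∫ t in (0 : ℝ)..N, Av t u z| ≤
        N⁻¹ * (ε * N + (2 * B * R₀ + 2 * B * S)) := by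
      refine mul_le_mul_of_nonneg_left ?_ (inv_pos.2 hN0).le
      have h4 : 0 ≤ ε * R₀ := by positivity
      have h5 : ε * (N - R₀) = ε * N - ε * R₀ := by ring
      linarith
    refine h3.trans (le_of_eq ?_)
    field_simp
  have hcont : Continuous (fun ψ => N⁻¹ * (∫ t in (0 : ℝ)..N, Av (rr S t ψ) u z) -
      N⁻¹ * ∫ t in (0 : ℝ)..N, Av t u z) := by
    have h4 : Continuous (Function.uncurry (fun ψ t : ℝ => Av (rr S t ψ) u z)) :=
      (cf_rr_cont hAc S).2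
    have h5 := intervalIntegral.continuous_parametric_intervalIntegral_of_continuous'
      (μ := volume) h4 0 N
    exact (continuous_const.mul h5).sub continuous_const
  rw [cf_fubini hu hz S N]
  have hpi : (0 : ℝ) < 2 * Real.pi := by positivity
  have hcst : N⁻¹ * (∫ t in (0 : ℝ)..N, Av t u z) = (2 * Real.pi)⁻¹ *
      ∫ _ψ in (0 : ℝ)..(2 * Real.pi), N⁻¹ * ∫ t in (0 : ℝ)..N, Av t u z := by
    rw [intervalIntegral.integral_const, smul_eq_mul, sub_zero, ← mul_assoc,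
      inv_mul_cancel₀ hpi.ne', one_mul]
  have hcont1 : Continuous (fun ψ => N⁻¹ * (∫ t in (0 : ℝ)..N, Av (rr S t ψ) u z)) := by
    have h6 := hcont.add (continuous_const (y := N⁻¹ * ∫ t in (0 : ℝ)..N, Av t u z))
    refine h6.congr fun ψ => ?_
    exact sub_add_cancel _ _
  rw [hcst, ← mul_sub, ← intervalIntegral.integral_sub (hcont1.intervalIntegrable _ _)
    (continuous_const.intervalIntegrable _ _), abs_mul, abs_of_pos (inv_pos.2 hpi)]
  have h7 : ‖∫ ψ in (0 : ℝ)..(2 * Real.pi), (N⁻¹ * (∫ t in (0 : ℝ)..N, Av (rr S t ψ) u z) -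
      N⁻¹ * ∫ t in (0 : ℝ)..N, Av t u z)‖ ≤
      (ε + (2 * B * R₀ + 2 * B * S) / N) * |2 * Real.pi - 0| :=
    intervalIntegral.norm_integral_le_of_norm_le_const fun ψ _ => hfix ψ
  rw [sub_zero, abs_of_pos hpi, Real.norm_eq_abs] at h7
  calc (2 * Real.pi)⁻¹ * |∫ ψ in (0 : ℝ)..(2 * Real.pi),
        (N⁻¹ * (∫ t in (0 : ℝ)..N, Av (rr S t ψ) u z) - N⁻¹ * ∫ t in (0 : ℝ)..N, Av t u z)|
      ≤ (2 * Real.pi)⁻¹ * ((ε + (2 * B * R₀ + 2 * B * S) / N) * (2 * Real.pi)) :=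
        mul_le_mul_of_nonneg_left h7 (inv_pos.2 hpi).le
    _ = ε + (2 * B * R₀ + 2 * B * S) / N := by
        field_simp

theorem Ces_harm {u : ℂ → ℝ} (hU : UEC (fun _ : Unit => u)) (hB : UBd (fun _ : Unit => u)) :
    Harm (Ces u) := by
  obtain ⟨B, hB'⟩ := hB
  have hBu : ∀ w, ‖w‖ < 1 → |u w| ≤ B := fun w hw => hB' () w hw
  have hu : ContinuousOn u (ball 0 1) := hU.continuousOn ()
  let F : ℕ → ℂ → ℝ := fun n w => ((n : ℝ) + 1)⁻¹ * ∫ t in (0 : ℝ)..((n : ℝ) + 1), Av t u w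
  have hFB : ∀ n w, ‖w‖ < 1 → |F n w| ≤ B := fun n w hw => Ces_bound hu hBu hw n
  have hFU : UEC F := by
    intro ε hε
    obtain ⟨δ, hδ, h⟩ := UEC_Av hU ⟨B, hB'⟩ ε hε
    refine ⟨δ, hδ, fun n z w hz hw hd => ?_⟩
    have hN : (0 : ℝ) < (n : ℝ) + 1 := by positivity
    change |((n : ℝ) + 1)⁻¹ * (∫ t in (0 : ℝ)..((n : ℝ) + 1), Av t u z) -
      ((n : ℝ) + 1)⁻¹ * ∫ t in (0 : ℝ)..((n : ℝ) + 1), Av t u w| ≤ ε
    rw [← mul_sub, ← intervalIntegral.integral_sub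
      ((cf_av_cont hu hz).intervalIntegrable _ _) ((cf_av_cont hu hw).intervalIntegrable _ _),
      abs_mul, abs_of_pos (inv_pos.2 hN)]
    have h1 : ‖∫ t in (0 : ℝ)..((n : ℝ) + 1), (Av t u z - Av t u w)‖ ≤
        ε * |((n : ℝ) + 1) - 0| :=
      intervalIntegral.norm_integral_le_of_norm_le_const fun t _ => h (t, ()) z w hz hw hd
    rw [sub_zero, abs_of_pos hN, Real.norm_eq_abs] at h1
    calc ((n : ℝ) + 1)⁻¹ * |∫ t in (0 : ℝ)..((n : ℝ) + 1), (Av t u z - Av t u w)|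
        ≤ ((n : ℝ) + 1)⁻¹ * (ε * ((n : ℝ) + 1)) :=
          mul_le_mul_of_nonneg_left h1 (inv_pos.2 hN).le
      _ = ε := by field_simp
  have hFUB : UBd F := ⟨B, hFB⟩
  constructor
  · have h1 : UEC (fun p : Unit × ℕ => F p.2) := hFU.reindex Prod.snd
    have h2 : UBd (fun p : Unit × ℕ => F p.2) := ⟨B, fun p w hw => hFB p.2 w hw⟩
    have h3 := UEC_UL (F := fun (_ : Unit) (n : ℕ) => F n) h1 h2
    exact h3.continuousOn ()
  · intro S z hS hz
    have hx := tendsto_Av_UL hFU hFUB S hz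
    have hy := tendsto_UL (x := fun n => F n z) fun n => hFB n z hz
    have hd : Tendsto (fun n => |Av S (F n) z - F n z|) (hyperfilter ℕ : Filter ℕ)
        (𝓝 |Av S (Ces u) z - Ces u z|) := (hx.sub hy).abs
    have hle : ∀ ε : ℝ, 0 < ε → |Av S (Ces u) z - Ces u z| ≤ 2 * ε := by
      intro ε hε
      obtain ⟨C, R₀, hR₀, hest⟩ := cf_est hU hBu hS hz hε
      have hN : Tendsto (fun n : ℕ => (n : ℝ) + 1) atTop atTop :=
        tendsto_atTop_add_const_right _ _ tendsto_natCast_atTop_atTop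
      have h1 : ∀ᶠ n : ℕ in atTop, |Av S (F n) z - F n z| ≤ 2 * ε := by
        have h2 : Tendsto (fun n : ℕ => C / ((n : ℝ) + 1)) atTop (𝓝 0) :=
          tendsto_const_nhds.div_atTop hN
        filter_upwards [hN.eventually_ge_atTop R₀, h2.eventually_lt_const hε] with n hn hn2
        have h3 := hest ((n : ℝ) + 1) hn (by positivity)
        have h4 : |Av S (F n) z - F n z| ≤ ε + C / ((n : ℝ) + 1) := h3
        linarith
      exact le_of_tendsto hd (h1.filter_mono Nat.hyperfilter_le_atTop)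
    have h0 : |Av S (Ces u) z - Ces u z| ≤ 0 := by
      refine le_of_forall_pos_le_add fun ε hε => ?_
      have := hle (ε / 2) (half_pos hε)
      linarith
    have := abs_nonpos_iff.1 h0
    linarith

end Pool.Agent.MP27775c.AHL
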