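import Mathlib

/-!
Definitions for the final statement (with matrices and coordinate vectors): cocompact groups of
automorphisms of the disc, strongly irreducible and contracting representations, smooth functions and
leafwise forms on the flat projective bundle `M = Γ \ (D × P(ℂ ^ d))`, harmonic currents directed by
the horizontal foliation, Ahlfors averages.
-/

set_option autoImplicit false

open Filter Topology Matrix

namespace Pool.Agent.MP27775c.AHL.Stmt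

/-- The Moebius transformation given by a matrix. -/
noncomputable def moeb (g : SpecialLinearGroup (Fin 2) ℂ) (z : ℂ) : ℂ :=
  (g 0 0 * z + g 0 1) / (g 1 0 * z + g 1 1)

/-- The derivative of the Moebius transformation. -/
noncomputable def moebDeriv (g : SpecialLinearGroup (Fin 2) ℂ) (z : ℂ) : ℂ :=
  1 / (g 1 0 * z + g 1 1) ^ 2

variable {Γ : Type*} [Group Γ] {d : ℕ}

/-- `Γ` acts on the unit disc through matrices of `SU(1,1)`, properly discontinuously, with compact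
quotient. -/
structure IsUniform (j : Γ →* SpecialLinearGroup (Fin 2) ℂ) : Prop where
  su10 : ∀ γ, j γ 1 0 = starRingEnd ℂ (j γ 0 1)
  su11 : ∀ γ, j γ 1 1 = starRingEnd ℂ (j γ 0 0)
  discrete : ∀ r : ℝ, r < 1 → {γ | ‖moeb (j γ) 0‖ ≤ r}.Finite
  cocompact : ∃ r : ℝ, r < 1 ∧ ∀ z, ‖z‖ < 1 → ∃ γ, ‖moeb (j γ) z‖ ≤ r

/-- The linear representation `ρ` on `ℂ ^ d` is strongly irreducible: a subspace which is invariant
under a subgroup of finite index is `0` or `ℂ ^ d`. -/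
def StronglyIrreducible (ρ : Γ →* Matrix (Fin d) (Fin d) ℂ) : Prop :=
  ∀ H : Subgroup Γ, H.FiniteIndex → ∀ W : Submodule ℂ (Fin d → ℂ),
    (∀ γ ∈ H, ∀ v ∈ W, ρ γ *ᵥ v ∈ W) → W = ⊥ ∨ W = ⊤

/-- The linear representation `ρ` is contracting: for some sequence `g n` of elements of the group
and suitable scalars `c n` the matrices `c n • ρ (g n)` converge to a matrix of rank one. -/
def Contracting (ρ : Γ →* Matrix (Fin d) (Fin d) ℂ) : Prop :=
  ∃ (g : ℕ → Γ) (c : ℕ → ℂ) (π : Matrix (Fin d) (Fin d) ℂ), π.rank = 1 ∧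
    ∀ i k, Tendsto (fun n => c n * ρ (g n) i k) atTop (𝓝 (π i k))

open scoped ContDiff in
/-- Smooth functions on `D × (ℂ ^ d ∖ 0)`, homogeneous of degree `0` in the vector, that is smooth
functions on `D × P(ℂ ^ d)`. -/
structure SmoothHom (g : ℂ → (Fin d → ℂ) → ℝ) : Prop where
  smooth : ContDiffOn ℝ ∞ (fun p : ℂ × (Fin d → ℂ) => g p.1 p.2) {p | ‖p.1‖ < 1 ∧ p.2 ≠ 0}
  hom : ∀ z v (c : ℂ), ‖z‖ < 1 → v ≠ 0 → c ≠ 0 → g z (c • v) = g z v

/-- Smooth functions on `M = Γ \ (D × P(ℂ ^ d))`. -/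
structure IsFun (j : Γ →* SpecialLinearGroup (Fin 2) ℂ) (ρ : Γ →* Matrix (Fin d) (Fin d) ℂ)
    (u : ℂ → (Fin d → ℂ) → ℝ) : Prop where
  smoothHom : SmoothHom u
  inv : ∀ γ z v, ‖z‖ < 1 → v ≠ 0 → u (moeb (j γ) z) (ρ γ *ᵥ v) = u z v

/-- The real smooth `(1,1)`-forms along the leaves of the horizontal foliation of `M`: the forms
`g (z, v) (i / 2) dz ∧ dz̄` on `D × P(ℂ ^ d)` which are invariant under `Γ`. -/
structure IsLeafForm (j : Γ →* SpecialLinearGroup (Fin 2) ℂ) (ρ : Γ →* Matrix (Fin d) (Fin d) ℂ)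
    (g : ℂ → (Fin d → ℂ) → ℝ) : Prop where
  smoothHom : SmoothHom g
  inv : ∀ γ z v, ‖z‖ < 1 → v ≠ 0 →
    g (moeb (j γ) z) (ρ γ *ᵥ v) * ‖moebDeriv (j γ) z‖ ^ 2 = g z v

/-- Positive `dd^c`-closed currents of bidimension `(1,1)` directed by the horizontal foliation:
positive linear forms `T` on the leafwise `(1,1)`-forms with `T (dd^c u) = 0` for every smooth
function `u` on `M`; along the leaves `dd^c u = (i / π) ∂∂̄ u = (2 π)⁻¹ Δ u (i / 2) dz ∧ dz̄`. -/
structure IsHarmonicCurrent (j : Γ →* SpecialLinearGroup (Fin 2) ℂ)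
    (ρ : Γ →* Matrix (Fin d) (Fin d) ℂ) (T : (ℂ → (Fin d → ℂ) → ℝ) → ℝ) : Prop where
  add : ∀ g h, IsLeafForm j ρ g → IsLeafForm j ρ h → T (fun z v => g z v + h z v) = T g + T h
  mul : ∀ (c : ℝ) g, IsLeafForm j ρ g → T (fun z v => c * g z v) = c * T g
  nonneg : ∀ g, IsLeafForm j ρ g → (∀ z v, ‖z‖ < 1 → v ≠ 0 → 0 ≤ g z v) → 0 ≤ T g
  ddc : ∀ u g, IsFun j ρ u → IsLeafForm j ρ g →
    (∀ z v, ‖z‖ < 1 → v ≠ 0 →
      g z v = (2 * Real.pi)⁻¹ * Laplacian.laplacian (fun w => u w v) z) → T g = 0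

/-- The translation of the unit disc which maps `0` to `z`. -/
noncomputable def mob (z ζ : ℂ) : ℂ := (ζ + z) / (1 + starRingEnd ℂ z * ζ)

/-- The integral of the leafwise form `g (i / 2) dz ∧ dz̄` over the disc of radius `r` for the
universal covering `φ ζ = (mob z ζ, [v])` of the leaf of the point `(z, [v])`. -/
noncomputable def discInt (g : ℂ → (Fin d → ℂ) → ℝ) (z : ℂ) (v : Fin d → ℂ) (r : ℝ) : ℝ :=
  ∫ ζ in Metric.ball (0 : ℂ) r, g (mob z ζ) v * ‖deriv (mob z) ζ‖ ^ 2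

/-- The Ahlfors average `⟨σ_r, θ⟩` of the point `(z, [v])`, for the metric `ω`. -/
noncomputable def ahlfors (ω θ : ℂ → (Fin d → ℂ) → ℝ) (z : ℂ) (v : Fin d → ℂ) (r : ℝ) : ℝ :=
  discInt θ z v r / discInt ω z v r

end Pool.Agent.MP27775c.AHL.Stmt
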