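import Mathlib
import Pool.Agent.Lib.MP_27775c_an_AHL.Base

/-!
Definitions for the linear part: representations, harmonic families of measures, invariant functions.
-/

set_option autoImplicit false

open MeasureTheory Metric Filter Topology Set

namespace Pool.Agent.MP27775c.AHL

/-- The hermitian space `ℂ ^ d`. -/
abbrev Vec (d : ℕ) : Type := EuclideanSpace ℂ (Fin d)

/-- A linear representation which is strongly irreducible (a subspace invariant under a subgroup of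
finite index is trivial) and contracting (some sequence converges projectively to a map of rank
one). -/
structure SIC {Γ : Type*} [Group Γ] {d : ℕ} (σ : Γ →* (Vec d →L[ℂ] Vec d)) : Prop where
  irr : ∀ H : Subgroup Γ, H.FiniteIndex → ∀ W : Submodule ℂ (Vec d),
    (∀ γ ∈ H, ∀ v ∈ W, σ γ v ∈ W) → W = ⊥ ∨ W = ⊤
  ctr : ∃ (g : ℕ → Γ) (π : Vec d →L[ℂ] Vec d),
    Module.finrank ℂ (LinearMap.range (π : Vec d →ₗ[ℂ] Vec d)) = 1 ∧
      Tendsto (fun n => ‖σ (g n)‖⁻¹ • σ (g n)) atTop (𝓝 π)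

/-- The dual representation: `γ ↦ adjoint of (ρ γ⁻¹)`. -/
noncomputable def dual {Γ : Type*} [Group Γ] {d : ℕ} (ρ : Γ →* (Vec d →L[ℂ] Vec d)) :
    Γ →* (Vec d →L[ℂ] Vec d) where
  toFun γ := ContinuousLinearMap.adjoint (ρ γ⁻¹)
  map_one' := by
    rw [inv_one, map_one]
    ext1 v
    exact ext_inner_right ℂ fun w => by
      rw [ContinuousLinearMap.adjoint_inner_left]; rfl
  map_mul' γ δ := by
    rw [mul_inv_rev, map_mul]
    exact ContinuousLinearMap.adjoint_comp _ _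

/-- A family of probability measures `ν z` on the unit sphere of `ℂ ^ d`, `z` in the disc, which is
equivariant and has the mean value property. -/
structure HarmFam {Γ : Type*} [Group Γ] {d : ℕ} (a : Γ → ℂ → ℂ) (σ : Γ →* (Vec d →L[ℂ] Vec d))
    (ν : ℂ → Measure (Vec d)) : Prop where
  prob : ∀ z, IsProbabilityMeasure (ν z)
  sph : ∀ z, ∀ᵐ x ∂(ν z), ‖x‖ = 1
  equi : ∀ γ z, ‖z‖ < 1 → ∀ φ : Vec d → ℝ, (∀ (c : ℝ) x, 0 < c → φ (c • x) = φ x) →
    ∫ x, φ (σ γ x) ∂(ν z) = ∫ x, φ x ∂(ν (a γ z))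
  harm : ∀ φ : Vec d → ℝ, ContinuousOn φ {x | x ≠ 0} → Harm (fun z => ∫ x, φ x ∂(ν z))
  harmK : ∀ K : Set (Vec d), IsClosed K → Harm (fun z => (ν z).real K)

/-- The measures `ν z` do not charge the proper subspaces. -/
def Null {d : ℕ} (ν : ℂ → Measure (Vec d)) : Prop :=
  ∀ z, ‖z‖ < 1 → ∀ W : Submodule ℂ (Vec d), W ≠ ⊤ → ν z (W : Set (Vec d)) = 0

/-- The quadratic functions: real and imaginary parts of `x i * conj (x j) / ‖x‖ ^ 2`. -/
noncomputable def qf {d : ℕ} (k : Fin d × Fin d × Bool) (x : Vec d) : ℝ :=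
  if k.2.2 then (x k.1 * starRingEnd ℂ (x k.2.1)).re / ‖x‖ ^ 2
  else (x k.1 * starRingEnd ℂ (x k.2.1)).im / ‖x‖ ^ 2

/-- The integrals of the quadratic functions. -/
noncomputable def uq {d : ℕ} (ν : ℂ → Measure (Vec d)) (k : Fin d × Fin d × Bool) (z : ℂ) : ℝ :=
  ∫ x, qf k x ∂(ν z)

/-- The total oscillation of the integrals of the quadratic functions around `w`. -/
noncomputable def Osc {d : ℕ} (ν : ℂ → Measure (Vec d)) (S : ℝ) (w : ℂ) : ℝ :=
  ∑ k : Fin d × Fin d × Bool, Dv (uq ν k) S w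

/-- A function of `x` which is `1` on the hyperplane orthogonal to `v` and `0` away from it. -/
noncomputable def tf {d : ℕ} (κ : ℝ) (v x : Vec d) : ℝ :=
  max 0 (1 - ‖inner ℂ x v‖ / (κ * (‖x‖ * ‖v‖)))

/-- A continuous function on the quotient of `D × P(V)`. -/
structure InvFun {Γ : Type*} [Group Γ] {d : ℕ} (a : Γ → ℂ → ℂ) (ρ : Γ →* (Vec d →L[ℂ] Vec d))
    (f : ℂ → Vec d → ℝ) : Prop where
  cont : ContinuousOn (fun p : ℂ × Vec d => f p.1 p.2) {p | ‖p.1‖ < 1 ∧ p.2 ≠ 0}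
  hom : ∀ z v (c : ℂ), ‖z‖ < 1 → v ≠ 0 → c ≠ 0 → f z (c • v) = f z v
  inv : ∀ γ z v, ‖z‖ < 1 → v ≠ 0 → f (a γ z) (ρ γ v) = f z v

end Pool.Agent.MP27775c.AHL
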