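import Mathlib
import Pool.Agent.Lib.MP_27775c_an_AHL.Lin

/-!
Definitions for the final statement: cocompact groups of automorphisms of the disc, smooth functions
and leafwise forms on the flat projective bundle `M = Γ \ (D × P(ℂ ^ d))`, harmonic currents directed
by the horizontal foliation, Ahlfors averages.
-/

set_option autoImplicit false

open MeasureTheory Metric Filter Topology Set

namespace Pool.Agent.MP27775c.AHL

/-- The Moebius transformation given by a matrix. -/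
noncomputable def moeb (g : Matrix.SpecialLinearGroup (Fin 2) ℂ) (z : ℂ) : ℂ :=
  (g 0 0 * z + g 0 1) / (g 1 0 * z + g 1 1)

/-- The derivative of the Moebius transformation. -/
noncomputable def moebDeriv (g : Matrix.SpecialLinearGroup (Fin 2) ℂ) (z : ℂ) : ℂ :=
  1 / (g 1 0 * z + g 1 1) ^ 2

/-- `Γ` acts on the unit disc through matrices of `SU(1,1)`, properly discontinuously, with compact
quotient. -/
structure IsUniform {Γ : Type*} [Group Γ] (j : Γ →* Matrix.SpecialLinearGroup (Fin 2) ℂ) :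
    Prop where
  su10 : ∀ γ, j γ 1 0 = starRingEnd ℂ (j γ 0 1)
  su11 : ∀ γ, j γ 1 1 = starRingEnd ℂ (j γ 0 0)
  discrete : ∀ r : ℝ, r < 1 → {γ | ‖moeb (j γ) 0‖ ≤ r}.Finite
  cocompact : ∃ r : ℝ, r < 1 ∧ ∀ z, ‖z‖ < 1 → ∃ γ, ‖moeb (j γ) z‖ ≤ r

open scoped ContDiff in
/-- Smooth functions on `D × (ℂ ^ d ∖ 0)`, homogeneous of degree `0` in the vector, that is smooth
functions on `D × P(ℂ ^ d)`. -/
structure SmoothHom {d : ℕ} (g : ℂ → Vec d → ℝ) : Prop where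
  smooth : ContDiffOn ℝ ∞ (fun p : ℂ × Vec d => g p.1 p.2) {p | ‖p.1‖ < 1 ∧ p.2 ≠ 0}
  hom : ∀ z v (c : ℂ), ‖z‖ < 1 → v ≠ 0 → c ≠ 0 → g z (c • v) = g z v

variable {Γ : Type*} [Group Γ] {d : ℕ}

/-- Smooth functions on `M = Γ \ (D × P(ℂ ^ d))`. -/
structure IsFun (j : Γ →* Matrix.SpecialLinearGroup (Fin 2) ℂ) (ρ : Γ →* (Vec d →L[ℂ] Vec d))
    (u : ℂ → Vec d → ℝ) : Prop where
  smoothHom : SmoothHom u
  inv : ∀ γ z v, ‖z‖ < 1 → v ≠ 0 → u (moeb (j γ) z) (ρ γ v) = u z v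

/-- The real smooth `(1,1)`-forms along the leaves of the horizontal foliation of `M`: the forms
`g (z, v) (i / 2) dz ∧ dz̄` on `D × P(ℂ ^ d)` which are invariant under `Γ`. -/
def leafForms (j : Γ →* Matrix.SpecialLinearGroup (Fin 2) ℂ) (ρ : Γ →* (Vec d →L[ℂ] Vec d)) :
    Submodule ℝ (ℂ → Vec d → ℝ) where
  carrier := {g | SmoothHom g ∧ ∀ γ z v, ‖z‖ < 1 → v ≠ 0 →
    g (moeb (j γ) z) (ρ γ v) * ‖moebDeriv (j γ) z‖ ^ 2 = g z v}
  zero_mem' := by
    refine ⟨⟨contDiffOn_const, fun _ _ _ _ _ _ => rfl⟩, fun γ z v _ _ => ?_⟩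
    simp
  add_mem' := by
    rintro g h ⟨⟨gs, gh⟩, gi⟩ ⟨⟨hs, hh⟩, hi⟩
    refine ⟨⟨gs.add hs, fun z v c hz hv hc => ?_⟩, fun γ z v hz hv => ?_⟩
    · simp [gh z v c hz hv hc, hh z v c hz hv hc]
    · simp only [Pi.add_apply]
      rw [add_mul, gi γ z v hz hv, hi γ z v hz hv]
  smul_mem' := by
    rintro c g ⟨⟨gs, gh⟩, gi⟩
    refine ⟨⟨gs.const_smul c, fun z v b hz hv hb => ?_⟩, fun γ z v hz hv => ?_⟩
    · simp [gh z v b hz hv hb]
    · simp only [Pi.smul_apply, smul_eq_mul]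
      rw [mul_assoc, gi γ z v hz hv]

/-- Positive `dd^c`-closed currents of bidimension `(1,1)` directed by the horizontal foliation:
positive linear forms `T` on the leafwise `(1,1)`-forms with `T (dd^c u) = 0` for every smooth
function `u` on `M`; along the leaves `dd^c u = (i / π) ∂∂̄ u = (2 π)⁻¹ Δ u (i / 2) dz ∧ dz̄`. -/
structure IsHarmonicCurrent (j : Γ →* Matrix.SpecialLinearGroup (Fin 2) ℂ)
    (ρ : Γ →* (Vec d →L[ℂ] Vec d)) (T : leafForms j ρ →ₗ[ℝ] ℝ) : Prop where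
  nonneg : ∀ g : leafForms j ρ, (∀ z v, ‖z‖ < 1 → v ≠ 0 → 0 ≤ g.1 z v) → 0 ≤ T g
  ddc : ∀ (u : ℂ → Vec d → ℝ) (g : leafForms j ρ), IsFun j ρ u →
    (∀ z v, ‖z‖ < 1 → v ≠ 0 →
      g.1 z v = (2 * Real.pi)⁻¹ * Laplacian.laplacian (fun w => u w v) z) → T g = 0

/-- The integral of the leafwise form `g (i / 2) dz ∧ dz̄` over the disc of radius `r` for the
universal covering `φ ζ = (mob z ζ, [v])` of the leaf of the point `(z, [v])`. -/
noncomputable def discInt (g : ℂ → Vec d → ℝ) (z : ℂ) (v : Vec d) (r : ℝ) : ℝ :=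
  ∫ ζ in ball (0 : ℂ) r, g (mob z ζ) v * ‖deriv (mob z) ζ‖ ^ 2

/-- The Ahlfors average `⟨σ_r, θ⟩` of the point `(z, [v])`, for the metric `ω`. -/
noncomputable def ahlfors (ω θ : ℂ → Vec d → ℝ) (z : ℂ) (v : Vec d) (r : ℝ) : ℝ :=
  discInt θ z v r / discInt ω z v r

/-- The hyperbolic Laplacian. -/
noncomputable def lh (u : ℂ → ℝ) (z : ℂ) : ℝ := Laplacian.laplacian u z / hw z

/-- The weight of the Green function in polar coordinates. -/
noncomputable def wt (R t : ℝ) : ℝ := Real.sinh t * Real.log (Real.tanh (R / 2) / Real.tanh (t / 2))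

/-- The Green potential of `f` for the hyperbolic disc of radius `R` around `z`. -/
noncomputable def KG (R : ℝ) (f : ℂ → ℝ) (z : ℂ) : ℝ := ∫ t in (0 : ℝ)..R, wt R t * Av t f z

end Pool.Agent.MP27775c.AHL
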