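import Mathlib
import Pool.Agent.Lib.MP_27775c_an_AHL.Defs
import Pool.Agent.Lib.MP_27775c_an_AHL.Po
import Pool.Agent.Lib.MP_27775c_an_AHL.Mb

/-!
The integrals over the discs of a leaf in polar coordinates, limits of ratios.
-/

set_option autoImplicit false
set_option linter.unusedSectionVars false

open MeasureTheory Metric Filter Topology Set

namespace Pool.Agent.MP27775c.AHL

private theorem fe_hw_pos {w : ℂ} (hw1 : ‖w‖ < 1) : 0 < hw w := by
  have h1 : 0 < 1 - ‖w‖ ^ 2 := by nlinarith [norm_nonneg w]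
  unfold hw
  positivity

private theorem fe_hw_cont : ContinuousOn hw (ball 0 1) := by
  have h1 : Continuous (fun w : ℂ => (1 - ‖w‖ ^ 2) ^ 2) := by fun_prop
  refine ContinuousOn.div continuousOn_const h1.continuousOn fun w hw1 => ?_
  rw [mem_ball_zero_iff] at hw1
  have h2 : 0 < 1 - ‖w‖ ^ 2 := by nlinarith [norm_nonneg w]
  positivity

theorem discInt_eq {d : ℕ} {g : ℂ → Vec d → ℝ} (hg : SmoothHom g) {z : ℂ} {v : Vec d}
    (hz : ‖z‖ < 1) (hv : v ≠ 0) {R : ℝ} (hR : 0 ≤ R) :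
    discInt g z v (Real.tanh (R / 2)) =
      ∫ t in (0 : ℝ)..R, 2 * Real.pi * Real.sinh t * Av t (fun w => g w v / hw w) z := by
  have hc : ContinuousOn (fun w => g w v / hw w) (ball 0 1) := by
    refine ContinuousOn.div ?_ fe_hw_cont fun w hw1 =>
      (fe_hw_pos (mem_ball_zero_iff.1 hw1)).ne'
    exact hg.smooth.continuousOn.comp (f := fun w : ℂ => (w, v)) (by fun_prop)
      fun w hw1 => ⟨mem_ball_zero_iff.1 hw1, hv⟩
  rw [← polar_mob hc hz hR]
  unfold discInt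
  refine setIntegral_congr_fun measurableSet_ball fun ζ hζ => ?_
  have hζ1 : ‖ζ‖ < 1 := (mem_ball_zero_iff.1 hζ).trans (Real.tanh_lt_one _)
  have h1 := hw_mob hz hζ1
  have h2 := fe_hw_pos (norm_mob_lt hz hζ1)
  show g (mob z ζ) v * ‖deriv (mob z) ζ‖ ^ 2 = g (mob z ζ) v / hw (mob z ζ) * hw ζ
  rw [← h1]
  field_simp

private theorem fe_int (a b : ℝ) : ∫ t in a..b, 2 * Real.pi * Real.sinh t =
    2 * Real.pi * Real.cosh b - 2 * Real.pi * Real.cosh a := by
  refine intervalIntegral.integral_eq_sub_of_hasDerivAt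
    (f := fun t => 2 * Real.pi * Real.cosh t) (fun x _ => ?_)
    (Continuous.intervalIntegrable (by fun_prop) _ _)
  exact (Real.hasDerivAt_cosh x).const_mul _

private theorem fe_abs {f : ℝ → ℝ} {a b C : ℝ} (ha : 0 ≤ a)
    (hab : a ≤ b) (h : ∀ t, a ≤ t → |f t| ≤ C) :
    |∫ t in a..b, 2 * Real.pi * Real.sinh t * f t| ≤
      C * (2 * Real.pi * Real.cosh b - 2 * Real.pi * Real.cosh a) := by
  rw [← fe_int, ← intervalIntegral.integral_const_mul]
  have hg : Continuous fun t : ℝ => C * (2 * Real.pi * Real.sinh t) := by fun_prop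
  have hgi : IntervalIntegrable (fun t : ℝ => C * (2 * Real.pi * Real.sinh t)) volume a b :=
    hg.intervalIntegrable _ _
  rw [← Real.norm_eq_abs]
  refine intervalIntegral.norm_integral_le_of_norm_le hab (Eventually.of_forall fun t ht => ?_)
    hgi
  have hs : 0 ≤ Real.sinh t := Real.sinh_nonneg_iff.2 (ha.trans ht.1.le)
  have hp := Real.pi_pos
  rw [Real.norm_eq_abs, abs_mul, abs_of_nonneg (by positivity : 0 ≤ 2 * Real.pi * Real.sinh t),
    mul_comm C]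
  exact mul_le_mul_of_nonneg_left (h t ht.1.le) (by positivity)

private theorem fe_large (R : ℝ) (hR : 1 ≤ R) :
    R - 1 ≤ 2 * Real.pi * Real.cosh R - 2 * Real.pi * Real.cosh 0 := by
  have h1 := Real.add_one_le_exp R
  have h2 := Real.exp_pos (-R)
  have h3 := Real.cosh_eq R
  have h4 := Real.pi_gt_three
  rw [Real.cosh_zero]
  have h5 : (R - 1) / 2 ≤ Real.cosh R - 1 := by
    rw [h3]
    linarith
  have h6 : 0 ≤ (R - 1) / 2 := by linarith
  nlinarith

/-- the normalised integral of a function with a limit -/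
private theorem fe_norm {ι : Type*} {F : ι → ℝ → ℝ} {B c : ℝ} (hF : ∀ i, Continuous (F i))
    (hFB : ∀ i t, |F i t| ≤ B)
    (hc : ∀ ε : ℝ, 0 < ε → ∃ R₀ : ℝ, ∀ t, R₀ ≤ t → ∀ i, |F i t - c| ≤ ε)
    {ε : ℝ} (hε : 0 < ε) : ∃ R₀ : ℝ, ∀ R, R₀ ≤ R →
      0 < 2 * Real.pi * Real.cosh R - 2 * Real.pi * Real.cosh 0 ∧ ∀ i,
      |(∫ t in (0 : ℝ)..R, 2 * Real.pi * Real.sinh t * F i t) /
        (2 * Real.pi * Real.cosh R - 2 * Real.pi * Real.cosh 0) - c| ≤ ε := by
  obtain ⟨R₀, hR₀⟩ := hc (ε / 2) (by positivity)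
  obtain ⟨R₁, hR₁⟩ : ∃ R₁, R₁ = max R₀ 0 := ⟨_, rfl⟩
  have hR₁0 : 0 ≤ R₁ := hR₁ ▸ le_max_right _ _
  have hR₀₁ : R₀ ≤ R₁ := hR₁ ▸ le_max_left _ _
  obtain ⟨A, hA⟩ : ∃ A, A = |(B + |c|) * (2 * Real.pi * Real.cosh R₁ -
      2 * Real.pi * Real.cosh 0)| / (ε / 2) := ⟨_, rfl⟩
  have hA0 : 0 ≤ A := by
    rw [hA]
    positivity
  refine ⟨R₁ + A + 2, fun R hR => ?_⟩
  have hR1 : R₁ ≤ R := by linarith
  have hM := fe_large R (by linarith)
  obtain ⟨M, hMd⟩ : ∃ M, M = 2 * Real.pi * Real.cosh R - 2 * Real.pi * Real.cosh 0 := ⟨_, rfl⟩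
  rw [← hMd] at hM ⊢
  have hM0 : 0 < M := by linarith
  refine ⟨hM0, fun i => ?_⟩
  have hcont : Continuous fun t => 2 * Real.pi * Real.sinh t * (F i t - c) := by
    have := hF i
    fun_prop
  have hcontF : Continuous fun t => 2 * Real.pi * Real.sinh t * F i t := by
    have := hF i
    fun_prop
  have e1 : ∫ t in (0 : ℝ)..R, 2 * Real.pi * Real.sinh t * (F i t - c) =
      (∫ t in (0 : ℝ)..R, 2 * Real.pi * Real.sinh t * F i t) - M * c := by
    have h1 : ∀ t : ℝ, 2 * Real.pi * Real.sinh t * (F i t - c) =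
        2 * Real.pi * Real.sinh t * F i t - 2 * Real.pi * Real.sinh t * c := fun t => by ring
    have hkc : Continuous fun t : ℝ => 2 * Real.pi * Real.sinh t * c := by fun_prop
    simp only [h1]
    rw [intervalIntegral.integral_sub (hcontF.intervalIntegrable _ _)
      (hkc.intervalIntegrable _ _), intervalIntegral.integral_mul_const,
      fe_int, ← hMd]
  have e2 : (∫ t in (0 : ℝ)..R, 2 * Real.pi * Real.sinh t * F i t) / M - c =
      (∫ t in (0 : ℝ)..R, 2 * Real.pi * Real.sinh t * (F i t - c)) / M := by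
    rw [e1]
    field_simp
  rw [e2, abs_div, abs_of_pos hM0, div_le_iff₀ hM0]
  rw [← intervalIntegral.integral_add_adjacent_intervals
    (hcont.intervalIntegrable 0 R₁) (hcont.intervalIntegrable R₁ R)]
  have b1 := fe_abs (f := fun t => F i t - c) (a := 0) (b := R₁) (C := B + |c|) le_rfl hR₁0
    (fun t _ => (abs_sub _ _).trans (add_le_add (hFB i t) le_rfl))
  have b2 := fe_abs (f := fun t => F i t - c) (a := R₁) (b := R) (C := ε / 2) hR₁0 hR1
    (fun t ht => hR₀ t (hR₀₁.trans ht) i)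
  have b3 : (B + |c|) * (2 * Real.pi * Real.cosh R₁ - 2 * Real.pi * Real.cosh 0) ≤
      ε / 2 * M := by
    have h1 : A ≤ M := by linarith
    rw [hA, div_le_iff₀ (by positivity)] at h1
    have h2 := le_abs_self ((B + |c|) * (2 * Real.pi * Real.cosh R₁ - 2 * Real.pi * Real.cosh 0))
    linarith
  have b4 : ε / 2 * (2 * Real.pi * Real.cosh R - 2 * Real.pi * Real.cosh R₁) ≤ ε / 2 * M := by
    refine mul_le_mul_of_nonneg_left ?_ (by positivity)
    have h1 : Real.cosh 0 ≤ Real.cosh R₁ := by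
      rw [Real.cosh_le_cosh, abs_zero]
      exact abs_nonneg _
    have hp := Real.pi_pos
    rw [hMd]
    nlinarith
  have b5 := abs_add_le (∫ t in (0 : ℝ)..R₁, 2 * Real.pi * Real.sinh t * (F i t - c))
    (∫ t in R₁..R, 2 * Real.pi * Real.sinh t * (F i t - c))
  linarith

/-- Limits of ratios of the averages, uniformly in a parameter. -/
theorem ratio_tendsto {ι : Type*} {F G : ι → ℝ → ℝ} {B c c' : ℝ} (hF : ∀ i, Continuous (F i))
    (hG : ∀ i, Continuous (G i)) (hFB : ∀ i t, |F i t| ≤ B) (hGB : ∀ i t, |G i t| ≤ B)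
    (hc : ∀ ε : ℝ, 0 < ε → ∃ R₀ : ℝ, ∀ t, R₀ ≤ t → ∀ i, |F i t - c| ≤ ε)
    (hc' : ∀ ε : ℝ, 0 < ε → ∃ R₀ : ℝ, ∀ t, R₀ ≤ t → ∀ i, |G i t - c'| ≤ ε) (h0 : 0 < c')
    {ε : ℝ} (hε : 0 < ε) : ∃ R₀ : ℝ, ∀ R, R₀ ≤ R → ∀ i,
      |(∫ t in (0 : ℝ)..R, 2 * Real.pi * Real.sinh t * F i t) /
        (∫ t in (0 : ℝ)..R, 2 * Real.pi * Real.sinh t * G i t) - c / c'| < ε := by
  obtain ⟨δ, hδ⟩ : ∃ δ, δ = min (c' / 2) (ε * c' ^ 2 / (4 * (c' + |c|))) := ⟨_, rfl⟩
  have hcc : 0 < c' + |c| := by positivity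
  have hδ0 : 0 < δ := by
    rw [hδ]
    exact lt_min (by positivity) (by positivity)
  have hδ1 : δ ≤ c' / 2 := hδ ▸ min_le_left _ _
  have hδ2 : δ ≤ ε * c' ^ 2 / (4 * (c' + |c|)) := hδ ▸ min_le_right _ _
  obtain ⟨R₁, hR₁⟩ := fe_norm hF hFB hc hδ0
  obtain ⟨R₂, hR₂⟩ := fe_norm hG hGB hc' hδ0
  refine ⟨max R₁ R₂, fun R hR i => ?_⟩
  obtain ⟨hM, hX⟩ := hR₁ R ((le_max_left _ _).trans hR)
  obtain ⟨-, hY⟩ := hR₂ R ((le_max_right _ _).trans hR)
  have hX := hX i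
  have hY := hY i
  revert hX hY hM
  generalize (2 * Real.pi * Real.cosh R - 2 * Real.pi * Real.cosh 0) = M
  generalize (∫ t in (0 : ℝ)..R, 2 * Real.pi * Real.sinh t * F i t) = X
  generalize (∫ t in (0 : ℝ)..R, 2 * Real.pi * Real.sinh t * G i t) = Y
  intro hM hX hY
  have e1 : X / Y = (X / M) / (Y / M) := by
    rw [div_div_div_cancel_right₀ hM.ne']
  rw [e1]
  generalize X / M = x at hX
  generalize Y / M = y at hY
  have hy : c' / 2 ≤ y := by
    have := (abs_le.1 hY).1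
    linarith
  have hy0 : 0 < y := by linarith
  have e2 : x / y - c / c' = ((x - c) * c' + c * (c' - y)) / (y * c') := by
    field_simp
    ring
  rw [e2, abs_div, abs_of_pos (mul_pos hy0 h0), div_lt_iff₀ (mul_pos hy0 h0)]
  have h1 : |(x - c) * c' + c * (c' - y)| ≤ δ * (c' + |c|) := by
    refine (abs_add_le _ _).trans ?_
    rw [abs_mul, abs_mul, abs_of_pos h0, abs_sub_comm c' y]
    have h2 := mul_le_mul_of_nonneg_right hX h0.le
    have h3 := mul_le_mul_of_nonneg_left hY (abs_nonneg c)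
    linarith
  have h2 : δ * (c' + |c|) ≤ ε * c' ^ 2 / 4 := by
    rw [le_div_iff₀ (by positivity)] at hδ2
    linarith
  have h3 : ε * c' ^ 2 / 2 ≤ ε * (y * c') := by
    have h4 : c' / 2 * c' ≤ y * c' := mul_le_mul_of_nonneg_right hy h0.le
    have h5 := mul_le_mul_of_nonneg_left h4 hε.le
    linarith [show ε * (c' / 2 * c') = ε * c' ^ 2 / 2 by ring]
  have h4 : 0 < ε * c' ^ 2 := by positivity
  linarith

end Pool.Agent.MP27775c.AHL
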