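import Mathlib
import Pool.Agent.Lib.MP_27775c_an_AHL.Defs
import Pool.Agent.Lib.MP_27775c_an_AHL.Mb

/-!
The Moebius action is a Fuchsian action.
-/

set_option autoImplicit false
set_option linter.unusedSectionVars false

open MeasureTheory Metric Filter Topology Set

namespace Pool.Agent.MP27775c.AHL

variable {Γ : Type*} [Group Γ] {d : ℕ} {j : Γ →* Matrix.SpecialLinearGroup (Fin 2) ℂ}
  {ρ : Γ →* (Vec d →L[ℂ] Vec d)}

/-- the numerator -/
private noncomputable def faN (p q z : ℂ) : ℂ := p * z + q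

/-- the denominator -/
private noncomputable def faD (p q z : ℂ) : ℂ := starRingEnd ℂ q * z + starRingEnd ℂ p

private theorem fa_det (hj : IsUniform j) (γ : Γ) :
    j γ 0 0 * starRingEnd ℂ (j γ 0 0) - j γ 0 1 * starRingEnd ℂ (j γ 0 1) = 1 := by
  have h := Matrix.SpecialLinearGroup.det_coe (j γ)
  rw [Matrix.det_fin_two] at h
  rw [← hj.su11 γ, ← hj.su10 γ]
  exact h

private theorem fa_moeb (hj : IsUniform j) (γ : Γ) (z : ℂ) :
    moeb (j γ) z = faN (j γ 0 0) (j γ 0 1) z / faD (j γ 0 0) (j γ 0 1) z := by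
  unfold moeb faN faD
  rw [← hj.su11 γ, ← hj.su10 γ]

private theorem fa_deriv (hj : IsUniform j) (γ : Γ) (z : ℂ) :
    moebDeriv (j γ) z = 1 / faD (j γ 0 0) (j γ 0 1) z ^ 2 := by
  unfold moebDeriv faD
  rw [← hj.su11 γ, ← hj.su10 γ]

private theorem fa_key {p q : ℂ} (h : p * starRingEnd ℂ p - q * starRingEnd ℂ q = 1) (z : ℂ) :
    ‖faD p q z‖ ^ 2 - ‖faN p q z‖ ^ 2 = 1 - ‖z‖ ^ 2 := by
  have h1 : ((‖faD p q z‖ ^ 2 - ‖faN p q z‖ ^ 2 : ℝ) : ℂ) = ((1 - ‖z‖ ^ 2 : ℝ) : ℂ) := by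
    push_cast
    rw [← Complex.mul_conj', ← Complex.mul_conj', ← Complex.mul_conj']
    unfold faD faN
    simp only [map_add, map_mul, Complex.conj_conj]
    linear_combination (1 - z * starRingEnd ℂ z) * h
  exact_mod_cast h1

private theorem fa_D_pos {p q : ℂ} (h : p * starRingEnd ℂ p - q * starRingEnd ℂ q = 1) {z : ℂ}
    (hz : ‖z‖ < 1) : faD p q z ≠ 0 := by
  intro h0
  have h1 := fa_key h z
  rw [h0, norm_zero] at h1
  have h2 : ‖z‖ ^ 2 < 1 := by nlinarith [norm_nonneg z]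
  nlinarith [sq_nonneg ‖faN p q z‖]

private theorem fa_lt {p q : ℂ} (h : p * starRingEnd ℂ p - q * starRingEnd ℂ q = 1) {z : ℂ}
    (hz : ‖z‖ < 1) : ‖faN p q z / faD p q z‖ < 1 := by
  have h0 := norm_pos_iff.2 (fa_D_pos h hz)
  rw [norm_div, div_lt_one h0]
  have h1 := fa_key h z
  have h2 : ‖z‖ ^ 2 < 1 := by nlinarith [norm_nonneg z]
  exact lt_of_pow_lt_pow_left₀ 2 h0.le (by linarith)

private theorem fa_iso {p q : ℂ} (h : p * starRingEnd ℂ p - q * starRingEnd ℂ q = 1) {z ζ : ℂ}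
    (hz : ‖z‖ < 1) (hζ : ‖ζ‖ < 1) :
    faN p q (mob z ζ) / faD p q (mob z ζ) =
      mob (faN p q z / faD p q z) (starRingEnd ℂ (faD p q z) / faD p q z * ζ) := by
  have hD := fa_D_pos h hz
  have hD' := fa_D_pos h (norm_mob_lt hz hζ)
  have h1 := one_add_ne hz hζ.le
  have hDc : starRingEnd ℂ (faD p q z) ≠ 0 := (map_ne_zero _).2 hD
  have hm : mob z ζ * (1 + starRingEnd ℂ z * ζ) = ζ + z := div_mul_cancel₀ _ h1
  have h2 : 1 + starRingEnd ℂ (faN p q z / faD p q z) *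
      (starRingEnd ℂ (faD p q z) / faD p q z * ζ) ≠ 0 := by
    refine one_add_ne (fa_lt h hz) ?_
    rw [norm_mul, norm_div, Complex.norm_conj, div_self (norm_pos_iff.2 hD).ne', one_mul]
    exact hζ.le
  have e1 : faN p q (mob z ζ) * (1 + starRingEnd ℂ z * ζ) =
      faN p q z + starRingEnd ℂ (faD p q z) * ζ := by
    unfold faN faD
    simp only [map_add, map_mul, Complex.conj_conj]
    linear_combination p * hm
  have e2 : faD p q (mob z ζ) * (1 + starRingEnd ℂ z * ζ) =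
      faD p q z + starRingEnd ℂ (faN p q z) * ζ := by
    unfold faN faD
    simp only [map_add, map_mul]
    linear_combination (starRingEnd ℂ q) * hm
  have e3 : mob (faN p q z / faD p q z) (starRingEnd ℂ (faD p q z) / faD p q z * ζ) =
      (faN p q z + starRingEnd ℂ (faD p q z) * ζ) /
        (faD p q z + starRingEnd ℂ (faN p q z) * ζ) := by
    have h3 : faD p q z + starRingEnd ℂ (faN p q z) * ζ ≠ 0 := by
      rw [← e2]
      exact mul_ne_zero hD' h1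
    rw [map_div₀] at h2
    unfold mob
    rw [map_div₀, div_eq_div_iff h2 h3]
    field_simp
    ring
  rw [e3, ← e1, ← e2, mul_div_mul_right _ _ h1]

private theorem fa_mul (g h : Matrix.SpecialLinearGroup (Fin 2) ℂ) (z : ℂ)
    (h1 : h 1 0 * z + h 1 1 ≠ 0) :
    moeb (g * h) z = moeb g (moeb h z) := by
  have e : ∀ i k, (g * h) i k = g i 0 * h 0 k + g i 1 * h 1 k := by
    intro i k
    rw [Matrix.SpecialLinearGroup.coe_mul, Matrix.mul_apply, Fin.sum_univ_two]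
  have e1 : moeb h z * (h 1 0 * z + h 1 1) = h 0 0 * z + h 0 1 := by
    unfold moeb
    rw [div_mul_cancel₀ _ h1]
  have e2 : (g * h) 0 0 * z + (g * h) 0 1 =
      (g 0 0 * moeb h z + g 0 1) * (h 1 0 * z + h 1 1) := by
    rw [e, e]
    linear_combination (-(g 0 0)) * e1
  have e3 : (g * h) 1 0 * z + (g * h) 1 1 =
      (g 1 0 * moeb h z + g 1 1) * (h 1 0 * z + h 1 1) := by
    rw [e, e]
    linear_combination (-(g 1 0)) * e1
  have e4 : moeb (g * h) z = ((g * h) 0 0 * z + (g * h) 0 1) / ((g * h) 1 0 * z + (g * h) 1 1) :=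
    rfl
  rw [e4, e2, e3, mul_div_mul_right _ _ h1]
  rfl

theorem moeb_fuchs (hj : IsUniform j) : Fuchs (fun γ => moeb (j γ)) := by
  have hlt : ∀ γ z, ‖z‖ < 1 → ‖moeb (j γ) z‖ < 1 := by
    intro γ z hz
    rw [fa_moeb hj]
    exact fa_lt (fa_det hj γ) hz
  have hden : ∀ γ z, ‖z‖ < 1 → j γ 1 0 * z + j γ 1 1 ≠ 0 := by
    intro γ z hz
    have h := fa_D_pos (fa_det hj γ) hz
    unfold faD at h
    rwa [← hj.su11 γ, ← hj.su10 γ] at h
  refine ⟨?_, ?_, hlt, ?_, hj.discrete, hj.cocompact⟩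
  · intro z _
    rw [map_one]
    unfold moeb
    simp
  · intro γ δ z hz
    rw [map_mul]
    exact fa_mul _ _ _ (hden δ z hz)
  · intro γ z hz
    refine ⟨starRingEnd ℂ (faD (j γ 0 0) (j γ 0 1) z) / faD (j γ 0 0) (j γ 0 1) z, ?_, ?_⟩
    · rw [norm_div, Complex.norm_conj, div_self (norm_pos_iff.2 (fa_D_pos (fa_det hj γ) hz)).ne']
    · intro ζ hζ
      rw [fa_moeb hj, fa_moeb hj]
      exact fa_iso (fa_det hj γ) hz hζ

theorem hasDerivAt_moeb (hj : IsUniform j) (γ : Γ) {z : ℂ} (hz : ‖z‖ < 1) :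
    HasDerivAt (moeb (j γ)) (moebDeriv (j γ) z) z := by
  have hD : j γ 1 0 * z + j γ 1 1 ≠ 0 := by
    have h := fa_D_pos (fa_det hj γ) hz
    unfold faD at h
    rwa [← hj.su11 γ, ← hj.su10 γ] at h
  have h1 : HasDerivAt (fun z => j γ 0 0 * z + j γ 0 1) (j γ 0 0) z := by
    simpa using ((hasDerivAt_id z).const_mul (j γ 0 0)).add_const (j γ 0 1)
  have h2 : HasDerivAt (fun z => j γ 1 0 * z + j γ 1 1) (j γ 1 0) z := by
    simpa using ((hasDerivAt_id z).const_mul (j γ 1 0)).add_const (j γ 1 1)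
  have h3 := h1.div h2 hD
  have h4 := Matrix.SpecialLinearGroup.det_coe (j γ)
  rw [Matrix.det_fin_two] at h4
  have h5 : j γ 0 0 * (j γ 1 0 * z + j γ 1 1) - (j γ 0 0 * z + j γ 0 1) * j γ 1 0 = 1 := by
    linear_combination h4
  rw [h5] at h3
  exact h3

theorem hw_moeb (hj : IsUniform j) (γ : Γ) {z : ℂ} (hz : ‖z‖ < 1) :
    hw (moeb (j γ) z) * ‖moebDeriv (j γ) z‖ ^ 2 = hw z := by
  have hD := norm_pos_iff.2 (fa_D_pos (fa_det hj γ) hz)
  have h1 := fa_key (fa_det hj γ) z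
  have h2 := fa_lt (fa_det hj γ) hz
  rw [fa_moeb hj, fa_deriv hj]
  unfold hw
  rw [norm_div] at h2 ⊢
  rw [norm_div, norm_one, norm_pow]
  generalize ‖faD (j γ 0 0) (j γ 0 1) z‖ = D at h1 h2 hD ⊢
  generalize ‖faN (j γ 0 0) (j γ 0 1) z‖ = N at h1 h2 ⊢
  have h3 : 1 - (N / D) ^ 2 = (1 - ‖z‖ ^ 2) / D ^ 2 := by
    rw [← h1]
    field_simp
  have h4 : 1 - ‖z‖ ^ 2 ≠ 0 := by
    have : ‖z‖ ^ 2 < 1 := by nlinarith [norm_nonneg z]
    linarith
  rw [h3]
  field_simp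

end Pool.Agent.MP27775c.AHL
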