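import Mathlib
import Pool.Agent.Lib.MP_27775c_an_AHL.Lin

/-!
The dual representation.
-/

set_option autoImplicit false
set_option linter.unusedSectionVars false

open MeasureTheory Metric Filter Topology Set

namespace Pool.Agent.MP27775c.AHL

variable {Γ : Type*} [Group Γ] {a : Γ → ℂ → ℂ} {d : ℕ} {ρ : Γ →* (Vec d →L[ℂ] Vec d)}

theorem du_inv_apply (ρ : Γ →* (Vec d →L[ℂ] Vec d)) (γ : Γ) (v : Vec d) :
    ρ γ⁻¹ (ρ γ v) = v := by
  have h : ρ γ⁻¹ * ρ γ = 1 := by rw [← map_mul, inv_mul_cancel, map_one]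
  have h2 := congrArg (fun f : Vec d →L[ℂ] Vec d => f v) h
  exact h2

theorem rho_ne (ρ : Γ →* (Vec d →L[ℂ] Vec d)) (γ : Γ) {v : Vec d} (hv : v ≠ 0) : ρ γ v ≠ 0 := by
  intro h
  apply hv
  rw [← du_inv_apply ρ γ v, h, map_zero]

theorem dual_inner (ρ : Γ →* (Vec d →L[ℂ] Vec d)) (γ : Γ) (x v : Vec d) :
    inner ℂ (dual ρ γ x) (ρ γ v) = inner ℂ x v := by
  change inner ℂ (ContinuousLinearMap.adjoint (ρ γ⁻¹) x) (ρ γ v) = inner ℂ x v
  rw [ContinuousLinearMap.adjoint_inner_left, du_inv_apply]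

theorem dual_inv (ρ : Γ →* (Vec d →L[ℂ] Vec d)) (γ : Γ) :
    dual ρ γ⁻¹ = ContinuousLinearMap.adjoint (ρ γ) := by
  change ContinuousLinearMap.adjoint (ρ γ⁻¹⁻¹) = ContinuousLinearMap.adjoint (ρ γ)
  rw [inv_inv]

theorem norm_dual_inv (ρ : Γ →* (Vec d →L[ℂ] Vec d)) (γ : Γ) : ‖dual ρ γ⁻¹‖ = ‖ρ γ‖ := by
  rw [dual_inv]
  exact LinearIsometryEquiv.norm_map _ _

theorem finrank_range_adjoint (τ : Vec d →L[ℂ] Vec d) :
    Module.finrank ℂ (LinearMap.range
      (ContinuousLinearMap.adjoint τ : Vec d →ₗ[ℂ] Vec d)) =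
      Module.finrank ℂ (LinearMap.range (τ : Vec d →ₗ[ℂ] Vec d)) := by
  rw [← LinearMap.finrank_range_adjoint (τ : Vec d →ₗ[ℂ] Vec d)]
  have h : (ContinuousLinearMap.adjoint τ : Vec d →ₗ[ℂ] Vec d) =
      LinearMap.adjoint (τ : Vec d →ₗ[ℂ] Vec d) := by
    rw [LinearMap.eq_adjoint_iff]
    intro x y
    exact ContinuousLinearMap.adjoint_inner_left τ y x
  rw [h]

theorem SIC.pos (hρ : SIC ρ) : 0 < d := by
  obtain ⟨g, π, hπ, -⟩ := hρ.ctr
  rcases Nat.eq_zero_or_pos d with h | h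
  · subst h
    exfalso
    have h1 := Submodule.finrank_le (LinearMap.range (π : Vec 0 →ₗ[ℂ] Vec 0))
    rw [hπ, finrank_euclideanSpace, Fintype.card_fin] at h1
    omega
  · exact h

theorem SIC.dual (hρ : SIC ρ) : SIC (AHL.dual ρ) := by
  constructor
  · intro H hH W hW
    have h1 := hρ.irr H hH Wᗮ (fun γ hγ v hv => by
      rw [Submodule.mem_orthogonal] at hv ⊢
      intro x hx
      have h2 := hv _ (hW γ⁻¹ (H.inv_mem hγ) x hx)
      have h3 := dual_inner ρ γ (AHL.dual ρ γ⁻¹ x) v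
      have h4 : AHL.dual ρ γ (AHL.dual ρ γ⁻¹ x) = x := by
        have := du_inv_apply (AHL.dual ρ) γ⁻¹ x
        rwa [inv_inv] at this
      rw [h4, h2] at h3
      exact h3)
    rcases h1 with h1 | h1
    · right
      exact Submodule.orthogonal_eq_bot_iff.1 h1
    · left
      exact (Submodule.orthogonal_eq_top_iff _).1 h1
  · obtain ⟨g, π, hπ, hlim⟩ := hρ.ctr
    refine ⟨fun n => (g n)⁻¹, ContinuousLinearMap.adjoint π, ?_, ?_⟩
    · rw [finrank_range_adjoint, hπ]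
    · have h1 : Tendsto (fun n => ContinuousLinearMap.adjoint (‖ρ (g n)‖⁻¹ • ρ (g n))) atTop
          (𝓝 (ContinuousLinearMap.adjoint π)) :=
        ((LinearIsometryEquiv.continuous _).tendsto π).comp hlim
      refine h1.congr fun n => ?_
      rw [norm_dual_inv, dual_inv]
      ext1 x
      refine ext_inner_right ℂ fun y => ?_
      rw [ContinuousLinearMap.adjoint_inner_left]
      change inner ℂ x (‖ρ (g n)‖⁻¹ • ρ (g n) y) =
        inner ℂ (‖ρ (g n)‖⁻¹ • ContinuousLinearMap.adjoint (ρ (g n)) x) y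
      rw [← Complex.coe_smul, ← Complex.coe_smul, inner_smul_right, inner_smul_left,
        Complex.conj_ofReal, ContinuousLinearMap.adjoint_inner_left]

end Pool.Agent.MP27775c.AHL
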