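import Mathlib
import Pool.Agent.Lib.MP_27775c_an_AHL.Du
import Pool.Agent.Lib.MP_27775c_an_AHL.Fu
import Pool.Agent.Lib.MP_27775c_an_AHL.Eq

/-!
Continuous functions on the quotient: boundedness and uniform continuity.
-/

set_option autoImplicit false
set_option linter.unusedSectionVars false

open MeasureTheory Metric Filter Topology Set

namespace Pool.Agent.MP27775c.AHL

variable {Γ : Type*} [Group Γ] {a : Γ → ℂ → ℂ} {d : ℕ} {ρ : Γ →* (Vec d →L[ℂ] Vec d)}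

variable {f g : ℂ → Vec d → ℝ}

theorem InvFun.slice (hf : InvFun a ρ f) {v : Vec d} (hv : v ≠ 0) :
    ContinuousOn (fun z => f z v) (ball 0 1) := by
  have h1 : ContinuousOn (fun z : ℂ => (z, v)) (ball 0 1) := by fun_prop
  refine hf.cont.comp h1 ?_
  intro z hz
  rw [mem_ball_zero_iff] at hz
  exact ⟨hz, hv⟩

private theorem kc_unit (hF : Fuchs a) (hf : InvFun a ρ f) (γ : Γ) {v : Vec d} (hv : v ≠ 0) :
    ∃ v' : Vec d, ‖v'‖ = 1 ∧ ∀ w, ‖w‖ < 1 → f w v = f (a γ w) v' := by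
  have h1 := rho_ne ρ γ hv
  have h2 : ‖ρ γ v‖ ≠ 0 := norm_ne_zero_iff.2 h1
  have h3 : (((‖ρ γ v‖⁻¹ : ℝ) : ℂ)) ≠ 0 := by
    rw [Ne, Complex.ofReal_eq_zero]
    exact inv_ne_zero h2
  refine ⟨((‖ρ γ v‖⁻¹ : ℝ) : ℂ) • ρ γ v, ?_, ?_⟩
  · rw [norm_smul, Complex.norm_real, Real.norm_of_nonneg (inv_nonneg.2 (norm_nonneg _)),
      inv_mul_cancel₀ h2]
  · intro w hw'
    rw [hf.hom (a γ w) (ρ γ v) _ (hF.lt γ w hw') h1 h3, hf.inv γ w v hw' hv]

private theorem kc_sub (r : ℝ) (hr : r < 1) :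
    closedBall (0 : ℂ) r ×ˢ sphere (0 : Vec d) 1 ⊆ {p | ‖p.1‖ < 1 ∧ p.2 ≠ 0} := by
  rintro ⟨z, v⟩ ⟨hz, hv⟩
  rw [mem_closedBall_zero_iff] at hz
  rw [mem_sphere_zero_iff_norm] at hv
  refine ⟨hz.trans_lt hr, ?_⟩
  intro h
  simp only at hv h
  rw [h, norm_zero] at hv
  exact zero_ne_one hv

private theorem kc_compact (r : ℝ) :
    IsCompact (closedBall (0 : ℂ) r ×ˢ sphere (0 : Vec d) 1) :=
  (isCompact_closedBall _ _).prod (isCompact_sphere _ _)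

theorem InvFun.bdd (hF : Fuchs a) (hf : InvFun a ρ f) :
    ∃ B : ℝ, ∀ z v, ‖z‖ < 1 → v ≠ 0 → |f z v| ≤ B := by
  obtain ⟨r, hr0, hr, hcpt⟩ := hF.cpt
  obtain ⟨B, hB⟩ := (kc_compact (d := d) r).exists_bound_of_continuousOn
    (hf.cont.mono (kc_sub r hr))
  refine ⟨B, fun z v hz hv => ?_⟩
  obtain ⟨γ, hγ⟩ := hcpt z hz
  obtain ⟨v', hv', h⟩ := kc_unit hF hf γ hv
  rw [h z hz]
  exact hB (a γ z, v') ⟨by simpa using hγ, by simpa using hv'⟩

theorem InvFun.uec (hF : Fuchs a) (hf : InvFun a ρ f) :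
    UEC (fun (v : {v : Vec d // v ≠ 0}) (z : ℂ) => f z v) := by
  obtain ⟨r, hr0, hr, hcpt⟩ := hF.cpt
  obtain ⟨r', hr', hrad⟩ := exists_radius hr 1
  obtain ⟨s, hs0⟩ : ∃ s, s = max r r' := ⟨_, rfl⟩
  have hs : s < 1 := by rw [hs0]; exact max_lt hr hr'
  have hs1 : r ≤ s := by rw [hs0]; exact le_max_left _ _
  have hs2 : r' ≤ s := by rw [hs0]; exact le_max_right _ _
  have huc := (kc_compact (d := d) s).uniformContinuousOn_of_continuous
    (hf.cont.mono (kc_sub s hs))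
  rw [Metric.uniformContinuousOn_iff] at huc
  intro ε hε
  obtain ⟨δ, hδ, h⟩ := huc ε hε
  refine ⟨min (δ / 2) 1, lt_min (half_pos hδ) one_pos, ?_⟩
  rintro ⟨v, hv⟩ z w hz hw' hd
  obtain ⟨γ, hγ⟩ := hcpt z hz
  obtain ⟨v', hv', hu⟩ := kc_unit hF hf γ hv
  have haz := hF.lt γ z hz
  have haw := hF.lt γ w hw'
  have hdd := hF.dh_eq γ hz hw'
  have h1 : ‖a γ w‖ ≤ r' := hrad (a γ z) (a γ w) hγ haw (by
    rw [hdd]
    exact hd.trans (min_le_right _ _))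
  have h2 : ‖a γ z - a γ w‖ < δ := by
    have h3 := norm_sub_le_dh haz haw
    rw [hdd] at h3
    have h4 := hd.trans (min_le_left _ _)
    linarith
  have h3 := h (a γ z, v') ⟨by simpa using hγ.trans hs1, by simpa using hv'⟩
    (a γ w, v') ⟨by simpa using h1.trans hs2, by simpa using hv'⟩ (by
      rw [Prod.dist_eq, dist_self, max_eq_left dist_nonneg, dist_eq_norm]
      exact h2)
  simp only
  rw [hu z hz, hu w hw', ← Real.dist_eq]
  exact h3.le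

theorem InvFun.lower (hF : Fuchs a) (hd : 0 < d) (hf : InvFun a ρ f)
    (hpos : ∀ z v, ‖z‖ < 1 → v ≠ 0 → 0 < f z v) :
    ∃ m : ℝ, 0 < m ∧ ∀ z v, ‖z‖ < 1 → v ≠ 0 → m ≤ f z v := by
  obtain ⟨r, hr0, hr, hcpt⟩ := hF.cpt
  have hne : (closedBall (0 : ℂ) r ×ˢ sphere (0 : Vec d) 1).Nonempty := by
    refine ⟨(0, EuclideanSpace.single ⟨0, hd⟩ 1), ?_, ?_⟩
    · simpa using hr0.le
    · simp
  obtain ⟨p, hp, hmin⟩ := (kc_compact (d := d) r).exists_isMinOn hne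
    (hf.cont.mono (kc_sub r hr))
  have hp' := kc_sub r hr hp
  refine ⟨f p.1 p.2, hpos _ _ hp'.1 hp'.2, fun z v hz hv => ?_⟩
  obtain ⟨γ, hγ⟩ := hcpt z hz
  obtain ⟨v', hv', h⟩ := kc_unit hF hf γ hv
  rw [h z hz]
  exact hmin (a := (a γ z, v')) ⟨by simpa using hγ, by simpa using hv'⟩

theorem InvFun.add (hf : InvFun a ρ f) (hg : InvFun a ρ g) :
    InvFun a ρ (fun z v => f z v + g z v) := by
  refine ⟨hf.cont.add hg.cont, fun z v c hz hv hc => ?_, fun γ z v hz hv => ?_⟩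
  · rw [hf.hom z v c hz hv hc, hg.hom z v c hz hv hc]
  · rw [hf.inv γ z v hz hv, hg.inv γ z v hz hv]

theorem InvFun.const_mul (hf : InvFun a ρ f) (c : ℝ) : InvFun a ρ (fun z v => c * f z v) := by
  refine ⟨continuousOn_const.mul hf.cont, fun z v c' hz hv hc => ?_, fun γ z v hz hv => ?_⟩
  · rw [hf.hom z v c' hz hv hc]
  · rw [hf.inv γ z v hz hv]

/-- The averages of an invariant function are invariant. -/
theorem InvFun.av_inv (hF : Fuchs a) (hf : InvFun a ρ f) (γ : Γ) {z : ℂ} {v : Vec d} (hz : ‖z‖ < 1)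
    (hv : v ≠ 0) (R : ℝ) : Av R (fun w => f w (ρ γ v)) (a γ z) = Av R (fun w => f w v) z := by
  rw [← Av_fuchs hF γ hz (fun w => f w (ρ γ v)) R]
  exact Av_congr (fun w hw' => hf.inv γ w v hw' hv) hz R

end Pool.Agent.MP27775c.AHL
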