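import Mathlib
import Pool.Agent.Lib.MP_27775c_an_AHL.Base

/-!
Conformal invariance of the Laplacian.
-/

set_option autoImplicit false
set_option linter.unusedSectionVars false

open MeasureTheory Metric Filter Topology Set

namespace Pool.Agent.MP27775c.AHL

private theorem sc_bil (B : ℂ →L[ℝ] ℂ →L[ℝ] ℝ) (c : ℂ) :
    B c c + B (c * Complex.I) (c * Complex.I) = ‖c‖ ^ 2 * (B 1 1 + B Complex.I Complex.I) := by
  have h1 : c = c.re • (1 : ℂ) + c.im • Complex.I := by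
    apply Complex.ext <;> simp
  have h2 : c * Complex.I = c.re • Complex.I + (-c.im) • (1 : ℂ) := by
    apply Complex.ext <;> simp
  have h3 : B c c = B (c.re • (1 : ℂ) + c.im • Complex.I) (c.re • (1 : ℂ) + c.im • Complex.I) := by
    rw [← h1]
  rw [h3, h2, ← Complex.normSq_eq_norm_sq, Complex.normSq_apply]
  simp only [map_add, map_smul, _root_.add_apply, _root_.smul_apply,
    smul_eq_mul]
  ring

theorem laplacian_comp {φ : ℂ → ℂ} {U : Set ℂ} (hU : IsOpen U) (hφ : DifferentiableOn ℂ φ U)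
    {ζ : ℂ} (hζ : ζ ∈ U) {u : ℂ → ℝ} (hu : ContDiffAt ℝ 2 u (φ ζ)) :
    Laplacian.laplacian (fun ξ => u (φ ξ)) ζ = ‖deriv φ ζ‖ ^ 2 * Laplacian.laplacian u (φ ζ) := by
  have hφa : ∀ ξ ∈ U, DifferentiableAt ℂ φ ξ :=
    fun ξ hξ => (hφ ξ hξ).differentiableAt (hU.mem_nhds hξ)
  have hg : DifferentiableAt ℂ (deriv φ) ζ :=
    (hφ.deriv hU ζ hζ).differentiableAt (hU.mem_nhds hζ)
  have hL : DifferentiableAt ℝ (fderiv ℝ u) (φ ζ) :=
    (hu.fderiv_right (m := 1) (by norm_num)).differentiableAt (by norm_num)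
  have hc : HasFDerivAt (fun ξ => fderiv ℝ u (φ ξ))
      ((fderiv ℝ (fderiv ℝ u) (φ ζ)).comp (deriv φ ζ • (1 : ℂ →L[ℝ] ℂ))) ζ :=
    hL.hasFDerivAt.comp ζ (hφa ζ hζ).hasDerivAt.complexToReal_fderiv
  have hd : HasFDerivAt (fun ξ => deriv φ ξ • (1 : ℂ →L[ℝ] ℂ))
      ((deriv (deriv φ) ζ • (1 : ℂ →L[ℝ] ℂ)).smulRight (1 : ℂ →L[ℝ] ℂ)) ζ :=
    HasFDerivAt.smul_const (F := ℂ →L[ℝ] ℂ) hg.hasDerivAt.complexToReal_fderiv 1
  have h2 := hc.clm_comp hd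
  have hev : fderiv ℝ (fun ξ => u (φ ξ)) =ᶠ[𝓝 ζ]
      fun ξ => (fderiv ℝ u (φ ξ)).comp (deriv φ ξ • (1 : ℂ →L[ℝ] ℂ)) := by
    have h3 : ∀ᶠ ξ in 𝓝 ζ, ContDiffAt ℝ 2 u (φ ξ) :=
      (hφa ζ hζ).continuousAt.eventually (hu.eventually (by simp))
    filter_upwards [h3, hU.mem_nhds hζ] with ξ h4 h5
    exact ((h4.differentiableAt (by norm_num)).hasFDerivAt.comp ξ
      (hφa ξ h5).hasDerivAt.complexToReal_fderiv).fderiv
  have key : ∀ a v : ℂ, fderiv ℝ (fderiv ℝ (fun ξ => u (φ ξ))) ζ a v =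
      fderiv ℝ (fderiv ℝ u) (φ ζ) (deriv φ ζ * a) (deriv φ ζ * v) +
        fderiv ℝ u (φ ζ) (deriv (deriv φ) ζ * a * v) := by
    intro a v
    rw [hev.fderiv_eq, h2.fderiv]
    simp [add_comm]
  rw [InnerProductSpace.laplacian_eq_iteratedFDeriv_complexPlane,
    InnerProductSpace.laplacian_eq_iteratedFDeriv_complexPlane]
  simp only [iteratedFDeriv_two_apply, Matrix.cons_val_zero, Matrix.cons_val_one]
  rw [key, key, ← sc_bil]
  have h6 : deriv (deriv φ) ζ * Complex.I * Complex.I = -(deriv (deriv φ) ζ * 1 * 1) := by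
    rw [mul_assoc, Complex.I_mul_I]
    ring
  rw [h6, map_neg, mul_one]
  ring

end Pool.Agent.MP27775c.AHL
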