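import Mathlib
import Pool.Agent.Lib.MP_27775c_an_AHL.Defs

/-!
Smoothness of the Laplacian along the leaves in all the variables.
-/

set_option autoImplicit false
set_option linter.unusedSectionVars false

open MeasureTheory Metric Filter Topology Set

namespace Pool.Agent.MP27775c.AHL

private theorem sl_open (d : ℕ) : IsOpen {p : ℂ × Vec d | ‖p.1‖ < 1 ∧ p.2 ≠ 0} := by
  have h1 : IsOpen {p : ℂ × Vec d | ‖p.1‖ < 1} :=
    isOpen_lt continuous_fst.norm continuous_const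
  have h2 : IsOpen {p : ℂ × Vec d | p.2 ≠ 0} := isOpen_ne_fun continuous_snd continuous_const
  exact h1.inter h2

open scoped ContDiff in
private theorem sl_hw (d : ℕ) : ContDiffOn ℝ ∞ (fun p : ℂ × Vec d => hw p.1)
    {p | ‖p.1‖ < 1 ∧ p.2 ≠ 0} := by
  unfold hw
  have h1 : ContDiff ℝ ∞ fun p : ℂ × Vec d => (1 - ‖p.1‖ ^ 2) ^ 2 :=
    (contDiff_const.sub ((contDiff_norm_sq ℝ).comp contDiff_fst)).pow 2
  refine contDiffOn_const.div h1.contDiffOn fun p hp => ?_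
  have h2 : 0 < 1 - ‖p.1‖ ^ 2 := by
    have h3 := norm_nonneg p.1
    nlinarith [hp.1]
  positivity

private theorem sl_hw_ne {z : ℂ} (hz : ‖z‖ < 1) : hw z ≠ 0 := by
  unfold hw
  have h2 : 0 < 1 - ‖z‖ ^ 2 := by
    have h3 := norm_nonneg z
    nlinarith
  positivity

private theorem sl_second {d : ℕ} {f : ℂ → Vec d → ℝ} (hf : SmoothHom f) {z : ℂ} (hz : ‖z‖ < 1)
    {v : Vec d} (hv : v ≠ 0) (e : ℂ) :
    iteratedFDeriv ℝ 2 (fun w => f w v) z ![e, e] =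
      fderiv ℝ (fderiv ℝ (fun p : ℂ × Vec d => f p.1 p.2)) (z, v) (e, 0) (e, 0) := by
  set G : ℂ × Vec d → ℝ := fun p => f p.1 p.2 with hG
  have hU := sl_open d
  have hD : ContDiffOn ℝ 1 (fderiv ℝ G) {p : ℂ × Vec d | ‖p.1‖ < 1 ∧ p.2 ≠ 0} :=
    (hf.smooth.of_le (m := 2) (by norm_cast)).fderiv_of_isOpen hU (by norm_num)
  have h0 : ∀ w : ℂ, HasFDerivAt (fun e : ℂ => ((e, v) : ℂ × Vec d))
      (ContinuousLinearMap.inl ℝ ℂ (Vec d)) w := fun w => hasFDerivAt_prodMk_left w v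
  have h1 : ∀ w : ℂ, ‖w‖ < 1 → fderiv ℝ (fun w => f w v) w =
      (fderiv ℝ G (w, v)).comp (ContinuousLinearMap.inl ℝ ℂ (Vec d)) := by
    intro w hw
    have h2 : HasFDerivAt G (fderiv ℝ G (w, v)) (w, v) :=
      ((hf.smooth.contDiffAt (hU.mem_nhds ⟨hw, hv⟩)).differentiableAt (by simp)).hasFDerivAt
    exact (h2.comp w (h0 w)).fderiv
  have h3 : fderiv ℝ (fun w => f w v) =ᶠ[𝓝 z] fun w =>
      (fderiv ℝ G (w, v)).comp (ContinuousLinearMap.inl ℝ ℂ (Vec d)) := by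
    filter_upwards [isOpen_ball.mem_nhds (mem_ball_zero_iff.2 hz)] with w hw
    exact h1 w (mem_ball_zero_iff.1 hw)
  have h4 : HasFDerivAt (fderiv ℝ G) (fderiv ℝ (fderiv ℝ G) (z, v)) (z, v) :=
    ((hD.contDiffAt (hU.mem_nhds ⟨hz, hv⟩)).differentiableAt (by simp)).hasFDerivAt
  have h5 := h4.comp z (h0 z)
  have h6 := h5.clm_comp (hasFDerivAt_const (ContinuousLinearMap.inl ℝ ℂ (Vec d)) z)
  rw [iteratedFDeriv_two_apply, h3.fderiv_eq]
  have h7 := h6.fderiv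
  simp only [Function.comp_apply] at h7
  rw [h7]
  simp

theorem SmoothHom.slice {d : ℕ} {f : ℂ → Vec d → ℝ} (hf : SmoothHom f) {v : Vec d} (hv : v ≠ 0)
    (n : ℕ) : ContDiffOn ℝ n (fun z => f z v) (ball 0 1) := by
  have h1 : ContDiffOn ℝ n (fun z : ℂ => ((z, v) : ℂ × Vec d)) (ball 0 1) :=
    (contDiff_id.prodMk contDiff_const).contDiffOn
  have h2 := (hf.smooth.of_le (m := n) (by norm_cast; exact le_top)).comp h1
    fun z hz => ⟨mem_ball_zero_iff.1 hz, hv⟩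
  exact h2

theorem SmoothHom.laplacian {d : ℕ} {f : ℂ → Vec d → ℝ} (hf : SmoothHom f) :
    SmoothHom (fun z v => Laplacian.laplacian (fun w => f w v) z) := by
  have hU := sl_open d
  refine ⟨?_, fun z v c hz hv hc => ?_⟩
  · have hD := hf.smooth.fderiv_of_isOpen hU (m := ((⊤ : ℕ∞) : WithTop ℕ∞)) (by simp)
    have hD2 := hD.fderiv_of_isOpen hU (m := ((⊤ : ℕ∞) : WithTop ℕ∞)) (by simp)
    have h1 : ∀ e : ℂ, ContDiffOn ℝ ((⊤ : ℕ∞) : WithTop ℕ∞) (fun p : ℂ × Vec d =>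
        fderiv ℝ (fderiv ℝ (fun p : ℂ × Vec d => f p.1 p.2)) p (e, 0) (e, 0))
        {p | ‖p.1‖ < 1 ∧ p.2 ≠ 0} := fun e =>
      (hD2.clm_apply contDiffOn_const).clm_apply contDiffOn_const
    refine ((h1 1).add (h1 Complex.I)).congr fun p hp => ?_
    rw [InnerProductSpace.laplacian_eq_iteratedFDeriv_complexPlane]
    dsimp only
    rw [sl_second hf hp.1 hp.2, sl_second hf hp.1 hp.2]
  · have h1 : (fun w => f w (c • v)) =ᶠ[𝓝 z] fun w => f w v := by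
      filter_upwards [isOpen_ball.mem_nhds (mem_ball_zero_iff.2 hz)] with w hw
      exact hf.hom w v c (mem_ball_zero_iff.1 hw) hv hc
    exact (InnerProductSpace.laplacian_congr_nhds h1).eq_of_nhds

theorem SmoothHom.mul_hw {d : ℕ} {f : ℂ → Vec d → ℝ} (hf : SmoothHom f) :
    SmoothHom (fun z v => f z v * hw z) := by
  refine ⟨hf.smooth.mul (sl_hw d), fun z v c hz hv hc => ?_⟩
  rw [hf.hom z v c hz hv hc]

theorem SmoothHom.div_hw {d : ℕ} {f : ℂ → Vec d → ℝ} (hf : SmoothHom f) :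
    SmoothHom (fun z v => f z v / hw z) := by
  refine ⟨hf.smooth.div (sl_hw d) fun p hp => sl_hw_ne hp.1, fun z v c hz hv hc => ?_⟩
  rw [hf.hom z v c hz hv hc]

theorem SmoothHom.add {d : ℕ} {f g : ℂ → Vec d → ℝ} (hf : SmoothHom f) (hg : SmoothHom g) :
    SmoothHom (fun z v => f z v + g z v) := by
  refine ⟨hf.smooth.add hg.smooth, fun z v c hz hv hc => ?_⟩
  rw [hf.hom z v c hz hv hc, hg.hom z v c hz hv hc]

theorem SmoothHom.congr {d : ℕ} {f g : ℂ → Vec d → ℝ} (hf : SmoothHom f)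
    (h : ∀ z v, ‖z‖ < 1 → v ≠ 0 → g z v = f z v) : SmoothHom g := by
  refine ⟨hf.smooth.congr fun p hp => h p.1 p.2 hp.1 hp.2, fun z v c hz hv hc => ?_⟩
  rw [h z v hz hv, h z (c • v) hz (smul_ne_zero hc hv), hf.hom z v c hz hv hc]

end Pool.Agent.MP27775c.AHL
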