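import Mathlib
import Pool.Agent.Lib.MP_27775c_an_AHL.Fa
import Pool.Agent.Lib.MP_27775c_an_AHL.Sl
import Pool.Agent.Lib.MP_27775c_an_AHL.Sc
import Pool.Agent.Lib.MP_27775c_an_AHL.Kc

/-!
Functions and leafwise forms on the quotient.
-/

set_option autoImplicit false
set_option linter.unusedSectionVars false

open MeasureTheory Metric Filter Topology Set

namespace Pool.Agent.MP27775c.AHL

variable {Γ : Type*} [Group Γ] {d : ℕ} {j : Γ →* Matrix.SpecialLinearGroup (Fin 2) ℂ}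
  {ρ : Γ →* (Vec d →L[ℂ] Vec d)}

variable {u g : ℂ → Vec d → ℝ}

theorem IsFun.invFun (hu : IsFun j ρ u) : InvFun (fun γ => moeb (j γ)) ρ u :=
  ⟨hu.smoothHom.smooth.continuousOn, hu.smoothHom.hom, hu.inv⟩

theorem IsFun.const (c : ℝ) : IsFun j ρ (fun _ _ => c) :=
  ⟨⟨contDiffOn_const, fun _ _ _ _ _ _ => rfl⟩, fun _ _ _ _ _ => rfl⟩

theorem IsFun.add (hu : IsFun j ρ u) (hg : IsFun j ρ g) : IsFun j ρ (fun z v => u z v + g z v) :=
  ⟨hu.smoothHom.add hg.smoothHom, fun γ z v hz hv => by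
    rw [hu.inv γ z v hz hv, hg.inv γ z v hz hv]⟩

theorem IsFun.congr (hu : IsFun j ρ u) (hj : IsUniform j)
    (h : ∀ z v, ‖z‖ < 1 → v ≠ 0 → g z v = u z v) : IsFun j ρ g :=
  ⟨hu.smoothHom.congr h, fun γ z v hz hv => by
    rw [h _ _ ((moeb_fuchs hj).lt γ z hz) (rho_ne ρ γ hv), hu.inv γ z v hz hv, h z v hz hv]⟩

private theorem fb_hw_pos {z : ℂ} (hz : ‖z‖ < 1) : 0 < hw z := by
  unfold hw
  have h1 : 0 < 1 - ‖z‖ ^ 2 := by nlinarith [norm_nonneg z]
  positivity

private theorem fb_deriv_ne (hj : IsUniform j) (γ : Γ) {z : ℂ} (hz : ‖z‖ < 1) :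
    ‖moebDeriv (j γ) z‖ ^ 2 ≠ 0 := by
  intro h
  have h1 := hw_moeb hj γ hz
  rw [h, mul_zero] at h1
  exact (fb_hw_pos hz).ne h1

theorem leaf_fun (hj : IsUniform j) (hg : g ∈ leafForms j ρ) :
    IsFun j ρ (fun z v => g z v / hw z) := by
  obtain ⟨hs, hi⟩ := hg
  refine ⟨hs.div_hw, fun γ z v hz hv => ?_⟩
  rw [← hi γ z v hz hv, ← hw_moeb hj γ hz, mul_div_mul_right _ _ (fb_deriv_ne hj γ hz)]

theorem fun_leaf (hj : IsUniform j) (hu : IsFun j ρ u) :
    (fun z v => u z v * hw z) ∈ leafForms j ρ := by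
  refine ⟨hu.smoothHom.mul_hw, fun γ z v hz hv => ?_⟩
  simp only
  rw [hu.inv γ z v hz hv, mul_assoc, hw_moeb hj γ hz]

/-- The leafwise Laplacian of a function is a leafwise form. -/
theorem laplacian_leaf (hj : IsUniform j) (hu : IsFun j ρ u) :
    (fun z v => (2 * Real.pi)⁻¹ * Laplacian.laplacian (fun w => u w v) z) ∈ leafForms j ρ := by
  have hs := hu.smoothHom.laplacian
  refine ⟨⟨contDiffOn_const.mul hs.smooth, fun z v c hz hv hc => ?_⟩, fun γ z v hz hv => ?_⟩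
  · have h : Laplacian.laplacian (fun w => u w (c • v)) z =
        Laplacian.laplacian (fun w => u w v) z := hs.hom z v c hz hv hc
    beta_reduce
    rw [h]
  · have hlt := (moeb_fuchs hj).lt γ z hz
    have hd : DifferentiableOn ℂ (moeb (j γ)) (ball 0 1) := fun w hw' =>
      (hasDerivAt_moeb hj γ (mem_ball_zero_iff.1 hw')).differentiableAt.differentiableWithinAt
    have hc : ContDiffAt ℝ 2 (fun w => u w (ρ γ v)) (moeb (j γ) z) :=
      (hu.smoothHom.slice (rho_ne ρ γ hv) 2).contDiffAt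
        (isOpen_ball.mem_nhds (mem_ball_zero_iff.2 hlt))
    have h1 := laplacian_comp isOpen_ball hd (mem_ball_zero_iff.2 hz) hc
    rw [(hasDerivAt_moeb hj γ hz).deriv] at h1
    have h2 : (fun w => u (moeb (j γ) w) (ρ γ v)) =ᶠ[𝓝 z] fun w => u w v := by
      filter_upwards [isOpen_ball.mem_nhds (mem_ball_zero_iff.2 hz)] with w hw'
      exact hu.inv γ w v (mem_ball_zero_iff.1 hw') hv
    have h3 := (InnerProductSpace.laplacian_congr_nhds h2).eq_of_nhds
    rw [h3] at h1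
    beta_reduce
    rw [h1]
    ring

theorem IsFun.hlap (hj : IsUniform j) (hu : IsFun j ρ u) :
    IsFun j ρ (fun z v => lh (fun w => u w v) z) := by
  have h1 := leaf_fun hj ((leafForms j ρ).smul_mem (2 * Real.pi) (laplacian_leaf hj hu))
  refine h1.congr hj fun z v hz hv => ?_
  have h2 : (2 * Real.pi) * (2 * Real.pi)⁻¹ = 1 := mul_inv_cancel₀ (by positivity)
  simp only [Pi.smul_apply, smul_eq_mul, lh]
  rw [← mul_assoc, h2, one_mul]

end Pool.Agent.MP27775c.AHL
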