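import Mathlib
import Pool.Agent.Lib.MP_27775c_an_AHL.Base

/-!
The derivatives of the circle averages of a function of class C2.
-/

set_option autoImplicit false
set_option linter.unusedSectionVars false

open MeasureTheory Metric Filter Topology Set

namespace Pool.Agent.MP27775c.AHL

private theorem param {G G' : ℝ → ℝ → ℝ} {r₀ δ : ℝ} (hδ : 0 < δ)
    (hG : ∀ r ∈ closedBall r₀ δ, Continuous (G r))
    (hc : ContinuousOn (fun q : ℝ × ℝ => G' q.1 q.2) (closedBall r₀ δ ×ˢ univ))
    (hd : ∀ r ∈ closedBall r₀ δ, ∀ θ, HasDerivAt (fun s => G s θ) (G' r θ) r) :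
    HasDerivAt (fun r => ∫ θ in (0 : ℝ)..(2 * Real.pi), G r θ)
      (∫ θ in (0 : ℝ)..(2 * Real.pi), G' r₀ θ) r₀ := by
  have hK : IsCompact (closedBall r₀ δ ×ˢ uIcc (0 : ℝ) (2 * Real.pi)) :=
    (isCompact_closedBall r₀ δ).prod isCompact_uIcc
  obtain ⟨C, hC⟩ := hK.exists_bound_of_continuousOn (hc.mono (prod_mono_right (subset_univ _)))
  have h0 : r₀ ∈ closedBall r₀ δ := mem_closedBall_self hδ.le
  have hc0 : Continuous (G' r₀) := by
    have := hc.comp (f := fun θ : ℝ => (r₀, θ)) (s := univ) (by fun_prop)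
      (fun θ _ => ⟨h0, mem_univ _⟩)
    exact continuousOn_univ.1 this
  refine (intervalIntegral.hasDerivAt_integral_of_dominated_loc_of_deriv_le
    (F := G) (F' := G') (bound := fun _ => C) (closedBall_mem_nhds r₀ hδ) ?_ ?_ ?_ ?_ ?_ ?_).2
  · filter_upwards [closedBall_mem_nhds r₀ hδ] with r hr
    exact (hG r hr).aestronglyMeasurable
  · exact (hG r₀ h0).intervalIntegrable _ _
  · exact hc0.aestronglyMeasurable
  · exact Eventually.of_forall fun θ hθ r hr => hC (r, θ) ⟨hr, uIoc_subset_uIcc hθ⟩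
  · exact intervalIntegrable_const
  · exact Eventually.of_forall fun θ _ r hr => hd r hr θ

private theorem lap_eq (F : ℂ → ℝ) (p : ℂ) {e : ℂ} (he : e.re ^ 2 + e.im ^ 2 = 1) :
    Laplacian.laplacian F p = fderiv ℝ (fderiv ℝ F) p e e +
      fderiv ℝ (fderiv ℝ F) p (Complex.I * e) (Complex.I * e) := by
  rw [InnerProductSpace.laplacian_eq_iteratedFDeriv_complexPlane]
  have e1 : e = e.re • (1 : ℂ) + e.im • Complex.I := by
    apply Complex.ext <;> simp
  have e2 : Complex.I * e = (-e.im) • (1 : ℂ) + e.re • Complex.I := by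
    apply Complex.ext <;> simp
  simp only [iteratedFDeriv_two_apply]
  rw [e2]
  generalize fderiv ℝ (fderiv ℝ F) p = T
  have h1 : T e e = e.re ^ 2 * T 1 1 + e.re * e.im * (T 1 Complex.I + T Complex.I 1) +
      e.im ^ 2 * T Complex.I Complex.I := by
    conv_lhs => rw [e1]
    simp only [map_add, map_smul, add_apply, smul_apply,
      smul_eq_mul]
    ring
  have h2 : T ((-e.im) • (1 : ℂ) + e.re • Complex.I) ((-e.im) • (1 : ℂ) + e.re • Complex.I) =
      e.im ^ 2 * T 1 1 - e.re * e.im * (T 1 Complex.I + T Complex.I 1) +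
      e.re ^ 2 * T Complex.I Complex.I := by
    simp only [map_add, map_smul, add_apply, smul_apply,
      smul_eq_mul]
    ring
  rw [h1, h2]
  simp only [Matrix.cons_val_zero, Matrix.cons_val_one]
  linear_combination (-(T 1 1) - T Complex.I Complex.I) * he

private theorem mem_b {s : ℝ} (h0 : -1 < s) (h1 : s < 1) (θ : ℝ) :
    (s : ℂ) * Complex.exp (θ * Complex.I) ∈ ball (0 : ℂ) 1 := by
  rw [mem_ball_zero_iff, norm_mul, Complex.norm_exp_ofReal_mul_I, mul_one, Complex.norm_real,
    Real.norm_eq_abs, abs_lt]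
  exact ⟨h0, h1⟩

private theorem dr (r θ : ℝ) :
    HasDerivAt (fun s : ℝ => (s : ℂ) * Complex.exp (θ * Complex.I))
      (Complex.exp (θ * Complex.I)) r := by
  simpa using (Complex.ofRealCLM.hasDerivAt (x := r)).mul_const (Complex.exp (θ * Complex.I))

private theorem de (θ : ℝ) :
    HasDerivAt (fun s : ℝ => Complex.exp (s * Complex.I))
      (Complex.I * Complex.exp (θ * Complex.I)) θ := by
  have h := ((Complex.ofRealCLM.hasDerivAt (x := θ)).mul_const Complex.I).cexp
  simpa [mul_comm] using h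

/-- Derivatives of the circle averages and the polar form of the Laplacian. -/
theorem circle_deriv {F : ℂ → ℝ} (hF : ContDiffOn ℝ 2 F (ball 0 1)) :
    ∃ m₁ : ℝ → ℝ,
      (∀ r, 0 < r → r < 1 → HasDerivAt (fun s => Real.circleAverage F 0 s) (m₁ r) r) ∧
      (∀ r, 0 < r → r < 1 → HasDerivAt (fun s => s * m₁ s)
        (r * Real.circleAverage (fun ζ => Laplacian.laplacian F ζ) 0 r) r) ∧
      Tendsto (fun r => r * m₁ r) (𝓝[>] 0) (𝓝 0) := by
  have hp := Real.pi_pos
  set E : ℝ → ℂ := fun θ => Complex.exp (θ * Complex.I) with hE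
  have hEc : Continuous E := by fun_prop
  set D : ℂ → ℂ →L[ℝ] ℝ := fderiv ℝ F with hD
  set D2 : ℂ → ℂ →L[ℝ] ℂ →L[ℝ] ℝ := fderiv ℝ D with hD2
  have hFD : ∀ p ∈ ball (0 : ℂ) 1, HasFDerivAt F (D p) p := fun p hpp =>
    ((hF.contDiffAt (isOpen_ball.mem_nhds hpp)).differentiableAt (by norm_num)).hasFDerivAt
  have hD1 : ContDiffOn ℝ 1 D (ball 0 1) := hF.fderiv_of_isOpen isOpen_ball (by norm_num)
  have hDc : ContinuousOn D (ball 0 1) := hD1.continuousOn
  have hDD : ∀ p ∈ ball (0 : ℂ) 1, HasFDerivAt D (D2 p) p := fun p hpp =>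
    ((hD1.contDiffAt (isOpen_ball.mem_nhds hpp)).differentiableAt (by norm_num)).hasFDerivAt
  have hD2c : ContinuousOn D2 (ball 0 1) := hD1.continuousOn_fderiv_of_isOpen isOpen_ball le_rfl
  have hmem : ∀ s : ℝ, -1 < s → s < 1 → ∀ θ, (s : ℂ) * E θ ∈ ball (0 : ℂ) 1 := fun s h0 h1 θ =>
    mem_b h0 h1 θ
  have hcm : ∀ s θ : ℝ, circleMap 0 s θ = (s : ℂ) * E θ := fun s θ => circleMap_zero s θ
  have hEE : ∀ θ, (E θ).re ^ 2 + (E θ).im ^ 2 = 1 := fun θ => by
    rw [hE]
    simp only [Complex.exp_ofReal_mul_I_re, Complex.exp_ofReal_mul_I_im]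
    exact Real.cos_sq_add_sin_sq θ
  -- a closed ball around r₀
  have hcb : ∀ r₀ : ℝ, 0 < r₀ → r₀ < 1 → ∃ δ : ℝ, 0 < δ ∧
      ∀ s ∈ closedBall r₀ δ, -1 < s ∧ s < 1 := fun r₀ h0 h1 => by
    refine ⟨(1 - r₀) / 2, by linarith, fun s hs => ?_⟩
    rw [mem_closedBall, Real.dist_eq, abs_le] at hs
    constructor <;> linarith [hs.1, hs.2]
  have cmap : Continuous fun q : ℝ × ℝ => (q.1 : ℂ) * E q.2 := by fun_prop
  set m₁ : ℝ → ℝ := fun r => (2 * Real.pi)⁻¹ *
    ∫ θ in (0 : ℝ)..(2 * Real.pi), D ((r : ℂ) * E θ) (E θ) with hm₁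
  refine ⟨m₁, fun r h0 h1 => ?_, fun r h0 h1 => ?_, ?_⟩
  · -- first derivative
    obtain ⟨δ, hδ, hδ'⟩ := hcb r h0 h1
    have key := param (G := fun s θ => F ((s : ℂ) * E θ))
      (G' := fun s θ => D ((s : ℂ) * E θ) (E θ)) (r₀ := r) hδ
      (fun s hs => by
        have := hF.continuousOn.comp (f := fun θ : ℝ => (s : ℂ) * E θ) (s := univ)
          (by fun_prop) (fun θ _ => hmem s (hδ' s hs).1 (hδ' s hs).2 θ)
        exact continuousOn_univ.1 this)
      (by
        have h2 : ContinuousOn (fun q : ℝ × ℝ => D ((q.1 : ℂ) * E q.2))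
            (closedBall r δ ×ˢ univ) :=
          hDc.comp cmap.continuousOn (fun q hq => hmem q.1 (hδ' _ hq.1).1 (hδ' _ hq.1).2 q.2)
        exact h2.clm_apply (by fun_prop))
      (fun s hs θ => (hFD _ (hmem s (hδ' s hs).1 (hδ' s hs).2 θ)).comp_hasDerivAt s (dr s θ))
    have := key.const_mul (2 * Real.pi)⁻¹
    refine this.congr_of_eventuallyEq (Eventually.of_forall fun s => ?_)
    simp only [Real.circleAverage, hcm, smul_eq_mul]
  · -- second derivative
    obtain ⟨δ, hδ, hδ'⟩ := hcb r h0 h1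
    have key := param (G := fun s θ => D ((s : ℂ) * E θ) (E θ))
      (G' := fun s θ => D2 ((s : ℂ) * E θ) (E θ) (E θ)) (r₀ := r) hδ
      (fun s hs => by
        have := hDc.comp (f := fun θ : ℝ => (s : ℂ) * E θ) (s := univ)
          (by fun_prop) (fun θ _ => hmem s (hδ' s hs).1 (hδ' s hs).2 θ)
        exact (continuousOn_univ.1 this).clm_apply hEc)
      (by
        have h2 : ContinuousOn (fun q : ℝ × ℝ => D2 ((q.1 : ℂ) * E q.2))
            (closedBall r δ ×ˢ univ) :=
          hD2c.comp cmap.continuousOn (fun q hq => hmem q.1 (hδ' _ hq.1).1 (hδ' _ hq.1).2 q.2)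
        exact (h2.clm_apply (by fun_prop)).clm_apply (by fun_prop))
      (fun s hs θ => by
        have h3 := (hDD _ (hmem s (hδ' s hs).1 (hδ' s hs).2 θ)).comp_hasDerivAt s (dr s θ)
        have h4 := h3.clm_apply (hasDerivAt_const s (E θ))
        simpa using h4)
    have hm' : HasDerivAt m₁ ((2 * Real.pi)⁻¹ *
        ∫ θ in (0 : ℝ)..(2 * Real.pi), D2 ((r : ℂ) * E θ) (E θ) (E θ)) r :=
      key.const_mul (2 * Real.pi)⁻¹
    have hr1 : -1 < r := by linarith
    have hDr : Continuous fun θ => D ((r : ℂ) * E θ) := by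
      have := hDc.comp (f := fun θ : ℝ => (r : ℂ) * E θ) (s := univ)
        (by fun_prop) (fun θ _ => hmem r hr1 h1 θ)
      exact continuousOn_univ.1 this
    have hD2r : Continuous fun θ => D2 ((r : ℂ) * E θ) := by
      have := hD2c.comp (f := fun θ : ℝ => (r : ℂ) * E θ) (s := univ)
        (by fun_prop) (fun θ _ => hmem r hr1 h1 θ)
      exact continuousOn_univ.1 this
    -- the angular derivative
    have hang : ∀ θ : ℝ, HasDerivAt (fun t : ℝ => D ((r : ℂ) * E t) (Complex.I * E t))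
        (r * D2 ((r : ℂ) * E θ) (Complex.I * E θ) (Complex.I * E θ) -
          D ((r : ℂ) * E θ) (E θ)) θ := by
      intro θ
      have a1 : HasDerivAt E (Complex.I * E θ) θ := de θ
      have a2 : HasDerivAt (fun t => (r : ℂ) * E t) ((r : ℂ) * (Complex.I * E θ)) θ :=
        a1.const_mul _
      have a3 : HasDerivAt (fun t => Complex.I * E t) (Complex.I * (Complex.I * E θ)) θ :=
        a1.const_mul _
      have a4 := (hDD _ (hmem r hr1 h1 θ)).comp_hasDerivAt θ a2
      have a5 := a4.clm_apply a3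
      refine a5.congr_deriv ?_
      have b1 : (r : ℂ) * (Complex.I * E θ) = r • (Complex.I * E θ) :=
        (Complex.real_smul).symm
      have b2 : Complex.I * (Complex.I * E θ) = -(E θ) := by
        rw [← mul_assoc, Complex.I_mul_I]
        ring
      rw [b1, b2]
      simp only [map_smul, map_neg, smul_apply, smul_eq_mul,
        Function.comp_apply]
      ring
    have hint0 : ∫ θ in (0 : ℝ)..(2 * Real.pi),
        (r * D2 ((r : ℂ) * E θ) (Complex.I * E θ) (Complex.I * E θ) -
          D ((r : ℂ) * E θ) (E θ)) = 0 := by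
      rw [intervalIntegral.integral_eq_sub_of_hasDerivAt (fun θ _ => hang θ)]
      · have : E (2 * Real.pi) = E 0 := by
          simp [hE, Complex.exp_two_pi_mul_I]
        rw [this, sub_self]
      · apply Continuous.intervalIntegrable
        have c1 : Continuous fun θ => D2 ((r : ℂ) * E θ) (Complex.I * E θ) (Complex.I * E θ) :=
          (hD2r.clm_apply (by fun_prop)).clm_apply (by fun_prop)
        have c2 : Continuous fun θ => D ((r : ℂ) * E θ) (E θ) := hDr.clm_apply hEc
        exact (continuous_const.mul c1).sub c2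
    have cI : Continuous fun θ => D2 ((r : ℂ) * E θ) (Complex.I * E θ) (Complex.I * E θ) :=
      (hD2r.clm_apply (by fun_prop)).clm_apply (by fun_prop)
    have cE : Continuous fun θ => D2 ((r : ℂ) * E θ) (E θ) (E θ) :=
      (hD2r.clm_apply hEc).clm_apply hEc
    have cD : Continuous fun θ => D ((r : ℂ) * E θ) (E θ) := hDr.clm_apply hEc
    have crI : Continuous fun θ =>
        r * D2 ((r : ℂ) * E θ) (Complex.I * E θ) (Complex.I * E θ) := continuous_const.mul cI
    rw [intervalIntegral.integral_sub (crI.intervalIntegrable _ _)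
      (cD.intervalIntegrable _ _), intervalIntegral.integral_const_mul] at hint0
    have hfin := (hasDerivAt_id r).mul hm'
    refine hfin.congr_deriv ?_
    have hlap : Real.circleAverage (fun ζ => Laplacian.laplacian F ζ) 0 r =
        (2 * Real.pi)⁻¹ * ((∫ θ in (0 : ℝ)..(2 * Real.pi), D2 ((r : ℂ) * E θ) (E θ) (E θ)) +
          ∫ θ in (0 : ℝ)..(2 * Real.pi),
            D2 ((r : ℂ) * E θ) (Complex.I * E θ) (Complex.I * E θ)) := by
      rw [← intervalIntegral.integral_add (cE.intervalIntegrable _ _)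
        (cI.intervalIntegrable _ _)]
      simp only [Real.circleAverage, hcm, smul_eq_mul]
      congr 1
      refine intervalIntegral.integral_congr fun θ _ => ?_
      exact lap_eq F _ (hEE θ)
    rw [hlap]
    simp only [hm₁, id]
    linear_combination (-(2 * Real.pi)⁻¹) * hint0
  · -- the limit
    have hK : IsCompact (closedBall (0 : ℂ) (1 / 2)) := isCompact_closedBall _ _
    obtain ⟨C, hC⟩ := hK.exists_bound_of_continuousOn
      (hDc.mono (closedBall_subset_ball (by norm_num)))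
    have hbd : ∀ r : ℝ, 0 < r → r ≤ 1 / 2 → |m₁ r| ≤ C := by
      intro r h0 h1
      have h2 : ‖∫ θ in (0 : ℝ)..(2 * Real.pi), D ((r : ℂ) * E θ) (E θ)‖ ≤
          C * |2 * Real.pi - 0| := by
        refine intervalIntegral.norm_integral_le_of_norm_le_const fun θ _ => ?_
        have hEn : ‖E θ‖ = 1 := Complex.norm_exp_ofReal_mul_I θ
        refine (ContinuousLinearMap.le_opNorm _ _).trans ?_
        rw [hEn, mul_one]
        refine hC _ ?_
        rw [mem_closedBall_zero_iff, norm_mul, hEn, mul_one, Complex.norm_real,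
          Real.norm_eq_abs, abs_of_pos h0]
        exact h1
      rw [sub_zero, abs_of_pos (by positivity), Real.norm_eq_abs] at h2
      rw [hm₁]
      simp only [abs_mul, abs_inv]
      rw [abs_of_pos (by positivity : (0 : ℝ) < 2), abs_of_pos hp,
        inv_mul_le_iff₀ (by positivity)]
      linarith
    have hC0 : 0 ≤ C := (norm_nonneg _).trans (hC 0 (by simp))
    have hev : ∀ᶠ r : ℝ in 𝓝[>] 0, ‖r * m₁ r‖ ≤ C * r := by
      have : Ioc (0 : ℝ) (1 / 2) ∈ 𝓝[>] (0 : ℝ) := Ioc_mem_nhdsGT (by norm_num)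
      filter_upwards [this] with r hr
      rw [Real.norm_eq_abs, abs_mul, abs_of_pos hr.1, mul_comm]
      exact mul_le_mul_of_nonneg_right (hbd r hr.1 hr.2) hr.1.le
    refine squeeze_zero_norm' hev ?_
    have : Tendsto (fun r : ℝ => C * r) (𝓝 0) (𝓝 (C * 0)) := tendsto_id.const_mul C
    rw [mul_zero] at this
    exact this.mono_left nhdsWithin_le_nhds

end Pool.Agent.MP27775c.AHL
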