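import Mathlib
import Pool.Agent.Lib.MP_27775c_an_AHL.Sa

/-!
The Jensen-Green formula.
-/

set_option autoImplicit false
set_option linter.unusedSectionVars false

open MeasureTheory Metric Filter Topology Set

namespace Pool.Agent.MP27775c.AHL

theorem continuousOn_laplacian {F : ℂ → ℝ} (hF : ContDiffOn ℝ 2 F (ball 0 1)) :
    ContinuousOn (fun ζ => Laplacian.laplacian F ζ) (ball 0 1) := by
  have h1 : ContinuousOn (iteratedFDeriv ℝ 2 F) (ball 0 1) := by
    refine (hF.continuousOn_iteratedFDerivWithin (m := 2) (by norm_cast)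
      isOpen_ball.uniqueDiffOn).congr ?_
    intro x hx
    exact (iteratedFDerivWithin_of_isOpen 2 isOpen_ball hx).symm
  have h2 : (fun ζ => Laplacian.laplacian F ζ) = fun x =>
      iteratedFDeriv ℝ 2 F x ![1, 1] + iteratedFDeriv ℝ 2 F x ![Complex.I, Complex.I] :=
    InnerProductSpace.laplacian_eq_iteratedFDeriv_complexPlane F
  rw [h2]
  exact (h1.eval_const ![1, 1]).add (h1.eval_const ![Complex.I, Complex.I])

private theorem sb_cont {G : ℂ → ℝ} (hG : ContinuousOn G (ball 0 1)) :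
    ContinuousOn (fun t => Real.circleAverage G 0 t) (Ico 0 1) := by
  refine Real.ContinuousOn.circleAverage (s := Ico 0 1) (hG.mono ?_) fun r hr => hr.1
  intro z hz
  rw [mem_ball_zero_iff]
  have h1 : ‖z - 0‖ < 1 := hz.2
  rwa [sub_zero] at h1

private theorem sb_zero (G : ℂ → ℝ) : Real.circleAverage G 0 0 = G 0 := by
  have h1 : ∀ θ : ℝ, circleMap (0 : ℂ) 0 θ = 0 := by
    intro θ
    simp [circleMap]
  rw [Real.circleAverage_def]
  simp only [h1, intervalIntegral.integral_const, sub_zero, smul_eq_mul]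
  have := Real.pi_pos
  field_simp

private theorem sb_bound {P c : ℝ → ℝ} {r C : ℝ} (hr1 : r < 1)
    (hP : ∀ s, 0 < s → s < 1 → HasDerivAt P (s * c s) s)
    (hC : ∀ s ∈ Icc 0 r, |c s| ≤ C) (hC0 : 0 ≤ C) (h0 : Tendsto P (𝓝[>] 0) (𝓝 0)) {ε : ℝ}
    (hε : 0 < ε) (hεr : ε ≤ r) : |P ε| ≤ C * ε ^ 2 := by
  have h1 : Tendsto (fun δ => |P ε - P δ|) (𝓝[>] 0) (𝓝 |P ε - 0|) :=
    (tendsto_const_nhds.sub h0).abs
  rw [sub_zero] at h1
  refine le_of_tendsto h1 ?_
  filter_upwards [Ioo_mem_nhdsGT hε] with δ hδ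
  have h2 := Convex.norm_image_sub_le_of_norm_hasDerivWithin_le (𝕜 := ℝ) (s := Icc δ ε)
    (f := P) (f' := fun s => s * c s) (C := C * ε)
    (fun x hx => (hP x (hδ.1.trans_le hx.1) (by linarith [hx.2])).hasDerivWithinAt)
    (fun x hx => by
      have hx0 : 0 < x := hδ.1.trans_le hx.1
      rw [Real.norm_eq_abs, abs_mul, abs_of_pos hx0, mul_comm C]
      exact mul_le_mul hx.2 (hC x ⟨hx0.le, hx.2.trans hεr⟩) (abs_nonneg _) hε.le)
    (convex_Icc δ ε) (left_mem_Icc.2 hδ.2.le) (right_mem_Icc.2 hδ.2.le)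
  rw [Real.norm_eq_abs, Real.norm_eq_abs, abs_of_pos (sub_pos.2 hδ.2)] at h2
  refine h2.trans ?_
  have h3 : C * ε * (ε - δ) ≤ C * ε * ε :=
    mul_le_mul_of_nonneg_left (by linarith [hδ.1]) (mul_nonneg hC0 hε.le)
  linarith [h3, show C * ε * ε = C * ε ^ 2 by ring]

theorem green {F : ℂ → ℝ} (hF : ContDiffOn ℝ 2 F (ball 0 1)) {r : ℝ} (hr : 0 < r) (hr1 : r < 1) :
    IntervalIntegrable (fun t => t * Real.log (r / t) *
      Real.circleAverage (fun ζ => Laplacian.laplacian F ζ) 0 t) volume 0 r ∧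
    Real.circleAverage F 0 r - F 0 = ∫ t in (0 : ℝ)..r, t * Real.log (r / t) *
      Real.circleAverage (fun ζ => Laplacian.laplacian F ζ) 0 t := by
  obtain ⟨m₁, hm, hP, hP0⟩ := circle_deriv hF
  have hcc := sb_cont (continuousOn_laplacian hF)
  have hmc := sb_cont hF.continuousOn
  generalize hc : (fun t => Real.circleAverage (fun ζ => Laplacian.laplacian F ζ) 0 t) = c at hcc
  have hct : ∀ t, Real.circleAverage (fun ζ => Laplacian.laplacian F ζ) 0 t = c t :=
    fun t => congrFun hc t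
  simp only [hct] at hP ⊢
  have hcr : ContinuousOn c (Icc 0 r) := hcc.mono fun x hx => ⟨hx.1, hx.2.trans_lt hr1⟩
  have hfun : ∀ t ∈ Icc 0 r, t * Real.log (r / t) * c t =
      (t * Real.log r - t * Real.log t) * c t := by
    intro t ht
    rcases ht.1.eq_or_lt with h | h
    · rw [← h]
      ring
    · rw [Real.log_div hr.ne' h.ne', mul_sub]
  have hint : IntervalIntegrable (fun t => t * Real.log (r / t) * c t) volume 0 r := by
    refine ContinuousOn.intervalIntegrable ?_
    rw [uIcc_of_le hr.le]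
    refine ContinuousOn.congr (f := fun t => (t * Real.log r - t * Real.log t) * c t) ?_ hfun
    exact ((continuous_id.mul continuous_const).sub
      Real.continuous_mul_log).continuousOn.mul hcr
  refine ⟨hint, ?_⟩
  obtain ⟨C, hC⟩ := isCompact_Icc.exists_bound_of_continuousOn hcr
  have hC0 : 0 ≤ C := (norm_nonneg _).trans (hC 0 ⟨le_rfl, hr.le⟩)
  have hb := fun {ε : ℝ} (hε : 0 < ε) (hεr : ε ≤ r) =>
    sb_bound (P := fun s => s * m₁ s) hr1 hP hC hC0 hP0 hε hεr
  have hK : ∀ s, 0 < s → s < 1 → HasDerivAt (fun s => Real.circleAverage F 0 s +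
      s * m₁ s * (Real.log r - Real.log s)) (s * Real.log (r / s) * c s) s := by
    intro s hs hs1
    refine ((hm s hs hs1).add ((hP s hs hs1).mul
      ((Real.hasDerivAt_log hs.ne').const_sub (Real.log r)))).congr_deriv ?_
    rw [Real.log_div hr.ne' hs.ne']
    field_simp
    ring
  have hlim : Tendsto (fun s => s * m₁ s * (Real.log r - Real.log s)) (𝓝[>] 0) (𝓝 0) := by
    refine squeeze_zero_norm' (a := fun s => C * (s * |s * Real.log r - s * Real.log s|)) ?_ ?_
    · filter_upwards [Ioo_mem_nhdsGT hr] with s hs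
      rw [Real.norm_eq_abs, abs_mul]
      have h1 := hb hs.1 hs.2.le
      have h2 : |s * Real.log r - s * Real.log s| = s * |Real.log r - Real.log s| := by
        rw [← mul_sub, abs_mul, abs_of_pos hs.1]
      rw [h2]
      calc |s * m₁ s| * |Real.log r - Real.log s| ≤ C * s ^ 2 * |Real.log r - Real.log s| :=
            mul_le_mul_of_nonneg_right h1 (abs_nonneg _)
        _ = C * (s * (s * |Real.log r - Real.log s|)) := by ring
    · have h3 : Continuous (fun s : ℝ => C * (s * |s * Real.log r - s * Real.log s|)) :=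
        continuous_const.mul (continuous_id.mul
          ((continuous_id.mul continuous_const).sub Real.continuous_mul_log).abs)
      have h4 := h3.tendsto 0
      rw [zero_mul, mul_zero] at h4
      exact h4.mono_left nhdsWithin_le_nhds
  have hm0 : Tendsto (fun s => Real.circleAverage F 0 s) (𝓝[>] 0) (𝓝 (F 0)) := by
    have h1 : ContinuousWithinAt (fun s => Real.circleAverage F 0 s) (Ioo 0 1) 0 :=
      (hmc 0 ⟨le_rfl, zero_lt_one⟩).mono Ioo_subset_Ico_self
    have h2 : Tendsto (fun s => Real.circleAverage F 0 s) (𝓝[Ioo 0 1] 0)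
      (𝓝 (Real.circleAverage F 0 0)) := h1
    rwa [nhdsWithin_Ioo_eq_nhdsGT zero_lt_one, sb_zero] at h2
  have ha := hm0.add hlim
  rw [add_zero] at ha
  have hbr : Tendsto (fun s => Real.circleAverage F 0 s + s * m₁ s * (Real.log r - Real.log s))
      (𝓝[<] r) (𝓝 (Real.circleAverage F 0 r)) := by
    have h1 := (hK r hr hr1).continuousAt.tendsto.mono_left
      (nhdsWithin_le_nhds (s := Iio r))
    rwa [sub_self, mul_zero, add_zero] at h1
  exact (intervalIntegral.integral_eq_sub_of_hasDerivAt_of_tendsto hr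
    (fun x hx => hK x hx.1 (hx.2.trans hr1)) hint ha hbr).symm

end Pool.Agent.MP27775c.AHL
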