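import Mathlib
import Pool.Agent.Lib.MP_27775c_an_AHL.Defs

/-!
The weight of the Green function: sign, integrability, mass.
-/

set_option autoImplicit false
set_option linter.unusedSectionVars false

open MeasureTheory Metric Filter Topology Set

namespace Pool.Agent.MP27775c.AHL

private theorem wt_tanh_pos {t : ℝ} (ht : 0 < t) : 0 < Real.tanh (t / 2) := by
  rw [Real.tanh_eq_sinh_div_cosh]
  exact div_pos (Real.sinh_pos_iff.2 (by linarith)) (Real.cosh_pos _)

private theorem wt_tanh_lt_one (t : ℝ) : Real.tanh (t / 2) < 1 := by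
  rw [Real.tanh_eq_sinh_div_cosh, div_lt_one (Real.cosh_pos _)]
  exact Real.sinh_lt_cosh _

private theorem wt_eq {R t : ℝ} (hR : 0 < R) (ht : 0 < t) :
    wt R t = Real.sinh t * (Real.log (Real.tanh (R / 2)) - Real.log (Real.tanh (t / 2))) := by
  unfold wt
  rw [Real.log_div (wt_tanh_pos hR).ne' (wt_tanh_pos ht).ne']

private theorem wt_zero (R : ℝ) : wt R 0 = 0 := by
  simp [wt]

theorem wt_nonneg {R t : ℝ} (h0 : 0 ≤ t) (h : t ≤ R) : 0 ≤ wt R t := by
  rcases h0.eq_or_lt with rfl | ht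
  · rw [wt_zero]
  · have hR : 0 < R := lt_of_lt_of_le ht h
    rw [wt_eq hR ht]
    refine mul_nonneg (Real.sinh_nonneg_iff.2 h0) (sub_nonneg.2 ?_)
    refine Real.log_le_log (wt_tanh_pos ht) ?_
    rw [Real.tanh_eq_sinh_div_cosh, Real.tanh_eq_sinh_div_cosh,
      div_le_div_iff₀ (Real.cosh_pos _) (Real.cosh_pos _)]
    have h1 : 0 ≤ Real.sinh (R / 2 - t / 2) := Real.sinh_nonneg_iff.2 (by linarith)
    rw [Real.sinh_sub] at h1
    linarith

theorem measurable_wt (R : ℝ) : Measurable (wt R) := by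
  have h : wt R = fun t => Real.sinh t * Real.log (Real.tanh (R / 2) /
      (Real.sinh (t / 2) / Real.cosh (t / 2))) := by
    funext t
    rw [← Real.tanh_eq_sinh_div_cosh]
    rfl
  rw [h]
  have h1 : Measurable fun t : ℝ => Real.sinh (t / 2) :=
    Real.continuous_sinh.measurable.comp (measurable_id.div_const 2)
  have h2 : Measurable fun t : ℝ => Real.cosh (t / 2) :=
    Real.continuous_cosh.measurable.comp (measurable_id.div_const 2)
  exact Real.continuous_sinh.measurable.mul
    (Real.measurable_log.comp (measurable_const.div (h1.div h2)))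

/-- An antiderivative of `sinh t (c - log tanh (t/2))`. -/
noncomputable def wt_A (c t : ℝ) : ℝ :=
  2 * c * Real.sinh (t / 2) ^ 2 -
    2 * (Real.sinh (t / 2) * (Real.sinh (t / 2) * Real.log (Real.sinh (t / 2)))) +
    2 * Real.sinh (t / 2) ^ 2 * Real.log (Real.cosh (t / 2)) +
    2 * Real.log (Real.cosh (t / 2))

private theorem wt_A_cont (c : ℝ) : Continuous (wt_A c) := by
  have hs : Continuous fun t : ℝ => Real.sinh (t / 2) :=
    Real.continuous_sinh.comp (continuous_id.div_const 2)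
  have hc : Continuous fun t : ℝ => Real.cosh (t / 2) :=
    Real.continuous_cosh.comp (continuous_id.div_const 2)
  have hl : Continuous fun t : ℝ => Real.log (Real.cosh (t / 2)) :=
    hc.log (fun t => (Real.cosh_pos _).ne')
  have hm : Continuous fun t : ℝ => Real.sinh (t / 2) * Real.log (Real.sinh (t / 2)) :=
    Real.continuous_mul_log.comp hs
  unfold wt_A
  exact (((continuous_const.mul (hs.pow 2)).sub (continuous_const.mul (hs.mul hm))).add
    ((continuous_const.mul (hs.pow 2)).mul hl)).add (continuous_const.mul hl)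

private theorem wt_A_zero (c : ℝ) : wt_A c 0 = 0 := by
  simp [wt_A]

private theorem wt_A_deriv (c : ℝ) {t : ℝ} (ht : 0 < t) :
    HasDerivAt (wt_A c) (Real.sinh t * (c - Real.log (Real.tanh (t / 2)))) t := by
  have hspos : 0 < Real.sinh (t / 2) := Real.sinh_pos_iff.2 (by linarith)
  have hcpos : 0 < Real.cosh (t / 2) := Real.cosh_pos _
  have hd : HasDerivAt (fun t : ℝ => t / 2) (1 / 2) t := (hasDerivAt_id t).div_const 2
  have hs : HasDerivAt (fun t : ℝ => Real.sinh (t / 2)) (Real.cosh (t / 2) * (1 / 2)) t :=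
    hd.sinh
  have hc : HasDerivAt (fun t : ℝ => Real.cosh (t / 2)) (Real.sinh (t / 2) * (1 / 2)) t :=
    hd.cosh
  have hls := hs.log hspos.ne'
  have hlc := hc.log hcpos.ne'
  have hs2 := hs.pow 2
  have h := (((hs2.const_mul (2 * c)).sub ((hs.mul (hs.mul hls)).const_mul 2)).add
    ((hs2.const_mul 2).mul hlc)).add (hlc.const_mul 2)
  have hval : Real.sinh t * (c - Real.log (Real.tanh (t / 2))) =
      2 * c * (((2 : ℕ) : ℝ) * Real.sinh (t / 2) ^ (2 - 1) * (Real.cosh (t / 2) * (1 / 2))) -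
        2 * (Real.cosh (t / 2) * (1 / 2) * (Real.sinh (t / 2) * Real.log (Real.sinh (t / 2))) +
          Real.sinh (t / 2) * (Real.cosh (t / 2) * (1 / 2) * Real.log (Real.sinh (t / 2)) +
            Real.sinh (t / 2) * (Real.cosh (t / 2) * (1 / 2) / Real.sinh (t / 2)))) +
        (2 * (((2 : ℕ) : ℝ) * Real.sinh (t / 2) ^ (2 - 1) * (Real.cosh (t / 2) * (1 / 2))) *
            Real.log (Real.cosh (t / 2)) +
          2 * Real.sinh (t / 2) ^ 2 * (Real.sinh (t / 2) * (1 / 2) / Real.cosh (t / 2))) +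
        2 * (Real.sinh (t / 2) * (1 / 2) / Real.cosh (t / 2)) := by
    have h1 : Real.sinh t = 2 * Real.sinh (t / 2) * Real.cosh (t / 2) := by
      rw [← Real.sinh_two_mul]
      congr 1
      ring
    have h2 : Real.log (Real.tanh (t / 2)) =
        Real.log (Real.sinh (t / 2)) - Real.log (Real.cosh (t / 2)) := by
      rw [Real.tanh_eq_sinh_div_cosh, Real.log_div hspos.ne' hcpos.ne']
    have h3 : Real.cosh (t / 2) ^ 2 = Real.sinh (t / 2) ^ 2 + 1 := Real.cosh_sq _
    rw [h1, h2]
    have h4 : Real.sinh (t / 2) * (Real.cosh (t / 2) * (1 / 2) / Real.sinh (t / 2)) =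
        Real.cosh (t / 2) * (1 / 2) := by
      field_simp
    rw [h4]
    have h5 : 2 * Real.sinh (t / 2) ^ 2 * (Real.sinh (t / 2) * (1 / 2) / Real.cosh (t / 2)) +
        2 * (Real.sinh (t / 2) * (1 / 2) / Real.cosh (t / 2)) =
        Real.sinh (t / 2) * Real.cosh (t / 2) := by
      have : 2 * Real.sinh (t / 2) ^ 2 * (Real.sinh (t / 2) * (1 / 2) / Real.cosh (t / 2)) +
        2 * (Real.sinh (t / 2) * (1 / 2) / Real.cosh (t / 2)) =
        Real.sinh (t / 2) * (Real.sinh (t / 2) ^ 2 + 1) / Real.cosh (t / 2) := by ring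
      rw [this, ← h3]
      field_simp
    push_cast
    norm_num
    linear_combination (-1 : ℝ) * h5
  rw [hval]
  exact h

private theorem wt_A_val {R : ℝ} (hR : 0 ≤ R) :
    wt_A (Real.log (Real.tanh (R / 2))) R = 2 * Real.log (Real.cosh (R / 2)) := by
  rcases hR.eq_or_lt with rfl | hR
  · simp [wt_A]
  · have hspos : 0 < Real.sinh (R / 2) := Real.sinh_pos_iff.2 (by linarith)
    have hcpos : 0 < Real.cosh (R / 2) := Real.cosh_pos _
    rw [wt_A, Real.tanh_eq_sinh_div_cosh, Real.log_div hspos.ne' hcpos.ne']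
    ring

theorem wt_integrable {R : ℝ} (hR : 0 ≤ R) : IntervalIntegrable (wt R) volume 0 R := by
  refine intervalIntegral.intervalIntegrable_deriv_of_nonneg
    (g := wt_A (Real.log (Real.tanh (R / 2)))) (wt_A_cont _).continuousOn ?_ ?_
  · intro t ht
    rw [min_eq_left hR, max_eq_right hR] at ht
    rw [wt_eq (ht.1.trans ht.2) ht.1]
    exact wt_A_deriv _ ht.1
  · intro t ht
    rw [min_eq_left hR, max_eq_right hR] at ht
    exact wt_nonneg ht.1.le ht.2.le

theorem wt_mass {R : ℝ} (hR : 0 ≤ R) :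
    ∫ t in (0 : ℝ)..R, wt R t = 2 * Real.log (Real.cosh (R / 2)) := by
  rw [intervalIntegral.integral_eq_sub_of_hasDerivAt_of_le hR
    (f := wt_A (Real.log (Real.tanh (R / 2)))) (wt_A_cont _).continuousOn ?_ (wt_integrable hR),
    wt_A_zero, wt_A_val hR, sub_zero]
  intro t ht
  rw [wt_eq (ht.1.trans ht.2) ht.1]
  exact wt_A_deriv _ ht.1

/-- The mass of a fixed ball stays bounded. -/
theorem wt_bounded (t₀ : ℝ) (h0 : 0 ≤ t₀) : ∃ C : ℝ, ∀ R, t₀ ≤ R → ∫ t in (0 : ℝ)..t₀, wt R t ≤ C := by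
  have hW : IntervalIntegrable (fun t => Real.sinh t * (0 - Real.log (Real.tanh (t / 2))))
      volume 0 t₀ := by
    refine intervalIntegral.intervalIntegrable_deriv_of_nonneg
      (g := wt_A 0) (wt_A_cont _).continuousOn ?_ ?_
    · intro t ht
      rw [min_eq_left h0, max_eq_right h0] at ht
      exact wt_A_deriv _ ht.1
    · intro t ht
      rw [min_eq_left h0, max_eq_right h0] at ht
      refine mul_nonneg (Real.sinh_nonneg_iff.2 ht.1.le) ?_
      have := Real.log_nonpos (wt_tanh_pos ht.1).le (wt_tanh_lt_one t).le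
      linarith
  refine ⟨∫ t in (0 : ℝ)..t₀, Real.sinh t * (0 - Real.log (Real.tanh (t / 2))), fun R hR => ?_⟩
  have hR0 : 0 ≤ R := h0.trans hR
  refine intervalIntegral.integral_mono_on h0 ?_ hW ?_
  · refine (wt_integrable hR0).mono_set ?_
    rw [uIcc_of_le h0, uIcc_of_le hR0]
    exact Icc_subset_Icc_right hR
  · intro t ht
    rcases ht.1.eq_or_lt with rfl | ht1
    · simp [wt_zero]
    · have hRp : 0 < R := lt_of_lt_of_le ht1 (ht.2.trans hR)
      rw [wt_eq hRp ht1]
      refine mul_le_mul_of_nonneg_left ?_ (Real.sinh_nonneg_iff.2 ht.1)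
      have := Real.log_nonpos (wt_tanh_pos hRp).le (wt_tanh_lt_one R).le
      linarith

theorem tendsto_mass : Tendsto (fun R : ℝ => 2 * Real.log (Real.cosh (R / 2))) atTop atTop := by
  have h : ∀ R : ℝ, R - 2 * Real.log 2 ≤ 2 * Real.log (Real.cosh (R / 2)) := by
    intro R
    have h1 : Real.exp (R / 2) / 2 ≤ Real.cosh (R / 2) := by
      rw [Real.cosh_eq]
      have := Real.exp_pos (-(R / 2))
      linarith
    have h2 := Real.log_le_log (by positivity) h1
    rw [Real.log_div (Real.exp_pos _).ne' two_ne_zero, Real.log_exp] at h2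
    linarith
  refine tendsto_atTop_mono h ?_
  exact tendsto_atTop_add_const_right _ _ tendsto_id

end Pool.Agent.MP27775c.AHL
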