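import Mathlib
import Pool.Agent.Lib.MP_27775c_an_AHL.Sb
import Pool.Agent.Lib.MP_27775c_an_AHL.Sc
import Pool.Agent.Lib.MP_27775c_an_AHL.Wt
import Pool.Agent.Lib.MP_27775c_an_AHL.Aw

/-!
The averages over circles in terms of the Green potential of the hyperbolic Laplacian.
-/

set_option autoImplicit false
set_option linter.unusedSectionVars false

open MeasureTheory Metric Filter Topology Set

namespace Pool.Agent.MP27775c.AHL

variable {u : ℂ → ℝ} {z : ℂ} {R B : ℝ}

private theorem sd_hw_pos {w : ℂ} (hw1 : ‖w‖ < 1) : 0 < hw w := by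
  have h1 : ‖w‖ ^ 2 < 1 := by
    have := norm_nonneg w
    nlinarith
  unfold hw
  have h2 : 0 < 1 - ‖w‖ ^ 2 := by linarith
  positivity

private theorem sd_hw_cont : ContinuousOn hw (ball 0 1) := by
  unfold hw
  refine ContinuousOn.div continuousOn_const (by fun_prop) fun w hw1 => ?_
  have h0 : ‖w‖ < 1 := mem_ball_zero_iff.1 hw1
  have h1 : ‖w‖ ^ 2 < 1 := by
    have := norm_nonneg w
    nlinarith
  have h2 : 0 < 1 - ‖w‖ ^ 2 := by linarith
  positivity

theorem lh_continuousOn (hu : ContDiffOn ℝ 2 u (ball 0 1)) : ContinuousOn (lh u) (ball 0 1) :=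
  (continuousOn_laplacian hu).div sd_hw_cont fun _ hw1 =>
    (sd_hw_pos (mem_ball_zero_iff.1 hw1)).ne'

theorem laplacian_mob (hu : ContDiffOn ℝ 2 u (ball 0 1)) (hz : ‖z‖ < 1) {ζ : ℂ} (hζ : ‖ζ‖ < 1) :
    Laplacian.laplacian (fun ξ => u (mob z ξ)) ζ = hw ζ * lh u (mob z ζ) := by
  have hφ : DifferentiableOn ℂ (mob z) (ball 0 1) := fun ξ hξ =>
    (hasDerivAt_mob hz (mem_ball_zero_iff.1 hξ)).differentiableAt.differentiableWithinAt
  have hm : ‖mob z ζ‖ < 1 := norm_mob_lt hz hζ
  rw [laplacian_comp isOpen_ball hφ (mem_ball_zero_iff.2 hζ)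
    (hu.contDiffAt (isOpen_ball.mem_nhds (mem_ball_zero_iff.2 hm)))]
  unfold lh
  rw [← hw_mob hz hζ]
  have h := (sd_hw_pos hm).ne'
  field_simp

private theorem sd_tanh_lt (x : ℝ) : Real.tanh x < 1 := (abs_lt.1 (Real.abs_tanh_lt_one x)).2

private theorem sd_tanh_eq (x : ℝ) : Real.tanh x = Real.sinh x / Real.cosh x :=
  Real.tanh_eq_sinh_div_cosh x

private theorem sd_deriv (t : ℝ) : HasDerivAt (fun t : ℝ => Real.tanh (t / 2))
    (1 / (2 * Real.cosh (t / 2) ^ 2)) t := by
  have hc : Real.cosh (t / 2) ≠ 0 := (Real.cosh_pos _).ne'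
  have h1 : HasDerivAt (fun t : ℝ => t / 2) (1 / 2) t := (hasDerivAt_id t).div_const 2
  have h2 := (h1.sinh).div (h1.cosh) hc
  have h3 : (fun t : ℝ => Real.tanh (t / 2)) = fun t => Real.sinh (t / 2) / Real.cosh (t / 2) := by
    funext s
    exact sd_tanh_eq _
  rw [h3]
  refine h2.congr_deriv ?_
  have h4 := Real.cosh_sq (t / 2)
  rw [div_eq_div_iff (by positivity) (by positivity)]
  have h5 : Real.cosh (t / 2) ^ 2 = Real.sinh (t / 2) ^ 2 + 1 := h4
  have : Real.cosh (t / 2) * (1 / 2) * Real.cosh (t / 2) -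
      Real.sinh (t / 2) * (Real.sinh (t / 2) * (1 / 2)) = 1 / 2 := by
    nlinarith
  rw [this]
  ring

private theorem sd_mono : StrictMono (fun t : ℝ => Real.tanh (t / 2)) :=
  strictMono_of_hasDerivAt_pos sd_deriv fun t => by
    have := Real.cosh_pos (t / 2)
    positivity

private theorem sd_cont : Continuous (fun t : ℝ => Real.tanh (t / 2)) :=
  continuous_iff_continuousAt.2 fun t => (sd_deriv t).continuousAt

private theorem sd_image (hR : 0 ≤ R) :
    (fun t : ℝ => Real.tanh (t / 2)) '' Ioc 0 R = Ioc 0 (Real.tanh (R / 2)) := by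
  have h0 : (fun t : ℝ => Real.tanh (t / 2)) 0 = 0 := by simp
  apply Subset.antisymm
  · rintro _ ⟨t, ht, rfl⟩
    refine ⟨?_, sd_mono.monotone ht.2⟩
    have h1 := sd_mono ht.1
    rwa [h0] at h1
  · have h1 := intermediate_value_Ioc hR sd_cont.continuousOn
    have h2 : Real.tanh ((0 : ℝ) / 2) = 0 := h0
    rwa [h2] at h1

private theorem sd_circle (z : ℂ) (u : ℂ → ℝ) (hu : ContDiffOn ℝ 2 u (ball 0 1)) (hz : ‖z‖ < 1)
    (t : ℝ) : Real.circleAverage (fun ζ => Laplacian.laplacian (fun ξ => u (mob z ξ)) ζ) 0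
      (Real.tanh (t / 2)) = 4 / (1 - Real.tanh (t / 2) ^ 2) ^ 2 * Av t (lh u) z := by
  have h1 : Real.circleAverage (fun ζ => Laplacian.laplacian (fun ξ => u (mob z ξ)) ζ) 0
      (Real.tanh (t / 2)) = Real.circleAverage
        (fun ζ => 4 / (1 - Real.tanh (t / 2) ^ 2) ^ 2 * lh u (mob z ζ)) 0
      (Real.tanh (t / 2)) := by
    refine Real.circleAverage_congr_sphere fun ζ hζ => ?_
    rw [mem_sphere_zero_iff_norm] at hζ
    have h2 : ‖ζ‖ < 1 := by
      rw [hζ]
      exact Real.abs_tanh_lt_one _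
    change Laplacian.laplacian (fun ξ => u (mob z ξ)) ζ = _
    rw [laplacian_mob hu hz h2]
    unfold hw
    rw [hζ, sq_abs]
  rw [h1]
  unfold Av
  rw [Real.circleAverage_def, Real.circleAverage_def, intervalIntegral.integral_const_mul]
  simp only [smul_eq_mul]
  ring

theorem Av_sub_eq (hu : ContDiffOn ℝ 2 u (ball 0 1)) (hz : ‖z‖ < 1) (hR : 0 ≤ R) :
    Av R u z - u z = KG R (lh u) z := by
  rcases hR.eq_or_lt with h0 | h0
  · subst h0
    rw [Av_zero, sub_self]
    unfold KG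
    rw [intervalIntegral.integral_same]
  · have hr0 : 0 < Real.tanh (R / 2) := by
      have h1 := sd_mono h0
      simpa using h1
    have hr1 : Real.tanh (R / 2) < 1 := sd_tanh_lt _
    have hF : ContDiffOn ℝ 2 (fun ξ => u (mob z ξ)) (ball 0 1) := by
      refine hu.comp ?_ fun ξ hξ =>
        mem_ball_zero_iff.2 (norm_mob_lt hz (mem_ball_zero_iff.1 hξ))
      exact ContDiffOn.comp (g := fun p : ℂ × ℂ => mob p.1 p.2)
        (f := fun ξ : ℂ => (z, ξ)) (contDiffOn_mob (n := 2))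
        (contDiff_const.prodMk contDiff_id).contDiffOn
        fun ξ hξ => ⟨hz, mem_ball_zero_iff.1 hξ⟩
    have hg := (green hF hr0 hr1).2
    have h1 : Real.circleAverage (fun ξ => u (mob z ξ)) 0 (Real.tanh (R / 2)) -
        u (mob z 0) = Av R u z - u z := by
      rw [mob_zero]
      rfl
    rw [← h1]
    refine hg.trans ?_
    unfold KG
    rw [intervalIntegral.integral_of_le hr0.le, intervalIntegral.integral_of_le hR,
      ← sd_image hR, integral_image_eq_integral_abs_deriv_smul measurableSet_Ioc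
        (fun t _ => (sd_deriv t).hasDerivWithinAt) sd_mono.injective.injOn]
    refine setIntegral_congr_fun measurableSet_Ioc fun t ht => ?_
    rw [sd_circle z u hu hz t]
    have hc : 0 < Real.cosh (t / 2) := Real.cosh_pos _
    have hcs : Real.cosh (t / 2) ^ 2 = Real.sinh (t / 2) ^ 2 + 1 := Real.cosh_sq _
    have hcs' : 1 - Real.tanh (t / 2) ^ 2 = 1 / Real.cosh (t / 2) ^ 2 := by
      rw [sd_tanh_eq, div_pow, eq_div_iff (by positivity)]
      field_simp
      linarith
    rw [hcs', abs_of_pos (by positivity), smul_eq_mul]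
    unfold wt
    have h2 : Real.sinh t = 2 * Real.sinh (t / 2) * Real.cosh (t / 2) := by
      rw [← Real.sinh_two_mul]
      congr 1
      ring
    rw [h2]
    have h3 : Real.tanh (t / 2) * (1 / (2 * Real.cosh (t / 2) ^ 2)) *
        (4 / (1 / Real.cosh (t / 2) ^ 2) ^ 2) = 2 * Real.sinh (t / 2) * Real.cosh (t / 2) := by
      rw [sd_tanh_eq]
      field_simp
      ring
    rw [← h3]
    ring

theorem KG_integrable (hu : ContinuousOn u (ball 0 1)) (hz : ‖z‖ < 1) (hR : 0 ≤ R) :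
    IntervalIntegrable (fun t => wt R t * Av t u z) volume 0 R := by
  refine (wt_integrable hR).mul_continuousOn ?_
  exact (continuousOn_Av hu).comp (f := fun t : ℝ => (t, z)) (by fun_prop) fun t _ => hz

theorem abs_KG_le (hu : ContinuousOn u (ball 0 1)) (hB : ∀ w, ‖w‖ < 1 → |u w| ≤ B) (hz : ‖z‖ < 1)
    (hR : 0 ≤ R) : |KG R u z| ≤ B * (2 * Real.log (Real.cosh (R / 2))) := by
  have h1 : |KG R u z| ≤ ∫ t in (0 : ℝ)..R, |wt R t * Av t u z| :=
    intervalIntegral.abs_integral_le_integral_abs hR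
  have h2 : (∫ t in (0 : ℝ)..R, |wt R t * Av t u z|) ≤ ∫ t in (0 : ℝ)..R, wt R t * B := by
    refine intervalIntegral.integral_mono_on hR (KG_integrable hu hz hR).abs
      ((wt_integrable hR).mul_const B) fun t ht => ?_
    rw [abs_mul, abs_of_nonneg (wt_nonneg ht.1 ht.2)]
    exact mul_le_mul_of_nonneg_left (abs_Av_le hu hz hB t) (wt_nonneg ht.1 ht.2)
  refine h1.trans (h2.trans (le_of_eq ?_))
  rw [intervalIntegral.integral_mul_const, wt_mass hR, mul_comm]

end Pool.Agent.MP27775c.AHL
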