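import Mathlib
import Pool.Agent.Lib.MP_27775c_an_AHL.Sd
import Pool.Agent.Lib.MP_27775c_an_AHL.Pr

/-!
The Green potential commutes with the averages.
-/

set_option autoImplicit false
set_option linter.unusedSectionVars false

open MeasureTheory Metric Filter Topology Set

namespace Pool.Agent.MP27775c.AHL

theorem Av_KG {f : ℂ → ℝ} (hf : ContinuousOn f (ball 0 1)) {z : ℂ} (hz : ‖z‖ < 1) {R : ℝ}
    (hR : 0 ≤ R) (S : ℝ) : Av S (fun w => KG R f w) z = KG R (fun w => Av S f w) z := by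
  have h2π : (0 : ℝ) ≤ 2 * Real.pi := Real.two_pi_pos.le
  set c : ℝ → ℂ := fun θ => mob z (circleMap 0 (Real.tanh (S / 2)) θ) with hc
  have hcc : Continuous c := by
    have h1 : Continuous (fun θ : ℝ => ((z, circleMap 0 (Real.tanh (S / 2)) θ) : ℂ × ℂ)) :=
      continuous_const.prodMk (continuous_circleMap 0 _)
    refine continuousOn_mob.comp_continuous h1 (fun θ => ⟨hz, ?_⟩)
    simpa using Real.abs_tanh_lt_one (S / 2)
  have hlt : ∀ θ, ‖c θ‖ < 1 := fun θ => mob_circle_lt hz S θ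
  set g : ℝ × ℝ → ℝ := fun p => Av p.2 f (c p.1) with hg
  have hgc : Continuous g := by
    have h1 : Continuous (fun p : ℝ × ℝ => ((p.2, c p.1) : ℝ × ℂ)) :=
      continuous_snd.prodMk (hcc.comp continuous_fst)
    have h2 : ContinuousOn (fun p : ℝ × ℂ => Av p.1 f p.2) {p | ‖p.2‖ < 1} := continuousOn_Av hf
    have h3 : ∀ p : ℝ × ℝ, ((p.2, c p.1) : ℝ × ℂ) ∈ {p : ℝ × ℂ | ‖p.2‖ < 1} := fun p => hlt p.1
    have h4 := h2.comp_continuous h1 h3
    exact h4
  obtain ⟨M, hM⟩ := ((isCompact_Icc (a := (0 : ℝ)) (b := 2 * Real.pi)).prod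
    (isCompact_Icc (a := (0 : ℝ)) (b := R))).exists_bound_of_continuousOn hgc.continuousOn
  have hint : Integrable (fun p : ℝ × ℝ => wt R p.2 * g p)
      ((volume.restrict (Ioc 0 (2 * Real.pi))).prod (volume.restrict (Ioc 0 R))) := by
    have e1 : Integrable (fun _ : ℝ => (1 : ℝ)) (volume.restrict (Ioc 0 (2 * Real.pi))) := by
      apply integrableOn_const
      · rw [Real.volume_Ioc]
        exact ENNReal.ofReal_ne_top
      · exact enorm_ne_top
    have e2 : Integrable (wt R) (volume.restrict (Ioc 0 R)) :=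
      (intervalIntegrable_iff_integrableOn_Ioc_of_le hR).1 (wt_integrable hR)
    have e3 := e1.mul_prod e2
    simp only [one_mul] at e3
    refine e3.mul_bdd (c := M) hgc.aestronglyMeasurable ?_
    rw [Measure.prod_restrict]
    filter_upwards [ae_restrict_mem (measurableSet_Ioc.prod measurableSet_Ioc)] with p hp
    exact hM p ⟨Ioc_subset_Icc_self hp.1, Ioc_subset_Icc_self hp.2⟩
  rw [Av_eq]
  unfold KG
  have h1 : ∫ θ in (0 : ℝ)..(2 * Real.pi), ∫ t in (0 : ℝ)..R, wt R t * Av t f (c θ) =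
      ∫ t in (0 : ℝ)..R, wt R t * ∫ θ in (0 : ℝ)..(2 * Real.pi), Av t f (c θ) := by
    simp only [intervalIntegral.integral_of_le h2π, intervalIntegral.integral_of_le hR]
    rw [integral_integral_swap hint]
    refine integral_congr_ae (Eventually.of_forall fun t => ?_)
    change ∫ θ in Ioc 0 (2 * Real.pi), wt R t * Av t f (c θ) = _
    rw [integral_const_mul]
  change (2 * Real.pi)⁻¹ * ∫ θ in (0 : ℝ)..(2 * Real.pi),
    ∫ t in (0 : ℝ)..R, wt R t * Av t f (c θ) = _
  rw [h1, ← intervalIntegral.integral_const_mul]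
  refine intervalIntegral.integral_congr fun t _ => ?_
  change (2 * Real.pi)⁻¹ * (wt R t * ∫ θ in (0 : ℝ)..(2 * Real.pi), Av t f (c θ)) =
    wt R t * Av t (fun w => Av S f w) z
  rw [← Av_comm hf hz S t, Av_eq S (fun w => Av t f w) z]
  ring

end Pool.Agent.MP27775c.AHL
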