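import Mathlib
import Pool.Agent.Lib.MP_27775c_an_AHL.Sd

/-!
The hyperbolic Laplacian as a limit of the averages over small circles.
-/

set_option autoImplicit false
set_option linter.unusedSectionVars false

open MeasureTheory Metric Filter Topology Set

namespace Pool.Agent.MP27775c.AHL

theorem tendsto_quot {u : ℂ → ℝ} (hu : ContDiffOn ℝ 2 u (ball 0 1)) {z : ℂ} (hz : ‖z‖ < 1) :
    Tendsto (fun S : ℝ => (Av S u z - u z) / (2 * Real.log (Real.cosh (S / 2)))) (𝓝[>] 0)
      (𝓝 (lh u z)) := by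
  obtain ⟨f, hf⟩ : ∃ f : ℂ → ℝ, f = lh u := ⟨_, rfl⟩
  have hfc : ContinuousOn f (ball 0 1) := by
    rw [hf]
    exact lh_continuousOn hu
  have hφ : Continuous (fun t : ℝ => Av t f z) := by
    have h1 := continuousOn_Av hfc
    have h2 : Continuous (fun t : ℝ => ((t, z) : ℝ × ℂ)) := by fun_prop
    have h3 := h1.comp_continuous h2 (fun t => by rw [mem_ofPred_eq]; exact hz)
    exact h3
  have hφ0 : Av 0 f z = f z := Av_zero f z
  rw [← hf, Metric.tendsto_nhds]
  intro ε hε
  have hcont := hφ.continuousAt (x := (0 : ℝ))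
  rw [Metric.continuousAt_iff] at hcont
  obtain ⟨δ, hδ, hd⟩ := hcont (ε / 2) (half_pos hε)
  have hev : ∀ᶠ S : ℝ in 𝓝[>] 0, 0 < S ∧ S < δ := by
    filter_upwards [Ioo_mem_nhdsGT hδ] with S hS
    exact ⟨hS.1, hS.2⟩
  filter_upwards [hev] with S hS
  have hm : 0 < 2 * Real.log (Real.cosh (S / 2)) := by
    have h1 : 1 < Real.cosh (S / 2) := Real.one_lt_cosh.2 (by linarith [hS.1])
    have := Real.log_pos h1
    linarith
  have hS0 : 0 ≤ S := hS.1.le
  have hmass := wt_mass hS0
  have hwi := wt_integrable hS0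
  have hki := KG_integrable hfc hz hS0
  have hAv := Av_sub_eq hu hz hS0
  rw [← hf, KG] at hAv
  have hclose : ∀ t ∈ Icc 0 S, |Av t f z - f z| ≤ ε / 2 := by
    intro t ht
    have h1 : dist t 0 < δ := by
      rw [Real.dist_eq, sub_zero, abs_of_nonneg ht.1]
      exact ht.2.trans_lt hS.2
    have h2 := hd h1
    rw [hφ0, Real.dist_eq] at h2
    exact h2.le
  have hup : ∫ t in (0 : ℝ)..S, wt S t * Av t f z ≤
      ∫ t in (0 : ℝ)..S, (f z + ε / 2) * wt S t := by
    refine intervalIntegral.integral_mono_on hS0 hki (hwi.const_mul _) fun t ht => ?_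
    have h1 := (abs_le.1 (hclose t ht)).2
    have h2 := wt_nonneg ht.1 ht.2
    rw [mul_comm (f z + ε / 2)]
    exact mul_le_mul_of_nonneg_left (by linarith) h2
  have hlo : ∫ t in (0 : ℝ)..S, (f z - ε / 2) * wt S t ≤
      ∫ t in (0 : ℝ)..S, wt S t * Av t f z := by
    refine intervalIntegral.integral_mono_on hS0 (hwi.const_mul _) hki fun t ht => ?_
    have h1 := (abs_le.1 (hclose t ht)).1
    have h2 := wt_nonneg ht.1 ht.2
    rw [mul_comm (f z - ε / 2)]
    exact mul_le_mul_of_nonneg_left (by linarith) h2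
  rw [intervalIntegral.integral_const_mul, hmass, ← hAv] at hup hlo
  rw [Real.dist_eq]
  have h3 : |(Av S u z - u z) / (2 * Real.log (Real.cosh (S / 2))) - f z| ≤ ε / 2 := by
    rw [abs_le]
    constructor
    · rw [neg_le_sub_iff_le_add, ← sub_le_iff_le_add, le_div_iff₀ hm]
      linarith
    · rw [sub_le_iff_le_add, div_le_iff₀ hm]
      linarith
  linarith

end Pool.Agent.MP27775c.AHL
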