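import Mathlib
import Pool.Agent.Lib.MP_27775c_an_AHL.Se
import Pool.Agent.Lib.MP_27775c_an_AHL.Sf

/-!
The hyperbolic Laplacian of the Green potential.
-/

set_option autoImplicit false
set_option linter.unusedSectionVars false

open MeasureTheory Metric Filter Topology Set

namespace Pool.Agent.MP27775c.AHL

private noncomputable def sg_m (S : ℝ) : ℝ := 2 * Real.log (Real.cosh (S / 2))

private theorem sg_m_pos {S : ℝ} (hS : 0 < S) : 0 < sg_m S := by
  have h1 : 0 < Real.log (Real.cosh (S / 2)) :=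
    Real.log_pos (Real.one_lt_cosh.2 (by positivity))
  unfold sg_m
  linarith

private noncomputable def sg_q (f : ℂ → ℝ) (S : ℝ) (w : ℂ) : ℝ := (sg_m S)⁻¹ * (Av S f w - f w)

private theorem sg_Av_cont {f : ℂ → ℝ} (hf : ContinuousOn f (ball 0 1)) (S : ℝ) :
    ContinuousOn (fun w => Av S f w) (ball 0 1) := by
  have h1 : ContinuousOn (fun w : ℂ => ((S, w) : ℝ × ℂ)) (ball 0 1) := by fun_prop
  have h2 : MapsTo (fun w : ℂ => ((S, w) : ℝ × ℂ)) (ball 0 1) {p : ℝ × ℂ | ‖p.2‖ < 1} :=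
    fun w hw => mem_ball_zero_iff.1 hw
  exact ContinuousOn.comp (g := fun p : ℝ × ℂ => Av p.1 f p.2)
    (f := fun w : ℂ => ((S, w) : ℝ × ℂ)) (continuousOn_Av hf) h1 h2

private theorem sg_q_cont {f : ℂ → ℝ} (hf : ContinuousOn f (ball 0 1)) (S : ℝ) :
    ContinuousOn (sg_q f S) (ball 0 1) :=
  continuousOn_const.mul ((sg_Av_cont hf S).sub hf)

private theorem sg_q_le {f : ℂ → ℝ} (hf : ContDiffOn ℝ 2 f (ball 0 1)) {B : ℝ}
    (hB : ∀ w, ‖w‖ < 1 → |lh f w| ≤ B) {S : ℝ} (hS : 0 < S) {w : ℂ} (hw : ‖w‖ < 1) :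
    |sg_q f S w| ≤ B := by
  have h1 := abs_KG_le (lh_continuousOn hf) hB hw hS.le
  rw [← Av_sub_eq hf hw hS.le] at h1
  have hm := sg_m_pos hS
  unfold sg_q
  rw [abs_mul, abs_of_pos (inv_pos.2 hm), inv_mul_le_iff₀ hm, mul_comm]
  exact h1

private theorem sg_q_tendsto {f : ℂ → ℝ} (hf : ContDiffOn ℝ 2 f (ball 0 1)) {w : ℂ}
    (hw : ‖w‖ < 1) : Tendsto (fun S => sg_q f S w) (𝓝[>] 0) (𝓝 (lh f w)) := by
  have h1 := tendsto_quot hf hw
  refine h1.congr fun S => ?_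
  unfold sg_q sg_m
  rw [div_eq_inv_mul]

private theorem sg_Av_cont_t {u : ℂ → ℝ} (hu : ContinuousOn u (ball 0 1)) {z : ℂ}
    (hz : ‖z‖ < 1) : Continuous (fun t : ℝ => Av t u z) := by
  have h1 : Continuous (fun t : ℝ => ((t, z) : ℝ × ℂ)) := by fun_prop
  have h2 : ∀ t : ℝ, ((t, z) : ℝ × ℂ) ∈ {p : ℝ × ℂ | ‖p.2‖ < 1} := fun _ => hz
  exact ContinuousOn.comp_continuous (g := fun p : ℝ × ℂ => Av p.1 u p.2)
    (f := fun t : ℝ => ((t, z) : ℝ × ℂ)) (continuousOn_Av hu) h1 h2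

private theorem sg_Av_tendsto {f : ℂ → ℝ} (hf : ContDiffOn ℝ 2 f (ball 0 1)) {B : ℝ}
    (hB : ∀ w, ‖w‖ < 1 → |lh f w| ≤ B) {z : ℂ} (hz : ‖z‖ < 1) (t : ℝ) :
    Tendsto (fun S => Av t (sg_q f S) z) (𝓝[>] 0) (𝓝 (Av t (lh f) z)) := by
  simp only [Av_eq]
  refine Tendsto.const_mul _ ?_
  refine intervalIntegral.tendsto_integral_filter_of_dominated_convergence (fun _ => B) ?_ ?_
    intervalIntegrable_const ?_
  · exact Eventually.of_forall fun S =>
      (continuous_circle (sg_q_cont hf.continuousOn S) hz t).aestronglyMeasurable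
  · filter_upwards [self_mem_nhdsWithin] with S hS
    refine Eventually.of_forall fun θ _ => ?_
    rw [Real.norm_eq_abs]
    exact sg_q_le hf hB hS (mob_circle_lt hz t θ)
  · exact Eventually.of_forall fun θ _ => sg_q_tendsto hf (mob_circle_lt hz t θ)

private theorem sg_KG_tendsto {f : ℂ → ℝ} (hf : ContDiffOn ℝ 2 f (ball 0 1)) {R B : ℝ}
    (hR : 0 ≤ R) (hB : ∀ w, ‖w‖ < 1 → |lh f w| ≤ B) {z : ℂ} (hz : ‖z‖ < 1) :
    Tendsto (fun S => KG R (sg_q f S) z) (𝓝[>] 0) (𝓝 (KG R (lh f) z)) := by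
  unfold KG
  refine intervalIntegral.tendsto_integral_filter_of_dominated_convergence
    (fun t => wt R t * B) ?_ ?_ ((wt_integrable hR).mul_const B) ?_
  · exact Eventually.of_forall fun S =>
      ((measurable_wt R).mul
        (sg_Av_cont_t (sg_q_cont hf.continuousOn S) hz).measurable).aestronglyMeasurable
  · filter_upwards [self_mem_nhdsWithin] with S hS
    refine Eventually.of_forall fun t ht => ?_
    rw [uIoc_of_le hR] at ht
    have h1 := wt_nonneg ht.1.le ht.2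
    rw [Real.norm_eq_abs, abs_mul, abs_of_nonneg h1]
    exact mul_le_mul_of_nonneg_left
      (abs_Av_le (sg_q_cont hf.continuousOn S) hz (fun w hw => sg_q_le hf hB hS hw) t) h1
  · exact Eventually.of_forall fun t _ => (sg_Av_tendsto hf hB hz t).const_mul _

private theorem sg_KG_q {f : ℂ → ℝ} (hf : ContinuousOn f (ball 0 1)) {R : ℝ} (hR : 0 ≤ R)
    {z : ℂ} (hz : ‖z‖ < 1) (S : ℝ) :
    KG R (sg_q f S) z = (sg_m S)⁻¹ * (KG R (fun w => Av S f w) z - KG R f z) := by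
  unfold KG
  rw [← intervalIntegral.integral_sub (KG_integrable (sg_Av_cont hf S) hz hR)
    (KG_integrable hf hz hR), ← intervalIntegral.integral_const_mul]
  refine intervalIntegral.integral_congr fun t _ => ?_
  have h1 : Av t (sg_q f S) z = (sg_m S)⁻¹ * Av t (fun w => Av S f w - f w) z :=
    Av_const_mul _ (fun w => Av S f w - f w) t z
  rw [h1, Av_sub (sg_Av_cont hf S) hf hz]
  ring

theorem lh_KG {f : ℂ → ℝ} (hf : ContDiffOn ℝ 2 f (ball 0 1)) {R B : ℝ} (hR : 0 ≤ R)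
    (hB : ∀ w, ‖w‖ < 1 → |lh f w| ≤ B) (hK : ContDiffOn ℝ 2 (fun w => KG R f w) (ball 0 1)) {z : ℂ}
    (hz : ‖z‖ < 1) : lh (fun w => KG R f w) z = Av R f z - f z := by
  have h1 := sg_q_tendsto hK hz
  have h2 : (fun S => sg_q (fun w => KG R f w) S z) = fun S => KG R (sg_q f S) z := by
    funext S
    rw [sg_KG_q hf.continuousOn hR hz]
    unfold sg_q
    rw [Av_KG hf.continuousOn hz hR]
  rw [h2] at h1
  have h3 := tendsto_nhds_unique h1 (sg_KG_tendsto hf hR hB hz)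
  rw [h3, Av_sub_eq hf hz hR]

end Pool.Agent.MP27775c.AHL
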