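import Mathlib
import Pool.Agent.Lib.MP_27775c_an_AHL.Defs
import Pool.Agent.Lib.MP_27775c_an_AHL.Po
import Pool.Agent.Lib.MP_27775c_an_AHL.Wt

/-!
Smoothness of the Green potential in all the variables.
-/

set_option autoImplicit false
set_option linter.unusedSectionVars false

open MeasureTheory Metric Filter Topology Set

namespace Pool.Agent.MP27775c.AHL

private theorem kmeas (r : ℝ) : Measurable (fun s : ℝ => Real.log (r / s)) :=
  Real.measurable_log.comp (measurable_const.div measurable_id)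

private theorem kint {R : ℝ} (hR : 0 ≤ R) : IntegrableOn (fun t => Real.sinh t *
    (fun s : ℝ => Real.log (Real.tanh (R / 2) / s)) (Real.tanh (t / 2))) (Ioc 0 R) := by
  have h := wt_integrable hR
  rw [intervalIntegrable_iff_integrableOn_Ioc_of_le hR] at h
  exact h

private theorem fmob_cont {f : ℂ → ℝ} (hf : ContinuousOn f (ball 0 1)) {z : ℂ} (hz : ‖z‖ < 1) :
    ContinuousOn (fun ζ => f (mob z ζ)) (ball 0 1) := by
  have h1 : ContinuousOn (fun ζ => mob z ζ) (ball (0 : ℂ) 1) := by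
    refine (continuousOn_mob.comp (f := fun ζ : ℂ => (z, ζ)) (by fun_prop) ?_)
    intro ζ hζ
    exact ⟨hz, mem_ball_zero_iff.1 hζ⟩
  refine hf.comp h1 ?_
  intro ζ hζ
  exact mem_ball_zero_iff.2 (norm_mob_lt hz (mem_ball_zero_iff.1 hζ))

theorem KG_eq_integral {f : ℂ → ℝ} (hf : ContinuousOn f (ball 0 1)) {z : ℂ} (hz : ‖z‖ < 1) {R : ℝ}
    (hR : 0 ≤ R) : KG R f z = (2 * Real.pi)⁻¹ * ∫ ζ in ball (0 : ℂ) (Real.tanh (R / 2)),
      Real.log (Real.tanh (R / 2) / ‖ζ‖) * f (mob z ζ) * hw ζ := by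
  have h := (polar_weight (fmob_cont hf hz) hR (kmeas (Real.tanh (R / 2))) (kint hR)).2
  rw [h, ← intervalIntegral.integral_const_mul]
  unfold KG
  refine intervalIntegral.integral_congr fun t _ => ?_
  simp only [wt, Av]
  have hpi : (2 * Real.pi) ≠ 0 := Real.two_pi_pos.ne'
  field_simp

open scoped ContDiff in
private theorem G_smooth {d : ℕ} {f : ℂ → Vec d → ℝ} (hf : SmoothHom f)
    (β : ContDiffBump (0 : ℂ)) (hβ : β.rOut < 1) :
    ContDiffOn ℝ ∞ (fun p : (ℂ × Vec d) × ℂ => β (-p.2) * f (mob p.1.1 (-p.2)) p.1.2)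
      ({p : ℂ × Vec d | ‖p.1‖ < 1 ∧ p.2 ≠ 0} ×ˢ univ) := by
  rintro ⟨⟨z, v⟩, ζ⟩ ⟨⟨hz, hv⟩, -⟩
  replace hz : ‖z‖ < 1 := hz
  replace hv : v ≠ 0 := hv
  apply ContDiffAt.contDiffWithinAt
  by_cases h : ‖ζ‖ < 1
  · have h1 : ContDiffAt ℝ ∞ (fun p : (ℂ × Vec d) × ℂ => β (-p.2)) ((z, v), ζ) := by
      have := (β.contDiff (n := ⊤)).comp (contDiff_snd.neg : ContDiff ℝ ∞
        (fun p : (ℂ × Vec d) × ℂ => -p.2))
      exact this.contDiffAt
    have h2 : ContDiffAt ℝ ∞ (fun p : ℂ × ℂ => mob p.1 p.2) (z, -ζ) := by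
      refine contDiffOn_mob.contDiffAt ?_
      refine IsOpen.mem_nhds ?_ ?_
      · exact (isOpen_lt continuous_fst.norm continuous_const).inter
          (isOpen_lt continuous_snd.norm continuous_const)
      · exact ⟨hz, by simpa using h⟩
    have h3 : ContDiffAt ℝ ∞ (fun p : (ℂ × Vec d) × ℂ => mob p.1.1 (-p.2)) ((z, v), ζ) := by
      have h4 : ContDiff ℝ ∞ (fun p : (ℂ × Vec d) × ℂ => ((p.1.1, -p.2) : ℂ × ℂ)) :=
        (contDiff_fst.comp contDiff_fst).prodMk contDiff_snd.neg
      exact ContDiffAt.comp ((z, v), ζ) h2 h4.contDiffAt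
    have h5 : ContDiffAt ℝ ∞ (fun p : ℂ × Vec d => f p.1 p.2) (mob z (-ζ), v) := by
      refine hf.smooth.contDiffAt ?_
      refine IsOpen.mem_nhds ?_ ?_
      · exact (isOpen_lt continuous_fst.norm continuous_const).inter
          (isOpen_ne_fun continuous_snd continuous_const)
      · exact ⟨norm_mob_lt hz (by simpa using h), hv⟩
    have h6 : ContDiffAt ℝ ∞ (fun p : (ℂ × Vec d) × ℂ => f (mob p.1.1 (-p.2)) p.1.2)
        ((z, v), ζ) := by
      have h7 : ContDiffAt ℝ ∞ (fun p : (ℂ × Vec d) × ℂ =>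
          ((mob p.1.1 (-p.2), p.1.2) : ℂ × Vec d)) ((z, v), ζ) :=
        h3.prodMk (contDiff_snd.comp contDiff_fst).contDiffAt
      exact ContDiffAt.comp ((z, v), ζ) h5 h7
    exact h1.mul h6
  · have hlt : β.rOut < ‖ζ‖ := hβ.trans_le (not_lt.1 h)
    have hev : (fun p : (ℂ × Vec d) × ℂ => β (-p.2) * f (mob p.1.1 (-p.2)) p.1.2) =ᶠ[𝓝 ((z, v), ζ)]
        fun _ => (0 : ℝ) := by
      have hop : {p : (ℂ × Vec d) × ℂ | β.rOut < ‖p.2‖} ∈ 𝓝 ((z, v), ζ) :=
        (isOpen_lt continuous_const continuous_snd.norm).mem_nhds hlt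
      filter_upwards [hop] with p hp
      have hp' : β.rOut < ‖p.2‖ := hp
      rw [β.zero_of_le_dist (by rw [dist_zero_right, norm_neg]; exact hp'.le), zero_mul]
    exact contDiffAt_const.congr_of_eventuallyEq hev

theorem SmoothHom.kg {d : ℕ} {f : ℂ → Vec d → ℝ} (hf : SmoothHom f) {R : ℝ} (hR : 0 ≤ R) :
    SmoothHom (fun z v => KG R (fun w => f w v) z) := by
  constructor
  · rcases hR.eq_or_lt with h0 | hR0
    · subst h0
      unfold KG
      simp only [intervalIntegral.integral_same]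
      exact contDiffOn_const
    set r : ℝ := Real.tanh (R / 2) with hr
    have hr0 : 0 < r := by
      rw [hr, Real.tanh_eq_sinh_div_cosh]
      exact div_pos (Real.sinh_pos_iff.2 (by linarith)) (Real.cosh_pos _)
    have hr1 : r < 1 := Real.tanh_lt_one _
    let β : ContDiffBump (0 : ℂ) := ⟨r, (1 + r) / 2, hr0, by linarith⟩
    have hβ : β.rOut < 1 := by
      show (1 + r) / 2 < 1
      linarith
    set κ : ℂ → ℝ := (ball (0 : ℂ) r).indicator (fun ζ => Real.log (r / ‖ζ‖) * 1 * hw ζ) with hκ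
    have hκi : LocallyIntegrable κ volume := by
      refine Integrable.locallyIntegrable ?_
      rw [hκ, integrable_indicator_iff measurableSet_ball]
      exact (polar_weight (F := fun _ => 1) continuousOn_const hR (kmeas r) (kint hR)).1
    have key := contDiffOn_convolution_right_with_param_comp (n := ⊤)
      (ContinuousLinearMap.mul ℝ ℝ) (μ := volume)
      (s := {p : ℂ × Vec d | ‖p.1‖ < 1 ∧ p.2 ≠ 0}) (v := fun _ => (0 : ℂ))
      contDiffOn_const (f := κ)
      (g := fun (p : ℂ × Vec d) (x : ℂ) => β (-x) * f (mob p.1 (-x)) p.2)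
      (k := closedBall (0 : ℂ) β.rOut)
      ((isOpen_lt continuous_fst.norm continuous_const).inter
          (isOpen_ne_fun continuous_snd continuous_const))
      (isCompact_closedBall _ _)
      (fun p x _ hx => by
        rw [mem_closedBall_zero_iff, not_le] at hx
        rw [β.zero_of_le_dist (by rw [dist_zero_right, norm_neg]; exact hx.le), zero_mul])
      hκi (G_smooth hf β hβ)
    refine (key.const_smul ((2 * Real.pi)⁻¹ : ℝ)).congr ?_
    rintro ⟨z, v⟩ ⟨hz, hv⟩
    replace hz : ‖z‖ < 1 := hz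
    replace hv : v ≠ 0 := hv
    have hfc : ContinuousOn (fun w => f w v) (ball 0 1) := by
      refine hf.smooth.continuousOn.comp (f := fun w : ℂ => (w, v)) (by fun_prop) ?_
      intro w hw
      exact ⟨mem_ball_zero_iff.1 hw, hv⟩
    show KG R (fun w => f w v) z = (2 * Real.pi)⁻¹ * _
    rw [KG_eq_integral hfc hz hR]
    congr 1
    unfold convolution
    rw [← integral_indicator measurableSet_ball]
    refine integral_congr_ae (Filter.Eventually.of_forall fun ζ => ?_)
    simp only [ContinuousLinearMap.mul_apply', zero_sub, neg_neg]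
    by_cases hζ : ζ ∈ ball (0 : ℂ) r
    · have h1 : β ζ = 1 := β.one_of_mem_closedBall (ball_subset_closedBall hζ)
      rw [hκ, indicator_of_mem hζ, indicator_of_mem hζ, h1]
      ring
    · rw [hκ, indicator_of_notMem hζ, indicator_of_notMem hζ, zero_mul]
  · intro z v c hz hv hc
    unfold KG
    refine intervalIntegral.integral_congr fun t _ => ?_
    show wt R t * _ = wt R t * _
    rw [Av_congr (fun w hw => hf.hom w v c hw hv hc) hz]

end Pool.Agent.MP27775c.AHL
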