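import Mathlib
import Pool.Agent.Lib.MP_27775c_an_AHL.Fb
import Pool.Agent.Lib.MP_27775c_an_AHL.Sh
import Pool.Agent.Lib.MP_27775c_an_AHL.Sg

/-!
The averages and the Green potentials of a smooth function on the quotient.
-/

set_option autoImplicit false
set_option linter.unusedSectionVars false

open MeasureTheory Metric Filter Topology Set

namespace Pool.Agent.MP27775c.AHL

variable {Γ : Type*} [Group Γ] {d : ℕ} {j : Γ →* Matrix.SpecialLinearGroup (Fin 2) ℂ}
  {ρ : Γ →* (Vec d →L[ℂ] Vec d)}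

variable {u : ℂ → Vec d → ℝ}

theorem IsFun.kg (hj : IsUniform j) (hu : IsFun j ρ u) {R : ℝ} (hR : 0 ≤ R) :
    IsFun j ρ (fun z v => KG R (fun w => u w v) z) := by
  refine ⟨hu.smoothHom.kg hR, fun γ z v hz hv => ?_⟩
  unfold KG
  refine intervalIntegral.integral_congr fun t _ => ?_
  beta_reduce
  rw [InvFun.av_inv (moeb_fuchs hj) hu.invFun γ hz hv t]

/-- `Av R u - u` is the hyperbolic Laplacian of the Green potential `KG R u`. -/
theorem IsFun.lh_kg (hj : IsUniform j) (hu : IsFun j ρ u) {R : ℝ} (hR : 0 ≤ R) {z : ℂ} {v : Vec d}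
    (hz : ‖z‖ < 1) (hv : v ≠ 0) :
    lh (fun w => KG R (fun y => u y v) w) z = Av R (fun w => u w v) z - u z v := by
  obtain ⟨B, hB⟩ := InvFun.bdd (moeb_fuchs hj) (hu.hlap hj).invFun
  have h1 : ContDiffOn ℝ 2 (fun w => u w v) (ball 0 1) := by
    exact_mod_cast hu.smoothHom.slice hv 2
  have h2 : ContDiffOn ℝ 2 (fun w => KG R (fun y => u y v) w) (ball 0 1) := by
    exact_mod_cast (hu.smoothHom.kg hR).slice hv 2
  exact lh_KG h1 hR (fun w hw' => hB w v hw' hv) h2 hz

theorem IsFun.av (hj : IsUniform j) (hu : IsFun j ρ u) {R : ℝ} (hR : 0 ≤ R) :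
    IsFun j ρ (fun z v => Av R (fun w => u w v) z) := by
  refine (hu.add ((hu.kg hj hR).hlap hj)).congr hj fun z v hz hv => ?_
  rw [hu.lh_kg hj hR hz hv]
  ring

end Pool.Agent.MP27775c.AHL
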