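import Mathlib
import Pool.Agent.Lib.MP_27775c_an_AHL.Sd

/-!
The limit of the averages of a hyperbolic Laplacian is zero.
-/

set_option autoImplicit false
set_option linter.unusedSectionVars false

open MeasureTheory Metric Filter Topology Set

namespace Pool.Agent.MP27775c.AHL

private theorem ff_aux {f : ℂ → ℝ} (hf : ContinuousOn f (ball 0 1)) {B : ℝ}
    (hB : ∀ w, ‖w‖ < 1 → |f w| ≤ B) {z : ℂ} (hz : ‖z‖ < 1) {c : ℝ}
    (h : Tendsto (fun t : ℝ => Av t f z) atTop (𝓝 c)) {M : ℝ}
    (hM : ∀ R : ℝ, 0 ≤ R → KG R f z ≤ M) : c ≤ 0 := by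
  by_contra hc
  push Not at hc
  have h1 : ∀ᶠ t : ℝ in atTop, c / 2 ≤ Av t f z :=
    (h.eventually (eventually_gt_nhds (by linarith : c / 2 < c))).mono fun t ht => ht.le
  obtain ⟨t₁, ht₁⟩ := eventually_atTop.1 h1
  obtain ⟨t₀, ht0, ht01⟩ : ∃ t₀ : ℝ, 0 ≤ t₀ ∧ t₁ ≤ t₀ := ⟨max 0 t₁, le_max_left _ _, le_max_right _ _⟩
  obtain ⟨C, hC⟩ := wt_bounded t₀ ht0
  have hB0 : 0 ≤ B := (abs_nonneg _).trans (hB z hz)
  have key : ∀ R : ℝ, t₀ ≤ R →
      c / 2 * (2 * Real.log (Real.cosh (R / 2))) - (B + c / 2) * C ≤ M := by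
    intro R hR
    have hR0 : 0 ≤ R := ht0.trans hR
    have i1 := KG_integrable hf hz hR0
    have i2 := wt_integrable hR0
    have i3 : IntervalIntegrable (fun t => wt R t * (Av t f z - c / 2)) volume 0 R := by
      have := i1.sub (i2.mul_const (c / 2))
      refine this.congr (fun t _ => ?_)
      ring
    have s1 : Set.uIcc 0 t₀ ⊆ Set.uIcc 0 R := by
      rw [uIcc_of_le ht0, uIcc_of_le hR0]
      exact Icc_subset_Icc_right hR
    have s2 : Set.uIcc t₀ R ⊆ Set.uIcc 0 R := by
      rw [uIcc_of_le hR, uIcc_of_le hR0]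
      exact Icc_subset_Icc_left ht0
    have e1 : ∫ t in (0 : ℝ)..R, wt R t * (Av t f z - c / 2) =
        KG R f z - c / 2 * (2 * Real.log (Real.cosh (R / 2))) := by
      rw [← wt_mass hR0]
      unfold KG
      rw [← intervalIntegral.integral_const_mul, ← intervalIntegral.integral_sub i1
        (i2.const_mul (c / 2))]
      refine intervalIntegral.integral_congr fun t _ => ?_
      ring
    have e2 := intervalIntegral.integral_add_adjacent_intervals (i3.mono_set s1) (i3.mono_set s2)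
    have e3 : 0 ≤ ∫ t in t₀..R, wt R t * (Av t f z - c / 2) := by
      refine intervalIntegral.integral_nonneg hR fun t ht => ?_
      refine mul_nonneg (wt_nonneg (ht0.trans ht.1) ht.2) ?_
      have := ht₁ t (ht01.trans ht.1)
      linarith
    have e4 : -((B + c / 2) * C) ≤ ∫ t in (0 : ℝ)..t₀, wt R t * (Av t f z - c / 2) := by
      have e5 : (∫ t in (0 : ℝ)..t₀, wt R t * (-(B + c / 2))) ≤
          ∫ t in (0 : ℝ)..t₀, wt R t * (Av t f z - c / 2) := by
        refine intervalIntegral.integral_mono_on ht0 ((i2.mono_set s1).mul_const _)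
          (i3.mono_set s1) fun t ht => ?_
        refine mul_le_mul_of_nonneg_left ?_ (wt_nonneg ht.1 (ht.2.trans hR))
        have := (abs_le.1 (abs_Av_le hf hz hB t)).1
        linarith
      rw [intervalIntegral.integral_mul_const] at e5
      have e6 := mul_le_mul_of_nonneg_right (hC R hR) (by linarith : 0 ≤ B + c / 2)
      linarith
    have e7 := hM R hR0
    linarith
  have hT : Tendsto (fun R : ℝ => c / 2 * (2 * Real.log (Real.cosh (R / 2)))) atTop atTop :=
    tendsto_mass.const_mul_atTop (by linarith)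
  obtain ⟨R, hR1, hR2⟩ := ((hT.eventually_gt_atTop (M + (B + c / 2) * C)).and
    (eventually_ge_atTop t₀)).exists
  have := key R hR2
  linarith

theorem limit_lh_eq_zero {u : ℂ → ℝ} (hu : ContDiffOn ℝ 2 u (ball 0 1)) {B : ℝ}
    (hB : ∀ w, ‖w‖ < 1 → |u w| ≤ B) (hB' : ∀ w, ‖w‖ < 1 → |lh u w| ≤ B) {z : ℂ} (hz : ‖z‖ < 1)
    {c : ℝ} (h : Tendsto (fun t : ℝ => Av t (lh u) z) atTop (𝓝 c)) : c = 0 := by
  have hc := lh_continuousOn hu
  have hd := hu.continuousOn
  have hbd : ∀ R : ℝ, 0 ≤ R → |KG R (lh u) z| ≤ 2 * B := by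
    intro R hR
    rw [← Av_sub_eq hu hz hR]
    have h1 := abs_le.1 (abs_Av_le hd hz hB R)
    have h2 := abs_le.1 (hB z hz)
    exact abs_le.2 ⟨by linarith [h1.1, h2.2], by linarith [h1.2, h2.1]⟩
  have h1 : c ≤ 0 := ff_aux hc hB' hz h (M := 2 * B) fun R hR => (abs_le.1 (hbd R hR)).2
  have hc' : ContinuousOn (fun w => (-1 : ℝ) * lh u w) (ball 0 1) := continuousOn_const.mul hc
  have h2 : -c ≤ 0 := by
    refine ff_aux hc' (B := B) (fun w hw => ?_) hz (c := -c) ?_ (M := 2 * B) fun R hR => ?_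
    · rw [abs_mul, abs_neg, abs_one, one_mul]
      exact hB' w hw
    · simp_rw [Av_const_mul]
      have := h.const_mul (-1 : ℝ)
      rwa [neg_one_mul] at this
    · have h3 : KG R (fun w => (-1 : ℝ) * lh u w) z = - KG R (lh u) z := by
        unfold KG
        rw [← intervalIntegral.integral_neg]
        refine intervalIntegral.integral_congr fun t _ => ?_
        simp only [Av_const_mul]
        ring
      rw [h3]
      have := (abs_le.1 (hbd R hR)).1
      linarith
  linarith

end Pool.Agent.MP27775c.AHL
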