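import Mathlib
import Pool.Agent.Lib.MP_27775c_an_AHL.Eq

/-!
Functions with the mean value property are Lipschitz; closure properties.
-/

set_option autoImplicit false
set_option linter.unusedSectionVars false

open MeasureTheory Metric Filter Topology Set

namespace Pool.Agent.MP27775c.AHL

variable {u v : ℂ → ℝ}

theorem Harm.lip : ∃ C : ℝ, 0 ≤ C ∧ ∀ (u : ℂ → ℝ) (B : ℝ), Harm u →
    (∀ z, ‖z‖ < 1 → |u z| ≤ B) → ∀ z w, ‖z‖ < 1 → ‖w‖ < 1 → |u z - u w| ≤ C * B * dh z w := by
  obtain ⟨C, hC, h⟩ := ball_lip (η := 1) one_pos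
  have h1 : 0 < Real.cosh 1 - 1 := sub_pos.2 (Real.one_lt_cosh.2 one_ne_zero)
  refine ⟨C / (Real.cosh 1 - 1), div_nonneg hC h1.le, fun u B hu hB z w hz hw => ?_⟩
  have h2 : ∀ z : ℂ, ‖z‖ < 1 → ∫ t in (0 : ℝ)..1, Real.sinh t * Av t u z =
      (Real.cosh 1 - 1) * u z := by
    intro z hz
    have h3 : ∫ t in (0 : ℝ)..1, Real.sinh t * Av t u z =
        ∫ t in (0 : ℝ)..1, Real.sinh t * u z := by
      refine intervalIntegral.integral_congr fun t ht => ?_
      rw [uIcc_of_le zero_le_one] at ht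
      rw [hu.mean t z ht.1 hz]
    have h4 : ∫ t in (0 : ℝ)..1, Real.sinh t = Real.cosh 1 - Real.cosh 0 :=
      intervalIntegral.integral_eq_sub_of_hasDerivAt (fun x _ => Real.hasDerivAt_cosh x)
        (Real.continuous_sinh.intervalIntegrable 0 1)
    rw [h3, intervalIntegral.integral_mul_const, h4, Real.cosh_zero]
  have h3 := h u B z w hu.cont hB hz hw
  rw [h2 z hz, h2 w hw, ← mul_sub, abs_mul, abs_of_pos h1] at h3
  rw [div_mul_eq_mul_div, div_mul_eq_mul_div, le_div_iff₀ h1]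
  linarith

theorem Harm.const (c : ℝ) : Harm (fun _ => c) := by
  exact ⟨continuousOn_const, fun S z _ _ => Av_const c S z⟩

theorem Harm.add (hu : Harm u) (hv : Harm v) : Harm (fun z => u z + v z) := by
  refine ⟨hu.cont.add hv.cont, fun S z hS hz => ?_⟩
  rw [Av_add hu.cont hv.cont hz, hu.mean S z hS hz, hv.mean S z hS hz]

theorem Harm.sub (hu : Harm u) (hv : Harm v) : Harm (fun z => u z - v z) := by
  refine ⟨hu.cont.sub hv.cont, fun S z hS hz => ?_⟩
  rw [Av_sub hu.cont hv.cont hz, hu.mean S z hS hz, hv.mean S z hS hz]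

theorem Harm.const_mul (hu : Harm u) (c : ℝ) : Harm (fun z => c * u z) := by
  refine ⟨continuousOn_const.mul hu.cont, fun S z hS hz => ?_⟩
  rw [Av_const_mul, hu.mean S z hS hz]

theorem Harm.comp_mob (hu : Harm u) {b : ℂ} (hb : ‖b‖ < 1) : Harm (fun z => u (mob b z)) := by
  refine ⟨?_, fun S z hS hz => ?_⟩
  · have h1 : ContinuousOn (fun z : ℂ => mob b z) (ball 0 1) := by
      have h2 : ContinuousOn (fun z : ℂ => ((b, z) : ℂ × ℂ)) (ball 0 1) := by fun_prop
      exact continuousOn_mob.comp h2 fun z hz => ⟨hb, mem_ball_zero_iff.1 hz⟩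
    exact hu.cont.comp h1 fun z hz =>
      mem_ball_zero_iff.2 (norm_mob_lt hb (mem_ball_zero_iff.1 hz))
  · rw [Av_mob hz hb, hu.mean S _ hS (norm_mob_lt hb hz)]

/-- Pointwise limits of uniformly bounded sequences. -/
theorem Harm.of_tendsto {F : ℕ → ℂ → ℝ} {B : ℝ} (hF : ∀ n, Harm (F n))
    (hB : ∀ n z, ‖z‖ < 1 → |F n z| ≤ B)
    (h : ∀ z, ‖z‖ < 1 → Tendsto (fun n => F n z) atTop (𝓝 (u z))) : Harm u := by
  obtain ⟨C, hC, hL⟩ := Harm.lip
  have hB0 : 0 ≤ B := (abs_nonneg _).trans (hB 0 0 (by simp))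
  have hlip : ∀ z w, ‖z‖ < 1 → ‖w‖ < 1 → |u z - u w| ≤ C * B * dh z w := by
    intro z w hz hw
    exact le_of_tendsto' ((h z hz).sub (h w hw)).abs fun n => hL (F n) B (hF n) (hB n) z w hz hw
  have hU : UEC (fun _ : Unit => u) := by
    intro ε hε
    have h1 : 0 < C * B + 1 := by positivity
    refine ⟨ε / (C * B + 1), div_pos hε h1, fun _ z w hz hw hd => ?_⟩
    refine (hlip z w hz hw).trans ?_
    calc C * B * dh z w ≤ C * B * (ε / (C * B + 1)) :=
          mul_le_mul_of_nonneg_left hd (by positivity)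
      _ ≤ (C * B + 1) * (ε / (C * B + 1)) :=
          mul_le_mul_of_nonneg_right (by linarith) (div_pos hε h1).le
      _ = ε := mul_div_cancel₀ ε h1.ne'
  refine ⟨hU.continuousOn (), fun S z hS hz => ?_⟩
  have h1 : Tendsto (fun n => Av S (F n) z) atTop (𝓝 (Av S u z)) := by
    simp only [Av_eq]
    refine Tendsto.const_mul _ ?_
    refine intervalIntegral.tendsto_integral_filter_of_dominated_convergence (fun _ => B) ?_ ?_
      intervalIntegrable_const ?_
    · exact Eventually.of_forall fun n =>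
        (continuous_circle (hF n).cont hz S).aestronglyMeasurable
    · refine Eventually.of_forall fun n => Eventually.of_forall fun θ _ => ?_
      rw [Real.norm_eq_abs]
      exact hB n _ (mob_circle_lt hz S θ)
    · exact Eventually.of_forall fun θ _ => h _ (mob_circle_lt hz S θ)
  have h2 : (fun n => Av S (F n) z) = fun n => F n z := funext fun n => (hF n).mean S z hS hz
  rw [h2] at h1
  exact tendsto_nhds_unique h1 (h z hz)

end Pool.Agent.MP27775c.AHL
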