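import Mathlib
import Pool.Agent.Lib.MP_27775c_an_AHL.Ha
import Pool.Agent.Lib.MP_27775c_an_AHL.Pr

/-!
The mean squares of a harmonic function over concentric circles are nondecreasing.
-/

set_option autoImplicit false
set_option linter.unusedSectionVars false

open MeasureTheory Metric Filter Topology Set

namespace Pool.Agent.MP27775c.AHL

theorem mono_of_rr {U : ℝ → ℝ} (hc : ContinuousOn U (Ici 0))
    (h : ∀ S R : ℝ, 0 ≤ S → 0 ≤ R →
      U R ≤ (2 * Real.pi)⁻¹ * ∫ ψ in (0 : ℝ)..(2 * Real.pi), U (rr S R ψ)) :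
    MonotoneOn U (Ici 0) := by
  intro R1 h1 R2 h2 h12
  rw [mem_Ici] at h1 h2
  have hcI : ContinuousOn U (Icc 0 R2) := hc.mono Icc_subset_Ici_self
  obtain ⟨x0, hx0, hmax⟩ := isCompact_Icc.exists_isMaxOn (nonempty_Icc.2 h2) hcI
  have hmax' : ∀ y ∈ Icc 0 R2, U y ≤ U x0 := fun y hy => hmax hy
  have hclosed : IsClosed (Icc 0 R2 ∩ U ⁻¹' {U x0}) :=
    hcI.preimage_isClosed_of_isClosed isClosed_Icc isClosed_singleton
  have hcomp : IsCompact (Icc 0 R2 ∩ U ⁻¹' {U x0}) :=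
    isCompact_Icc.of_isClosed_subset hclosed inter_subset_left
  obtain ⟨R, ⟨hR, hRU⟩, hRub⟩ := hcomp.exists_isGreatest ⟨x0, hx0, rfl⟩
  have hRU' : U R = U x0 := hRU
  rcases eq_or_lt_of_le hR.2 with he | hlt
  · rw [← he, hRU']
    exact hmax' R1 ⟨h1, h12⟩
  · exfalso
    have hS : 0 ≤ R2 - R := by linarith
    have h3 := h (R2 - R) R hS hR.1
    have h4 : U R2 < U x0 := by
      refine lt_of_le_of_ne (hmax' R2 ⟨h2, le_rfl⟩) fun he => ?_
      have h5 := hRub (⟨⟨h2, le_rfl⟩, he⟩ : R2 ∈ Icc 0 R2 ∩ U ⁻¹' {U x0})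
      linarith
    have hpi : (0 : ℝ) < 2 * Real.pi := by positivity
    have hrr : Continuous fun ψ : ℝ => rr (R2 - R) R ψ := by
      have hf : Continuous (fun ψ : ℝ => ((R2 - R, R, ψ) : ℝ × ℝ × ℝ)) := by fun_prop
      have h5 := continuous_rr.comp hf
      exact h5
    have hcont : Continuous fun ψ : ℝ => U (rr (R2 - R) R ψ) :=
      hc.comp_continuous hrr fun ψ => mem_Ici.2 (rr_nonneg (R2 - R) R ψ)
    have h6 : ∫ ψ in (0 : ℝ)..(2 * Real.pi), U (rr (R2 - R) R ψ) <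
        ∫ _ψ in (0 : ℝ)..(2 * Real.pi), U x0 := by
      refine intervalIntegral.integral_lt_integral_of_continuousOn_of_le_of_exists_lt hpi
        hcont.continuousOn continuousOn_const (fun ψ _ => ?_) ⟨0, ⟨le_rfl, hpi.le⟩, ?_⟩
      · refine hmax' _ ⟨rr_nonneg _ _ _, ?_⟩
        have := rr_le hS hR.1 ψ
        linarith
      · rw [rr_psi_zero hS hR.1, sub_add_cancel]
        exact h4
    rw [intervalIntegral.integral_const, sub_zero, smul_eq_mul] at h6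
    have h7 : (2 * Real.pi)⁻¹ * ∫ ψ in (0 : ℝ)..(2 * Real.pi), U (rr (R2 - R) R ψ) < U x0 := by
      rw [inv_mul_lt_iff₀ hpi]
      exact h6
    linarith

theorem Harm.mono_sq {u : ℂ → ℝ} (hu : Harm u) {z : ℂ} (hz : ‖z‖ < 1) {R R' : ℝ} (hR : 0 ≤ R)
    (h : R ≤ R') : Av R (fun w => u w ^ 2) z ≤ Av R' (fun w => u w ^ 2) z := by
  obtain ⟨v, hv⟩ : ∃ v : ℂ → ℝ, v = fun w => u w ^ 2 := ⟨_, rfl⟩
  have hu2 : ContinuousOn v (ball 0 1) := by
    rw [hv]
    exact hu.cont.pow 2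
  have hcav := continuousOn_Av hu2
  rw [← hv]
  have hU : ContinuousOn (fun R : ℝ => Av R v z) (Ici 0) := by
    have hf : ContinuousOn (fun R : ℝ => ((R, z) : ℝ × ℂ)) (Ici 0) := by fun_prop
    have hm : MapsTo (fun R : ℝ => ((R, z) : ℝ × ℂ)) (Ici 0) {p : ℝ × ℂ | ‖p.2‖ < 1} := by
      intro R _
      rw [mem_ofPred_eq]
      exact hz
    have h5 := hcav.comp hf hm
    exact h5
  have hW : ∀ S : ℝ, ContinuousOn (fun w : ℂ => Av S v w) (ball 0 1) := by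
    intro S
    have hf : ContinuousOn (fun w : ℂ => ((S, w) : ℝ × ℂ)) (ball 0 1) := by fun_prop
    have hm : MapsTo (fun w : ℂ => ((S, w) : ℝ × ℂ)) (ball 0 1) {p : ℝ × ℂ | ‖p.2‖ < 1} := by
      intro w hw
      rw [mem_ofPred_eq]
      exact mem_ball_zero_iff.1 hw
    have h5 := hcav.comp hf hm
    exact h5
  refine mono_of_rr hU ?_ (mem_Ici.2 hR) (mem_Ici.2 (hR.trans h)) h
  intro S R hS hR
  have h2 : Av R v z ≤ Av R (fun w => Av S v w) z := by
    refine Av_mono hu2 (hW S) hz (fun w hw => ?_) R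
    have h3 := sq_Av_le hu.cont hw S
    rw [hu.mean S w hS hw, ← hv] at h3
    rw [hv] at h3 ⊢
    exact h3
  rw [Av_Av hu2 hz R S] at h2
  refine h2.trans_eq ?_
  have h4 : (fun ψ : ℝ => Av (rr R S ψ) v z) = fun ψ => Av (rr S R ψ) v z := by
    funext ψ
    rw [rr_comm]
  rw [h4]

end Pool.Agent.MP27775c.AHL
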