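import Mathlib
import Pool.Agent.Lib.MP_27775c_an_AHL.Hm

/-!
The mean square oscillation of a bounded harmonic function tends to zero in average.
-/

set_option autoImplicit false
set_option linter.unusedSectionVars false

open MeasureTheory Metric Filter Topology Set

namespace Pool.Agent.MP27775c.AHL

variable {u : ℂ → ℝ}

theorem Dv_eq (hu : Harm u) {S : ℝ} (hS : 0 ≤ S) {w : ℂ} (hw : ‖w‖ < 1) :
    Dv u S w = Av S (fun y => (u y - u w) ^ 2) w := by
  have h1 : (fun y => (u y - u w) ^ 2) = fun y => (u y ^ 2 - 2 * u w * u y) + u w ^ 2 := by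
    funext y
    ring
  have c1 : ContinuousOn (fun y => u y ^ 2) (ball 0 1) := hu.cont.pow 2
  have c2 : ContinuousOn (fun y => 2 * u w * u y) (ball 0 1) := continuousOn_const.mul hu.cont
  have c12 : ContinuousOn (fun y => u y ^ 2 - 2 * u w * u y) (ball 0 1) := c1.sub c2
  rw [h1, Av_add c12 continuousOn_const hw, Av_sub c1 c2 hw, Av_const_mul, Av_const,
    hu.mean S w hS hw]
  unfold Dv
  ring

theorem Dv_nonneg (hu : Harm u) {S : ℝ} (hS : 0 ≤ S) {w : ℂ} (hw : ‖w‖ < 1) : 0 ≤ Dv u S w := by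
  have h := sq_Av_le hu.cont hw S
  rw [hu.mean S w hS hw] at h
  unfold Dv
  linarith

theorem Dv_mono (hu : Harm u) {S S' : ℝ} (hS : 0 ≤ S) (h : S ≤ S') {w : ℂ} (hw : ‖w‖ < 1) :
    Dv u S w ≤ Dv u S' w :=
  sub_le_sub_right (hu.mono_sq hw hS h) _

theorem continuousOn_Dv (hu : Harm u) (S : ℝ) : ContinuousOn (Dv u S) (ball 0 1) := by
  have c1 : ContinuousOn (fun y => u y ^ 2) (ball 0 1) := hu.cont.pow 2
  have c2 := (continuousOn_Av c1).comp (f := fun z : ℂ => (S, z)) (s := ball (0 : ℂ) 1)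
    (by fun_prop) (fun z hz => by
      show ‖z‖ < 1
      exact mem_ball_zero_iff.1 hz)
  exact c2.sub c1

private theorem step_a (hu : Harm u) {S : ℝ} (hS : 0 ≤ S) {R : ℝ} (hR : 0 ≤ R) {z : ℂ}
    (hz : ‖z‖ < 1) : Av R (Dv u S) z ≤
      Av (R + S) (fun y => u y ^ 2) z - Av R (fun y => u y ^ 2) z := by
  have c1 : ContinuousOn (fun y => u y ^ 2) (ball 0 1) := hu.cont.pow 2
  have c2 : ContinuousOn (fun w => Av S (fun y => u y ^ 2) w) (ball 0 1) :=
    (continuousOn_Av c1).comp (f := fun z : ℂ => (S, z)) (s := ball (0 : ℂ) 1)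
      (by fun_prop) (fun z hz => by
        show ‖z‖ < 1
        exact mem_ball_zero_iff.1 hz)
  have h1 : Av R (Dv u S) z = Av R (fun w => Av S (fun y => u y ^ 2) w) z -
      Av R (fun y => u y ^ 2) z := Av_sub c2 c1 hz R
  rw [h1]
  apply sub_le_sub_right
  rw [Av_Av c1 hz]
  have c3 : Continuous fun ψ : ℝ => Av (rr R S ψ) (fun y => u y ^ 2) z := by
    have hr : Continuous fun ψ : ℝ => rr R S ψ :=
      continuous_rr.comp (f := fun ψ : ℝ => ((R, S, ψ) : ℝ × ℝ × ℝ)) (by fun_prop)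
    have := (continuousOn_Av c1).comp (f := fun ψ : ℝ => ((rr R S ψ, z) : ℝ × ℂ)) (s := univ)
      (by
        apply Continuous.continuousOn
        exact hr.prodMk continuous_const) (fun ψ _ => hz)
    exact continuousOn_univ.1 this
  have hI : ∫ ψ in (0 : ℝ)..(2 * Real.pi), Av (rr R S ψ) (fun y => u y ^ 2) z ≤
      ∫ _ψ in (0 : ℝ)..(2 * Real.pi), Av (R + S) (fun y => u y ^ 2) z := by
    apply intervalIntegral.integral_mono_on (by positivity) (c3.intervalIntegrable _ _)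
      intervalIntegrable_const
    intro ψ _
    exact hu.mono_sq hz (rr_nonneg R S ψ) (rr_le hR hS ψ)
  rw [intervalIntegral.integral_const, smul_eq_mul, sub_zero] at hI
  have hp := Real.pi_pos
  calc (2 * Real.pi)⁻¹ * ∫ ψ in (0 : ℝ)..(2 * Real.pi), Av (rr R S ψ) (fun y => u y ^ 2) z
      ≤ (2 * Real.pi)⁻¹ * (2 * Real.pi * Av (R + S) (fun y => u y ^ 2) z) :=
        mul_le_mul_of_nonneg_left hI (by positivity)
    _ = Av (R + S) (fun y => u y ^ 2) z := by
        field_simp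

private theorem step_b (hu : Harm u) {B : ℝ} (hB : ∀ z, ‖z‖ < 1 → |u z| ≤ B) {S : ℝ}
    (hS : 0 ≤ S) {z : ℂ} (hz : ‖z‖ < 1) {ε : ℝ} (hε : 0 < ε) :
    ∀ᶠ R in (atTop : Filter ℝ),
      Av (R + S) (fun y => u y ^ 2) z - Av R (fun y => u y ^ 2) z ≤ ε := by
  have c1 : ContinuousOn (fun y => u y ^ 2) (ball 0 1) := hu.cont.pow 2
  have hB0 : 0 ≤ B := (abs_nonneg _).trans (hB 0 (by simp))
  have hq : ∀ w, ‖w‖ < 1 → |u w ^ 2| ≤ B ^ 2 := fun w hw => by
    rw [abs_pow]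
    exact pow_le_pow_left₀ (abs_nonneg _) (hB w hw) 2
  have hbd : ∀ R, Av R (fun y => u y ^ 2) z ≤ B ^ 2 := fun R =>
    (le_abs_self _).trans (abs_Av_le c1 hz hq R)
  set A : Set ℝ := (fun R => Av R (fun y => u y ^ 2) z) '' Ici 0 with hA
  have hbdd : BddAbove A := ⟨B ^ 2, by
    rintro _ ⟨R, _, rfl⟩
    exact hbd R⟩
  have hne : A.Nonempty := ⟨_, 0, self_mem_Ici, rfl⟩
  obtain ⟨_, ⟨R₀, hR₀, rfl⟩, hlt⟩ := exists_lt_of_lt_csSup hne (by linarith : sSup A - ε < sSup A)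
  have hR0' : (0 : ℝ) ≤ R₀ := hR₀
  filter_upwards [eventually_ge_atTop R₀] with R hR
  have h1 : Av (R + S) (fun y => u y ^ 2) z ≤ sSup A :=
    le_csSup hbdd ⟨R + S, by
      show (0 : ℝ) ≤ R + S
      linarith, rfl⟩
  have h2 := hu.mono_sq hz hR0' hR
  have hlt' : sSup A - ε < Av R₀ (fun y => u y ^ 2) z := hlt
  linarith

theorem Av_Dv_tendsto (hu : Harm u) {B : ℝ} (hB : ∀ z, ‖z‖ < 1 → |u z| ≤ B) {S : ℝ} (hS : 0 ≤ S)
    {r : ℝ} (hr : r < 1) {ε : ℝ} (hε : 0 < ε) :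
    ∃ R₀ : ℝ, ∀ R, R₀ ≤ R → ∀ z, ‖z‖ ≤ r → Av R (Dv u S) z ≤ ε := by
  by_cases hr0 : 0 ≤ r
  · have hB0 : 0 ≤ B := (abs_nonneg _).trans (hB 0 (by simp))
    have huU : UEC (fun _ : Unit => u) := by
      obtain ⟨C, hC, h⟩ := Harm.lip
      intro e he
      refine ⟨e / (C * B + 1), by positivity, fun _ z w hz hw hd => ?_⟩
      have hCB : 0 ≤ C * B := mul_nonneg hC hB0
      calc |u z - u w| ≤ C * B * dh z w := h u B hu hB z w hz hw
        _ ≤ C * B * (e / (C * B + 1)) := mul_le_mul_of_nonneg_left hd hCB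
        _ ≤ e := by
            rw [← mul_div_assoc, div_le_iff₀ (by linarith)]
            nlinarith
    have huB : UBd (fun _ : Unit => u) := ⟨B, fun _ z hz => hB z hz⟩
    have hqU : UEC (fun _ : Unit => fun y => u y ^ 2) := by
      have := huU.mul huU huB huB
      simpa only [← sq] using this
    have hqB : UBd (fun _ : Unit => fun y => u y ^ 2) := ⟨B ^ 2, fun _ z hz => by
      show |u z ^ 2| ≤ B ^ 2
      rw [abs_pow]
      exact pow_le_pow_left₀ (abs_nonneg _) (hB z hz) 2⟩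
    obtain ⟨δ, hδ, hδ'⟩ := UEC_Av hqU hqB (ε / 3) (by positivity)
    have hr2 : 0 < 1 - r ^ 2 := by nlinarith
    obtain ⟨t, hts, htf, hcov⟩ := (isCompact_closedBall (0 : ℂ) r).finite_cover_balls
      (show 0 < δ * (1 - r ^ 2) / 2 by positivity)
    have hev : ∀ᶠ R in (atTop : Filter ℝ), ∀ w ∈ t,
        Av (R + S) (fun y => u y ^ 2) w - Av R (fun y => u y ^ 2) w ≤ ε / 3 := by
      refine (eventually_all_finite htf).2 fun w hw => step_b hu hB hS ?_ (by positivity)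
      have := hts hw
      rw [mem_closedBall_zero_iff] at this
      linarith
    obtain ⟨R₀, hR₀⟩ := eventually_atTop.1 hev
    refine ⟨max R₀ 0, fun R hR z hz => ?_⟩
    have hz1 : ‖z‖ < 1 := by linarith
    have hRn : 0 ≤ R := (le_max_right _ _).trans hR
    refine (step_a hu hS hRn hz1).trans ?_
    have hzc : z ∈ closedBall (0 : ℂ) r := mem_closedBall_zero_iff.2 hz
    obtain ⟨w, hw, hzw⟩ := mem_iUnion₂.1 (hcov hzc)
    have hwr : ‖w‖ ≤ r := mem_closedBall_zero_iff.1 (hts hw)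
    have hw1 : ‖w‖ < 1 := by linarith
    have hd : dh z w ≤ δ := by
      refine (dh_le hr hz hwr).trans ?_
      rw [mem_ball, dist_eq_norm] at hzw
      rw [div_le_iff₀ hr2]
      linarith
    have e1 := abs_le.1 (hδ' (R + S, ()) z w hz1 hw1 hd)
    have e2 := abs_le.1 (hδ' (R, ()) z w hz1 hw1 hd)
    have e3 := hR₀ R ((le_max_left _ _).trans hR) w hw
    dsimp only at e1 e2
    linarith [e1.2, e2.1]
  · exact ⟨0, fun R _ z hz => absurd ((norm_nonneg z).trans hz) hr0⟩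

end Pool.Agent.MP27775c.AHL
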