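import Mathlib
import Pool.Agent.Lib.MP_27775c_an_AHL.Hd

/-!
Sequences of points around which a harmonic function is nearly constant.
-/

set_option autoImplicit false
set_option linter.unusedSectionVars false

open MeasureTheory Metric Filter Topology Set

namespace Pool.Agent.MP27775c.AHL

private theorem hs_low {f : ℝ → ℝ} {K ε θ₀ : ℝ} (hf : Continuous f)
    (hper : Function.Periodic f (2 * Real.pi)) (h0 : ∀ θ, 0 ≤ f θ) (hK : 0 ≤ K)
    (hL : ∀ s t, |f s - f t| ≤ K * |s - t|) (hε : 0 < ε) (hθ : ε ≤ f θ₀) :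
    min 1 (ε / (2 * (K + 1))) * (ε / 2) ≤ ∫ θ in (0 : ℝ)..(2 * Real.pi), f θ := by
  set η : ℝ := min 1 (ε / (2 * (K + 1))) with hη
  have hK1 : 0 < K + 1 := by linarith
  have hη0 : 0 < η := lt_min one_pos (by positivity)
  have hη1 : η ≤ 1 := min_le_left _ _
  have hη2 : η ≤ ε / (2 * (K + 1)) := min_le_right _ _
  have hpi := Real.pi_gt_three
  have hint : ∀ a b : ℝ, IntervalIntegrable f volume a b := fun a b => hf.intervalIntegrable a b
  have e1 := hper.intervalIntegral_add_eq 0 θ₀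
  rw [zero_add] at e1
  rw [e1, ← intervalIntegral.integral_add_adjacent_intervals (hint θ₀ (θ₀ + η))
    (hint (θ₀ + η) (θ₀ + 2 * Real.pi))]
  have h2 : 0 ≤ ∫ x in (θ₀ + η)..(θ₀ + 2 * Real.pi), f x :=
    intervalIntegral.integral_nonneg (by linarith) fun x _ => h0 x
  have h3 : ∫ _x in θ₀..(θ₀ + η), (ε / 2) ≤ ∫ x in θ₀..(θ₀ + η), f x := by
    refine intervalIntegral.integral_mono_on (by linarith) intervalIntegrable_const (hint _ _) ?_
    intro x hx
    have h4 := (le_abs_self _).trans (hL θ₀ x)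
    have h5 : |θ₀ - x| ≤ ε / (2 * (K + 1)) := by
      refine le_trans ?_ hη2
      rw [abs_le]
      constructor <;> linarith [hx.1, hx.2]
    have h6 : K * |θ₀ - x| ≤ (K + 1) * (ε / (2 * (K + 1))) :=
      mul_le_mul (by linarith) h5 (abs_nonneg _) hK1.le
    have h7 : (K + 1) * (ε / (2 * (K + 1))) = ε / 2 := by
      field_simp
    linarith
  rw [intervalIntegral.integral_const, smul_eq_mul] at h3
  have h8 : (θ₀ + η - θ₀) * (ε / 2) = η * (ε / 2) := by ring
  linarith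

theorem osc_tendsto {u : ℂ → ℝ} (hu : Harm u) {B : ℝ} (hB : ∀ z, ‖z‖ < 1 → |u z| ≤ B) {w : ℕ → ℂ}
    (hw : ∀ n, ‖w n‖ < 1)
    (h : ∀ S : ℝ, 0 ≤ S → Tendsto (fun n => Dv u S (w n)) atTop (𝓝 0)) {ζ : ℂ} (hζ : ‖ζ‖ < 1) :
    Tendsto (fun n => u (mob (w n) ζ) - u (w n)) atTop (𝓝 0) := by
  obtain ⟨C, hC, hlip⟩ := Harm.lip
  have hB0 : 0 ≤ B := (abs_nonneg _).trans (hB 0 (by simp))
  set S : ℝ := dh 0 ζ with hS
  have hS0 : 0 ≤ S := dh_nonneg _ _
  set ρ : ℝ := Real.tanh (S / 2) with hρdef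
  have hρ : |ρ| < 1 := Real.abs_tanh_lt_one _
  have hρ2 : 0 < 1 - |ρ| ^ 2 := by
    have := abs_nonneg ρ
    nlinarith
  have hζeq : circleMap 0 ρ (Complex.arg ζ) = ζ := by
    rw [hρdef, hS, tanh_half_dh hζ, circleMap_zero]
    exact Complex.norm_mul_exp_arg_mul_I ζ
  set K : ℝ := 4 * B * (C * B * (2 / (1 - |ρ| ^ 2))) with hK
  have hK0 : 0 ≤ K := by positivity
  have hmb : ∀ n θ, |u (mob (w n) (circleMap 0 ρ θ))| ≤ B := fun n θ =>
    hB _ (mob_circle_lt (hw n) S θ)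
  have hL : ∀ n s t, |(u (mob (w n) (circleMap 0 ρ s)) - u (w n)) ^ 2 -
      (u (mob (w n) (circleMap 0 ρ t)) - u (w n)) ^ 2| ≤ K * |s - t| := by
    intro n s t
    have e1 : (u (mob (w n) (circleMap 0 ρ s)) - u (w n)) ^ 2 -
      (u (mob (w n) (circleMap 0 ρ t)) - u (w n)) ^ 2 =
      ((u (mob (w n) (circleMap 0 ρ s)) - u (w n)) + (u (mob (w n) (circleMap 0 ρ t)) - u (w n))) *
      (u (mob (w n) (circleMap 0 ρ s)) - u (mob (w n) (circleMap 0 ρ t))) := by ring
    rw [e1, abs_mul, hK, mul_assoc]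
    have h1 : |(u (mob (w n) (circleMap 0 ρ s)) - u (w n)) +
        (u (mob (w n) (circleMap 0 ρ t)) - u (w n))| ≤ 4 * B := by
      have a1 := abs_le.1 (hmb n s)
      have a2 := abs_le.1 (hmb n t)
      have a3 := abs_le.1 (hB (w n) (hw n))
      rw [abs_le]
      constructor <;> linarith [a1.1, a1.2, a2.1, a2.2, a3.1, a3.2]
    have h2 : |u (mob (w n) (circleMap 0 ρ s)) - u (mob (w n) (circleMap 0 ρ t))| ≤
        C * B * (2 / (1 - |ρ| ^ 2)) * |s - t| := by
      refine (hlip u B hu hB _ _ (mob_circle_lt (hw n) S s) (mob_circle_lt (hw n) S t)).trans ?_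
      rw [mul_assoc (C * B)]
      refine mul_le_mul_of_nonneg_left ?_ (mul_nonneg hC hB0)
      rw [dh_mob (hw n) (norm_circleMap_tanh_lt S s) (norm_circleMap_tanh_lt S t)]
      refine (dh_le hρ (norm_circleMap_zero _ _).le (norm_circleMap_zero _ _).le).trans ?_
      rw [div_mul_eq_mul_div]
      refine div_le_div_of_nonneg_right ?_ hρ2.le
      have h3 := (lipschitzWith_circleMap 0 ρ).dist_le_mul s t
      rw [dist_eq_norm, Real.dist_eq, Real.coe_nnabs] at h3
      have h4 : |ρ| * |s - t| ≤ 1 * |s - t| :=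
        mul_le_mul_of_nonneg_right hρ.le (abs_nonneg _)
      linarith
    exact mul_le_mul h1 h2 (abs_nonneg _) (by positivity)
  rw [Metric.tendsto_nhds]
  intro ε hε
  have hε2 : 0 < ε ^ 2 := by positivity
  have hpi : 0 < 2 * Real.pi := by positivity
  have hlow : 0 < (2 * Real.pi)⁻¹ * (min 1 (ε ^ 2 / (2 * (K + 1))) * (ε ^ 2 / 2)) := by
    have : 0 < min 1 (ε ^ 2 / (2 * (K + 1))) := lt_min one_pos (by positivity)
    positivity
  filter_upwards [(h S hS0).eventually_lt_const hlow] with n hn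
  rw [Real.dist_eq, sub_zero]
  by_contra hcon
  rw [not_lt] at hcon
  rw [Dv_eq hu hS0 (hw n), Av_eq] at hn
  have hn' := lt_of_mul_lt_mul_left hn (inv_pos.2 hpi).le
  have hcont : Continuous fun θ : ℝ => (u (mob (w n) (circleMap 0 ρ θ)) - u (w n)) ^ 2 :=
    ((continuous_circle hu.cont (hw n) S).sub continuous_const).pow 2
  have hper : Function.Periodic (fun θ : ℝ => (u (mob (w n) (circleMap 0 ρ θ)) - u (w n)) ^ 2)
      (2 * Real.pi) := fun θ => by
    dsimp only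
    rw [periodic_circleMap 0 ρ θ]
  have hθ : ε ^ 2 ≤ (fun θ : ℝ => (u (mob (w n) (circleMap 0 ρ θ)) - u (w n)) ^ 2)
      (Complex.arg ζ) := by
    dsimp only
    rw [hζeq, ← sq_abs (u (mob (w n) ζ) - u (w n))]
    exact pow_le_pow_left₀ hε.le hcon 2
  exact absurd (hs_low hcont hper (fun θ => sq_nonneg _) hK0 (hL n) hε2 hθ) (not_le.2 hn')

end Pool.Agent.MP27775c.AHL
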