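import Mathlib
import Pool.Agent.Lib.MP_27775c_an_AHL.Lin
import Pool.Agent.Lib.MP_27775c_an_AHL.Ha

/-!
Passage to the limit in the integrals of homogeneous functions.
-/

set_option autoImplicit false
set_option linter.unusedSectionVars false

open MeasureTheory Metric Filter Topology Set

namespace Pool.Agent.MP27775c.AHL

variable {Γ : Type*} [Group Γ] {a : Γ → ℂ → ℂ} {d : ℕ} {σ ρ : Γ →* (Vec d →L[ℂ] Vec d)}
  {ν : ℂ → Measure (Vec d)}

/-- A positively homogeneous function, continuous off `0`, is bounded off `0`. -/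
theorem hom_bdd {φ : Vec d → ℝ} (hc : ContinuousOn φ {x | x ≠ 0})
    (hh : ∀ (c : ℝ) x, 0 < c → φ (c • x) = φ x) : ∃ B : ℝ, ∀ x, x ≠ 0 → |φ x| ≤ B := by
  obtain ⟨B, hB⟩ := (isCompact_sphere (0 : Vec d) 1).exists_bound_of_continuousOn
    (hc.mono (fun x hx => by
      intro h0
      rw [h0] at hx
      simp at hx))
  refine ⟨B, fun x hx => ?_⟩
  have hx' : 0 < ‖x‖ := norm_pos_iff.2 hx
  rw [← hh ‖x‖⁻¹ x (inv_pos.2 hx')]
  refine hB _ ?_
  rw [mem_sphere_zero_iff_norm, norm_smul, norm_inv, norm_norm, inv_mul_cancel₀ hx'.ne']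

private theorem ja_sph_ne (hν : HarmFam a σ ν) (z : ℂ) : ∀ᵐ x ∂(ν z), x ≠ 0 := by
  filter_upwards [hν.sph z] with x hx h0
  rw [h0, norm_zero] at hx
  exact zero_ne_one hx

theorem HarmFam.ae_ne (hν : HarmFam a σ ν) (hn : Null ν) {τ : Vec d →L[ℂ] Vec d} (hτ : τ ≠ 0)
    {z : ℂ} (hz : ‖z‖ < 1) : ∀ᵐ x ∂(ν z), τ x ≠ 0 := by
  have h1 : LinearMap.ker (τ : Vec d →ₗ[ℂ] Vec d) ≠ ⊤ := by
    intro h
    apply hτ
    ext1 x
    have h2 : x ∈ LinearMap.ker (τ : Vec d →ₗ[ℂ] Vec d) := by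
      rw [h]; exact Submodule.mem_top
    exact h2
  have h2 := hn z hz _ h1
  rw [ae_iff]
  refine measure_mono_null ?_ h2
  intro x hx
  simp only [ne_eq, not_not, mem_ofPred_eq] at hx
  exact hx

theorem HarmFam.lip (hν : HarmFam a σ ν) : ∃ C : ℝ, 0 ≤ C ∧ ∀ (φ : Vec d → ℝ) (B : ℝ),
    ContinuousOn φ {x | x ≠ 0} → (∀ x, x ≠ 0 → |φ x| ≤ B) → ∀ z w, ‖z‖ < 1 → ‖w‖ < 1 →
      |∫ x, φ x ∂(ν z) - ∫ x, φ x ∂(ν w)| ≤ C * B * dh z w := by
  obtain ⟨C, hC, h⟩ := Harm.lip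
  refine ⟨C, hC, fun φ B hc hB z w hz hw => ?_⟩
  refine h (fun z => ∫ x, φ x ∂(ν z)) B (hν.harm φ hc) (fun z hz => ?_) z w hz hw
  haveI := hν.prob z
  have h1 : ∀ᵐ x ∂(ν z), ‖φ x‖ ≤ B := by
    filter_upwards [ja_sph_ne hν z] with x hx
    exact hB x hx
  have h2 := norm_integral_le_of_norm_le_const h1
  simpa using h2

theorem HarmFam.tendsto_int (hν : HarmFam a σ ν) (hn : Null ν) {g : ℕ → Γ}
    {τ : Vec d →L[ℂ] Vec d} (hτ : τ ≠ 0)
    (hlim : Tendsto (fun n => ‖σ (g n)‖⁻¹ • σ (g n)) atTop (𝓝 τ)) {z : ℕ → ℂ} {z' : ℂ}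
    (hz : ∀ n, ‖z n‖ < 1) (hz' : ‖z'‖ < 1) (hzl : Tendsto z atTop (𝓝 z')) {φ : Vec d → ℝ}
    (hc : ContinuousOn φ {x | x ≠ 0}) (hh : ∀ (c : ℝ) x, 0 < c → φ (c • x) = φ x) :
    Tendsto (fun n => ∫ x, φ (σ (g n) x) ∂(ν (z n))) atTop (𝓝 (∫ x, φ (τ x) ∂(ν z'))) := by
  obtain ⟨B, hB⟩ := hom_bdd hc hh
  obtain ⟨C, hC, hL⟩ := hν.lip
  haveI := hν.prob z'
  have hopen : IsOpen {x : Vec d | x ≠ 0} := isOpen_ne
  have hinj : ∀ (γ : Γ) (x : Vec d), x ≠ 0 → σ γ x ≠ 0 := by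
    intro γ x hx h0
    apply hx
    have h1 : σ γ⁻¹ (σ γ x) = x := by
      have h2 : (σ γ⁻¹ * σ γ) x = x := by
        rw [← map_mul, inv_mul_cancel, map_one]
        rfl
      exact h2
    rw [← h1, h0, map_zero]
  have hcn : ∀ n, ContinuousOn (fun x => φ (σ (g n) x)) {x | x ≠ 0} := by
    intro n
    exact hc.comp (σ (g n)).continuous.continuousOn (fun x hx => hinj _ x hx)
  have hBn : ∀ n x, x ≠ 0 → |φ (σ (g n) x)| ≤ B := fun n x hx => hB _ (hinj _ x hx)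
  have hdist : Tendsto (fun n => C * B * dh (z n) z') atTop (𝓝 0) := by
    have h1 : Tendsto (fun n => dh (z n) z') atTop (𝓝 (dh z' z')) := by
      have h2 : ContinuousAt (fun w => dh w z') z' := by
        unfold dh
        have hp : 0 < 1 - ‖z'‖ ^ 2 := by
          have := norm_nonneg z'
          nlinarith
        have h3 : √((1 - ‖z'‖ ^ 2) * (1 - ‖z'‖ ^ 2)) ≠ 0 :=
          (Real.sqrt_pos.2 (mul_pos hp hp)).ne'
        have h4 : ContinuousAt (fun w : ℂ => ‖w - z'‖ / √((1 - ‖w‖ ^ 2) * (1 - ‖z'‖ ^ 2))) z' := by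
          refine ContinuousAt.div ?_ ?_ h3
          · fun_prop
          · fun_prop
        have h5 : ContinuousAt (fun w : ℂ =>
            Real.arsinh (‖w - z'‖ / √((1 - ‖w‖ ^ 2) * (1 - ‖z'‖ ^ 2)))) z' :=
          (Real.continuous_arsinh.continuousAt).comp' h4
        exact continuousAt_const.mul h5
      exact h2.tendsto.comp hzl
    rw [dh_self] at h1
    have h2 := h1.const_mul (C * B)
    rwa [mul_zero] at h2
  have hmain : Tendsto (fun n => ∫ x, φ (σ (g n) x) ∂(ν z')) atTop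
      (𝓝 (∫ x, φ (τ x) ∂(ν z'))) := by
    refine tendsto_integral_of_dominated_convergence (fun _ => B) ?_ (integrable_const B) ?_ ?_
    · intro n
      have h1 := (hcn n).aestronglyMeasurable (μ := ν z') hopen.measurableSet
      have h2 : (ν z').restrict {x : Vec d | x ≠ 0} = ν z' :=
        Measure.restrict_eq_self_of_ae_mem (ja_sph_ne hν z')
      rwa [h2] at h1
    · intro n
      filter_upwards [ja_sph_ne hν z'] with x hx
      exact hBn n x hx
    · filter_upwards [hν.ae_ne hn hτ hz', ja_sph_ne hν z'] with x hx hx0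
      have h1 : ∀ n, φ (σ (g n) x) = φ ((‖σ (g n)‖⁻¹ • σ (g n)) x) := by
        intro n
        have h2 : 0 < ‖σ (g n)‖ := by
          rw [norm_pos_iff]
          intro h0
          apply hinj (g n) x hx0
          rw [h0]
          rfl
        rw [← hh ‖σ (g n)‖⁻¹ (σ (g n) x) (inv_pos.2 h2)]
        rfl
      simp_rw [h1]
      have h3 : ContinuousAt φ (τ x) := hc.continuousAt (hopen.mem_nhds hx)
      refine h3.tendsto.comp ?_
      have h4 : Continuous (fun T : Vec d →L[ℂ] Vec d => T x) := by fun_prop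
      exact (h4.tendsto τ).comp hlim
  have hdiff : Tendsto (fun n => ∫ x, φ (σ (g n) x) ∂(ν (z n)) - ∫ x, φ (σ (g n) x) ∂(ν z'))
      atTop (𝓝 0) := by
    refine squeeze_zero_norm (fun n => ?_) hdist
    exact hL _ B (hcn n) (hBn n) (z n) z' (hz n) hz'
  have h := hdiff.add hmain
  simpa using h

end Pool.Agent.MP27775c.AHL
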