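import Mathlib
import Pool.Agent.Lib.MP_27775c_an_AHL.Ja
import Pool.Agent.Lib.MP_27775c_an_AHL.Hs
import Pool.Agent.Lib.MP_27775c_an_AHL.Fu

/-!
The limits of the representation along points of small oscillation.
-/

set_option autoImplicit false
set_option linter.unusedSectionVars false

open MeasureTheory Metric Filter Topology Set

namespace Pool.Agent.MP27775c.AHL

variable {Γ : Type*} [Group Γ] {a : Γ → ℂ → ℂ} {d : ℕ} {σ ρ : Γ →* (Vec d →L[ℂ] Vec d)}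
  {ν : ℂ → Measure (Vec d)}

theorem const_of_osc (hF : Fuchs a) (hν : HarmFam a σ ν) (hn : Null ν) {w : ℕ → ℂ}
    (hw : ∀ n, ‖w n‖ < 1) {g : ℕ → Γ} {r : ℝ} (hr : r < 1) (hg : ∀ n, ‖a (g n) (w n)‖ ≤ r)
    {τ : Vec d →L[ℂ] Vec d} (hτ : τ ≠ 0)
    (hlim : Tendsto (fun n => ‖σ (g n)⁻¹‖⁻¹ • σ (g n)⁻¹) atTop (𝓝 τ)) {φ : Vec d → ℝ}
    (hc : ContinuousOn φ {x | x ≠ 0}) (hh : ∀ (c : ℝ) x, 0 < c → φ (c • x) = φ x)
    (hosc : ∀ S : ℝ, 0 ≤ S →
      Tendsto (fun n => Dv (fun y => ∫ x, φ x ∂(ν y)) S (w n)) atTop (𝓝 0)) :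
    ∀ y y', ‖y‖ < 1 → ‖y'‖ < 1 → ∫ x, φ (τ x) ∂(ν y) = ∫ x, φ (τ x) ∂(ν y') := by
  obtain ⟨B, hB⟩ := hom_bdd hc hh
  have hu : Harm (fun y => ∫ x, φ x ∂(ν y)) := hν.harm φ hc
  have huB : ∀ z, ‖z‖ < 1 → |∫ x, φ x ∂(ν z)| ≤ B := by
    intro z hz
    have := hν.prob z
    have h1 : ∀ᵐ x ∂(ν z), ‖φ x‖ ≤ B := by
      filter_upwards [hν.sph z] with x hx
      refine hB x fun h0 => ?_
      rw [h0, norm_zero] at hx
      exact zero_ne_one hx
    have h2 := norm_integral_le_of_norm_le_const h1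
    simpa using h2
  have hzn : ∀ n, ‖a (g n) (w n)‖ < 1 := fun n => (hg n).trans_lt hr
  -- the rotations
  have hex : ∀ n, ∃ e : ℂ, ‖e‖ = 1 ∧ ∀ ζ, ‖ζ‖ < 1 →
      mob (w n) ζ = a (g n)⁻¹ (mob (a (g n) (w n)) (e * ζ)) := by
    intro n
    obtain ⟨c, hc1, h⟩ := hF.iso (g n)⁻¹ (a (g n) (w n)) (hzn n)
    have hc0 : c ≠ 0 := by
      intro h0
      rw [h0, norm_zero] at hc1
      exact zero_ne_one hc1
    refine ⟨c⁻¹, by rw [norm_inv, hc1, inv_one], fun ζ hζ => ?_⟩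
    have h1 : ‖c⁻¹ * ζ‖ < 1 := by rwa [norm_mul, norm_inv, hc1, inv_one, one_mul]
    rw [h _ h1, hF.inv_apply (g n) (hw n), mul_inv_cancel_left₀ hc0]
  choose e he hmob using hex
  -- compactness
  have hcpt : IsCompact (closedBall (0 : ℂ) r ×ˢ sphere (0 : ℂ) 1) :=
    (isCompact_closedBall _ _).prod (isCompact_sphere _ _)
  obtain ⟨p, hp, k, hk, hlimk⟩ := hcpt.tendsto_subseq
    (x := fun n => (a (g n) (w n), e n)) (fun n => ⟨by
      rw [mem_closedBall_zero_iff]; exact hg n, by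
      rw [mem_sphere_zero_iff_norm]; exact he n⟩)
  obtain ⟨z', e'⟩ := p
  obtain ⟨hz'r, he'⟩ := hp
  simp only [mem_closedBall_zero_iff] at hz'r
  simp only [mem_sphere_zero_iff_norm] at he'
  have hz' : ‖z'‖ < 1 := hz'r.trans_lt hr
  have hk1 : Tendsto (fun n => a (g (k n)) (w (k n))) atTop (𝓝 z') := hlimk.fst_nhds
  have hk2 : Tendsto (fun n => e (k n)) atTop (𝓝 e') := hlimk.snd_nhds
  have hkat : Tendsto k atTop atTop := hk.tendsto_atTop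
  -- the limits
  have key : ∀ ζ, ‖ζ‖ < 1 → Tendsto (fun n => ∫ x, φ x ∂(ν (mob (w (k n)) ζ))) atTop
      (𝓝 (∫ x, φ (τ x) ∂(ν (mob z' (e' * ζ))))) := by
    intro ζ hζ
    have hn1 : ∀ n, ‖e n * ζ‖ < 1 := fun n => by rwa [norm_mul, he n, one_mul]
    have hn2 : ‖e' * ζ‖ < 1 := by rwa [norm_mul, he', one_mul]
    have h1 : ∀ n, ∫ x, φ x ∂(ν (mob (w (k n)) ζ)) =
        ∫ x, φ (σ (g (k n))⁻¹ x) ∂(ν (mob (a (g (k n)) (w (k n))) (e (k n) * ζ))) := by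
      intro n
      rw [hmob (k n) ζ hζ]
      exact (hν.equi (g (k n))⁻¹ _ (norm_mob_lt (hzn _) (hn1 _)) φ hh).symm
    simp_rw [h1]
    refine hν.tendsto_int hn hτ (g := fun n => (g (k n))⁻¹) ?_ ?_ ?_ ?_ hc hh
    · exact hlim.comp hkat
    · exact fun n => norm_mob_lt (hzn _) (hn1 _)
    · exact norm_mob_lt hz' hn2
    · have h2 : ContinuousAt (fun p : ℂ × ℂ => mob p.1 p.2) (z', e' * ζ) := by
        refine continuousOn_mob.continuousAt ?_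
        have h4 : IsOpen {p : ℂ × ℂ | ‖p.1‖ < 1} :=
          isOpen_lt (continuous_norm.comp continuous_fst) continuous_const
        have h5 : IsOpen {p : ℂ × ℂ | ‖p.2‖ < 1} :=
          isOpen_lt (continuous_norm.comp continuous_snd) continuous_const
        exact (h4.inter h5).mem_nhds ⟨hz', hn2⟩
      have h3 : Tendsto (fun n => (a (g (k n)) (w (k n)), e (k n) * ζ)) atTop
          (𝓝 (z', e' * ζ)) := hk1.prodMk_nhds (hk2.mul_const ζ)
      exact h2.tendsto.comp h3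
  have heq : ∀ ζ, ‖ζ‖ < 1 → ∫ x, φ (τ x) ∂(ν (mob z' (e' * ζ))) = ∫ x, φ (τ x) ∂(ν z') := by
    intro ζ hζ
    have h0 := key 0 (by simp)
    simp only [mob_zero, mul_zero] at h0
    have h1 := (key ζ hζ).sub h0
    have h2 := (osc_tendsto hu huB hw hosc hζ).comp hkat
    have h3 := tendsto_nhds_unique h1 h2
    linarith
  have he0 : e' ≠ 0 := by
    intro h0
    rw [h0, norm_zero] at he'
    exact zero_ne_one he'
  have hall : ∀ y, ‖y‖ < 1 → ∫ x, φ (τ x) ∂(ν y) = ∫ x, φ (τ x) ∂(ν z') := by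
    intro y hy
    have h1 : ‖mob (-z') y‖ < 1 := norm_mob_lt (by rwa [norm_neg]) hy
    have h2 : ‖e'⁻¹ * mob (-z') y‖ < 1 := by rwa [norm_mul, norm_inv, he', inv_one, one_mul]
    have h3 := heq _ h2
    rwa [mul_inv_cancel_left₀ he0, mob_mob_neg hz' hy] at h3
  intro y y' hy hy'
  rw [hall y hy, hall y' hy']

end Pool.Agent.MP27775c.AHL
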