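import Mathlib
import Pool.Agent.Lib.MP_27775c_an_AHL.Lin
import Pool.Agent.Lib.MP_27775c_an_AHL.Du

/-!
The test functions `tf` and the quadratic functions `qf`.
-/

set_option autoImplicit false
set_option linter.unusedSectionVars false

open MeasureTheory Metric Filter Topology Set

namespace Pool.Agent.MP27775c.AHL

variable {d : ℕ}

theorem tf_nonneg (κ : ℝ) (v x : Vec d) : 0 ≤ tf κ v x := by
  exact le_max_left _ _

theorem tf_le_one {κ : ℝ} (hκ : 0 < κ) (v x : Vec d) : tf κ v x ≤ 1 := by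
  refine max_le zero_le_one (sub_le_self _ ?_)
  positivity

theorem tf_smul (κ : ℝ) (v x : Vec d) {c : ℂ} (hc : c ≠ 0) : tf κ v (c • x) = tf κ v x := by
  have h1 : 0 < ‖c‖ := norm_pos_iff.2 hc
  unfold tf
  rw [inner_smul_left, norm_mul, RCLike.norm_conj, norm_smul]
  have h2 : κ * (‖c‖ * ‖x‖ * ‖v‖) = ‖c‖ * (κ * (‖x‖ * ‖v‖)) := by ring
  rw [h2, mul_div_mul_left _ _ h1.ne']

theorem tf_smul' (κ : ℝ) (v x : Vec d) {c : ℂ} (hc : c ≠ 0) : tf κ (c • v) x = tf κ v x := by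
  have h1 : 0 < ‖c‖ := norm_pos_iff.2 hc
  unfold tf
  rw [inner_smul_right, norm_mul, norm_smul]
  have h2 : κ * (‖x‖ * (‖c‖ * ‖v‖)) = ‖c‖ * (κ * (‖x‖ * ‖v‖)) := by ring
  rw [h2, mul_div_mul_left _ _ h1.ne']

theorem tf_continuousOn {κ : ℝ} (hκ : 0 < κ) {v : Vec d} (hv : v ≠ 0) :
    ContinuousOn (tf κ v) {x | x ≠ 0} := by
  unfold tf
  have h1 : Continuous fun x : Vec d => ‖inner ℂ x v‖ := by fun_prop
  have h2 : Continuous fun x : Vec d => κ * (‖x‖ * ‖v‖) := by fun_prop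
  have h0 : Continuous fun t : ℝ => max 0 (1 - t) :=
    continuous_const.max (continuous_const.sub continuous_id)
  refine h0.comp_continuousOn (h1.continuousOn.div h2.continuousOn fun x hx => ?_)
  have h3 : 0 < ‖x‖ := norm_pos_iff.2 hx
  have h4 : 0 < ‖v‖ := norm_pos_iff.2 hv
  positivity

/-- `tf` is `1` only on the hyperplane orthogonal to `v`. -/
theorem tf_eq_one_iff {κ : ℝ} (hκ : 0 < κ) {v x : Vec d} (hv : v ≠ 0) (hx : x ≠ 0) :
    tf κ v x = 1 ↔ inner ℂ x v = 0 := by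
  have h3 : 0 < ‖x‖ := norm_pos_iff.2 hx
  have h4 : 0 < ‖v‖ := norm_pos_iff.2 hv
  have h5 : 0 < κ * (‖x‖ * ‖v‖) := by positivity
  have h6 : 0 ≤ ‖inner ℂ x v‖ / (κ * (‖x‖ * ‖v‖)) := by positivity
  unfold tf
  constructor
  · intro h
    have h7 : ‖inner ℂ x v‖ / (κ * (‖x‖ * ‖v‖)) = 0 := by
      rcases max_choice 0 (1 - ‖inner ℂ x v‖ / (κ * (‖x‖ * ‖v‖))) with h8 | h8
      · rw [h8] at h
        exact absurd h zero_ne_one
      · rw [h8] at h
        linarith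
    rcases div_eq_zero_iff.1 h7 with h8 | h8
    · exact norm_eq_zero.1 h8
    · exact absurd h8 h5.ne'
  · intro h
    rw [h, norm_zero, zero_div, sub_zero]
    exact max_eq_right zero_le_one

/-- Lipschitz dependence on unit vectors `v`. -/
theorem abs_tf_sub_le {κ : ℝ} (hκ : 0 < κ) {v v' : Vec d} (hv : ‖v‖ = 1) (hv' : ‖v'‖ = 1)
    (x : Vec d) : |tf κ v x - tf κ v' x| ≤ ‖v - v'‖ / κ := by
  unfold tf
  rw [hv, hv', mul_one]
  rcases eq_or_ne x 0 with rfl | hx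
  · simp only [inner_zero_left, norm_zero, zero_div, sub_zero, sub_self, abs_zero]
    positivity
  have h3 : 0 < ‖x‖ := norm_pos_iff.2 hx
  rw [max_comm, max_comm 0 (1 - ‖inner ℂ x v'‖ / (κ * ‖x‖))]
  refine (abs_max_sub_max_le_abs _ _ _).trans ?_
  have h4 : 1 - ‖inner ℂ x v‖ / (κ * ‖x‖) - (1 - ‖inner ℂ x v'‖ / (κ * ‖x‖)) =
      (‖inner ℂ x v'‖ - ‖inner ℂ x v‖) / (κ * ‖x‖) := by ring
  have h5 : 0 < κ * ‖x‖ := by positivity
  rw [h4, abs_div, abs_of_pos h5, div_le_div_iff₀ h5 hκ]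
  have h6 : |‖inner ℂ x v'‖ - ‖inner ℂ x v‖| ≤ ‖x‖ * ‖v - v'‖ := by
    refine (abs_norm_sub_norm_le _ _).trans ?_
    rw [← inner_sub_right, norm_sub_rev v v']
    exact norm_inner_le_norm _ _
  have h7 := mul_le_mul_of_nonneg_right h6 hκ.le
  linarith

theorem qf_smul (k : Fin d × Fin d × Bool) (x : Vec d) {c : ℂ} (hc : c ≠ 0) :
    qf k (c • x) = qf k x := by
  have h1 : 0 < ‖c‖ := norm_pos_iff.2 hc
  have h2 : (c • x) k.1 * starRingEnd ℂ ((c • x) k.2.1) =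
      ((‖c‖ ^ 2 : ℝ) : ℂ) * (x k.1 * starRingEnd ℂ (x k.2.1)) := by
    have h3 := Complex.mul_conj' c
    rw [PiLp.smul_apply, PiLp.smul_apply, smul_eq_mul, smul_eq_mul, map_mul]
    push_cast
    rw [← h3]
    ring
  have h4 : (‖c‖ ^ 2 : ℝ) ≠ 0 := by positivity
  unfold qf
  rw [h2, norm_smul, mul_pow, Complex.re_ofReal_mul, Complex.im_ofReal_mul,
    mul_div_mul_left _ _ h4, mul_div_mul_left _ _ h4]

theorem qf_continuousOn (k : Fin d × Fin d × Bool) : ContinuousOn (qf k) {x | x ≠ 0} := by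
  have h2 : Continuous fun x : Vec d => ‖x‖ ^ 2 := by fun_prop
  have h3 : Continuous fun x : Vec d => x k.1 * starRingEnd ℂ (x k.2.1) :=
    (EuclideanSpace.proj (𝕜 := ℂ) k.1).continuous.mul
      (Complex.continuous_conj.comp (EuclideanSpace.proj (𝕜 := ℂ) k.2.1).continuous)
  have h4 : ∀ x ∈ {x : Vec d | x ≠ 0}, ‖x‖ ^ 2 ≠ 0 := fun x hx => by
    have := norm_pos_iff.2 hx
    positivity
  by_cases hk : k.2.2 = true
  · have h5 : qf k = fun x : Vec d => (x k.1 * starRingEnd ℂ (x k.2.1)).re / ‖x‖ ^ 2 := by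
      funext x
      unfold qf
      rw [if_pos hk]
    rw [h5]
    exact (Complex.continuous_re.comp h3).continuousOn.div h2.continuousOn h4
  · have h5 : qf k = fun x : Vec d => (x k.1 * starRingEnd ℂ (x k.2.1)).im / ‖x‖ ^ 2 := by
      funext x
      unfold qf
      rw [if_neg hk]
    rw [h5]
    exact (Complex.continuous_im.comp h3).continuousOn.div h2.continuousOn h4

theorem abs_qf_le (k : Fin d × Fin d × Bool) (x : Vec d) : |qf k x| ≤ 1 := by
  have h1 : ‖x k.1 * starRingEnd ℂ (x k.2.1)‖ ≤ ‖x‖ ^ 2 := by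
    rw [norm_mul, RCLike.norm_conj, sq]
    exact mul_le_mul (PiLp.norm_apply_le x k.1) (PiLp.norm_apply_le x k.2.1) (norm_nonneg _)
      (norm_nonneg _)
  have h2 : 0 ≤ ‖x‖ ^ 2 := sq_nonneg _
  unfold qf
  split_ifs
  · rw [abs_div, abs_of_nonneg h2]
    exact div_le_one_of_le₀ ((Complex.abs_re_le_norm _).trans h1) h2
  · rw [abs_div, abs_of_nonneg h2]
    exact div_le_one_of_le₀ ((Complex.abs_im_le_norm _).trans h1) h2

/-- The functions `x ↦ ‖⟪y, x⟫‖ ^ 2 / ‖x‖ ^ 2` are combinations of the quadratic functions. -/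
theorem inner_sq_eq (y : Vec d) : ∃ c : Fin d × Fin d × Bool → ℝ, ∀ x : Vec d,
    ‖inner ℂ y x‖ ^ 2 / ‖x‖ ^ 2 = ∑ k, c k * qf k x := by
  refine ⟨fun k => if k.2.2 then (starRingEnd ℂ (y k.1) * y k.2.1).re
    else -(starRingEnd ℂ (y k.1) * y k.2.1).im, fun x => ?_⟩
  have h1 : ‖inner ℂ y x‖ ^ 2 = ∑ i, ∑ j,
      ((starRingEnd ℂ (y i) * y j).re * (x i * starRingEnd ℂ (x j)).re +
        -(starRingEnd ℂ (y i) * y j).im * (x i * starRingEnd ℂ (x j)).im) := by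
    have h2 : inner ℂ y x = ∑ i, starRingEnd ℂ (y i) * x i := by
      rw [PiLp.inner_apply]
      refine Finset.sum_congr rfl fun i _ => ?_
      rw [RCLike.inner_apply, mul_comm]
    have h3 : ‖inner ℂ y x‖ ^ 2 = (inner ℂ y x * starRingEnd ℂ (inner ℂ y x)).re := by
      rw [Complex.mul_conj', ← Complex.ofReal_pow, Complex.ofReal_re]
    rw [h3, h2, map_sum, Finset.sum_mul_sum, Complex.re_sum]
    refine Finset.sum_congr rfl fun i _ => ?_
    rw [Complex.re_sum]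
    refine Finset.sum_congr rfl fun j _ => ?_
    have h4 : starRingEnd ℂ (y i) * x i * starRingEnd ℂ (starRingEnd ℂ (y j) * x j) =
        (starRingEnd ℂ (y i) * y j) * (x i * starRingEnd ℂ (x j)) := by
      rw [map_mul, Complex.conj_conj]
      ring
    rw [h4, Complex.mul_re]
    ring
  rw [h1, Fintype.sum_prod_type, Finset.sum_div]
  refine Finset.sum_congr rfl fun i _ => ?_
  rw [Fintype.sum_prod_type, Finset.sum_div]
  refine Finset.sum_congr rfl fun j _ => ?_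
  rw [Fintype.sum_bool]
  simp only [qf, if_true, Bool.false_eq_true, if_false]
  ring

end Pool.Agent.MP27775c.AHL
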