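import Mathlib
import Pool.Agent.Lib.MP_27775c_an_AHL.Ja
import Pool.Agent.Lib.MP_27775c_an_AHL.Tf

/-!
Maps `τ` for which the quadratic integrals are constant have rank one.
-/

set_option autoImplicit false
set_option linter.unusedSectionVars false

open MeasureTheory Metric Filter Topology Set

namespace Pool.Agent.MP27775c.AHL

variable {Γ : Type*} [Group Γ] {a : Γ → ℂ → ℂ} {d : ℕ} {σ ρ : Γ →* (Vec d →L[ℂ] Vec d)}
  {ν : ℂ → Measure (Vec d)}

/-- the square of the cosine of the angle, times `‖y‖ ^ 2` -/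
private noncomputable def jcF (y v : Vec d) : ℝ := ‖inner ℂ y v‖ ^ 2 / ‖v‖ ^ 2

private theorem jcF_nonneg (y v : Vec d) : 0 ≤ jcF y v := by
  unfold jcF
  positivity

private theorem jcF_le (y v : Vec d) : jcF y v ≤ ‖y‖ ^ 2 := by
  unfold jcF
  rcases eq_or_ne v 0 with rfl | hv
  · simp
  · have h1 : 0 < ‖v‖ ^ 2 := by positivity
    rw [div_le_iff₀ h1, ← mul_pow]
    exact pow_le_pow_left₀ (norm_nonneg _) (norm_inner_le_norm y v) 2

private theorem jcF_smul (y v : Vec d) {c : ℂ} (hc : c ≠ 0) : jcF y (c • v) = jcF y v := by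
  unfold jcF
  have h1 : ‖c‖ ^ 2 ≠ 0 := by
    have := norm_pos_iff.2 hc
    positivity
  rw [inner_smul_right, norm_mul, norm_smul, mul_pow, mul_pow, mul_div_mul_left _ _ h1]

private theorem jcF_real_smul (y v : Vec d) {c : ℝ} (hc : c ≠ 0) : jcF y (c • v) = jcF y v := by
  have h1 : (c • v : Vec d) = (c : ℂ) • v := (Complex.coe_smul c v).symm
  rw [h1]
  exact jcF_smul y v (Complex.ofReal_ne_zero.2 hc)

private theorem jcF_meas (y : Vec d) : Measurable (jcF y) := by
  unfold jcF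
  have h1 : Continuous (fun v : Vec d => ‖inner ℂ y v‖ ^ 2) := by fun_prop
  have h2 : Continuous (fun v : Vec d => ‖v‖ ^ 2) := by fun_prop
  exact h1.measurable.div h2.measurable

private theorem jcF_cont (y : Vec d) {v : Vec d} (hv : v ≠ 0) : ContinuousAt (jcF y) v := by
  unfold jcF
  have h1 : Continuous (fun v : Vec d => ‖inner ℂ y v‖ ^ 2) := by fun_prop
  have h2 : Continuous (fun v : Vec d => ‖v‖ ^ 2) := by fun_prop
  exact h1.continuousAt.div h2.continuousAt (by positivity)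

private theorem qf_meas (k : Fin d × Fin d × Bool) : Measurable (qf k : Vec d → ℝ) := by
  have hc : ∀ i : Fin d, Continuous (fun x : Vec d => x i) := fun i => by fun_prop
  have h0 : Continuous (fun x : Vec d => x k.1 * starRingEnd ℂ (x k.2.1)) :=
    (hc k.1).mul (Complex.continuous_conj.comp (hc k.2.1))
  have h2 : Continuous (fun x : Vec d => ‖x‖ ^ 2) := by fun_prop
  rcases hk : k.2.2 with _ | _
  · have h1 : (qf k : Vec d → ℝ) =
        fun x => (x k.1 * starRingEnd ℂ (x k.2.1)).im / ‖x‖ ^ 2 := by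
      funext x
      simp [qf, hk]
    rw [h1]
    exact (Complex.continuous_im.comp h0).measurable.div h2.measurable
  · have h1 : (qf k : Vec d → ℝ) =
        fun x => (x k.1 * starRingEnd ℂ (x k.2.1)).re / ‖x‖ ^ 2 := by
      funext x
      simp [qf, hk]
    rw [h1]
    exact (Complex.continuous_re.comp h0).measurable.div h2.measurable

private theorem jc_const (hν : HarmFam a σ ν) {τ : Vec d →L[ℂ] Vec d}
    (hk : ∀ k : Fin d × Fin d × Bool, ∀ y y', ‖y‖ < 1 → ‖y'‖ < 1 →
      ∫ x, qf k (τ x) ∂(ν y) = ∫ x, qf k (τ x) ∂(ν y'))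
    (y : Vec d) {w w' : ℂ} (hw : ‖w‖ < 1) (hw' : ‖w'‖ < 1) :
    ∫ x, jcF y (τ x) ∂(ν w) = ∫ x, jcF y (τ x) ∂(ν w') := by
  obtain ⟨c, hc⟩ := inner_sq_eq y
  have hp := hν.prob
  have h1 : (fun x => jcF y (τ x)) = fun x => ∑ k, c k * qf k (τ x) := by
    funext x
    exact hc (τ x)
  have hi : ∀ (z : ℂ) (k : Fin d × Fin d × Bool), Integrable (fun x => c k * qf k (τ x)) (ν z) := by
    intro z k
    refine Integrable.const_mul ?_ _
    refine Integrable.of_bound ((qf_meas k).comp τ.continuous.measurable).aestronglyMeasurable 1 ?_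
    exact Eventually.of_forall fun x => by
      rw [Real.norm_eq_abs]
      exact abs_qf_le k (τ x)
  rw [h1, integral_finsetSum _ fun k _ => hi w k, integral_finsetSum _ fun k _ => hi w' k]
  refine Finset.sum_congr rfl fun k _ => ?_
  rw [integral_const_mul, integral_const_mul, hk k w w' hw hw']

private theorem jc_exists (hσ : SIC σ) {τ : Vec d →L[ℂ] Vec d} (hτ : τ ≠ 0) {e : Vec d}
    (he : e ≠ 0) : ∃ h : Γ, τ (σ h e) ≠ 0 := by
  by_contra hcon
  push Not at hcon
  obtain ⟨W, hW⟩ : ∃ W : Submodule ℂ (Vec d), ∀ v, v ∈ W ↔ ∀ h, τ (σ h v) = 0 := by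
    refine ⟨{ carrier := {v | ∀ h, τ (σ h v) = 0}, add_mem' := ?_, zero_mem' := ?_,
              smul_mem' := ?_ }, fun v => Iff.rfl⟩
    · intro v w hv hw h
      rw [map_add, map_add, hv h, hw h, add_zero]
    · intro h
      rw [map_zero, map_zero]
    · intro c v hv h
      rw [map_smul, map_smul, hv h, smul_zero]
  have h1 := hσ.irr ⊤ inferInstance W (by
    intro γ _ v hv
    rw [hW] at hv ⊢
    intro h
    have h2 := hv (h * γ)
    rw [map_mul] at h2
    exact h2)
  rcases h1 with h1 | h1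
  · have h2 : e ∈ W := (hW e).2 hcon
    rw [h1] at h2
    exact he ((Submodule.mem_bot ℂ).1 h2)
  · refine hτ ?_
    ext1 v
    have h2 : v ∈ W := h1 ▸ Submodule.mem_top
    have h3 := (hW v).1 h2 1
    rw [map_one] at h3
    exact h3

theorem rank_one (hF : Fuchs a) (hσ : SIC σ) (hν : HarmFam a σ ν) (hn : Null ν)
    {τ : Vec d →L[ℂ] Vec d} (hτ : τ ≠ 0)
    (hk : ∀ k : Fin d × Fin d × Bool, ∀ y y', ‖y‖ < 1 → ‖y'‖ < 1 →
      ∫ x, qf k (τ x) ∂(ν y) = ∫ x, qf k (τ x) ∂(ν y')) :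
    Module.finrank ℂ (LinearMap.range (τ : Vec d →ₗ[ℂ] Vec d)) = 1 := by
  obtain ⟨g, π, hπ1, hlim⟩ := hσ.ctr
  have hp := hν.prob
  have h0 : ‖(0 : ℂ)‖ < 1 := by simp
  obtain ⟨⟨e, heR⟩, hene, hspan⟩ := finrank_eq_one_iff'.1 hπ1
  have he : e ≠ 0 := fun h => hene (Subtype.ext h)
  have hpe : ∀ x, ∃ c : ℂ, π x = c • e := by
    intro x
    obtain ⟨c, hc⟩ := hspan ⟨π x, LinearMap.mem_range_self (π : Vec d →ₗ[ℂ] Vec d) x⟩
    exact ⟨c, (congrArg Subtype.val hc).symm⟩
  obtain ⟨h, hy⟩ := jc_exists hσ hτ he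
  obtain ⟨y, hyd⟩ : ∃ y, y = τ (σ h e) := ⟨_, rfl⟩
  rw [← hyd] at hy
  -- almost every point is not in the kernel of `π`
  have hae : ∀ᵐ x ∂(ν 0), π x ≠ 0 := by
    have h1 : LinearMap.ker (π : Vec d →ₗ[ℂ] Vec d) ≠ ⊤ := by
      intro h2
      obtain ⟨x, hx⟩ := heR
      have h3 : x ∈ LinearMap.ker (π : Vec d →ₗ[ℂ] Vec d) := h2 ▸ Submodule.mem_top
      rw [LinearMap.mem_ker] at h3
      exact he (hx.symm.trans h3)
    have h2 := hn 0 h0 _ h1
    rw [ae_iff]
    refine measure_mono_null (fun x hx => ?_) h2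
    rw [SetLike.mem_coe, LinearMap.mem_ker]
    exact not_not.1 hx
  -- the constant
  have hI : ∀ y₀ : Vec d, ∫ x, jcF y₀ (τ x) ∂(ν 0) = jcF y₀ y := by
    intro y₀
    have hseq : ∀ n, ∫ x, jcF y₀ (τ (σ (h * g n) x)) ∂(ν 0) = ∫ x, jcF y₀ (τ x) ∂(ν 0) := by
      intro n
      rw [hν.equi (h * g n) 0 h0 (fun x => jcF y₀ (τ x)) (by
        intro c x hc
        rw [show τ (c • x) = c • τ x from τ.map_smul_of_tower c x]
        exact jcF_real_smul _ _ hc.ne')]
      exact jc_const hν hk y₀ (hF.lt _ 0 h0) h0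
    have hT : Tendsto (fun n => ∫ x, jcF y₀ (τ (σ (h * g n) x)) ∂(ν 0)) atTop
        (𝓝 (∫ _x, jcF y₀ y ∂(ν 0))) := by
      refine tendsto_integral_of_dominated_convergence (fun _ => ‖y₀‖ ^ 2) ?_
        (integrable_const _) ?_ ?_
      · intro n
        exact ((jcF_meas y₀).comp
          (τ.continuous.comp (σ (h * g n)).continuous).measurable).aestronglyMeasurable
      · intro n
        refine Eventually.of_forall fun x => ?_
        rw [Real.norm_eq_abs, abs_of_nonneg (jcF_nonneg _ _)]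
        exact jcF_le _ _
      · filter_upwards [hae] with x hx
        obtain ⟨c, hc⟩ := hpe x
        have hc0 : c ≠ 0 := by
          rintro rfl
          rw [zero_smul] at hc
          exact hx hc
        have e1 : ∀ n, jcF y₀ (τ (σ (h * g n) x)) =
            jcF y₀ (τ (σ h ((‖σ (g n)‖⁻¹ • σ (g n)) x))) := by
          intro n
          rw [map_mul]
          change jcF y₀ (τ (σ h (σ (g n) x))) = jcF y₀ (τ (σ h (‖σ (g n)‖⁻¹ • σ (g n) x)))
          rcases eq_or_ne (σ (g n)) 0 with h1 | h1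
          · rw [h1]
            simp
          · have h2 : ‖σ (g n)‖⁻¹ ≠ 0 := inv_ne_zero (norm_ne_zero_iff.2 h1)
            rw [show σ h (‖σ (g n)‖⁻¹ • σ (g n) x) = ‖σ (g n)‖⁻¹ • σ h (σ (g n) x) from
              (σ h).map_smul_of_tower _ _,
              show τ (‖σ (g n)‖⁻¹ • σ h (σ (g n) x)) = ‖σ (g n)‖⁻¹ • τ (σ h (σ (g n) x)) from
              τ.map_smul_of_tower _ _, jcF_real_smul _ _ h2]
        simp only [e1]
        have hev : Tendsto (fun n => (‖σ (g n)‖⁻¹ • σ (g n)) x) atTop (𝓝 (π x)) :=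
          ((ContinuousLinearMap.apply ℂ (Vec d) x).continuous.tendsto π).comp hlim
        have h3 : Tendsto (fun n => τ (σ h ((‖σ (g n)‖⁻¹ • σ (g n)) x))) atTop
            (𝓝 (τ (σ h (π x)))) :=
          ((τ.continuous.comp (σ h).continuous).tendsto (π x)).comp hev
        have h4 : τ (σ h (π x)) = c • y := by
          rw [hc, map_smul, map_smul, hyd]
        rw [h4] at h3
        have h5 := (jcF_cont y₀ (smul_ne_zero hc0 hy)).tendsto.comp h3
        rw [jcF_smul _ _ hc0] at h5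
        exact h5
    simp only [hseq] at hT
    have h6 := tendsto_nhds_unique hT tendsto_const_nhds
    rw [integral_const, probReal_univ, one_smul] at h6
    exact h6.symm
  -- equality in the Cauchy-Schwarz inequality
  have hyy : jcF y y = ‖y‖ ^ 2 := by
    unfold jcF
    have h1 : ‖y‖ ≠ 0 := norm_ne_zero_iff.2 hy
    rw [inner_self_eq_norm_sq_to_K]
    norm_cast
    rw [abs_of_nonneg (sq_nonneg _)]
    field_simp
  have hint : Integrable (fun x => jcF y (τ x)) (ν 0) := by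
    refine Integrable.of_bound
      ((jcF_meas y).comp τ.continuous.measurable).aestronglyMeasurable (‖y‖ ^ 2) ?_
    refine Eventually.of_forall fun x => ?_
    rw [Real.norm_eq_abs, abs_of_nonneg (jcF_nonneg _ _)]
    exact jcF_le _ _
  have hz : ∫ x, (‖y‖ ^ 2 - jcF y (τ x)) ∂(ν 0) = 0 := by
    rw [integral_sub (integrable_const _) hint, hI y, hyy, integral_const, probReal_univ, one_smul,
      sub_self]
  have hae2 : ∀ᵐ x ∂(ν 0), ‖y‖ ^ 2 - jcF y (τ x) = 0 := by
    have h1 := (integral_eq_zero_iff_of_nonneg (μ := ν 0)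
      (f := fun x => ‖y‖ ^ 2 - jcF y (τ x)) (fun x => sub_nonneg.2 (jcF_le y (τ x)))
      ((integrable_const _).sub hint)).1 hz
    exact h1
  -- the range of `τ` is a line
  have htop : Submodule.comap (τ : Vec d →ₗ[ℂ] Vec d) (Submodule.span ℂ {y}) = ⊤ := by
    by_contra hne
    have h1 := hn 0 h0 _ hne
    have h2 : ∀ᵐ x ∂(ν 0), x ∈
        ((Submodule.comap (τ : Vec d →ₗ[ℂ] Vec d) (Submodule.span ℂ {y}) :
          Submodule ℂ (Vec d)) : Set (Vec d)) := by
      filter_upwards [hae2] with x hx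
      rw [SetLike.mem_coe, Submodule.mem_comap]
      change τ x ∈ Submodule.span ℂ {y}
      have h3 : 0 < ‖y‖ := norm_pos_iff.2 hy
      have hx0 : τ x ≠ 0 := by
        intro h4
        rw [h4] at hx
        unfold jcF at hx
        rw [norm_zero] at hx
        norm_num at hx
        exact hy hx
      have h5 : ‖inner ℂ y (τ x)‖ = ‖y‖ * ‖τ x‖ := by
        have h6 : jcF y (τ x) = ‖y‖ ^ 2 := by linarith
        unfold jcF at h6
        have h7 : 0 < ‖τ x‖ := norm_pos_iff.2 hx0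
        rw [div_eq_iff (by positivity), ← mul_pow] at h6
        exact (sq_eq_sq₀ (norm_nonneg _) (by positivity)).1 h6
      obtain ⟨r, -, hr⟩ := (norm_inner_eq_norm_iff hy hx0).1 h5
      rw [hr]
      exact Submodule.smul_mem _ _ (Submodule.mem_span_singleton_self y)
    have h3 : ∀ᵐ x ∂(ν 0), x ∉
        ((Submodule.comap (τ : Vec d →ₗ[ℂ] Vec d) (Submodule.span ℂ {y}) :
          Submodule ℂ (Vec d)) : Set (Vec d)) := by
      rw [ae_iff]
      simp only [not_not]
      exact h1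
    have h4 : ∀ᵐ _x ∂(ν 0), False := by
      filter_upwards [h2, h3] with x hx1 hx2
      exact hx2 hx1
    rw [ae_iff] at h4
    simp at h4
  have hle : LinearMap.range (τ : Vec d →ₗ[ℂ] Vec d) ≤ Submodule.span ℂ {y} := by
    rintro _ ⟨x, rfl⟩
    have h1 : x ∈ Submodule.comap (τ : Vec d →ₗ[ℂ] Vec d) (Submodule.span ℂ {y}) :=
      htop ▸ Submodule.mem_top
    exact h1
  have hle2 := Submodule.finrank_mono hle
  rw [finrank_span_singleton hy] at hle2
  have hne0 : Module.finrank ℂ (LinearMap.range (τ : Vec d →ₗ[ℂ] Vec d)) ≠ 0 := by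
    intro h1
    have h2 := Submodule.finrank_eq_zero.1 h1
    refine hτ ?_
    ext1 x
    have h3 : (τ : Vec d →ₗ[ℂ] Vec d) x ∈ LinearMap.range (τ : Vec d →ₗ[ℂ] Vec d) :=
      LinearMap.mem_range_self _ x
    rw [h2] at h3
    exact (Submodule.mem_bot ℂ).1 h3
  omega

end Pool.Agent.MP27775c.AHL
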