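import Mathlib
import Pool.Agent.Lib.MP_27775c_an_AHL.Av
import Pool.Agent.Lib.MP_27775c_an_AHL.Fu
import Pool.Agent.Lib.MP_27775c_an_AHL.Ha

/-!
The maximum principle.
-/

set_option autoImplicit false
set_option linter.unusedSectionVars false

open MeasureTheory Metric Filter Topology Set

namespace Pool.Agent.MP27775c.AHL

variable {Γ : Type*} [Group Γ] {a : Γ → ℂ → ℂ}

theorem eq_of_max {u : ℂ → ℝ} (hu : ContinuousOn u (ball 0 1)) {z₀ : ℂ} (hz : ‖z₀‖ < 1)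
    (hA : ∀ S, 0 ≤ S → u z₀ ≤ Av S u z₀) (hm : ∀ w, ‖w‖ < 1 → u w ≤ u z₀) :
    ∀ w, ‖w‖ < 1 → u w = u z₀ := by
  intro w hw
  have hS : 0 ≤ dh z₀ w := dh_nonneg z₀ w
  have hc : ContinuousOn (fun _ : ℂ => u z₀) (ball 0 1) := continuousOn_const
  have hv : ContinuousOn (fun x => u z₀ - u x) (ball 0 1) := hc.sub hu
  have h1 : Av (dh z₀ w) (fun x => u z₀ - u x) z₀ = u z₀ - Av (dh z₀ w) u z₀ := by
    rw [Av_sub hc hu hz, Av_const]
  have h2 : 0 ≤ Av (dh z₀ w) (fun x => u z₀ - u x) z₀ := by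
    have h3 := Av_mono (continuousOn_const (c := (0:ℝ))) hv hz
      (fun x hx => sub_nonneg.2 (hm x hx)) (dh z₀ w)
    rwa [Av_const] at h3
  have h4 := hA _ hS
  have h5 : Av (dh z₀ w) (fun x => u z₀ - u x) z₀ = 0 := by linarith
  obtain ⟨θ, hθ⟩ := exists_circle hz hw
  have h6 := eq_zero_of_Av hv hz (fun x hx => sub_nonneg.2 (hm x hx)) h5 θ
  rw [hθ] at h6
  linarith

theorem Harm.const_of_inv (hF : Fuchs a) {u : ℂ → ℝ} (hu : Harm u)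
    (hinv : ∀ γ z, ‖z‖ < 1 → u (a γ z) = u z) : ∀ z, ‖z‖ < 1 → u z = u 0 := by
  obtain ⟨r, hr0, hr1, hr⟩ := hF.cpt
  have hsub : closedBall (0:ℂ) r ⊆ ball 0 1 := closedBall_subset_ball hr1
  obtain ⟨z₀, hz₀, hmax⟩ := (isCompact_closedBall (0:ℂ) r).exists_isMaxOn
    ⟨0, mem_closedBall_self hr0.le⟩ (hu.cont.mono hsub)
  have hz1 : ‖z₀‖ < 1 := mem_ball_zero_iff.1 (hsub hz₀)
  have hm : ∀ w, ‖w‖ < 1 → u w ≤ u z₀ := by
    intro w hw
    obtain ⟨γ, hγ⟩ := hr w hw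
    rw [← hinv γ w hw]
    exact hmax (mem_closedBall_zero_iff.2 hγ)
  have h := eq_of_max hu.cont hz1 (fun S hS => (hu.mean S z₀ hS hz1).ge) hm
  intro z hz
  rw [h z hz, h 0 (by simp)]

end Pool.Agent.MP27775c.AHL
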