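import Mathlib
import Pool.Agent.Lib.MP_27775c_an_AHL.Lin
import Pool.Agent.Lib.MP_27775c_an_AHL.Mx

/-!
If some proper subspace has positive measure, some proper subspace has constant positive measure.
-/

set_option autoImplicit false
set_option linter.unusedSectionVars false

open MeasureTheory Metric Filter Topology Set

namespace Pool.Agent.MP27775c.AHL

variable {Γ : Type*} [Group Γ] {a : Γ → ℂ → ℂ} {d : ℕ} {σ ρ : Γ →* (Vec d →L[ℂ] Vec d)}
  {ν : ℂ → Measure (Vec d)}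

private theorem Ne_closed (W : Submodule ℂ (Vec d)) : IsClosed (W : Set (Vec d)) :=
  Submodule.closed_of_finiteDimensional W

private theorem Ne_inj (γ : Γ) : Function.Injective (σ γ) := by
  have h1 : σ γ⁻¹ * σ γ = 1 := by rw [← map_mul, inv_mul_cancel, map_one]
  intro x y hxy
  have h2 : ∀ x, σ γ⁻¹ (σ γ x) = x := fun x => by
    have := congrArg (fun f : Vec d →L[ℂ] Vec d => f x) h1
    exact this
  rw [← h2 x, ← h2 y, hxy]

private theorem Ne_finrank (γ : Γ) (W : Submodule ℂ (Vec d)) :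
    Module.finrank ℂ (W.map (σ γ : Vec d →ₗ[ℂ] Vec d)) = Module.finrank ℂ W :=
  ((Submodule.equivMapOfInjective (σ γ : Vec d →ₗ[ℂ] Vec d) (Ne_inj γ) W).finrank_eq).symm

open Classical in
private theorem Ne_equi (hν : HarmFam a σ ν) (γ : Γ) {z : ℂ} (hz : ‖z‖ < 1)
    (W : Submodule ℂ (Vec d)) :
    (ν (a γ z)).real (W.map (σ γ : Vec d →ₗ[ℂ] Vec d) : Set (Vec d)) =
      (ν z).real (W : Set (Vec d)) := by
  set W' : Submodule ℂ (Vec d) := W.map (σ γ : Vec d →ₗ[ℂ] Vec d) with hW'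
  have hinv : ∀ (c : ℝ) (x : Vec d), 0 < c →
      (W' : Set (Vec d)).indicator (fun _ => (1 : ℝ)) (c • x) =
        (W' : Set (Vec d)).indicator (fun _ => (1 : ℝ)) x := by
    intro c x hc
    have h1 : c • x ∈ (W' : Set (Vec d)) ↔ x ∈ (W' : Set (Vec d)) := by
      have h2 : c • x = (c : ℂ) • x := by
        exact (Complex.coe_smul c x).symm
      rw [h2]
      exact W'.smul_mem_iff (by exact_mod_cast hc.ne')
    by_cases hx : x ∈ (W' : Set (Vec d))
    · rw [indicator_of_mem hx, indicator_of_mem (h1.2 hx)]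
    · rw [indicator_of_notMem hx, indicator_of_notMem fun h => hx (h1.1 h)]
  have h1 := hν.equi γ z hz _ hinv
  have h2 : ∀ x, (W' : Set (Vec d)).indicator (fun _ => (1 : ℝ)) (σ γ x) =
      (W : Set (Vec d)).indicator (fun _ => (1 : ℝ)) x := by
    intro x
    have h3 : σ γ x ∈ (W' : Set (Vec d)) ↔ x ∈ (W : Set (Vec d)) := by
      constructor
      · rintro ⟨y, hy, hyx⟩
        have : y = x := Ne_inj γ hyx
        rw [← this]
        exact hy
      · intro hx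
        exact ⟨x, hx, rfl⟩
    by_cases hx : x ∈ (W : Set (Vec d))
    · rw [indicator_of_mem hx, indicator_of_mem (h3.2 hx)]
    · rw [indicator_of_notMem hx, indicator_of_notMem fun h => hx (h3.1 h)]
  simp only [h2] at h1
  rw [integral_indicator_const _ (Ne_closed W).measurableSet,
    integral_indicator_const _ (Ne_closed W').measurableSet, smul_eq_mul, smul_eq_mul, mul_one,
    mul_one] at h1
  exact h1.symm

private theorem Ne_sum (hν : HarmFam a σ ν) {k : ℕ}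
    (hk : ∀ W₁ W₂ : Submodule ℂ (Vec d), Module.finrank ℂ W₁ = k → Module.finrank ℂ W₂ = k →
      W₁ ≠ W₂ → ∀ z, ‖z‖ < 1 → ν z ((W₁ : Set (Vec d)) ∩ (W₂ : Set (Vec d))) = 0)
    (F : Finset (Submodule ℂ (Vec d))) (hF : ∀ W ∈ F, Module.finrank ℂ W = k) {z : ℂ}
    (hz : ‖z‖ < 1) : ∑ W ∈ F, (ν z).real (W : Set (Vec d)) ≤ 1 := by
  have := hν.prob z
  have h1 : ν z (⋃ W ∈ F, (W : Set (Vec d))) = ∑ W ∈ F, ν z (W : Set (Vec d)) := by
    refine measure_biUnion_finset₀ ?_ fun W _ => (Ne_closed W).measurableSet.nullMeasurableSet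
    intro W₁ h₁ W₂ h₂ hne
    exact hk W₁ W₂ (hF _ h₁) (hF _ h₂) hne z hz
  have h2 : ∑ W ∈ F, (ν z).real (W : Set (Vec d)) = (ν z).real (⋃ W ∈ F, (W : Set (Vec d))) := by
    unfold Measure.real
    rw [h1, ENNReal.toReal_sum fun W _ => measure_ne_top _ _]
  rw [h2]
  exact measureReal_le_one

private theorem Ne_finite (hν : HarmFam a σ ν) {k : ℕ}
    (hk : ∀ W₁ W₂ : Submodule ℂ (Vec d), Module.finrank ℂ W₁ = k → Module.finrank ℂ W₂ = k →
      W₁ ≠ W₂ → ∀ z, ‖z‖ < 1 → ν z ((W₁ : Set (Vec d)) ∩ (W₂ : Set (Vec d))) = 0)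
    {z : ℂ} (hz : ‖z‖ < 1) {t : ℝ} (ht : 0 < t) :
    {W : Submodule ℂ (Vec d) | Module.finrank ℂ W = k ∧
      t < (ν z).real (W : Set (Vec d))}.Finite := by
  by_contra hinf
  obtain ⟨n, hn⟩ := exists_nat_gt (1 / t)
  obtain ⟨F, hF1, hF2⟩ := Set.Infinite.exists_subset_card_eq hinf n
  have h1 := Ne_sum hν hk F (fun W hW => (hF1 hW).1) hz
  have h2 : (F.card : ℝ) * t ≤ ∑ W ∈ F, (ν z).real (W : Set (Vec d)) := by
    have := Finset.card_nsmul_le_sum F (fun W => (ν z).real (W : Set (Vec d))) t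
      fun W hW => (hF1 hW).2.le
    rwa [nsmul_eq_mul] at this
  rw [hF2] at h2
  rw [div_lt_iff₀ ht] at hn
  linarith

theorem exists_extremal (hF : Fuchs a) (hν : HarmFam a σ ν) {z₀ : ℂ} (hz : ‖z₀‖ < 1)
    {W₀ : Submodule ℂ (Vec d)} (hW : W₀ ≠ ⊤) (hpos : ν z₀ (W₀ : Set (Vec d)) ≠ 0) :
    ∃ (k : ℕ) (s : ℝ) (W : Submodule ℂ (Vec d)), k < d ∧ Module.finrank ℂ W = k ∧ 0 < s ∧
      (∀ z, ‖z‖ < 1 → (ν z).real (W : Set (Vec d)) = s) ∧
      ∀ W₁ W₂ : Submodule ℂ (Vec d), Module.finrank ℂ W₁ = k → Module.finrank ℂ W₂ = k → W₁ ≠ W₂ →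
        ∀ z, ‖z‖ < 1 → ν z ((W₁ : Set (Vec d)) ∩ (W₂ : Set (Vec d))) = 0 := by
  classical
  have hprob := hν.prob
  have hex : ∃ k : ℕ, ∃ W : Submodule ℂ (Vec d), Module.finrank ℂ W = k ∧
      ∃ z : ℂ, ‖z‖ < 1 ∧ ν z (W : Set (Vec d)) ≠ 0 := ⟨_, W₀, rfl, z₀, hz, hpos⟩
  set k := Nat.find hex with hkdef
  obtain ⟨Wk, hWk, zk, hzk, hWzk⟩ := Nat.find_spec hex
  have hmin : ∀ W : Submodule ℂ (Vec d), Module.finrank ℂ W < k → ∀ z : ℂ, ‖z‖ < 1 →
      ν z (W : Set (Vec d)) = 0 := by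
    intro W hWlt z hz1
    by_contra hne
    exact Nat.find_min hex hWlt ⟨W, rfl, z, hz1, hne⟩
  have hkd : k < d := by
    have h1 : k ≤ Module.finrank ℂ W₀ := Nat.find_min' hex ⟨W₀, rfl, z₀, hz, hpos⟩
    have h2 := Submodule.finrank_lt hW
    rw [finrank_euclideanSpace, Fintype.card_fin] at h2
    omega
  have hk : ∀ W₁ W₂ : Submodule ℂ (Vec d), Module.finrank ℂ W₁ = k → Module.finrank ℂ W₂ = k →
      W₁ ≠ W₂ → ∀ z, ‖z‖ < 1 → ν z ((W₁ : Set (Vec d)) ∩ (W₂ : Set (Vec d))) = 0 := by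
    intro W₁ W₂ h1 h2 hne z hz1
    have h3 : Module.finrank ℂ (W₁ ⊓ W₂ : Submodule ℂ (Vec d)) < k := by
      by_contra hcon
      have h4 : W₁ ⊓ W₂ = W₁ := Submodule.eq_of_le_of_finrank_le inf_le_left (by
        rw [h1]
        exact not_lt.1 hcon)
      have h5 : W₁ ⊓ W₂ = W₂ := Submodule.eq_of_le_of_finrank_le inf_le_right (by
        rw [h2]
        exact not_lt.1 hcon)
      exact hne (h4.symm.trans h5)
    have h4 := hmin _ h3 z hz1
    rwa [Submodule.coe_inf] at h4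
  -- the supremum
  set S : Set ℝ := {x | ∃ z : ℂ, ‖z‖ < 1 ∧ ∃ W : Submodule ℂ (Vec d), Module.finrank ℂ W = k ∧
    x = (ν z).real (W : Set (Vec d))} with hS
  have hSne : S.Nonempty := ⟨_, zk, hzk, Wk, hWk, rfl⟩
  have hSbd : BddAbove S := by
    refine ⟨1, ?_⟩
    rintro x ⟨z, hz1, W, hW1, rfl⟩
    exact measureReal_le_one
  set s := sSup S with hs
  have hsup : ∀ z : ℂ, ‖z‖ < 1 → ∀ W : Submodule ℂ (Vec d), Module.finrank ℂ W = k →
      (ν z).real (W : Set (Vec d)) ≤ s := fun z hz1 W hW1 =>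
    le_csSup hSbd ⟨z, hz1, W, hW1, rfl⟩
  have hs0 : 0 < s := by
    have h1 : 0 < (ν zk).real (Wk : Set (Vec d)) := by
      unfold Measure.real
      exact ENNReal.toReal_pos hWzk (measure_ne_top _ _)
    exact h1.trans_le (hsup zk hzk Wk hWk)
  obtain ⟨x, -, hx1, hx2⟩ := exists_seq_tendsto_sSup hSne hSbd
  choose zn hzn Wn hWn hxn using hx2
  obtain ⟨r, hr0, hr1, hr⟩ := hF.cpt
  choose γ hγ using fun n => hr (zn n) (hzn n)
  set zn' : ℕ → ℂ := fun n => a (γ n) (zn n) with hzn'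
  set Wn' : ℕ → Submodule ℂ (Vec d) := fun n =>
    (Wn n).map (σ (γ n) : Vec d →ₗ[ℂ] Vec d) with hWn'
  have hWn'k : ∀ n, Module.finrank ℂ (Wn' n) = k := fun n => by
    rw [hWn']
    simp only
    rw [Ne_finrank, hWn]
  have hx3 : ∀ n, x n = (ν (zn' n)).real (Wn' n : Set (Vec d)) := fun n => by
    rw [hxn n]
    exact (Ne_equi hν (γ n) (hzn n) (Wn n)).symm
  obtain ⟨z', hz', φ, hφ, hlim⟩ := (isCompact_closedBall (0 : ℂ) r).tendsto_subseq
    (x := zn') fun n => mem_closedBall_zero_iff.2 (hγ n)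
  have hz'r : ‖z'‖ ≤ r := mem_closedBall_zero_iff.1 hz'
  have hz'1 : ‖z'‖ < 1 := hz'r.trans_lt hr1
  obtain ⟨C, hC, hlip⟩ := Harm.lip
  have hB : ∀ (W : Submodule ℂ (Vec d)) (z w : ℂ), ‖z‖ < 1 → ‖w‖ < 1 →
      |(ν z).real (W : Set (Vec d)) - (ν w).real (W : Set (Vec d))| ≤ C * 1 * dh z w := by
    intro W z w hz1 hw1
    refine hlip (fun z => (ν z).real (W : Set (Vec d))) 1 (hν.harmK _ (Ne_closed W))
      (fun z _ => ?_) z w hz1 hw1
    rw [abs_of_nonneg measureReal_nonneg]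
    exact measureReal_le_one
  have hlim2 : Tendsto (fun n => (ν z').real (Wn' (φ n) : Set (Vec d))) atTop (𝓝 s) := by
    have h1 : Tendsto (fun n => x (φ n)) atTop (𝓝 s) := hx1.comp hφ.tendsto_atTop
    have h2 : Tendsto (fun n => C * 1 * (2 * ‖zn' (φ n) - z'‖ / (1 - r ^ 2))) atTop (𝓝 0) := by
      have h3 : Tendsto (fun n => ‖zn' (φ n) - z'‖) atTop (𝓝 0) := by
        rw [← tendsto_iff_norm_sub_tendsto_zero]
        exact hlim
      have h4 := ((h3.const_mul 2).div_const (1 - r ^ 2)).const_mul (C * 1)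
      simpa using h4
    have h3 : Tendsto (fun n => (ν z').real (Wn' (φ n) : Set (Vec d)) - x (φ n)) atTop
        (𝓝 0) := by
      refine squeeze_zero_norm (fun n => ?_) h2
      rw [Real.norm_eq_abs, hx3, abs_sub_comm]
      have h5 : ‖zn' (φ n)‖ ≤ r := hγ (φ n)
      refine (hB _ _ _ (h5.trans_lt hr1) hz'1).trans ?_
      exact mul_le_mul_of_nonneg_left (dh_le hr1 h5 hz'r) (by rwa [mul_one])
    have h4 := h3.add h1
    simpa using h4
  -- the maximum
  have hfin := Ne_finite hν hk hz'1 (t := s / 2) (by positivity)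
  have hev : ∀ᶠ n in atTop, Wn' (φ n) ∈ {W : Submodule ℂ (Vec d) | Module.finrank ℂ W = k ∧
      s / 2 < (ν z').real (W : Set (Vec d))} := by
    filter_upwards [hlim2.eventually_const_lt (show s / 2 < s by linarith)] with n hn
    exact ⟨hWn'k _, hn⟩
  obtain ⟨n₀, hn₀⟩ := hev.exists
  obtain ⟨Wm, hWm, hmax⟩ := hfin.toFinset.exists_max_image
    (fun W => (ν z').real (W : Set (Vec d))) ⟨_, hfin.mem_toFinset.2 hn₀⟩
  have hWmk : Module.finrank ℂ Wm = k := (hfin.mem_toFinset.1 hWm).1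
  have hge : s ≤ (ν z').real (Wm : Set (Vec d)) := by
    refine le_of_tendsto hlim2 ?_
    filter_upwards [hev] with n hn
    exact hmax _ (hfin.mem_toFinset.2 hn)
  have heq : (ν z').real (Wm : Set (Vec d)) = s := le_antisymm (hsup z' hz'1 Wm hWmk) hge
  have hharm := hν.harmK _ (Ne_closed Wm)
  have hconst := eq_of_max hharm.cont hz'1 (fun t ht => (hharm.mean t z' ht hz'1).ge)
    (fun w hw => by
      change (ν w).real (Wm : Set (Vec d)) ≤ (ν z').real (Wm : Set (Vec d))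
      rw [heq]
      exact hsup w hw Wm hWmk)
  refine ⟨k, s, Wm, hkd, hWmk, hs0, fun z hz1 => ?_, hk⟩
  exact (hconst z hz1).trans heq

end Pool.Agent.MP27775c.AHL
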