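import Mathlib
import Pool.Agent.Lib.MP_27775c_an_AHL.Ne

/-!
A harmonic family of a strongly irreducible representation does not charge proper subspaces.
-/

set_option autoImplicit false
set_option linter.unusedSectionVars false

open MeasureTheory Metric Filter Topology Set

namespace Pool.Agent.MP27775c.AHL

variable {Γ : Type*} [Group Γ] {a : Γ → ℂ → ℂ} {d : ℕ} {σ ρ : Γ →* (Vec d →L[ℂ] Vec d)}
  {ν : ℂ → Measure (Vec d)}

private theorem nf_inv (σ : Γ →* (Vec d →L[ℂ] Vec d)) (γ : Γ) (v : Vec d) :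
    σ γ⁻¹ (σ γ v) = v := by
  have h : σ γ⁻¹ * σ γ = 1 := by rw [← map_mul, inv_mul_cancel, map_one]
  exact congrArg (fun f : Vec d →L[ℂ] Vec d => f v) h

private theorem nf_inv' (σ : Γ →* (Vec d →L[ℂ] Vec d)) (γ : Γ) (v : Vec d) :
    σ γ (σ γ⁻¹ v) = v := by
  have h : σ γ * σ γ⁻¹ = 1 := by rw [← map_mul, mul_inv_cancel, map_one]
  exact congrArg (fun f : Vec d →L[ℂ] Vec d => f v) h

/-- the linear equivalence -/
private noncomputable def nfE (σ : Γ →* (Vec d →L[ℂ] Vec d)) (γ : Γ) : Vec d ≃ₗ[ℂ] Vec d :=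
  { toFun := σ γ
    map_add' := fun x y => map_add (σ γ) x y
    map_smul' := fun c x => map_smul (σ γ) c x
    invFun := σ γ⁻¹
    left_inv := nf_inv σ γ
    right_inv := nf_inv' σ γ }

private theorem nfE_apply (σ : Γ →* (Vec d →L[ℂ] Vec d)) (γ : Γ) (v : Vec d) :
    nfE σ γ v = σ γ v := rfl

/-- the action on the subspaces -/
private noncomputable abbrev nfAct (σ : Γ →* (Vec d →L[ℂ] Vec d)) :
    MulAction Γ (Submodule ℂ (Vec d)) where
  smul γ U := U.map ((nfE σ γ : Vec d ≃ₗ[ℂ] Vec d) : Vec d →ₗ[ℂ] Vec d)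
  one_smul U := by
    show U.map ((nfE σ 1 : Vec d ≃ₗ[ℂ] Vec d) : Vec d →ₗ[ℂ] Vec d) = U
    have h : ((nfE σ 1 : Vec d ≃ₗ[ℂ] Vec d) : Vec d →ₗ[ℂ] Vec d) = LinearMap.id := by
      refine LinearMap.ext fun v => ?_
      show σ 1 v = v
      rw [map_one]
      rfl
    rw [h, Submodule.map_id]
  mul_smul γ δ U := by
    show U.map ((nfE σ (γ * δ) : Vec d ≃ₗ[ℂ] Vec d) : Vec d →ₗ[ℂ] Vec d) =
      (U.map ((nfE σ δ : Vec d ≃ₗ[ℂ] Vec d) : Vec d →ₗ[ℂ] Vec d)).map
        ((nfE σ γ : Vec d ≃ₗ[ℂ] Vec d) : Vec d →ₗ[ℂ] Vec d)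
    rw [← Submodule.map_comp]
    congr 1
    refine LinearMap.ext fun v => ?_
    show σ (γ * δ) v = σ γ (σ δ v)
    rw [map_mul]
    rfl

private theorem nf_mem (σ : Γ →* (Vec d →L[ℂ] Vec d)) (γ : Γ) (U : Submodule ℂ (Vec d))
    (x : Vec d) :
    σ γ x ∈ U.map ((nfE σ γ : Vec d ≃ₗ[ℂ] Vec d) : Vec d →ₗ[ℂ] Vec d) ↔ x ∈ U := by
  constructor
  · rintro ⟨y, hy, h⟩
    have h1 : nfE σ γ y = nfE σ γ x := h
    rw [← (nfE σ γ).injective h1]
    exact hy
  · intro h
    exact ⟨x, h, rfl⟩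

private theorem nf_real (U : Submodule ℂ (Vec d)) (μ : Measure (Vec d)) :
    ∫ x, (U : Set (Vec d)).indicator (fun _ => (1 : ℝ)) x ∂μ = μ.real (U : Set (Vec d)) := by
  have hm : MeasurableSet (U : Set (Vec d)) :=
    (Submodule.closed_of_finiteDimensional U).measurableSet
  exact integral_indicator_one hm

private theorem nf_equi (hν : HarmFam a σ ν) (γ : Γ) {z : ℂ} (hz : ‖z‖ < 1)
    (U : Submodule ℂ (Vec d)) :
    (ν (a γ z)).real ((U.map ((nfE σ γ : Vec d ≃ₗ[ℂ] Vec d) : Vec d →ₗ[ℂ] Vec d) :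
      Submodule ℂ (Vec d)) : Set (Vec d)) = (ν z).real (U : Set (Vec d)) := by
  classical
  rw [← nf_real, ← nf_real, ← hν.equi γ z hz]
  · refine integral_congr_ae (Eventually.of_forall fun x => ?_)
    by_cases hx : x ∈ U
    · have h1 := (nf_mem σ γ U x).2 hx
      rw [indicator_of_mem (show x ∈ (U : Set (Vec d)) from hx)]
      exact indicator_of_mem (s := ((U.map ((nfE σ γ : Vec d ≃ₗ[ℂ] Vec d) :
        Vec d →ₗ[ℂ] Vec d) : Submodule ℂ (Vec d)) : Set (Vec d))) h1 _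
    · have h1 := fun h => hx ((nf_mem σ γ U x).1 h)
      rw [indicator_of_notMem (show x ∉ (U : Set (Vec d)) from hx)]
      exact indicator_of_notMem (s := ((U.map ((nfE σ γ : Vec d ≃ₗ[ℂ] Vec d) :
        Vec d →ₗ[ℂ] Vec d) : Submodule ℂ (Vec d)) : Set (Vec d))) h1 _
  · intro c x hc
    generalize U.map ((nfE σ γ : Vec d ≃ₗ[ℂ] Vec d) : Vec d →ₗ[ℂ] Vec d) = V
    have h1 : c • x ∈ V ↔ x ∈ V := by
      constructor
      · intro h
        have h2 := V.smul_mem ((c⁻¹ : ℝ) : ℂ) h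
        have h3 : ((c⁻¹ : ℝ) : ℂ) • c • x = x := by
          rw [Complex.coe_smul, smul_smul, inv_mul_cancel₀ hc.ne', one_smul]
        rwa [h3] at h2
      · intro h
        have h2 := V.smul_mem ((c : ℝ) : ℂ) h
        rwa [Complex.coe_smul] at h2
    by_cases hx : x ∈ V
    · rw [indicator_of_mem (show x ∈ (V : Set (Vec d)) from hx),
        indicator_of_mem (show c • x ∈ (V : Set (Vec d)) from h1.2 hx)]
    · rw [indicator_of_notMem (show x ∉ (V : Set (Vec d)) from hx),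
        indicator_of_notMem (show c • x ∉ (V : Set (Vec d)) from fun h => hx (h1.1 h))]

theorem HarmFam.null (hF : Fuchs a) (hσ : SIC σ) (hν : HarmFam a σ ν) : Null ν := by
  classical
  intro z₀ hz₀ W₀ hW₀
  by_contra hpos
  obtain ⟨k, s, W, hk, hWk, hs, hWs, hpair⟩ := exists_extremal hF hν hz₀ hW₀ hpos
  have hprob := hν.prob
  obtain ⟨T, hT⟩ : ∃ T : Set (Submodule ℂ (Vec d)), T = {U : Submodule ℂ (Vec d) |
      Module.finrank ℂ U = k ∧ ∀ z, ‖z‖ < 1 → (ν z).real (U : Set (Vec d)) = s} := ⟨_, rfl⟩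
  have h0 : ‖(0 : ℂ)‖ < 1 := by simp
  have hfin : T.Finite := by
    by_contra hinf
    obtain ⟨N, hN⟩ := exists_nat_gt (1 / s)
    obtain ⟨t, htT, htN⟩ := Set.Infinite.exists_subset_card_eq hinf N
    have h1 : (ν 0).real (⋃ U ∈ t, (U : Set (Vec d))) = ∑ U ∈ t, (ν 0).real (U : Set (Vec d)) := by
      refine measureReal_biUnion_finset₀ ?_ ?_
      · intro U hU V hV hne
        have hU' := htT hU
        have hV' := htT hV
        rw [hT] at hU' hV'
        exact hpair U V hU'.1 hV'.1 hne 0 h0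
      · intro U _
        exact (Submodule.closed_of_finiteDimensional U).measurableSet.nullMeasurableSet
    have h2 : ∑ U ∈ t, (ν 0).real (U : Set (Vec d)) = N * s := by
      have h4 : ∀ U ∈ t, (ν 0).real (U : Set (Vec d)) = s := by
        intro U hU
        have hU' := htT hU
        rw [hT] at hU'
        exact hU'.2 0 h0
      rw [Finset.sum_congr rfl h4, Finset.sum_const, htN, nsmul_eq_mul]
    have h3 : (ν 0).real (⋃ U ∈ t, (U : Set (Vec d))) ≤ 1 := measureReal_le_one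
    rw [h1, h2] at h3
    rw [div_lt_iff₀ hs] at hN
    linarith
  have hinv : ∀ γ : Γ, ∀ U ∈ T,
      U.map ((nfE σ γ : Vec d ≃ₗ[ℂ] Vec d) : Vec d →ₗ[ℂ] Vec d) ∈ T := by
    intro γ U hU
    rw [hT] at hU ⊢
    refine ⟨(LinearEquiv.finrank_map_eq (nfE σ γ) U).trans hU.1, fun z hz => ?_⟩
    have hz' := hF.lt γ⁻¹ z hz
    have h1 : a γ (a γ⁻¹ z) = z := by
      rw [← hF.mul γ γ⁻¹ z hz, mul_inv_cancel, hF.one z hz]
    have h2 := nf_equi hν γ hz' U
    rw [h1] at h2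
    rw [h2]
    exact hU.2 _ hz'
  let _ : MulAction Γ (Submodule ℂ (Vec d)) := nfAct σ
  have hWT : W ∈ T := by
    rw [hT]
    exact ⟨hWk, hWs⟩
  have horb : (MulAction.orbit Γ W).Finite := by
    refine hfin.subset ?_
    rintro _ ⟨γ, rfl⟩
    exact hinv γ W hWT
  have hfi : (MulAction.stabilizer Γ W).FiniteIndex := by
    have : Finite (MulAction.orbit Γ W) := horb
    have : Finite (Γ ⧸ MulAction.stabilizer Γ W) :=
      Finite.of_equiv _ (MulAction.orbitEquivQuotientStabilizer Γ W)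
    exact Subgroup.finiteIndex_of_finite_quotient
  rcases hσ.irr _ hfi W (fun γ hγ v hv => by
    have h1 : W.map ((nfE σ γ : Vec d ≃ₗ[ℂ] Vec d) : Vec d →ₗ[ℂ] Vec d) = W := hγ
    rw [← h1]
    exact ⟨v, hv, rfl⟩) with h | h
  · have h1 := hWs 0 h0
    have h2 : (ν 0) (W : Set (Vec d)) = 0 := by
      have h3 := hν.sph 0
      rw [ae_iff] at h3
      refine measure_mono_null ?_ h3
      intro x hx hx1
      rw [h] at hx
      have hx0 : x = 0 := hx
      rw [hx0, norm_zero] at hx1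
      exact zero_ne_one hx1
    rw [Measure.real, h2, ENNReal.toReal_zero] at h1
    exact hs.ne h1
  · rw [h, finrank_top, finrank_euclideanSpace_fin] at hWk
    omega

end Pool.Agent.MP27775c.AHL
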