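import Mathlib
import Pool.Agent.Lib.MP_27775c_an_AHL.Jb
import Pool.Agent.Lib.MP_27775c_an_AHL.Jc
import Pool.Agent.Lib.MP_27775c_an_AHL.Tf
import Pool.Agent.Lib.MP_27775c_an_AHL.Kc
import Pool.Agent.Lib.MP_27775c_an_AHL.Nf
import Pool.Agent.Lib.MP_27775c_an_AHL.Hd

/-!
Points of small oscillation: two generic points of the fibre have close values.
-/

set_option autoImplicit false
set_option linter.unusedSectionVars false

open MeasureTheory Metric Filter Topology Set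

namespace Pool.Agent.MP27775c.AHL

variable {Γ : Type*} [Group Γ] {a : Γ → ℂ → ℂ} {d : ℕ} {σ ρ : Γ →* (Vec d →L[ℂ] Vec d)}
  {ν : ℂ → Measure (Vec d)}

private theorem jd_tf_meas (κ : ℝ) (v : Vec d) : Measurable (tf κ v) := by
  unfold tf
  fun_prop

private theorem jd_tf_int {κ : ℝ} (hκ : 0 < κ) (v : Vec d) (μ : Measure (Vec d))
    [IsProbabilityMeasure μ] : Integrable (tf κ v) μ := by
  refine Integrable.of_bound (jd_tf_meas κ v).aestronglyMeasurable 1 (Eventually.of_forall ?_)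
  intro x
  rw [Real.norm_eq_abs, abs_of_nonneg (tf_nonneg κ v x)]
  exact tf_le_one hκ v x

private theorem jd_real_smul (c : ℝ) (x : Vec d) : c • x = (c : ℂ) • x :=
  (Complex.coe_smul c x).symm

private theorem jd_norm_pos (ρ : Γ →* (Vec d →L[ℂ] Vec d)) (γ : Γ) {v : Vec d} (hv : v ≠ 0) :
    0 < ‖ρ γ‖ := by
  rw [norm_pos_iff]
  intro h
  apply rho_ne ρ γ hv
  rw [h]
  rfl

/-- The limits of the normalised adjoints. -/
private theorem jd_adj {g : ℕ → Γ} {θ : Vec d →L[ℂ] Vec d}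
    (hθ : Tendsto (fun n => ‖ρ (g n)‖⁻¹ • ρ (g n)) atTop (𝓝 θ)) :
    Tendsto (fun n => ‖dual ρ (g n)⁻¹‖⁻¹ • dual ρ (g n)⁻¹) atTop
      (𝓝 (ContinuousLinearMap.adjoint θ)) := by
  have h1 := (ContinuousLinearMap.adjoint (𝕜 := ℂ) (E := Vec d) (F := Vec d)).continuous.tendsto θ
  refine (h1.comp hθ).congr fun n => ?_
  rw [norm_dual_inv, dual_inv, Function.comp_apply]
  have h2 : ∀ (c : ℝ) (T : Vec d →L[ℂ] Vec d), c • T = (c : ℂ) • T :=
    fun c T => (Complex.coe_smul c T).symm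
  rw [h2, h2, map_smulₛₗ, Complex.conj_ofReal]

private theorem jd_lim (hF : Fuchs a) (hν : HarmFam a (dual ρ) ν) (hn : Null ν)
    {f : ℂ → Vec d → ℝ} (hf : InvFun a ρ f) {κ : ℝ} (hκ : 0 < κ) {w : ℕ → ℂ}
    (hw : ∀ n, ‖w n‖ < 1) {g : ℕ → Γ} {z' : ℂ} (hz' : ‖z'‖ < 1)
    (hz : Tendsto (fun n => a (g n) (w n)) atTop (𝓝 z')) {θ : Vec d →L[ℂ] Vec d} (hθ0 : θ ≠ 0)
    (hθ : Tendsto (fun n => ‖ρ (g n)‖⁻¹ • ρ (g n)) atTop (𝓝 θ)) {v : ℕ → Vec d} {u : Vec d}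
    (hv : ∀ n, ‖v n‖ = 1) (hvl : Tendsto v atTop (𝓝 u))
    (hint : ∀ n, ∫ x, tf κ (v n) x ∂(ν (w n)) ≤ 1 / 2) :
    θ u ≠ 0 ∧ Tendsto (fun n => f (w n) (v n)) atTop (𝓝 (f z' (θ u))) := by
  have hu : ‖u‖ = 1 := by
    have h1 := hvl.norm
    simp only [hv] at h1
    exact (tendsto_nhds_unique h1 tendsto_const_nhds)
  have hu0 : u ≠ 0 := by
    rw [← norm_pos_iff, hu]
    exact one_pos
  have hv0 : ∀ n, v n ≠ 0 := by
    intro n
    rw [← norm_pos_iff, hv]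
    exact one_pos
  have hτ0 : ContinuousLinearMap.adjoint θ ≠ 0 := by
    intro h
    apply hθ0
    have h1 := congrArg ContinuousLinearMap.adjoint h
    rwa [ContinuousLinearMap.adjoint_adjoint, map_zero] at h1
  have hprob : ∀ z, IsProbabilityMeasure (ν z) := hν.prob
  have hθu : θ u ≠ 0 := by
    intro h0
    -- the limit of the integrals of `tf κ u`
    have h1 := hν.tendsto_int hn (g := fun n => (g n)⁻¹) hτ0 (jd_adj hθ)
      (z := fun n => a (g n) (w n)) (fun n => hF.lt _ _ (hw n)) hz' hz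
      (φ := tf κ u) (tf_continuousOn hκ hu0) (fun c x hc => by
        rw [jd_real_smul]
        exact tf_smul κ u x (by exact_mod_cast hc.ne'))
    have h2 : ∫ x, tf κ u (ContinuousLinearMap.adjoint θ x) ∂(ν z') = 1 := by
      have h3 : ∀ x, tf κ u (ContinuousLinearMap.adjoint θ x) = 1 := by
        intro x
        unfold tf
        rw [ContinuousLinearMap.adjoint_inner_left, h0, inner_zero_right, norm_zero, zero_div,
          sub_zero]
        exact max_eq_right zero_le_one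
      simp only [h3]
      simp
    rw [h2] at h1
    have h3 : ∀ n, ∫ x, tf κ u (dual ρ (g n)⁻¹ x) ∂(ν (a (g n) (w n))) ≤
        1 / 2 + ‖v n - u‖ / κ := by
      intro n
      rw [hν.equi (g n)⁻¹ (a (g n) (w n)) (hF.lt _ _ (hw n)) (tf κ u) (fun c x hc => by
        rw [jd_real_smul]
        exact tf_smul κ u x (by exact_mod_cast hc.ne')), hF.inv_apply (g n) (hw n)]
      have h4 : ∫ x, tf κ u x ∂(ν (w n)) ≤ ∫ x, (tf κ (v n) x + ‖v n - u‖ / κ) ∂(ν (w n)) := by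
        refine integral_mono (jd_tf_int hκ u _)
          ((jd_tf_int hκ (v n) _).add (integrable_const _)) fun x => ?_
        have h5 := abs_tf_sub_le hκ (hv n) hu x
        have h6 := (abs_le.1 h5).1
        show tf κ u x ≤ tf κ (v n) x + ‖v n - u‖ / κ
        linarith
      rw [integral_add (jd_tf_int hκ (v n) _) (integrable_const _)] at h4
      simp only [integral_const, probReal_univ, one_smul] at h4
      have h7 := hint n
      linarith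
    have h4 : Tendsto (fun n => 1 / 2 + ‖v n - u‖ / κ) atTop (𝓝 (1 / 2 + 0 / κ)) := by
      have h5 : Tendsto (fun n => ‖v n - u‖) atTop (𝓝 0) := by
        have h6 := (hvl.sub_const u).norm
        rwa [sub_self, norm_zero] at h6
      exact (h5.div_const κ).const_add _
    have h5 := le_of_tendsto_of_tendsto' h1 h4 h3
    rw [zero_div] at h5
    norm_num at h5
  refine ⟨hθu, ?_⟩
  have h1 : Tendsto (fun n => (‖ρ (g n)‖⁻¹ • ρ (g n)) (v n)) atTop (𝓝 (θ u)) := by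
    have h0 : Continuous fun p : (Vec d →L[ℂ] Vec d) × Vec d => p.1 p.2 :=
      isBoundedBilinearMap_apply.continuous
    exact (h0.tendsto (θ, u)).comp (hθ.prodMk_nhds hvl)
  have h2 : ∀ n, f (w n) (v n) = f (a (g n) (w n)) ((‖ρ (g n)‖⁻¹ • ρ (g n)) (v n)) := by
    intro n
    have h3 := jd_norm_pos ρ (g n) (hv0 n)
    rw [_root_.smul_apply, jd_real_smul, hf.hom _ _ _ (hF.lt _ _ (hw n))
      (rho_ne ρ (g n) (hv0 n)), hf.inv _ _ _ (hw n) (hv0 n)]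
    exact_mod_cast (inv_pos.2 h3).ne'
  have h3 : Tendsto (fun n => (a (g n) (w n), (‖ρ (g n)‖⁻¹ • ρ (g n)) (v n))) atTop
      (𝓝[{p : ℂ × Vec d | ‖p.1‖ < 1 ∧ p.2 ≠ 0}] (z', θ u)) := by
    refine tendsto_nhdsWithin_iff.2 ⟨hz.prodMk_nhds h1, Eventually.of_forall fun n => ?_⟩
    refine ⟨hF.lt _ _ (hw n), ?_⟩
    have h4 := jd_norm_pos ρ (g n) (hv0 n)
    show (‖ρ (g n)‖⁻¹ • ρ (g n)) (v n) ≠ 0
    rw [_root_.smul_apply]
    exact smul_ne_zero (inv_pos.2 h4).ne' (rho_ne ρ (g n) (hv0 n))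
  have h4 : Tendsto (fun p : ℂ × Vec d => f p.1 p.2)
      (𝓝[{p : ℂ × Vec d | ‖p.1‖ < 1 ∧ p.2 ≠ 0}] (z', θ u)) (𝓝 (f z' (θ u))) :=
    hf.cont (z', θ u) ⟨hz', hθu⟩
  refine (h4.comp h3).congr fun n => ?_
  rw [h2 n]
  rfl

/-- Normalisation of the vectors. -/
private theorem jd_normalise {f : ℂ → Vec d → ℝ} (hf : InvFun a ρ f) {κ : ℝ} {w : ℂ}
    (hw : ‖w‖ < 1) {v : Vec d} (hv : v ≠ 0) : ∃ u : Vec d, ‖u‖ = 1 ∧ f w u = f w v ∧
      ∀ x, tf κ u x = tf κ v x := by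
  have h1 : 0 < ‖v‖ := norm_pos_iff.2 hv
  have h2 : ((‖v‖⁻¹ : ℝ) : ℂ) ≠ 0 := by exact_mod_cast (inv_pos.2 h1).ne'
  refine ⟨((‖v‖⁻¹ : ℝ) : ℂ) • v, ?_, hf.hom _ _ _ hw hv h2, fun x => tf_smul' κ v x h2⟩
  rw [norm_smul, Complex.norm_real, norm_inv, norm_norm, inv_mul_cancel₀ h1.ne']

theorem close_of_osc (hF : Fuchs a) (hρ : SIC ρ) (hν : HarmFam a (dual ρ) ν) {f : ℂ → Vec d → ℝ}
    (hf : InvFun a ρ f) {ε κ : ℝ} (hε : 0 < ε) (hκ : 0 < κ) :
    ∃ S δ : ℝ, 0 ≤ S ∧ 0 < δ ∧ ∀ w v v', ‖w‖ < 1 → v ≠ 0 → v' ≠ 0 → Osc ν S w ≤ δ →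
      ∫ x, tf κ v x ∂(ν w) ≤ 1 / 2 → ∫ x, tf κ v' x ∂(ν w) ≤ 1 / 2 → |f w v - f w v'| ≤ ε := by
  by_contra hcon
  push Not at hcon
  have hn : Null ν := HarmFam.null hF hρ.dual hν
  have hseq : ∀ n : ℕ, ∃ w : ℂ, ∃ v v' : Vec d, ‖w‖ < 1 ∧ ‖v‖ = 1 ∧ ‖v'‖ = 1 ∧
      Osc ν n w ≤ 1 / ((n : ℝ) + 1) ∧ ∫ x, tf κ v x ∂(ν w) ≤ 1 / 2 ∧
      ∫ x, tf κ v' x ∂(ν w) ≤ 1 / 2 ∧ ε < |f w v - f w v'| := by
    intro n
    obtain ⟨w, v, v', hw, hv, hv', h1, h2, h3, h4⟩ :=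
      hcon n (1 / ((n : ℝ) + 1)) (Nat.cast_nonneg n) (by positivity)
    obtain ⟨u, hu, hu1, hu2⟩ := jd_normalise hf (κ := κ) hw hv
    obtain ⟨u', hu', hu1', hu2'⟩ := jd_normalise hf (κ := κ) hw hv'
    refine ⟨w, u, u', hw, hu, hu', h1, ?_, ?_, ?_⟩
    · simp only [hu2]
      exact h2
    · simp only [hu2']
      exact h3
    · rw [hu1, hu1']
      exact h4
  choose w₀ v₀ v₀' hw₀ hv₀ hv₀' hosc₀ hint₀ hint₀' hfar₀ using hseq
  obtain ⟨r, hr0, hr1, hcpt⟩ := hF.cpt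
  choose g₀ hg₀ using fun n => hcpt (w₀ n) (hw₀ n)
  have hne₀ : ∀ n, v₀ n ≠ 0 := by
    intro n
    rw [← norm_pos_iff, hv₀]
    exact one_pos
  have hnorm : ∀ n, ‖‖ρ (g₀ n)‖⁻¹ • ρ (g₀ n)‖ = 1 := by
    intro n
    have h1 := jd_norm_pos ρ (g₀ n) (hne₀ n)
    rw [norm_smul, norm_inv, norm_norm, inv_mul_cancel₀ h1.ne']
  have : ProperSpace (Vec d →L[ℂ] Vec d) := FiniteDimensional.proper ℂ _
  have hK : IsCompact (closedBall (0 : Vec d →L[ℂ] Vec d) 1 ×ˢ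
      (closedBall (0 : Vec d) 1 ×ˢ (closedBall (0 : Vec d) 1 ×ˢ closedBall (0 : ℂ) r))) :=
    (isCompact_closedBall _ _).prod ((isCompact_closedBall _ _).prod
      ((isCompact_closedBall _ _).prod (isCompact_closedBall _ _)))
  obtain ⟨⟨θ, u, u', z'⟩, hmem, φ, hφ, hlim⟩ := hK.tendsto_subseq
    (x := fun n => (‖ρ (g₀ n)‖⁻¹ • ρ (g₀ n), v₀ n, v₀' n, a (g₀ n) (w₀ n))) (fun n => by
      refine ⟨?_, ?_, ?_, ?_⟩
      · rw [mem_closedBall_zero_iff]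
        exact (hnorm n).le
      · rw [mem_closedBall_zero_iff]
        exact (hv₀ n).le
      · rw [mem_closedBall_zero_iff]
        exact (hv₀' n).le
      · rw [mem_closedBall_zero_iff]
        exact hg₀ n)
  have hlθ : Tendsto (fun n => ‖ρ (g₀ (φ n))‖⁻¹ • ρ (g₀ (φ n))) atTop (𝓝 θ) :=
    (continuous_fst.tendsto _).comp hlim
  have hlv : Tendsto (fun n => v₀ (φ n)) atTop (𝓝 u) :=
    ((continuous_fst.comp continuous_snd).tendsto _).comp hlim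
  have hlv' : Tendsto (fun n => v₀' (φ n)) atTop (𝓝 u') :=
    ((continuous_fst.comp (continuous_snd.comp continuous_snd)).tendsto _).comp hlim
  have hlz : Tendsto (fun n => a (g₀ (φ n)) (w₀ (φ n))) atTop (𝓝 z') :=
    ((continuous_snd.comp (continuous_snd.comp continuous_snd)).tendsto _).comp hlim
  have hz' : ‖z'‖ < 1 := by
    have h1 : z' ∈ closedBall (0 : ℂ) r := hmem.2.2.2
    rw [mem_closedBall_zero_iff] at h1
    exact h1.trans_lt hr1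
  have hθ1 : ‖θ‖ = 1 := by
    have h1 := hlθ.norm
    simp only [hnorm] at h1
    exact (tendsto_nhds_unique h1 tendsto_const_nhds)
  have hθ0 : θ ≠ 0 := by
    rw [← norm_pos_iff, hθ1]
    exact one_pos
  have hτ0 : ContinuousLinearMap.adjoint θ ≠ 0 := by
    intro h
    apply hθ0
    have h1 := congrArg ContinuousLinearMap.adjoint h
    rwa [ContinuousLinearMap.adjoint_adjoint, map_zero] at h1
  -- the oscillations tend to zero
  have hosc : ∀ k : Fin d × Fin d × Bool, ∀ S : ℝ, 0 ≤ S →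
      Tendsto (fun n => Dv (fun y => ∫ x, qf k x ∂(ν y)) S (w₀ (φ n))) atTop (𝓝 0) := by
    intro k S hS
    have hH : ∀ k : Fin d × Fin d × Bool, Harm (uq ν k) := fun k =>
      hν.harm (qf k) (qf_continuousOn k)
    have h1 : Tendsto (fun n : ℕ => 1 / (((φ n : ℕ) : ℝ) + 1)) atTop (𝓝 0) :=
      (tendsto_one_div_add_atTop_nhds_zero_nat (𝕜 := ℝ)).comp hφ.tendsto_atTop
    refine tendsto_of_tendsto_of_tendsto_of_le_of_le' tendsto_const_nhds h1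
      (Eventually.of_forall fun n => Dv_nonneg (hH k) hS (hw₀ _)) ?_
    filter_upwards [hφ.tendsto_atTop.eventually (eventually_ge_atTop ⌈S⌉₊)] with n hn'
    have h2 : S ≤ ((φ n : ℕ) : ℝ) := (Nat.le_ceil S).trans (by exact_mod_cast hn')
    have h3 := Dv_mono (hH k) hS h2 (hw₀ (φ n))
    have h4 : Dv (uq ν k) (φ n : ℕ) (w₀ (φ n)) ≤ Osc ν (φ n : ℕ) (w₀ (φ n)) := by
      unfold Osc
      exact Finset.single_le_sum (f := fun k => Dv (uq ν k) (φ n : ℕ) (w₀ (φ n)))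
        (fun k _ => Dv_nonneg (hH k) (Nat.cast_nonneg _) (hw₀ _)) (Finset.mem_univ k)
    exact h3.trans (h4.trans (hosc₀ (φ n)))
  have hrk : Module.finrank ℂ (LinearMap.range (θ : Vec d →ₗ[ℂ] Vec d)) = 1 := by
    rw [← finrank_range_adjoint]
    refine rank_one hF hρ.dual hν hn hτ0 fun k => ?_
    exact const_of_osc hF hν hn (w := fun n => w₀ (φ n)) (fun n => hw₀ _)
      (g := fun n => g₀ (φ n)) hr1 (fun n => hg₀ _) hτ0 (jd_adj hlθ) (φ := qf k)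
      (qf_continuousOn k) (fun c x hc => by
        rw [jd_real_smul]
        exact qf_smul k x (by exact_mod_cast hc.ne')) (hosc k)
  obtain ⟨hu0, hfu⟩ := jd_lim hF hν hn hf hκ (w := fun n => w₀ (φ n)) (fun n => hw₀ _)
    (g := fun n => g₀ (φ n)) hz' hlz hθ0 hlθ (v := fun n => v₀ (φ n)) (fun n => hv₀ _) hlv
    (fun n => hint₀ _)
  obtain ⟨hu0', hfu'⟩ := jd_lim hF hν hn hf hκ (w := fun n => w₀ (φ n)) (fun n => hw₀ _)
    (g := fun n => g₀ (φ n)) hz' hlz hθ0 hlθ (v := fun n => v₀' (φ n)) (fun n => hv₀' _) hlv'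
    (fun n => hint₀' _)
  obtain ⟨c, hc⟩ := (finrank_eq_one_iff_of_nonzero'
    (⟨θ u, ⟨u, rfl⟩⟩ : LinearMap.range (θ : Vec d →ₗ[ℂ] Vec d))
    (fun h => hu0 (congrArg Subtype.val h))).1 hrk ⟨θ u', ⟨u', rfl⟩⟩
  have hc' : c • θ u = θ u' := congrArg Subtype.val hc
  have hc0 : c ≠ 0 := by
    intro h
    rw [h, zero_smul] at hc'
    exact hu0' hc'.symm
  have heq : f z' (θ u') = f z' (θ u) := by
    rw [← hc', hf.hom _ _ _ hz' hu0 hc0]
  rw [heq] at hfu'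
  have h1 := (hfu.sub hfu').abs
  rw [sub_self, abs_zero] at h1
  have h2 := ge_of_tendsto' h1 fun n => (hfar₀ (φ n)).le
  linarith

end Pool.Agent.MP27775c.AHL
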