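import Mathlib
import Pool.Agent.Lib.MP_27775c_an_AHL.Ja
import Pool.Agent.Lib.MP_27775c_an_AHL.Tf

/-!
The measure of thin neighbourhoods of hyperplanes is uniformly small.
-/

set_option autoImplicit false
set_option linter.unusedSectionVars false

open MeasureTheory Metric Filter Topology Set

namespace Pool.Agent.MP27775c.AHL

variable {Γ : Type*} [Group Γ] {a : Γ → ℂ → ℂ} {d : ℕ} {σ ρ : Γ →* (Vec d →L[ℂ] Vec d)}
  {ν : ℂ → Measure (Vec d)}

private theorem je_meas (κ : ℝ) (v : Vec d) : Measurable (tf κ v) := by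
  unfold tf
  fun_prop

private theorem je_int {κ : ℝ} (hκ : 0 < κ) (v : Vec d) (μ : Measure (Vec d))
    [IsProbabilityMeasure μ] : Integrable (tf κ v) μ := by
  refine Integrable.of_bound (je_meas κ v).aestronglyMeasurable 1 ?_
  refine Eventually.of_forall fun x => ?_
  rw [Real.norm_eq_abs, abs_of_nonneg (tf_nonneg κ v x)]
  exact tf_le_one hκ v x

private theorem je_compare {κ κ' : ℝ} (hκ : 0 < κ) (hκ' : 0 < κ') (h4 : κ' ≤ κ / 4) {v w x : Vec d}
    (hx : ‖x‖ = 1) (hv : ‖v‖ = 1) (hw : ‖w‖ = 1) (hvw : ‖w - v‖ ≤ κ / 4) :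
    tf κ' w x ≤ 2 * tf κ v x := by
  by_cases h0 : tf κ' w x = 0
  · rw [h0]
    have := tf_nonneg κ v x
    linarith
  · have h1 : ‖inner ℂ x w‖ < κ' := by
      by_contra hc
      push Not at hc
      apply h0
      unfold tf
      rw [hx, hw, mul_one, mul_one]
      refine max_eq_left ?_
      have : 1 ≤ ‖inner ℂ x w‖ / κ' := by
        rw [le_div_iff₀ hκ', one_mul]
        exact hc
      linarith
    have h2 : ‖inner ℂ x v‖ ≤ κ / 2 := by
      have h3 : inner ℂ x v = inner ℂ x w - inner ℂ x (w - v) := by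
        rw [inner_sub_right]
        ring
      rw [h3]
      refine (norm_sub_le _ _).trans ?_
      have h5 := norm_inner_le_norm (𝕜 := ℂ) x (w - v)
      rw [hx, one_mul] at h5
      linarith
    have h3 : 1 / 2 ≤ tf κ v x := by
      unfold tf
      rw [hx, hv, mul_one, mul_one]
      refine le_trans ?_ (le_max_right _ _)
      have : ‖inner ℂ x v‖ / κ ≤ 1 / 2 := by
        rw [div_le_iff₀ hκ]
        linarith
      linarith
    have := tf_le_one hκ' w x
    linarith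

private theorem je_lim (v : Vec d) {x : Vec d} (hx : inner ℂ x v ≠ 0) :
    Tendsto (fun m : ℕ => tf (1 / ((m : ℝ) + 1)) v x) atTop (𝓝 0) := by
  have hx0 : x ≠ 0 := by
    rintro rfl
    exact hx (inner_zero_left _)
  have hv0 : v ≠ 0 := by
    rintro rfl
    exact hx (inner_zero_right _)
  have hxn : 0 < ‖x‖ := norm_pos_iff.2 hx0
  have hvn : 0 < ‖v‖ := norm_pos_iff.2 hv0
  have hin : 0 < ‖inner ℂ x v‖ := norm_pos_iff.2 hx
  obtain ⟨N, hN⟩ := exists_nat_gt (‖x‖ * ‖v‖ / ‖inner ℂ x v‖)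
  refine tendsto_const_nhds.congr' ?_
  filter_upwards [eventually_ge_atTop N] with m hm
  symm
  unfold tf
  refine max_eq_left ?_
  have hm' : (N : ℝ) ≤ m := by exact_mod_cast hm
  have h1 : ‖x‖ * ‖v‖ / ‖inner ℂ x v‖ < (m : ℝ) + 1 := by linarith
  rw [div_lt_iff₀ hin] at h1
  have h2 : 1 ≤ ‖inner ℂ x v‖ / (1 / ((m : ℝ) + 1) * (‖x‖ * ‖v‖)) := by
    have hm1 : (0 : ℝ) < (m : ℝ) + 1 := by positivity
    rw [le_div_iff₀ (by positivity), one_mul, div_mul_eq_mul_div, one_mul, div_le_iff₀ hm1]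
    linarith
  linarith

theorem small_tf (hν : HarmFam a σ ν) (hn : Null ν) {r : ℝ} (hr : r < 1) {ε : ℝ} (hε : 0 < ε) :
    ∃ κ : ℝ, 0 < κ ∧ ∀ z v, ‖z‖ ≤ r → v ≠ 0 → ∫ x, tf κ v x ∂(ν z) ≤ ε := by
  classical
  by_contra hcon
  push Not at hcon
  have hpos : ∀ n : ℕ, (0 : ℝ) < 1 / ((n : ℝ) + 1) := fun n => by positivity
  choose z v hz hv hint using fun n : ℕ => hcon _ (hpos n)
  set w : ℕ → Vec d := fun n => (((‖v n‖)⁻¹ : ℝ) : ℂ) • v n with hwdef
  have hwn : ∀ n, ‖w n‖ = 1 := by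
    intro n
    have : ‖v n‖ ≠ 0 := norm_ne_zero_iff.2 (hv n)
    simp only [hwdef]
    rw [norm_smul, Complex.norm_real, Real.norm_eq_abs, abs_of_nonneg (by positivity),
      inv_mul_cancel₀ this]
  have hwint : ∀ n, ε < ∫ x, tf (1 / ((n : ℝ) + 1)) (w n) x ∂(ν (z n)) := by
    intro n
    have hc : (((‖v n‖)⁻¹ : ℝ) : ℂ) ≠ 0 := by
      have : ‖v n‖ ≠ 0 := norm_ne_zero_iff.2 (hv n)
      exact_mod_cast inv_ne_zero this
    have h1 : ∀ x, tf (1 / ((n : ℝ) + 1)) (w n) x = tf (1 / ((n : ℝ) + 1)) (v n) x := fun x =>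
      tf_smul' _ _ _ hc
    simp only [h1]
    exact hint n
  have hK : IsCompact (closedBall (0 : ℂ) r ×ˢ sphere (0 : Vec d) 1) :=
    (isCompact_closedBall _ _).prod (isCompact_sphere _ _)
  obtain ⟨⟨z', v'⟩, hzv, φ, hφ, hlim⟩ := hK.tendsto_subseq (x := fun n => (z n, w n))
    (fun n => ⟨mem_closedBall_zero_iff.2 (hz n), mem_sphere_zero_iff_norm.2 (hwn n)⟩)
  have hz' : ‖z'‖ < 1 := lt_of_le_of_lt (mem_closedBall_zero_iff.1 hzv.1) hr
  have hv' : ‖v'‖ = 1 := mem_sphere_zero_iff_norm.1 hzv.2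
  have hlz : Tendsto (fun n => z (φ n)) atTop (𝓝 z') := (continuous_fst.tendsto _).comp hlim
  have hlw : Tendsto (fun n => w (φ n)) atTop (𝓝 v') := (continuous_snd.tendsto _).comp hlim
  have hv0 : v' ≠ 0 := by
    rintro rfl
    simp at hv'
  -- the lower bound
  have key : ∀ κ : ℝ, 0 < κ → ε ≤ 2 * ∫ x, tf κ v' x ∂(ν z') := by
    intro κ hκ
    have hcont := (hν.harm _ (tf_continuousOn hκ hv0)).cont
    have h1 : Tendsto (fun n => 2 * ∫ x, tf κ v' x ∂(ν (z (φ n)))) atTop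
        (𝓝 (2 * ∫ x, tf κ v' x ∂(ν z'))) := by
      refine Tendsto.const_mul _ ?_
      have h2 : ContinuousAt (fun z => ∫ x, tf κ v' x ∂(ν z)) z' :=
        hcont.continuousAt (isOpen_ball.mem_nhds (mem_ball_zero_iff.2 hz'))
      exact h2.tendsto.comp hlz
    refine ge_of_tendsto h1 ?_
    have e1 : ∀ᶠ n in atTop, (1 / (((φ n : ℕ) : ℝ) + 1)) ≤ κ / 4 := by
      have h2 : Tendsto (fun n : ℕ => 1 / ((n : ℝ) + 1)) atTop (𝓝 0) :=
        tendsto_one_div_add_atTop_nhds_zero_nat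
      have h3 := (h2.comp hφ.tendsto_atTop).eventually (gt_mem_nhds (by positivity : 0 < κ / 4))
      filter_upwards [h3] with n hn
      exact hn.le
    have e2 : ∀ᶠ n in atTop, ‖w (φ n) - v'‖ ≤ κ / 4 := by
      have h3 := (tendsto_iff_norm_sub_tendsto_zero.1 hlw).eventually
        (gt_mem_nhds (by positivity : 0 < κ / 4))
      filter_upwards [h3] with n hn
      exact hn.le
    filter_upwards [e1, e2] with n hn1 hn2
    have := hν.prob (z (φ n))
    refine (hwint (φ n)).le.trans ?_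
    rw [← integral_const_mul]
    refine integral_mono_ae (je_int (hpos _) _ _) ((je_int hκ _ _).const_mul 2) ?_
    filter_upwards [hν.sph (z (φ n))] with x hx
    exact je_compare hκ (hpos _) hn1 hx hv' (hwn _) hn2
  -- the upper bound
  have hnull : ∀ᵐ x ∂(ν z'), inner ℂ x v' ≠ 0 := by
    have hW : (Submodule.span ℂ {v'})ᗮ ≠ ⊤ := by
      intro h
      have h1 : v' ∈ (Submodule.span ℂ {v'})ᗮ := by
        rw [h]
        exact Submodule.mem_top
      rw [Submodule.mem_orthogonal_singleton_iff_inner_left] at h1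
      exact hv0 (inner_self_eq_zero.1 h1)
    have h1 := hn z' hz' _ hW
    rw [ae_iff]
    refine measure_mono_null ?_ h1
    intro x hx
    simp only [mem_setOf_eq, not_not] at hx
    exact (Submodule.mem_orthogonal_singleton_iff_inner_left).2 hx
  have hlim0 : Tendsto (fun m : ℕ => ∫ x, tf (1 / ((m : ℝ) + 1)) v' x ∂(ν z')) atTop
      (𝓝 (∫ _, (0 : ℝ) ∂(ν z'))) := by
    have := hν.prob z'
    refine tendsto_integral_of_dominated_convergence (fun _ => 1)
      (fun m => (je_meas _ _).aestronglyMeasurable) (integrable_const _) ?_ ?_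
    · intro m
      refine Eventually.of_forall fun x => ?_
      rw [Real.norm_eq_abs, abs_of_nonneg (tf_nonneg _ _ _)]
      exact tf_le_one (hpos m) _ _
    · filter_upwards [hnull] with x hx
      exact je_lim v' hx
  rw [integral_zero] at hlim0
  have hfin : ε ≤ 2 * 0 := ge_of_tendsto' (hlim0.const_mul 2) fun m => key _ (hpos m)
  linarith

end Pool.Agent.MP27775c.AHL
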