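import Mathlib
import Pool.Agent.Lib.MP_27775c_an_AHL.Fu
import Pool.Agent.Lib.MP_27775c_an_AHL.Av

/-!
Existence of a partition of unity.
-/

set_option autoImplicit false
set_option linter.unusedSectionVars false

open MeasureTheory Metric Filter Topology Set

namespace Pool.Agent.MP27775c.AHL

variable {Γ : Type*} [Group Γ] {a : Γ → ℂ → ℂ}

/-- The bump function. -/
private noncomputable def puEta (R : ℝ) (z : ℂ) : ℝ := max 0 (R - ‖z‖)

private theorem puEta_cont (R : ℝ) : Continuous (puEta R) := by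
  unfold puEta
  fun_prop

private theorem puEta_nonneg (R : ℝ) (z : ℂ) : 0 ≤ puEta R z := le_max_left _ _

private theorem puEta_zero {R : ℝ} {z : ℂ} (h : R ≤ ‖z‖) : puEta R z = 0 :=
  max_eq_left (by linarith)

private theorem puEta_pos {R : ℝ} {z : ℂ} (h : ‖z‖ < R) : 0 < puEta R z :=
  lt_max_of_lt_right (by linarith)

/-- The sum of the bump functions over the orbit. -/
private noncomputable def puSum (a : Γ → ℂ → ℂ) (R : ℝ) (z : ℂ) : ℝ :=
  ∑ᶠ γ : Γ, puEta R (a γ z)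

private theorem puSum_eq {R ρ : ℝ} {s : Finset Γ}
    (hs : ∀ γ z, ‖z‖ ≤ max ρ R → ‖a γ z‖ ≤ max ρ R → γ ∈ s) {z : ℂ} (hz : ‖z‖ ≤ ρ) :
    puSum a R z = ∑ γ ∈ s, puEta R (a γ z) := by
  unfold puSum
  refine finsum_eq_sum_of_support_subset _ ?_
  intro γ hγ
  rw [Function.mem_support] at hγ
  by_contra hn
  refine hγ (puEta_zero ?_)
  by_contra hlt
  exact hn (hs γ z (hz.trans (le_max_left _ _)) ((le_of_lt (not_le.1 hlt)).trans (le_max_right _ _)))

private theorem puSum_inv (hF : Fuchs a) (R : ℝ) (δ : Γ) {z : ℂ} (hz : ‖z‖ < 1) :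
    puSum a R (a δ z) = puSum a R z := by
  unfold puSum
  have h1 : ∀ γ : Γ, puEta R (a γ (a δ z)) = puEta R (a ((Equiv.mulRight δ) γ) z) := by
    intro γ
    rw [Equiv.coe_mulRight, hF.mul γ δ z hz]
  rw [finsum_congr h1]
  exact finsum_comp_equiv (f := fun γ => puEta R (a γ z)) (Equiv.mulRight δ)

private theorem puSum_pos (hF : Fuchs a) {r R : ℝ} (hrR : r < R) (hR : R < 1)
    (hc : ∀ z, ‖z‖ < 1 → ∃ γ, ‖a γ z‖ ≤ r) {z : ℂ} (hz : ‖z‖ < 1) : 0 < puSum a R z := by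
  obtain ⟨s, hs⟩ := hF.finite (r := max ‖z‖ R) (max_lt hz hR)
  rw [puSum_eq hs le_rfl]
  obtain ⟨γ, hγ⟩ := hc z hz
  have h1 : 0 < puEta R (a γ z) := puEta_pos (hγ.trans_lt hrR)
  refine Finset.sum_pos' (fun γ _ => puEta_nonneg R _) ⟨γ, ?_, h1⟩
  exact hs γ z (le_max_left _ _) ((hγ.trans hrR.le).trans (le_max_right _ _))

theorem exists_cut (hF : Fuchs a) : ∃ χ : ℂ → ℝ, Cut a χ := by
  obtain ⟨r, hr0, hr1, hc⟩ := hF.cpt
  obtain ⟨R, hrR, hR1⟩ := exists_between hr1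
  classical
  obtain ⟨χ, hχ⟩ : ∃ χ : ℂ → ℝ, ∀ z, χ z = if ‖z‖ < 1 then puEta R z / puSum a R z else 0 :=
    ⟨_, fun _ => rfl⟩
  have hχ1 : ∀ z, ‖z‖ < 1 → χ z = puEta R z / puSum a R z := fun z hz => by
    rw [hχ, if_pos hz]
  have hχ0 : ∀ z, R ≤ ‖z‖ → χ z = 0 := by
    intro z hz
    rw [hχ, puEta_zero hz, zero_div, ite_self]
  have hpos : ∀ z, ‖z‖ < 1 → 0 < puSum a R z := fun z hz => puSum_pos hF hrR hR1 hc hz
  refine ⟨χ, ?_, ?_, ⟨R, hR1, fun z hz => hχ0 z hz.le⟩, ?_⟩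
  · rw [continuous_iff_continuousAt]
    intro z
    rcases lt_or_ge R ‖z‖ with hz | hz
    · have h1 : ∀ᶠ w in 𝓝 z, (0 : ℝ) = χ w := by
        have h2 : ∀ᶠ w : ℂ in 𝓝 z, R < ‖w‖ := continuous_norm.continuousAt.eventually_const_lt hz
        filter_upwards [h2] with w hw
        exact (hχ0 w hw.le).symm
      exact (continuousAt_const (y := (0 : ℝ))).congr h1
    · have hz1 : ‖z‖ < 1 := hz.trans_lt hR1
      obtain ⟨ρ, hzρ, hρ⟩ := exists_between hz1
      obtain ⟨s, hs⟩ := hF.finite (r := max ρ R) (max_lt hρ hR1)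
      have h2 : ∀ᶠ w : ℂ in 𝓝 z, ‖w‖ < ρ := continuous_norm.continuousAt.eventually_lt_const hzρ
      have h3 : ∀ᶠ w in 𝓝 z, puEta R w / ∑ γ ∈ s, puEta R (a γ w) = χ w := by
        filter_upwards [h2] with w hw
        rw [hχ1 w (hw.trans hρ), puSum_eq hs hw.le]
      have h4 : ∀ γ : Γ, ContinuousAt (fun w => puEta R (a γ w)) z := by
        intro γ
        have h5 : ContinuousAt (a γ) z :=
          (hF.continuousOn γ).continuousAt (isOpen_ball.mem_nhds (mem_ball_zero_iff.2 hz1))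
        exact (puEta_cont R).continuousAt.comp h5
      have h6 : ContinuousAt (fun w => ∑ γ ∈ s, puEta R (a γ w)) z :=
        tendsto_finsetSum s fun γ _ => h4 γ
      refine ContinuousAt.congr ((puEta_cont R).continuousAt.div h6 ?_) h3
      rw [← puSum_eq hs hzρ.le]
      exact (hpos z hz1).ne'
  · intro z
    rw [hχ]
    split_ifs with h
    · exact div_nonneg (puEta_nonneg R z) (hpos z h).le
    · exact le_rfl
  · intro ρ hρ
    obtain ⟨s, hs⟩ := hF.finite (r := max ρ R) (max_lt hρ hR1)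
    refine ⟨s, fun z hz => ⟨fun γ hγ => ?_, ?_⟩⟩
    · refine hχ0 _ ?_
      by_contra hlt
      exact hγ (hs γ z (hz.trans (le_max_left _ _))
        ((le_of_lt (not_le.1 hlt)).trans (le_max_right _ _)))
    · have hz1 : ‖z‖ < 1 := hz.trans_lt hρ
      have h1 : ∀ γ ∈ s, χ (a γ z) = puEta R (a γ z) / puSum a R z := by
        intro γ _
        rw [hχ1 _ (hF.lt γ z hz1), puSum_inv hF R γ hz1]
      rw [Finset.sum_congr rfl h1, ← Finset.sum_div, ← puSum_eq hs hz]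
      exact div_self (hpos z hz1).ne'

end Pool.Agent.MP27775c.AHL
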