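import Mathlib
import Pool.Agent.Lib.MP_27775c_an_AHL.Eq
import Pool.Agent.Lib.MP_27775c_an_AHL.Pu

/-!
The equivariant function `z ↦ ∑ χ (γ⁻¹ z) φ (γ x₀)`.
-/

set_option autoImplicit false
set_option linter.unusedSectionVars false

open MeasureTheory Metric Filter Topology Set

namespace Pool.Agent.MP27775c.AHL

variable {Γ : Type*} [Group Γ] {a : Γ → ℂ → ℂ} {χ : ℂ → ℝ}

variable {X : Type*} {b : Γ → X → X} {x₀ : X} {φ ψ : X → ℝ} {B : ℝ} {z : ℂ}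

/-- The function `z ↦ ∑ χ (γ⁻¹ z) φ (γ x₀)`. -/
noncomputable def lft (a : Γ → ℂ → ℂ) (χ : ℂ → ℝ) (b : Γ → X → X) (x₀ : X) (φ : X → ℝ) (z : ℂ) : ℝ :=
  ∑ᶠ γ : Γ, χ (a γ⁻¹ z) * φ (b γ x₀)

theorem lft_eq_sum (hF : Fuchs a) (hχ : Cut a χ) (b : Γ → X → X) (x₀ : X) {r : ℝ} (hr : r < 1) :
    ∃ s : Finset Γ, ∀ z, ‖z‖ ≤ r → (∀ φ, lft a χ b x₀ φ z = ∑ γ ∈ s, χ (a γ⁻¹ z) * φ (b γ x₀)) ∧
      ∑ γ ∈ s, χ (a γ⁻¹ z) = 1 := by
  obtain ⟨s, hs⟩ := hχ.sum r hr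
  refine ⟨s.map (Equiv.inv Γ).toEmbedding, fun z hz => ⟨fun φ => ?_, ?_⟩⟩
  · unfold lft
    apply finsum_eq_sum_of_support_subset
    intro γ hγ
    rw [Function.mem_support] at hγ
    have h1 : χ (a γ⁻¹ z) ≠ 0 := left_ne_zero_of_mul hγ
    have h2 : γ⁻¹ ∈ s := by
      by_contra h3
      exact h1 ((hs z hz).1 _ h3)
    rw [Finset.mem_coe, Finset.mem_map]
    exact ⟨γ⁻¹, h2, by simp⟩
  · rw [Finset.sum_map]
    simp only [Equiv.coe_toEmbedding, Equiv.inv_apply, inv_inv]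
    exact (hs z hz).2

theorem lft_const (hF : Fuchs a) (hχ : Cut a χ) (c : ℝ) (hz : ‖z‖ < 1) :
    lft a χ b x₀ (fun _ => c) z = c := by
  obtain ⟨s, hs⟩ := lft_eq_sum hF hχ b x₀ hz
  rw [(hs z le_rfl).1, ← Finset.sum_mul, (hs z le_rfl).2, one_mul]

theorem lft_add (hF : Fuchs a) (hχ : Cut a χ) (hz : ‖z‖ < 1) :
    lft a χ b x₀ (fun x => φ x + ψ x) z = lft a χ b x₀ φ z + lft a χ b x₀ ψ z := by
  obtain ⟨s, hs⟩ := lft_eq_sum hF hχ b x₀ hz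
  rw [(hs z le_rfl).1, (hs z le_rfl).1, (hs z le_rfl).1, ← Finset.sum_add_distrib]
  exact Finset.sum_congr rfl fun γ _ => mul_add _ _ _

theorem lft_const_mul (hF : Fuchs a) (hχ : Cut a χ) (c : ℝ) (hz : ‖z‖ < 1) :
    lft a χ b x₀ (fun x => c * φ x) z = c * lft a χ b x₀ φ z := by
  obtain ⟨s, hs⟩ := lft_eq_sum hF hχ b x₀ hz
  rw [(hs z le_rfl).1, (hs z le_rfl).1, Finset.mul_sum]
  exact Finset.sum_congr rfl fun γ _ => mul_left_comm _ _ _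

theorem lft_nonneg (hF : Fuchs a) (hχ : Cut a χ) (h : ∀ x, 0 ≤ φ x) (hz : ‖z‖ < 1) :
    0 ≤ lft a χ b x₀ φ z := by
  obtain ⟨s, hs⟩ := lft_eq_sum hF hχ b x₀ hz
  rw [(hs z le_rfl).1]
  exact Finset.sum_nonneg fun γ _ => mul_nonneg (hχ.nonneg _) (h _)

theorem abs_lft_le (hF : Fuchs a) (hχ : Cut a χ) (h : ∀ x, |φ x| ≤ B) (hz : ‖z‖ < 1) :
    |lft a χ b x₀ φ z| ≤ B := by
  obtain ⟨s, hs⟩ := lft_eq_sum hF hχ b x₀ hz
  rw [(hs z le_rfl).1]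
  calc |∑ γ ∈ s, χ (a γ⁻¹ z) * φ (b γ x₀)| ≤ ∑ γ ∈ s, |χ (a γ⁻¹ z) * φ (b γ x₀)| :=
        Finset.abs_sum_le_sum_abs _ _
    _ ≤ ∑ γ ∈ s, χ (a γ⁻¹ z) * B := by
        refine Finset.sum_le_sum fun γ _ => ?_
        rw [abs_mul, abs_of_nonneg (hχ.nonneg _)]
        exact mul_le_mul_of_nonneg_left (h _) (hχ.nonneg _)
    _ = B := by rw [← Finset.sum_mul, (hs z le_rfl).2, one_mul]

theorem lft_equi (hF : Fuchs a) (hχ : Cut a χ) (hb : ∀ γ δ x, b (γ * δ) x = b γ (b δ x)) (δ : Γ)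
    (hz : ‖z‖ < 1) : lft a χ b x₀ φ (a δ z) = lft a χ b x₀ (fun x => φ (b δ x)) z := by
  unfold lft
  rw [← finsum_comp_equiv (Equiv.mulLeft δ)]
  refine finsum_congr fun γ => ?_
  simp only [Equiv.coe_mulLeft]
  rw [mul_inv_rev, hF.mul _ _ _ (hF.lt δ z hz), hF.inv_apply δ hz, hb]

theorem lft_uec (hF : Fuchs a) (hχ : Cut a χ) (hb : ∀ γ δ x, b (γ * δ) x = b γ (b δ x))
    (h : ∀ x, |φ x| ≤ B) : UEC (fun _ : Unit => lft a χ b x₀ φ) := by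
  have hB : 0 ≤ B := (abs_nonneg _).trans (h x₀)
  obtain ⟨r, _, hr1, hcpt⟩ := hF.cpt
  obtain ⟨r', hr'1, hr'⟩ := exists_radius hr1 1
  obtain ⟨s, hs⟩ := lft_eq_sum hF hχ b x₀ hr'1
  intro ε hε
  have hsub : closedBall (0 : ℂ) r' ⊆ ball 0 1 := closedBall_subset_ball hr'1
  have hUC : UniformContinuousOn (fun (z : ℂ) (γ : s) => χ (a (γ : Γ)⁻¹ z))
      (closedBall (0 : ℂ) r') := by
    refine (isCompact_closedBall 0 r').uniformContinuousOn_of_continuous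
      (continuousOn_pi.2 fun γ => ?_)
    exact (hχ.cont.comp_continuousOn (hF.continuousOn (γ : Γ)⁻¹)).mono hsub
  rw [Metric.uniformContinuousOn_iff] at hUC
  have hcard : (0 : ℝ) ≤ s.card := Nat.cast_nonneg _
  obtain ⟨δ₀, hδ₀, hδ⟩ := hUC (ε / ((B + 1) * (s.card + 1))) (by positivity)
  refine ⟨min 1 (δ₀ / 2), lt_min one_pos (by positivity), fun _ z w hz hw hzw => ?_⟩
  obtain ⟨g, hg⟩ := hcpt z hz
  have hz' : ‖a g z‖ < 1 := hF.lt g z hz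
  have hw' : ‖a g w‖ < 1 := hF.lt g w hw
  have hdd : dh (a g z) (a g w) = dh z w := hF.dh_eq g hz hw
  have hwr : ‖a g w‖ ≤ r' := hr' _ _ hg hw' (by rw [hdd]; exact hzw.trans (min_le_left _ _))
  have hzr : ‖a g z‖ ≤ r' := hr' _ _ hg hz' (by simp [dh])
  have hdist : dist (a g z) (a g w) < δ₀ := by
    rw [dist_eq_norm]
    have h1 := norm_sub_le_dh hz' hw'
    rw [hdd] at h1
    have h2 := hzw.trans (min_le_right _ _)
    linarith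
  have hG := hδ (a g z) (by rwa [mem_closedBall_zero_iff]) (a g w)
    (by rwa [mem_closedBall_zero_iff]) hdist
  have ez : lft a χ b x₀ φ z = lft a χ b x₀ (fun x => φ (b g⁻¹ x)) (a g z) := by
    rw [← lft_equi hF hχ hb g⁻¹ hz', hF.inv_apply g hz]
  have ew : lft a χ b x₀ φ w = lft a χ b x₀ (fun x => φ (b g⁻¹ x)) (a g w) := by
    rw [← lft_equi hF hχ hb g⁻¹ hw', hF.inv_apply g hw]
  change |lft a χ b x₀ φ z - lft a χ b x₀ φ w| ≤ ε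
  rw [ez, ew, (hs _ hzr).1, (hs _ hwr).1, ← Finset.sum_sub_distrib]
  calc |∑ γ ∈ s, (χ (a γ⁻¹ (a g z)) * φ (b g⁻¹ (b γ x₀)) -
        χ (a γ⁻¹ (a g w)) * φ (b g⁻¹ (b γ x₀)))|
      ≤ ∑ γ ∈ s, |χ (a γ⁻¹ (a g z)) * φ (b g⁻¹ (b γ x₀)) -
        χ (a γ⁻¹ (a g w)) * φ (b g⁻¹ (b γ x₀))| := Finset.abs_sum_le_sum_abs _ _
    _ ≤ ∑ _γ ∈ s, ε / ((B + 1) * (s.card + 1)) * B := by
        refine Finset.sum_le_sum fun γ hγ => ?_
        rw [← sub_mul, abs_mul]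
        have h1 := (dist_le_pi_dist (fun γ : s => χ (a (γ : Γ)⁻¹ (a g z)))
          (fun γ : s => χ (a (γ : Γ)⁻¹ (a g w))) ⟨γ, hγ⟩).trans hG.le
        rw [Real.dist_eq] at h1
        exact mul_le_mul h1 (h _) (abs_nonneg _) (by positivity)
    _ = ε * ((s.card : ℝ) / (s.card + 1)) * (B / (B + 1)) := by
        rw [Finset.sum_const, nsmul_eq_mul]
        field_simp
    _ ≤ ε * 1 * 1 := by
        have h1 : (s.card : ℝ) / (s.card + 1) ≤ 1 := by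
          rw [div_le_one (by positivity)]; linarith
        have h2 : B / (B + 1) ≤ 1 := by
          rw [div_le_one (by positivity)]; linarith
        gcongr
    _ = ε := by ring

end Pool.Agent.MP27775c.AHL
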