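import Mathlib
import Pool.Agent.Lib.MP_27775c_an_AHL.Base

/-!
Riesz representation on a compact space.
-/

set_option autoImplicit false
set_option linter.unusedSectionVars false

open MeasureTheory Metric Filter Topology Set

namespace Pool.Agent.MP27775c.AHL

theorem exists_riesz {X : Type*} [TopologicalSpace X] [CompactSpace X] [T2Space X]
    [MeasurableSpace X] [BorelSpace X] (Λ : C(X, ℝ) →ₗ[ℝ] ℝ)
    (hpos : ∀ φ : C(X, ℝ), 0 ≤ φ → 0 ≤ Λ φ) (h1 : Λ 1 = 1) :
    ∃ μ : Measure X, IsProbabilityMeasure μ ∧ ∀ φ : C(X, ℝ), ∫ x, φ x ∂μ = Λ φ := by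
  let T : CompactlySupportedContinuousMap X ℝ →ₗ[ℝ] ℝ :=
    { toFun := fun f => Λ f.toContinuousMap
      map_add' := fun f g => by
        rw [← map_add]
        rfl
      map_smul' := fun c f => by
        rw [RingHom.id_apply, ← map_smul]
        rfl }
  let P := PositiveLinearMap.mk₀ T fun f hf => hpos f.toContinuousMap
    (ContinuousMap.le_def.2 fun x => CompactlySupportedContinuousMap.le_def.1 hf x)
  have key : ∀ φ : C(X, ℝ), ∫ x, φ x ∂(RealRMK.rieszMeasure P) = Λ φ := by
    intro φ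
    exact RealRMK.integral_rieszMeasure P
      ⟨φ, HasCompactSupport.of_compactSpace φ⟩
  refine ⟨RealRMK.rieszMeasure P, ?_, key⟩
  have hfin : IsFiniteMeasure (RealRMK.rieszMeasure P) := by
    refine ⟨?_⟩
    exact isCompact_univ.measure_lt_top
  have h2 := key 1
  rw [h1] at h2
  have h3 : (RealRMK.rieszMeasure P).real univ = 1 := by
    rw [← h2]
    simp
  refine ⟨?_⟩
  rw [Measure.real, ENNReal.toReal_eq_one_iff] at h3
  exact h3

end Pool.Agent.MP27775c.AHL
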