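import Mathlib
import Pool.Agent.Lib.MP_27775c_an_AHL.Na
import Pool.Agent.Lib.MP_27775c_an_AHL.Cf
import Pool.Agent.Lib.MP_27775c_an_AHL.Rz

/-!
Existence of an equivariant harmonic family of probability measures on a compact space.
-/

set_option autoImplicit false
set_option linter.unusedSectionVars false

open MeasureTheory Metric Filter Topology Set

namespace Pool.Agent.MP27775c.AHL

variable {Γ : Type*} [Group Γ] {a : Γ → ℂ → ℂ}

private theorem nb_harm_congr {u v : ℂ → ℝ} (hu : Harm u) (h : ∀ z, ‖z‖ < 1 → v z = u z) :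
    Harm v := by
  refine ⟨hu.cont.congr fun z hz => h z (mem_ball_zero_iff.1 hz), fun S z hS hz => ?_⟩
  rw [Av_congr h hz, hu.mean S z hS hz, h z hz]

private theorem nb_ces_congr {u v : ℂ → ℝ} (h : ∀ z, ‖z‖ < 1 → u z = v z) {z : ℂ} (hz : ‖z‖ < 1) :
    Ces u z = Ces v z := by
  have h2 : ∀ t : ℝ, Av t u z = Av t v z := fun t => Av_congr h hz t
  unfold Ces
  simp only [h2]

theorem exists_family (hF : Fuchs a) {X : Type*} [TopologicalSpace X] [CompactSpace X] [T2Space X]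
    [MeasurableSpace X] [BorelSpace X] [Nonempty X] {b : Γ → X → X}
    (hb : ∀ γ δ x, b (γ * δ) x = b γ (b δ x)) (hc : ∀ γ, Continuous (b γ)) :
    ∃ ν : ℂ → Measure X, (∀ z, IsProbabilityMeasure (ν z)) ∧
      (∀ γ z, ‖z‖ < 1 → ∀ φ : C(X, ℝ), ∫ x, φ (b γ x) ∂(ν z) = ∫ x, φ x ∂(ν (a γ z))) ∧
      ∀ φ : C(X, ℝ), Harm (fun z => ∫ x, φ x ∂(ν z)) := by
  obtain ⟨χ, hχ⟩ := exists_cut hF
  obtain ⟨x₀⟩ := ‹Nonempty X›
  have hbd : ∀ (φ : C(X, ℝ)) (x : X), |φ x| ≤ ‖φ‖ := fun φ x => φ.norm_coe_le_norm x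
  have huec : ∀ φ : C(X, ℝ), UEC (fun _ : Unit => lft a χ b x₀ φ) := fun φ =>
    lft_uec hF hχ hb (hbd φ)
  have hub : ∀ (φ : C(X, ℝ)) (w : ℂ), ‖w‖ < 1 → |lft a χ b x₀ φ w| ≤ ‖φ‖ := fun φ w hw =>
    abs_lft_le hF hχ (hbd φ) hw
  have hcont : ∀ φ : C(X, ℝ), ContinuousOn (lft a χ b x₀ φ) (ball 0 1) := fun φ =>
    (huec φ).continuousOn ()
  have hex : ∀ z : ℂ, ‖z‖ < 1 → ∃ μ : Measure X, IsProbabilityMeasure μ ∧
      ∀ φ : C(X, ℝ), ∫ x, φ x ∂μ = Ces (lft a χ b x₀ φ) z := by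
    intro z hz
    let Λ : C(X, ℝ) →ₗ[ℝ] ℝ :=
      { toFun := fun φ => Ces (lft a χ b x₀ φ) z
        map_add' := by
          intro φ ψ
          have h1 : ∀ w, ‖w‖ < 1 → lft a χ b x₀ (φ + ψ : C(X, ℝ)) w =
              lft a χ b x₀ φ w + lft a χ b x₀ ψ w := fun w hw => lft_add hF hχ hw
          rw [nb_ces_congr h1 hz]
          exact Ces_add (B := max ‖φ‖ ‖ψ‖) (hcont φ) (hcont ψ)
            (fun w hw => (hub φ w hw).trans (le_max_left _ _))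
            (fun w hw => (hub ψ w hw).trans (le_max_right _ _)) hz
        map_smul' := by
          intro c φ
          have h1 : ∀ w, ‖w‖ < 1 → lft a χ b x₀ (c • φ : C(X, ℝ)) w =
              c * lft a χ b x₀ φ w := fun w hw => lft_const_mul hF hχ c hw
          rw [nb_ces_congr h1 hz]
          exact Ces_const_mul (hcont φ) (hub φ) c hz }
    refine exists_riesz Λ ?_ ?_
    · intro φ hφ
      exact Ces_nonneg (hcont φ) (hub φ) (fun w hw => lft_nonneg hF hχ (fun x => hφ x) hw) hz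
    · have h1 : ∀ w, ‖w‖ < 1 → lft a χ b x₀ (1 : C(X, ℝ)) w = 1 := fun w hw =>
        lft_const hF hχ 1 hw
      change Ces (lft a χ b x₀ (1 : C(X, ℝ))) z = 1
      rw [nb_ces_congr h1 hz]
      exact Ces_const 1 z
  have hex' : ∀ z : ℂ, ∃ μ : Measure X, IsProbabilityMeasure μ ∧
      (‖z‖ < 1 → ∀ φ : C(X, ℝ), ∫ x, φ x ∂μ = Ces (lft a χ b x₀ φ) z) := by
    intro z
    by_cases hz : ‖z‖ < 1
    · obtain ⟨μ, h1, h2⟩ := hex z hz
      exact ⟨μ, h1, fun _ => h2⟩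
    · exact ⟨Measure.dirac x₀, inferInstance, fun h => absurd h hz⟩
  choose ν hν1 hν2 using hex'
  refine ⟨ν, hν1, ?_, ?_⟩
  · intro γ z hz φ
    have h1 := hν2 z hz (φ.comp ⟨b γ, hc γ⟩)
    rw [hν2 (a γ z) (hF.lt γ z hz) φ]
    have h2 : ∫ x, φ (b γ x) ∂(ν z) = ∫ x, (φ.comp ⟨b γ, hc γ⟩) x ∂(ν z) := rfl
    rw [h2, h1, ← Ces_fuchs hF γ _ hz]
    refine nb_ces_congr (fun w hw => ?_) hz
    exact (lft_equi hF hχ hb γ hw).symm
  · intro φ
    refine nb_harm_congr (Ces_harm (huec φ) ⟨‖φ‖, fun _ w hw => hub φ w hw⟩) ?_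
    intro z hz
    exact hν2 z hz φ

end Pool.Agent.MP27775c.AHL
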