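import Mathlib
import Pool.Agent.Lib.MP_27775c_an_AHL.Ha

/-!
Harmonicity of the measures of the closed sets.
-/

set_option autoImplicit false
set_option linter.unusedSectionVars false

open MeasureTheory Metric Filter Topology Set

namespace Pool.Agent.MP27775c.AHL

theorem harm_closed {X : Type*} [PseudoMetricSpace X] [CompactSpace X] [MeasurableSpace X]
    [BorelSpace X] {ν : ℂ → Measure X} (hp : ∀ z, IsProbabilityMeasure (ν z))
    (hh : ∀ φ : C(X, ℝ), Harm (fun z => ∫ x, φ x ∂(ν z))) {K : Set X} (hK : IsClosed K) :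
    Harm (fun z => (ν z).real K) := by
  have hpos : ∀ n : ℕ, 0 < 1 / ((n : ℝ) + 1) := fun n => by positivity
  have hlim : Tendsto (fun n : ℕ => 1 / ((n : ℝ) + 1)) atTop (𝓝 0) :=
    tendsto_one_div_add_atTop_nhds_zero_nat
  have hc : ∀ n : ℕ, Continuous fun x : X => (thickenedIndicator (hpos n) K x : ℝ) := fun n =>
    NNReal.continuous_coe.comp (thickenedIndicator (hpos n) K).continuous
  refine Harm.of_tendsto (F := fun n z => ∫ x, (thickenedIndicator (hpos n) K x : ℝ) ∂(ν z))
    (B := 1) (fun n => hh ⟨_, hc n⟩) (fun n z _ => ?_) (fun z _ => ?_)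
  · have := hp z
    have h1 : ‖∫ x, (thickenedIndicator (hpos n) K x : ℝ) ∂(ν z)‖ ≤ 1 * (ν z).real univ := by
      refine norm_integral_le_of_norm_le_const (Eventually.of_forall fun x => ?_)
      rw [Real.norm_of_nonneg (NNReal.coe_nonneg _)]
      exact_mod_cast thickenedIndicator_le_one (hpos n) K x
    rw [probReal_univ, mul_one, Real.norm_eq_abs] at h1
    exact h1
  · have := hp z
    have h1 := tendsto_lintegral_thickenedIndicator_of_isClosed (ν z) hK hpos hlim
    have h2 := (ENNReal.tendsto_toReal (measure_ne_top (ν z) K)).comp h1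
    refine h2.congr fun n => ?_
    exact BoundedContinuousFunction.toReal_lintegral_coe_eq_integral _ _

end Pool.Agent.MP27775c.AHL
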