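import Mathlib
import Pool.Agent.Lib.MP_27775c_an_AHL.Lin
import Pool.Agent.Lib.MP_27775c_an_AHL.Nb
import Pool.Agent.Lib.MP_27775c_an_AHL.Nc

/-!
Existence of the harmonic family on the unit sphere.
-/

set_option autoImplicit false
set_option linter.unusedSectionVars false

open MeasureTheory Metric Filter Topology Set

namespace Pool.Agent.MP27775c.AHL

variable {Γ : Type*} [Group Γ] {a : Γ → ℂ → ℂ} {d : ℕ}

private theorem nd_inv (σ : Γ →* (Vec d →L[ℂ] Vec d)) (γ : Γ) (x : Vec d) :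
    σ γ⁻¹ (σ γ x) = x := by
  have h1 : σ γ⁻¹ * σ γ = 1 := by rw [← map_mul, inv_mul_cancel, map_one]
  have h2 := congrArg (fun f : Vec d →L[ℂ] Vec d => f x) h1
  exact h2

private theorem nd_ne (σ : Γ →* (Vec d →L[ℂ] Vec d)) (γ : Γ) {x : Vec d} (hx : x ≠ 0) :
    σ γ x ≠ 0 := by
  intro h
  apply hx
  rw [← nd_inv σ γ x, h, map_zero]

private theorem nd_sne (x : sphere (0 : Vec d) 1) : (x : Vec d) ≠ 0 := by
  intro h
  have h1 := x.2
  rw [mem_sphere_zero_iff_norm, h, norm_zero] at h1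
  exact zero_ne_one h1

private theorem nd_pos (σ : Γ →* (Vec d →L[ℂ] Vec d)) (γ : Γ) (x : sphere (0 : Vec d) 1) :
    0 < ‖σ γ x‖ := norm_pos_iff.2 (nd_ne σ γ (nd_sne x))

/-- the action on the sphere -/
private noncomputable def ndb (σ : Γ →* (Vec d →L[ℂ] Vec d)) (γ : Γ) (x : sphere (0 : Vec d) 1) :
    sphere (0 : Vec d) 1 :=
  ⟨‖σ γ x‖⁻¹ • σ γ x, by
    have h := nd_pos σ γ x
    rw [mem_sphere_zero_iff_norm, norm_smul, norm_inv, norm_norm, inv_mul_cancel₀ h.ne']⟩

private theorem ndb_coe (σ : Γ →* (Vec d →L[ℂ] Vec d)) (γ : Γ) (x : sphere (0 : Vec d) 1) :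
    (ndb σ γ x : Vec d) = ‖σ γ x‖⁻¹ • σ γ x := rfl

private theorem ndb_mul (σ : Γ →* (Vec d →L[ℂ] Vec d)) (γ δ : Γ) (x : sphere (0 : Vec d) 1) :
    ndb σ (γ * δ) x = ndb σ γ (ndb σ δ x) := by
  apply Subtype.ext
  have h1 := nd_pos σ δ x
  have h2 : σ (γ * δ) (x : Vec d) = σ γ (σ δ x) := by
    rw [map_mul]
    rfl
  have h3 : 0 < ‖σ γ (σ δ x)‖ := norm_pos_iff.2 (nd_ne σ γ (nd_ne σ δ (nd_sne x)))
  have h4 : σ γ (‖σ δ x‖⁻¹ • σ δ x) = ‖σ δ x‖⁻¹ • σ γ (σ δ x) :=
    (σ γ).map_smul_of_tower _ _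
  rw [ndb_coe, ndb_coe, ndb_coe, h2, h4, norm_smul, norm_inv, norm_norm, smul_smul]
  congr 1
  field_simp

private theorem ndb_one (σ : Γ →* (Vec d →L[ℂ] Vec d)) (x : sphere (0 : Vec d) 1) :
    ndb σ 1 x = x := by
  apply Subtype.ext
  have h1 : σ 1 (x : Vec d) = x := by
    rw [map_one]
    rfl
  have h2 : ‖(x : Vec d)‖ = 1 := by simp
  rw [ndb_coe, h1, h2, inv_one, one_smul]

private theorem ndb_cont (σ : Γ →* (Vec d →L[ℂ] Vec d)) (γ : Γ) : Continuous (ndb σ γ) := by
  have h1 : Continuous fun x : sphere (0 : Vec d) 1 => σ γ (x : Vec d) :=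
    (σ γ).continuous.comp continuous_subtype_val
  exact Continuous.subtype_mk ((h1.norm.inv₀ fun x => (nd_pos σ γ x).ne').smul h1) _

private noncomputable def ndh (σ : Γ →* (Vec d →L[ℂ] Vec d)) (γ : Γ) :
    sphere (0 : Vec d) 1 ≃ₜ sphere (0 : Vec d) 1 where
  toFun := ndb σ γ
  invFun := ndb σ γ⁻¹
  left_inv x := by rw [← ndb_mul, inv_mul_cancel, ndb_one]
  right_inv x := by rw [← ndb_mul, mul_inv_cancel, ndb_one]
  continuous_toFun := ndb_cont σ γ
  continuous_invFun := ndb_cont σ γ⁻¹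

theorem exists_harmFam (hF : Fuchs a) (hd : 0 < d) (σ : Γ →* (Vec d →L[ℂ] Vec d)) :
    ∃ ν : ℂ → Measure (Vec d), HarmFam a σ ν := by
  classical
  have hne : Nonempty (sphere (0 : Vec d) 1) := by
    refine ⟨⟨EuclideanSpace.single (⟨0, hd⟩ : Fin d) (1 : ℂ), ?_⟩⟩
    rw [mem_sphere_zero_iff_norm, EuclideanSpace.norm_single, norm_one]
  obtain ⟨μ, hp, he, hh⟩ := exists_family hF (b := ndb σ) (ndb_mul σ) (ndb_cont σ)
  have hemb : MeasurableEmbedding (Subtype.val : sphere (0 : Vec d) 1 → Vec d) :=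
    MeasurableEmbedding.subtype_coe isClosed_sphere.measurableSet
  have hint : ∀ (z : ℂ) (φ : Vec d → ℝ), ∫ x, φ x ∂((μ z).map Subtype.val) =
      ∫ x : sphere (0 : Vec d) 1, φ x ∂(μ z) := fun z φ => hemb.integral_map φ
  refine ⟨fun z => (μ z).map Subtype.val, ?_, ?_, ?_, ?_, ?_⟩
  · intro z
    have := hp z
    exact Measure.isProbabilityMeasure_map hemb.measurable.aemeasurable
  · intro z
    have hm : MeasurableSet {x : Vec d | ‖x‖ = 1} :=
      measurableSet_eq_fun measurable_norm measurable_const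
    refine (ae_map_iff hemb.measurable.aemeasurable hm).2 (ae_of_all _ fun x => ?_)
    simp
  · intro γ z hz φ hφ
    have h1 : μ (a γ z) = (μ z).map (ndb σ γ) := by
      have := hp z
      have := hp (a γ z)
      refine ext_of_forall_integral_eq_of_IsFiniteMeasure fun f => ?_
      have h2 := he γ z hz f.toContinuousMap
      rw [integral_map (ndb_cont σ γ).measurable.aemeasurable
        f.continuous.aestronglyMeasurable]
      exact h2.symm
    rw [hint, hint, h1]
    have h3 : MeasurableEmbedding (ndb σ γ) := (ndh σ γ).measurableEmbedding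
    rw [h3.integral_map]
    refine integral_congr_ae (ae_of_all _ fun x => ?_)
    simp only
    rw [ndb_coe, hφ _ _ (inv_pos.2 (nd_pos σ γ x))]
  · intro φ hφ
    have h1 := hh ⟨fun x => φ x, hφ.comp_continuous continuous_subtype_val nd_sne⟩
    simp only [hint]
    exact h1
  · intro K hK
    have h1 := harm_closed hp hh (hK.preimage continuous_subtype_val)
    have h2 : (fun z => ((μ z).map (Subtype.val : sphere (0 : Vec d) 1 → Vec d)).real K) =
        fun z => (μ z).real (Subtype.val ⁻¹' K) := by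
      funext z
      exact map_measureReal_apply hemb.measurable hK.measurableSet
    rw [h2]
    exact h1

end Pool.Agent.MP27775c.AHL
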