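import Mathlib
import Pool.Agent.Lib.MP_27775c_an_AHL.Jd
import Pool.Agent.Lib.MP_27775c_an_AHL.Je
import Pool.Agent.Lib.MP_27775c_an_AHL.Nd

/-!
Contraction: the averages over large circles depend little on the point of the fibre.
-/

set_option autoImplicit false
set_option linter.unusedSectionVars false

open MeasureTheory Metric Filter Topology Set

namespace Pool.Agent.MP27775c.AHL

variable {Γ : Type*} [Group Γ] {a : Γ → ℂ → ℂ} {d : ℕ} {σ ρ : Γ →* (Vec d →L[ℂ] Vec d)}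
  {ν : ℂ → Measure (Vec d)}

private theorem jf_harm_qf (hν : HarmFam a σ ν) (k : Fin d × Fin d × Bool) : Harm (uq ν k) :=
  hν.harm (qf k) (qf_continuousOn k)

private theorem jf_uq_le (hν : HarmFam a σ ν) (k : Fin d × Fin d × Bool) (z : ℂ) :
    |uq ν k z| ≤ 1 := by
  have := hν.prob z
  have h1 := norm_integral_le_of_norm_le_const (μ := ν z) (f := qf k) (C := 1)
    (Eventually.of_forall fun x => by
      rw [Real.norm_eq_abs]
      exact abs_qf_le k x)
  rw [Real.norm_eq_abs, probReal_univ, mul_one] at h1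
  exact h1

private theorem jf_osc_cont (hν : HarmFam a σ ν) (S : ℝ) :
    ContinuousOn (Osc ν S) (ball 0 1) := by
  unfold Osc
  exact continuousOn_finset_sum _ fun k _ => continuousOn_Dv (jf_harm_qf hν k) S

private theorem jf_osc_nonneg (hν : HarmFam a σ ν) {S : ℝ} (hS : 0 ≤ S) {w : ℂ} (hw : ‖w‖ < 1) :
    0 ≤ Osc ν S w := by
  unfold Osc
  exact Finset.sum_nonneg fun k _ => Dv_nonneg (jf_harm_qf hν k) hS hw

private theorem jf_osc_small (hν : HarmFam a σ ν) {S : ℝ} (hS : 0 ≤ S) {r : ℝ} (hr : r < 1)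
    {ε : ℝ} (hε : 0 < ε) :
    ∃ R₀ : ℝ, 0 ≤ R₀ ∧ ∀ R, R₀ ≤ R → ∀ z, ‖z‖ ≤ r → Av R (Osc ν S) z ≤ ε := by
  set N : ℝ := (Fintype.card (Fin d × Fin d × Bool) : ℝ) with hN
  have hN0 : 0 ≤ N := by positivity
  have h1 : ∀ k : Fin d × Fin d × Bool, ∃ R₀ : ℝ, ∀ R, R₀ ≤ R → ∀ z, ‖z‖ ≤ r →
      Av R (Dv (uq ν k) S) z ≤ ε / (N + 1) := fun k =>
    Av_Dv_tendsto (jf_harm_qf hν k) (B := 1) (fun z _ => jf_uq_le hν k z) hS hr (by positivity)
  choose R₁ hR₁ using h1
  refine ⟨∑ k, |R₁ k|, Finset.sum_nonneg fun k _ => abs_nonneg _, fun R hR z hz => ?_⟩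
  have h2 : ∀ k, R₁ k ≤ R := fun k =>
    ((le_abs_self _).trans (Finset.single_le_sum (f := fun k => |R₁ k|)
      (fun k _ => abs_nonneg _) (Finset.mem_univ k))).trans hR
  have h3 : Av R (Osc ν S) z = ∑ k, Av R (Dv (uq ν k) S) z := by
    have := Av_sum (Finset.univ : Finset (Fin d × Fin d × Bool)) (fun k => Dv (uq ν k) S)
      (fun k _ => continuousOn_Dv (jf_harm_qf hν k) S) (hz.trans_lt hr) R
    exact this
  rw [h3]
  calc ∑ k, Av R (Dv (uq ν k) S) z ≤ ∑ _k : Fin d × Fin d × Bool, ε / (N + 1) :=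
        Finset.sum_le_sum fun k _ => hR₁ k R (h2 k) z hz
    _ = N * (ε / (N + 1)) := by
        rw [Finset.sum_const, nsmul_eq_mul, hN, Finset.card_univ]
    _ ≤ ε := by
        rw [← mul_div_assoc, div_le_iff₀ (by positivity)]
        nlinarith

theorem InvFun.contraction (hF : Fuchs a) (hρ : SIC ρ) {f : ℂ → Vec d → ℝ} (hf : InvFun a ρ f)
    {ε : ℝ} (hε : 0 < ε) : ∃ R₀ : ℝ, ∀ R, R₀ ≤ R → ∀ z v v', ‖z‖ < 1 → v ≠ 0 → v' ≠ 0 →
      |Av R (fun w => f w v) z - Av R (fun w => f w v') z| ≤ ε := by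
  obtain ⟨ν, hν⟩ := exists_harmFam hF hρ.pos (AHL.dual ρ)
  have hn : Null ν := HarmFam.null hF hρ.dual hν
  obtain ⟨B₀, hB₀⟩ := hf.bdd hF
  obtain ⟨r, hr0, hr1, hr⟩ := hF.cpt
  set B : ℝ := |B₀| + 1 with hB
  have hBpos : 0 < B := by positivity
  have hBf : ∀ z v, ‖z‖ < 1 → v ≠ 0 → |f z v| ≤ B := fun z v hz hv =>
    (hB₀ z v hz hv).trans ((le_abs_self _).trans (by rw [hB]; linarith))
  set η : ℝ := ε / (20 * B) with hη
  have hη0 : 0 < η := by positivity
  obtain ⟨κ, hκ, hsm⟩ := small_tf hν hn hr1 hη0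
  obtain ⟨S, δ, hS, hδ, hclose⟩ := close_of_osc hF hρ hν hf (half_pos hε) hκ
  obtain ⟨R₀, hR₀, hosc⟩ := jf_osc_small hν hS hr1 (show 0 < η * δ by positivity)
  -- the functions
  set T : Vec d → ℂ → ℝ := fun v w => ∫ x, tf κ v x ∂(ν w) with hT
  have hTh : ∀ v, v ≠ 0 → Harm (T v) := fun v hv => hν.harm (tf κ v) (tf_continuousOn hκ hv)
  have hT0 : ∀ v w, 0 ≤ T v w := fun v w => integral_nonneg fun x => tf_nonneg κ v x
  set G : Vec d → Vec d → ℂ → ℝ := fun v v' w =>
    ε / 2 + ((2 * B / δ) * Osc ν S w + ((4 * B) * T v w + (4 * B) * T v' w)) with hG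
  have hpt : ∀ v v', v ≠ 0 → v' ≠ 0 → ∀ w, ‖w‖ < 1 → |f w v - f w v'| ≤ G v v' w := by
    intro v v' hv hv' w hw
    have o1 := jf_osc_nonneg hν hS hw
    have t1 := hT0 v w
    have t2 := hT0 v' w
    have c1 : 0 ≤ (2 * B / δ) * Osc ν S w := by positivity
    have c2 : 0 ≤ (4 * B) * T v w := by positivity
    have c3 : 0 ≤ (4 * B) * T v' w := by positivity
    have hG' : G v v' w = ε / 2 + ((2 * B / δ) * Osc ν S w + ((4 * B) * T v w +
      (4 * B) * T v' w)) := rfl
    by_cases hall : Osc ν S w ≤ δ ∧ T v w ≤ 1 / 2 ∧ T v' w ≤ 1 / 2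
    · have h1 := hclose w v v' hw hv hv' hall.1 hall.2.1 hall.2.2
      rw [hG']
      linarith
    · have h1 : |f w v - f w v'| ≤ 2 * B := by
        have e1 := abs_le.1 (hBf w v hw hv)
        have e2 := abs_le.1 (hBf w v' hw hv')
        rw [abs_le]
        constructor <;> linarith [e1.1, e1.2, e2.1, e2.2]
      have h2 : 2 * B ≤ (2 * B / δ) * Osc ν S w + ((4 * B) * T v w + (4 * B) * T v' w) := by
        by_cases b1 : Osc ν S w ≤ δ
        · by_cases b2 : T v w ≤ 1 / 2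
          · have b3 : 1 / 2 < T v' w := not_le.1 fun h => hall ⟨b1, b2, h⟩
            have : 2 * B ≤ (4 * B) * T v' w := by nlinarith
            linarith
          · have b3 : 1 / 2 < T v w := not_le.1 b2
            have : 2 * B ≤ (4 * B) * T v w := by nlinarith
            linarith
        · have b3 : δ < Osc ν S w := not_le.1 b1
          have : 2 * B ≤ (2 * B / δ) * Osc ν S w := by
            rw [div_mul_eq_mul_div, le_div_iff₀ hδ]
            nlinarith
          linarith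
      rw [hG']
      linarith
  have hmain : ∀ R, R₀ ≤ R → ∀ z v v', ‖z‖ ≤ r → v ≠ 0 → v' ≠ 0 →
      Av R (fun w => f w v) z - Av R (fun w => f w v') z ≤ ε := by
    intro R hR z v v' hz hv hv'
    have hz1 : ‖z‖ < 1 := hz.trans_lt hr1
    have hR0 : 0 ≤ R := hR₀.trans hR
    have k1 := hf.slice hv
    have k2 := hf.slice hv'
    have k3 : ContinuousOn (fun w => (2 * B / δ) * Osc ν S w) (ball 0 1) :=
      continuousOn_const.mul (jf_osc_cont hν S)
    have k4 : ContinuousOn (fun w => (4 * B) * T v w) (ball 0 1) :=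
      continuousOn_const.mul (hTh v hv).cont
    have k5 : ContinuousOn (fun w => (4 * B) * T v' w) (ball 0 1) :=
      continuousOn_const.mul (hTh v' hv').cont
    have k6 : ContinuousOn (fun w => (4 * B) * T v w + (4 * B) * T v' w) (ball 0 1) := k4.add k5
    have k7 : ContinuousOn (fun w => (2 * B / δ) * Osc ν S w + ((4 * B) * T v w +
      (4 * B) * T v' w)) (ball 0 1) := k3.add k6
    have k8 : ContinuousOn (G v v') (ball 0 1) := continuousOn_const.add k7
    have h1 : Av R (fun w => f w v - f w v') z ≤ Av R (G v v') z :=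
      Av_mono (k1.sub k2) k8 hz1 (fun w hw => (le_abs_self _).trans (hpt v v' hv hv' w hw)) R
    rw [Av_sub k1 k2 hz1] at h1
    have h2 : Av R (G v v') z = ε / 2 + ((2 * B / δ) * Av R (Osc ν S) z +
        ((4 * B) * T v z + (4 * B) * T v' z)) := by
      have e1 : Av R (G v v') z = Av R (fun _ => ε / 2) z +
          Av R (fun w => (2 * B / δ) * Osc ν S w + ((4 * B) * T v w + (4 * B) * T v' w)) z :=
        Av_add continuousOn_const k7 hz1 R
      rw [e1, Av_const, Av_add k3 k6 hz1, Av_add k4 k5 hz1, Av_const_mul, Av_const_mul,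
        Av_const_mul]
      have e2 : Av R (fun w => T v w) z = T v z := (hTh v hv).mean R z hR0 hz1
      have e3 : Av R (fun w => T v' w) z = T v' z := (hTh v' hv').mean R z hR0 hz1
      have e4 : Av R (fun w => Osc ν S w) z = Av R (Osc ν S) z := rfl
      rw [e2, e3, e4]
    have h3 : (2 * B / δ) * Av R (Osc ν S) z ≤ 2 * B * η := by
      calc (2 * B / δ) * Av R (Osc ν S) z ≤ (2 * B / δ) * (η * δ) :=
            mul_le_mul_of_nonneg_left (hosc R hR z hz) (by positivity)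
        _ = 2 * B * η := by field_simp
    have h4 : (4 * B) * T v z ≤ (4 * B) * η :=
      mul_le_mul_of_nonneg_left (hsm z v hz hv) (by positivity)
    have h5 : (4 * B) * T v' z ≤ (4 * B) * η :=
      mul_le_mul_of_nonneg_left (hsm z v' hz hv') (by positivity)
    have h6 : B * η = ε / 20 := by
      rw [hη]
      field_simp
    rw [h2] at h1
    linarith
  refine ⟨R₀, fun R hR z v v' hz hv hv' => ?_⟩
  obtain ⟨γ, hγ⟩ := hr z hz
  have hρv : ρ γ v ≠ 0 := rho_ne ρ γ hv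
  have hρv' : ρ γ v' ≠ 0 := rho_ne ρ γ hv'
  rw [← hf.av_inv hF γ hz hv R, ← hf.av_inv hF γ hz hv' R, abs_le]
  have m1 := hmain R hR (a γ z) _ _ hγ hρv hρv'
  have m2 := hmain R hR (a γ z) _ _ hγ hρv' hρv
  constructor <;> linarith

end Pool.Agent.MP27775c.AHL
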