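import Mathlib
import Pool.Agent.Lib.MP_27775c_an_AHL.Eq
import Pool.Agent.Lib.MP_27775c_an_AHL.Rr

/-!
Closure properties of the class `Sol`.
-/

set_option autoImplicit false
set_option linter.unusedSectionVars false

open MeasureTheory Metric Filter Topology Set

namespace Pool.Agent.MP27775c.AHL

variable {Γ : Type*} [Group Γ] {a : Γ → ℂ → ℂ}

variable {Φ Ψ : ℝ → ℂ → ℝ} {h : ℝ}

theorem Sol.cont_t (hΦ : Sol a Φ) {z : ℂ} (hz : ‖z‖ < 1) : Continuous (fun t => Φ t z) := by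
  rw [Metric.continuous_iff]
  intro t ε hε
  obtain ⟨δ, hδ, h⟩ := hΦ.tcont (ε / 2) (by positivity)
  refine ⟨δ, hδ, fun t' ht' => ?_⟩
  rw [Real.dist_eq] at ht' ⊢
  have := h t' t z hz ht'.le
  linarith

theorem Sol.cont_z (hΦ : Sol a Φ) (t : ℝ) : ContinuousOn (Φ t) (ball 0 1) :=
  hΦ.uec.continuousOn t

theorem Sol.joint (hΦ : Sol a Φ) :
    ContinuousOn (fun p : ℝ × ℂ => Φ p.1 p.2) {p | ‖p.2‖ < 1} := by
  rintro ⟨t, z⟩ hz
  replace hz : ‖z‖ < 1 := hz
  have hc : ContinuousWithinAt (Φ t) (ball 0 1) z :=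
    hΦ.cont_z t z (by rwa [mem_ball_zero_iff])
  rw [Metric.continuousWithinAt_iff] at hc ⊢
  intro ε hε
  obtain ⟨δ₁, hδ₁, h₁⟩ := hΦ.tcont (ε / 2) (by positivity)
  obtain ⟨δ₂, hδ₂, h₂⟩ := hc (ε / 2) (by positivity)
  refine ⟨min δ₁ δ₂, lt_min hδ₁ hδ₂, ?_⟩
  rintro ⟨t', z'⟩ hz' hd
  replace hz' : ‖z'‖ < 1 := hz'
  rw [Prod.dist_eq, max_lt_iff] at hd
  have e1 := h₁ t' t z' hz' (by
    have := hd.1.trans_le (min_le_left _ _)
    rw [Real.dist_eq] at this
    exact this.le)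
  have e2 := h₂ (x := z') (by rwa [mem_ball_zero_iff]) (hd.2.trans_le (min_le_right _ _))
  rw [Real.dist_eq] at e2 ⊢
  have := abs_sub_le (Φ t' z') (Φ t z') (Φ t z)
  show |Φ t' z' - Φ t z| < ε
  linarith

theorem Sol.shift (hΦ : Sol a Φ) (s : ℝ) : Sol a (fun t => Φ (t + s)) where
  bdd := by
    obtain ⟨B, hB⟩ := hΦ.bdd
    exact ⟨B, fun i z hz => hB (i + s) z hz⟩
  uec := hΦ.uec.reindex (fun t => t + s)
  tcont := by
    intro ε hε
    obtain ⟨δ, hδ, h⟩ := hΦ.tcont ε hε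
    refine ⟨δ, hδ, fun t t' z hz htt => h (t + s) (t' + s) z hz (by simpa using htt)⟩
  inv := fun γ t z hz => hΦ.inv γ (t + s) z hz
  wave := by
    intro S t z hS hz
    rw [hΦ.wave S (t + s) z hS hz]
    congr 1
    refine intervalIntegral.integral_congr fun ψ _ => ?_
    simp only [add_right_comm]

private theorem psi_cont (hΦ : Sol a Φ) (S t : ℝ) {z : ℂ} (hz : ‖z‖ < 1) :
    Continuous (fun ψ : ℝ => Φ (t + bs S ψ) z) := by
  have h1 : Continuous (fun ψ : ℝ => bs S ψ) :=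
    continuous_bs.comp (continuous_const.prodMk continuous_id)
  exact (hΦ.cont_t hz).comp (continuous_const.add h1)

theorem Sol.sub (hΦ : Sol a Φ) (hΨ : Sol a Ψ) : Sol a (fun t z => Φ t z - Ψ t z) where
  bdd := by
    obtain ⟨B, hB⟩ := hΦ.bdd
    obtain ⟨B', hB'⟩ := hΨ.bdd
    exact ⟨B + B', fun i z hz => (abs_sub _ _).trans (add_le_add (hB i z hz) (hB' i z hz))⟩
  uec := hΦ.uec.sub hΨ.uec
  tcont := by
    intro ε hε
    obtain ⟨δ, hδ, h⟩ := hΦ.tcont (ε / 2) (by positivity)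
    obtain ⟨δ', hδ', h'⟩ := hΨ.tcont (ε / 2) (by positivity)
    refine ⟨min δ δ', lt_min hδ hδ', fun t t' z hz htt => ?_⟩
    have e1 := h t t' z hz (htt.trans (min_le_left _ _))
    have e2 := h' t t' z hz (htt.trans (min_le_right _ _))
    have e3 := abs_sub (Φ t z - Φ t' z) (Ψ t z - Ψ t' z)
    have e4 : Φ t z - Ψ t z - (Φ t' z - Ψ t' z) = Φ t z - Φ t' z - (Ψ t z - Ψ t' z) := by ring
    rw [e4]
    linarith
  inv := fun γ t z hz => by rw [hΦ.inv γ t z hz, hΨ.inv γ t z hz]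
  wave := by
    intro S t z hS hz
    rw [Av_sub (hΦ.cont_z t) (hΨ.cont_z t) hz, hΦ.wave S t z hS hz, hΨ.wave S t z hS hz,
      ← mul_sub, ← intervalIntegral.integral_sub]
    · exact (psi_cont hΦ S t hz).intervalIntegrable _ _
    · exact (psi_cont hΨ S t hz).intervalIntegrable _ _

theorem Sol.const_mul (hΦ : Sol a Φ) (c : ℝ) : Sol a (fun t z => c * Φ t z) where
  bdd := by
    obtain ⟨B, hB⟩ := hΦ.bdd
    refine ⟨|c| * B, fun i z hz => ?_⟩
    rw [abs_mul]
    exact mul_le_mul_of_nonneg_left (hB i z hz) (abs_nonneg _)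
  uec := hΦ.uec.const_mul c
  tcont := by
    intro ε hε
    obtain ⟨δ, hδ, h⟩ := hΦ.tcont (ε / (|c| + 1)) (by positivity)
    refine ⟨δ, hδ, fun t t' z hz htt => ?_⟩
    have e1 := h t t' z hz htt
    rw [← mul_sub, abs_mul]
    have h0 : 0 < |c| + 1 := by positivity
    calc |c| * |Φ t z - Φ t' z| ≤ (|c| + 1) * (ε / (|c| + 1)) :=
          mul_le_mul (by linarith) e1 (abs_nonneg _) h0.le
      _ = ε := by field_simp
  inv := fun γ t z hz => by rw [hΦ.inv γ t z hz]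
  wave := by
    intro S t z hS hz
    rw [Av_const_mul, hΦ.wave S t z hS hz, intervalIntegral.integral_const_mul]
    ring

private theorem av_close {f g : ℝ → ℝ} {ε : ℝ} (hh : 0 < h) (hf : Continuous f)
    (hg : Continuous g) (hfg : ∀ s ∈ uIoc (0 : ℝ) h, |f s - g s| ≤ ε) :
    |h⁻¹ * (∫ s in (0 : ℝ)..h, f s) - h⁻¹ * ∫ s in (0 : ℝ)..h, g s| ≤ ε := by
  rw [← mul_sub, ← intervalIntegral.integral_sub (hf.intervalIntegrable _ _)
    (hg.intervalIntegrable _ _), abs_mul, abs_of_pos (inv_pos.2 hh)]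
  have h1 := intervalIntegral.norm_integral_le_of_norm_le_const (a := (0 : ℝ)) (b := h)
    (f := fun s => f s - g s) (C := ε) (fun s hs => by
      rw [Real.norm_eq_abs]; exact hfg s hs)
  rw [Real.norm_eq_abs, sub_zero, abs_of_pos hh] at h1
  calc h⁻¹ * |∫ s in (0 : ℝ)..h, (f s - g s)| ≤ h⁻¹ * (ε * h) :=
        mul_le_mul_of_nonneg_left h1 (inv_pos.2 hh).le
    _ = ε := by field_simp

private theorem sh_cont (hΦ : Sol a Φ) (t : ℝ) {z : ℂ} (hz : ‖z‖ < 1) :
    Continuous (fun s : ℝ => Φ (t + s) z) :=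
  (hΦ.cont_t hz).comp (continuous_const.add continuous_id)

private theorem av_const (hh : 0 < h) (c : ℝ) : h⁻¹ * ∫ _s in (0 : ℝ)..h, c = c := by
  rw [intervalIntegral.integral_const, smul_eq_mul, sub_zero]
  field_simp

private theorem swap_av {F : ℝ → ℝ → ℝ} (hF : Continuous (Function.uncurry F)) (h k : ℝ) :
    (2 * Real.pi)⁻¹ * ∫ θ in (0 : ℝ)..k, h⁻¹ * ∫ s in (0 : ℝ)..h, F θ s =
      h⁻¹ * ∫ s in (0 : ℝ)..h, (2 * Real.pi)⁻¹ * ∫ θ in (0 : ℝ)..k, F θ s := by
  rw [intervalIntegral.integral_const_mul, intervalIntegral.integral_const_mul,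
    intervalIntegral_intervalIntegral_swap]
  · ring
  · exact (hF.continuousOn.integrableOn_compact (isCompact_uIcc.prod isCompact_uIcc)).mono_set
      (prod_mono uIoc_subset_uIcc uIoc_subset_uIcc)

private theorem circ_cont {z : ℂ} (hz : ‖z‖ < 1) (R : ℝ) :
    Continuous (fun θ : ℝ => mob z (circleMap 0 (Real.tanh (R / 2)) θ)) := by
  refine continuousOn_mob.comp_continuous (continuous_const.prodMk (continuous_circleMap 0 _))
    (fun θ => ⟨hz, ?_⟩)
  simpa using Real.abs_tanh_lt_one (R / 2)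

theorem Sol.mt (hΦ : Sol a Φ) (hh : 0 < h) : Sol a (Mt h Φ) where
  bdd := by
    obtain ⟨B, hB⟩ := hΦ.bdd
    refine ⟨B, fun t z hz => ?_⟩
    have h1 := av_close hh (sh_cont hΦ t hz) (continuous_const (y := (0 : ℝ))) (ε := B)
      (fun s _ => by rw [sub_zero]; exact hB (t + s) z hz)
    rw [av_const hh, sub_zero] at h1
    exact h1
  uec := by
    intro ε hε
    obtain ⟨δ, hδ, h1⟩ := hΦ.uec ε hε
    exact ⟨δ, hδ, fun t z w hz hw hzw => av_close hh (sh_cont hΦ t hz) (sh_cont hΦ t hw)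
      (fun s _ => h1 (t + s) z w hz hw hzw)⟩
  tcont := by
    intro ε hε
    obtain ⟨δ, hδ, h1⟩ := hΦ.tcont ε hε
    exact ⟨δ, hδ, fun t t' z hz htt => av_close hh (sh_cont hΦ t hz) (sh_cont hΦ t' hz)
      (fun s _ => h1 (t + s) (t' + s) z hz (by simpa using htt))⟩
  inv := by
    intro γ t z hz
    unfold Mt
    congr 1
    exact intervalIntegral.integral_congr fun s _ => hΦ.inv γ (t + s) z hz
  wave := by
    intro S t z hS hz
    rw [Av_eq]
    unfold Mt
    have hc1 : Continuous (Function.uncurry fun θ s : ℝ =>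
        Φ (t + s) (mob z (circleMap 0 (Real.tanh (S / 2)) θ))) := by
      have h1 : Continuous (fun p : ℝ × ℝ =>
          ((t + p.2, mob z (circleMap 0 (Real.tanh (S / 2)) p.1)) : ℝ × ℂ)) :=
        (continuous_const.add continuous_snd).prodMk ((circ_cont hz S).comp continuous_fst)
      exact hΦ.joint.comp_continuous h1 (fun p => mob_circle_lt hz S p.1)
    have hc2 : Continuous (Function.uncurry fun ψ s : ℝ => Φ (t + bs S ψ + s) z) := by
      have h1 : Continuous (fun p : ℝ × ℝ => bs S p.1) :=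
        continuous_bs.comp (continuous_const.prodMk continuous_fst)
      exact (hΦ.cont_t hz).comp ((continuous_const.add h1).add continuous_snd)
    rw [swap_av hc1, swap_av hc2]
    congr 1
    refine intervalIntegral.integral_congr fun s _ => ?_
    have h2 := hΦ.wave S (t + s) z hS hz
    rw [Av_eq] at h2
    rw [h2]
    congr 1
    refine intervalIntegral.integral_congr fun ψ _ => ?_
    simp only [add_right_comm]

theorem Sol.dt (hΦ : Sol a Φ) (hh : 0 < h) : Sol a (Dt h Φ) :=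
  ((hΦ.shift h).sub hΦ).const_mul h⁻¹

theorem Sol.hasDerivAt_mt (hΦ : Sol a Φ) (hh : 0 < h) (t : ℝ) {z : ℂ} (hz : ‖z‖ < 1) :
    HasDerivAt (fun s => Mt h Φ s z) (Dt h Φ t z) t := by
  have hc := hΦ.cont_t hz
  have hF : ∀ x : ℝ, HasDerivAt (fun y => ∫ s in (0 : ℝ)..y, Φ s z) (Φ x z) x := fun x =>
    intervalIntegral.integral_hasDerivAt_right (hc.intervalIntegrable _ _)
      (hc.stronglyMeasurableAtFilter _ _) hc.continuousAt
  have heq : (fun s => Mt h Φ s z) = fun s => h⁻¹ *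
      ((∫ x in (0 : ℝ)..(s + h), Φ x z) - ∫ x in (0 : ℝ)..s, Φ x z) := by
    funext s
    unfold Mt
    have h1 := intervalIntegral.integral_comp_add_left (a := (0 : ℝ)) (b := h)
      (fun x => Φ x z) s
    rw [h1, add_zero, intervalIntegral.integral_interval_sub_left
      (hc.intervalIntegrable _ _) (hc.intervalIntegrable _ _)]
  rw [heq]
  have h1 : HasDerivAt (fun s => ∫ x in (0 : ℝ)..(s + h), Φ x z) (Φ (t + h) z) t := by
    have := (hF (t + h)).comp_add_const t h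
    exact this
  exact (h1.sub (hF t)).const_mul h⁻¹

theorem Sol.mt_dt (hΦ : Sol a Φ) (hh : 0 < h) (t : ℝ) {z : ℂ} (hz : ‖z‖ < 1) :
    Mt h (Dt h Φ) t z = Dt h (Mt h Φ) t z := by
  unfold Mt Dt
  rw [intervalIntegral.integral_const_mul, intervalIntegral.integral_sub]
  · rw [← mul_sub]
    congr 3
    refine intervalIntegral.integral_congr fun s _ => ?_
    simp only [add_right_comm]
  · exact (hΦ.cont_t hz).comp ((continuous_const.add continuous_id).add continuous_const)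
      |>.intervalIntegrable _ _
  · exact (sh_cont hΦ t hz).intervalIntegrable _ _

private theorem near (hΦ : Sol a Φ) (hh : 0 < h) {z : ℂ} (hz : ‖z‖ < 1) {c b t ε : ℝ}
    (H : ∀ x, t ≤ x → x ≤ t + b + h → |Φ x z - c| ≤ ε) :
    ∀ x, t ≤ x → x ≤ t + b → |Mt h Φ x z - c| ≤ ε := by
  intro x hx hx'
  have h1 := av_close hh (sh_cont hΦ x hz) (continuous_const (y := c)) (ε := ε) (fun s hs => by
    rw [uIoc_of_le hh.le] at hs
    exact H (x + s) (by linarith [hs.1]) (by linarith [hs.2]))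
  rw [av_const hh] at h1
  exact h1

theorem Sol.mt_approx (hΦ : Sol a Φ) {ε : ℝ} (hε : 0 < ε) : ∃ h₀ : ℝ, 0 < h₀ ∧ ∀ h, 0 < h →
    h ≤ h₀ → ∀ t z, ‖z‖ < 1 → |Mt h (Mt h (Mt h (Mt h Φ))) t z - Φ t z| ≤ ε := by
  obtain ⟨δ, hδ, H⟩ := hΦ.tcont ε hε
  refine ⟨δ / 4, by positivity, fun h hh hh' t z hz => ?_⟩
  have s1 := hΦ.mt hh
  have s2 := s1.mt hh
  have s3 := s2.mt hh
  have a0 : ∀ x, t ≤ x → x ≤ t + 3 * h + h → |Φ x z - Φ t z| ≤ ε := by
    intro x hx hx'
    apply H x t z hz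
    rw [abs_of_nonneg (by linarith)]
    linarith
  have a1 := near hΦ hh hz a0
  have a2 := near s1 hh hz (b := 2 * h) (fun x hx hx' => a1 x hx (by linarith))
  have a3 := near s2 hh hz (b := h) (fun x hx hx' => a2 x hx (by linarith))
  have a4 := near s3 hh hz (b := 0) (fun x hx hx' => a3 x hx (by linarith))
  exact a4 t le_rfl (by linarith)

end Pool.Agent.MP27775c.AHL
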