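import Mathlib
import Pool.Agent.Lib.MP_27775c_an_AHL.So

/-!
Smoothing of the elements of `Sol` in time.
-/

set_option autoImplicit false
set_option linter.unusedSectionVars false

open MeasureTheory Metric Filter Topology Set

namespace Pool.Agent.MP27775c.AHL

variable {Γ : Type*} [Group Γ] {a : Γ → ℂ → ℂ}

/-- `Ψ 0, …, Ψ n` are elements of `Sol`, each one is the derivative of the previous one. -/
structure Tower (a : Γ → ℂ → ℂ) (Ψ : ℕ → ℝ → ℂ → ℝ) (n : ℕ) : Prop where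
  sol : ∀ k, k ≤ n → Sol a (Ψ k)
  der : ∀ k, k < n → ∀ t z, ‖z‖ < 1 → HasDerivAt (fun s => Ψ k s z) (Ψ (k + 1) t z) t

private theorem dt_congr {X Y : ℝ → ℂ → ℝ} {h : ℝ} {z : ℂ} (H : ∀ t, X t z = Y t z) (t : ℝ) :
    Dt h X t z = Dt h Y t z := by
  unfold Dt
  rw [H, H]

private noncomputable def psi (h : ℝ) (Φ : ℝ → ℂ → ℝ) : ℕ → ℝ → ℂ → ℝ
  | 0 => Mt h (Mt h (Mt h (Mt h Φ)))
  | 1 => Dt h (Mt h (Mt h (Mt h Φ)))
  | 2 => Dt h (Dt h (Mt h (Mt h Φ)))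
  | 3 => Dt h (Dt h (Dt h (Mt h Φ)))
  | 4 => Dt h (Dt h (Dt h (Dt h Φ)))
  | _ => fun _ _ => 0

theorem exists_tower {Φ : ℝ → ℂ → ℝ} (hΦ : Sol a Φ) {h : ℝ} (hh : 0 < h) :
    ∃ Ψ : ℕ → ℝ → ℂ → ℝ, Tower a Ψ 4 ∧
      ∀ t z, ‖z‖ < 1 → Ψ 0 t z = Mt h (Mt h (Mt h (Mt h Φ))) t z := by
  have m1 := hΦ.mt hh
  have m2 := m1.mt hh
  have m3 := m2.mt hh
  refine ⟨psi h Φ, ⟨fun k hk => ?_, fun k hk t z hz => ?_⟩, fun t z _ => rfl⟩
  · interval_cases k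
    · exact m3.mt hh
    · exact m3.dt hh
    · exact (m2.dt hh).dt hh
    · exact ((m1.dt hh).dt hh).dt hh
    · exact (((hΦ.dt hh).dt hh).dt hh).dt hh
  · interval_cases k
    · exact m3.hasDerivAt_mt hh t hz
    · have e : (fun s => psi h Φ 1 s z) = fun s => Mt h (Dt h (Mt h (Mt h Φ))) s z := by
        funext s
        exact (m2.mt_dt hh s hz).symm
      rw [e]
      exact (m2.dt hh).hasDerivAt_mt hh t hz
    · have e : (fun s => psi h Φ 2 s z) = fun s => Mt h (Dt h (Dt h (Mt h Φ))) s z := by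
        funext s
        have e1 : Dt h (Dt h (Mt h (Mt h Φ))) s z = Dt h (Mt h (Dt h (Mt h Φ))) s z :=
          dt_congr (fun t => (m1.mt_dt hh t hz).symm) s
        exact e1.trans ((m1.dt hh).mt_dt hh s hz).symm
      rw [e]
      exact ((m1.dt hh).dt hh).hasDerivAt_mt hh t hz
    · have e : (fun s => psi h Φ 3 s z) = fun s => Mt h (Dt h (Dt h (Dt h Φ))) s z := by
        funext s
        have e1 : Dt h (Dt h (Dt h (Mt h Φ))) s z = Dt h (Dt h (Mt h (Dt h Φ))) s z :=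
          dt_congr (fun t => dt_congr (fun t' => (hΦ.mt_dt hh t' hz).symm) t) s
        have e2 : Dt h (Dt h (Mt h (Dt h Φ))) s z = Dt h (Mt h (Dt h (Dt h Φ))) s z :=
          dt_congr (fun t => ((hΦ.dt hh).mt_dt hh t hz).symm) s
        exact (e1.trans e2).trans (((hΦ.dt hh).dt hh).mt_dt hh s hz).symm
      rw [e]
      exact (((hΦ.dt hh).dt hh).dt hh).hasDerivAt_mt hh t hz

theorem Tower.succ {Ψ : ℕ → ℝ → ℂ → ℝ} {n : ℕ} (hΨ : Tower a Ψ (n + 1)) :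
    Tower a (fun k => Ψ (k + 1)) n :=
  ⟨fun k hk => hΨ.sol (k + 1) (by omega), fun k hk => hΨ.der (k + 1) (by omega)⟩

theorem Tower.mono {Ψ : ℕ → ℝ → ℂ → ℝ} {m n : ℕ} (hΨ : Tower a Ψ n) (h : m ≤ n) :
    Tower a Ψ m :=
  ⟨fun k hk => hΨ.sol k (by omega), fun k hk => hΨ.der k (by omega)⟩

end Pool.Agent.MP27775c.AHL
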