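import Mathlib
import Pool.Agent.Lib.MP_27775c_an_AHL.Eq
import Pool.Agent.Lib.MP_27775c_an_AHL.Pu

/-!
The integral over the quotient.
-/

set_option autoImplicit false
set_option linter.unusedSectionVars false

open MeasureTheory Metric Filter Topology Set

namespace Pool.Agent.MP27775c.AHL

variable {Γ : Type*} [Group Γ] {a : Γ → ℂ → ℂ} {χ : ℂ → ℝ}

variable {g h : ℂ → ℝ} {B : ℝ}

private theorem In_hw_pos {z : ℂ} (hz : ‖z‖ < 1) : 0 < hw z := by
  unfold hw
  have h1 : 0 < 1 - ‖z‖ ^ 2 := by nlinarith [norm_nonneg z]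
  positivity

private theorem In_hw_nonneg (z : ℂ) : 0 ≤ hw z := by
  unfold hw
  positivity

private theorem In_hw_cont : ContinuousOn hw (ball 0 1) := by
  unfold hw
  refine continuousOn_const.div (by fun_prop) fun z hz => ?_
  have hz' : ‖z‖ < 1 := mem_ball_zero_iff.1 hz
  have h1 : 0 < 1 - ‖z‖ ^ 2 := by nlinarith [norm_nonneg z]
  positivity

private theorem In_cont (hχ : Cut a χ) (hg : ContinuousOn g (ball 0 1)) :
    ContinuousOn (fun z => χ z * g z * hw z) (ball 0 1) :=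
  (hχ.cont.continuousOn.mul hg).mul In_hw_cont

theorem II_integrable (hχ : Cut a χ) (hg : ContinuousOn g (ball 0 1)) :
    IntegrableOn (fun z => χ z * g z * hw z) (ball 0 1) := by
  obtain ⟨r, hr, hr0⟩ := hχ.supp
  have hsub : closedBall (0 : ℂ) r ⊆ ball 0 1 := closedBall_subset_ball hr
  have h1 : IntegrableOn (fun z => χ z * g z * hw z) (closedBall (0 : ℂ) r) :=
    ((In_cont hχ hg).mono hsub).integrableOn_compact (isCompact_closedBall 0 r)
  have h2 : Function.support (fun z => χ z * g z * hw z) ⊆ closedBall (0 : ℂ) r := by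
    intro z hz
    rw [mem_closedBall_zero_iff]
    by_contra hcon
    apply hz
    change χ z * g z * hw z = 0
    rw [hr0 z (not_le.1 hcon), zero_mul, zero_mul]
  exact ((integrableOn_iff_integrable_of_support_subset h2).1 h1).integrableOn

theorem II_congr (hgh : ∀ z, ‖z‖ < 1 → g z = h z) : II χ g = II χ h := by
  unfold II
  refine setIntegral_congr_fun measurableSet_ball fun z hz => ?_
  change χ z * g z * hw z = χ z * h z * hw z
  rw [hgh z (mem_ball_zero_iff.1 hz)]

theorem II_add (hχ : Cut a χ) (hg : ContinuousOn g (ball 0 1)) (hh : ContinuousOn h (ball 0 1)) :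
    II χ (fun z => g z + h z) = II χ g + II χ h := by
  unfold II
  rw [← integral_add (II_integrable hχ hg) (II_integrable hχ hh)]
  refine integral_congr_ae (Eventually.of_forall fun z => ?_)
  simp only
  ring

theorem II_sub (hχ : Cut a χ) (hg : ContinuousOn g (ball 0 1)) (hh : ContinuousOn h (ball 0 1)) :
    II χ (fun z => g z - h z) = II χ g - II χ h := by
  unfold II
  rw [← integral_sub (II_integrable hχ hg) (II_integrable hχ hh)]
  refine integral_congr_ae (Eventually.of_forall fun z => ?_)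
  simp only
  ring

theorem II_const_mul (c : ℝ) (g : ℂ → ℝ) : II χ (fun z => c * g z) = c * II χ g := by
  unfold II
  rw [← integral_const_mul]
  refine integral_congr_ae (Eventually.of_forall fun z => ?_)
  simp only
  ring

theorem II_nonneg (hχ : Cut a χ) (h0 : ∀ z, ‖z‖ < 1 → 0 ≤ g z) : 0 ≤ II χ g := by
  unfold II
  refine setIntegral_nonneg measurableSet_ball fun z hz => ?_
  exact mul_nonneg (mul_nonneg (hχ.nonneg z) (h0 z (mem_ball_zero_iff.1 hz))) (In_hw_nonneg z)

theorem II_mono (hχ : Cut a χ) (hg : ContinuousOn g (ball 0 1)) (hh : ContinuousOn h (ball 0 1))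
    (hgh : ∀ z, ‖z‖ < 1 → g z ≤ h z) : II χ g ≤ II χ h := by
  unfold II
  refine setIntegral_mono_on (II_integrable hχ hg) (II_integrable hχ hh) measurableSet_ball
    fun z hz => ?_
  exact mul_le_mul_of_nonneg_right
    (mul_le_mul_of_nonneg_left (hgh z (mem_ball_zero_iff.1 hz)) (hχ.nonneg z)) (In_hw_nonneg z)

theorem abs_II_le (hχ : Cut a χ) (hg : ContinuousOn g (ball 0 1))
    (hB : ∀ z, ‖z‖ < 1 → |g z| ≤ B) : |II χ g| ≤ B * II χ (fun _ => 1) := by
  have h1 : II χ g ≤ II χ (fun _ => B * 1) :=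
    II_mono hχ hg continuousOn_const fun z hz => by
      rw [mul_one]
      exact (abs_le.1 (hB z hz)).2
  have h2 : II χ (fun _ => (-B) * 1) ≤ II χ g :=
    II_mono hχ continuousOn_const hg fun z hz => by
      rw [mul_one]
      exact (abs_le.1 (hB z hz)).1
  rw [II_const_mul] at h1 h2
  rw [abs_le]
  constructor <;> linarith

private theorem In_pos (hχ : Cut a χ) (hg : ContinuousOn g (ball 0 1))
    (h0 : ∀ z, ‖z‖ < 1 → 0 ≤ g z) {w : ℂ} (hw1 : ‖w‖ < 1) (hχw : 0 < χ w) (hgw : 0 < g w) :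
    0 < II χ g := by
  unfold II
  have hnn : ∀ z ∈ ball (0 : ℂ) 1, 0 ≤ χ z * g z * hw z := fun z hz =>
    mul_nonneg (mul_nonneg (hχ.nonneg z) (h0 z (mem_ball_zero_iff.1 hz))) (In_hw_nonneg z)
  have h1 : 0 ≤ᵐ[volume.restrict (ball (0 : ℂ) 1)] fun z => χ z * g z * hw z := by
    filter_upwards [ae_restrict_mem measurableSet_ball] with z hz using hnn z hz
  rw [setIntegral_pos_iff_support_of_nonneg_ae h1 (II_integrable hχ hg)]
  have hop : IsOpen (ball (0 : ℂ) 1 ∩ (fun z => χ z * g z * hw z) ⁻¹' Ioi 0) :=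
    (In_cont hχ hg).isOpen_inter_preimage isOpen_ball isOpen_Ioi
  have hne : (ball (0 : ℂ) 1 ∩ (fun z => χ z * g z * hw z) ⁻¹' Ioi 0).Nonempty :=
    ⟨w, mem_ball_zero_iff.2 hw1, mul_pos (mul_pos hχw hgw) (In_hw_pos hw1)⟩
  refine (hop.measure_pos volume hne).trans_le (measure_mono ?_)
  rintro z ⟨hz1, hz2⟩
  exact ⟨(show (0 : ℝ) < χ z * g z * hw z from hz2).ne', hz1⟩

private theorem In_exists (hF : Fuchs a) (hχ : Cut a χ) {z : ℂ} (hz : ‖z‖ < 1) :
    ∃ γ, 0 < χ (a γ z) ∧ ‖a γ z‖ < 1 := by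
  obtain ⟨s, hs⟩ := hχ.sum ‖z‖ hz
  have h1 := (hs z le_rfl).2
  have h2 : ∃ γ ∈ s, 0 < χ (a γ z) := by
    by_contra hcon
    push Not at hcon
    have h3 : ∑ γ ∈ s, χ (a γ z) ≤ 0 := Finset.sum_nonpos hcon
    linarith
  obtain ⟨γ, -, hγ⟩ := h2
  exact ⟨γ, hγ, hF.lt γ z hz⟩

theorem II_one_pos (hF : Fuchs a) (hχ : Cut a χ) : 0 < II χ (fun _ => 1) := by
  obtain ⟨γ, h1, h2⟩ := In_exists hF hχ (z := 0) (by simp)
  exact In_pos hχ continuousOn_const (fun _ _ => zero_le_one) h2 h1 one_pos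

/-- A nonnegative continuous invariant function of integral `0` is `0`. -/
theorem eq_zero_of_II (hF : Fuchs a) (hχ : Cut a χ) (hg : ContinuousOn g (ball 0 1))
    (h0 : ∀ z, ‖z‖ < 1 → 0 ≤ g z) (hinv : ∀ γ z, ‖z‖ < 1 → g (a γ z) = g z) (h : II χ g = 0) :
    ∀ z, ‖z‖ < 1 → g z = 0 := by
  intro z hz
  by_contra hne
  have hpos : 0 < g z := lt_of_le_of_ne (h0 z hz) (Ne.symm hne)
  obtain ⟨γ, h1, h2⟩ := In_exists hF hχ hz
  have h3 := In_pos hχ hg h0 h2 h1 (by rw [hinv γ z hz]; exact hpos)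
  linarith

theorem II_cs (hχ : Cut a χ) (hg : ContinuousOn g (ball 0 1)) (hh : ContinuousOn h (ball 0 1)) :
    (II χ (fun z => g z * h z)) ^ 2 ≤ II χ (fun z => g z ^ 2) * II χ (fun z => h z ^ 2) := by
  have key : ∀ t : ℝ, 0 ≤ II χ (fun z => h z ^ 2) * (t * t) +
      (2 * II χ (fun z => g z * h z)) * t + II χ (fun z => g z ^ 2) := by
    intro t
    have h1 : 0 ≤ II χ (fun z => (g z + t * h z) ^ 2) := II_nonneg hχ fun z _ => sq_nonneg _
    have h2 : II χ (fun z => (g z + t * h z) ^ 2) =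
        II χ (fun z => (g z ^ 2 + (2 * t) * (g z * h z)) + (t * t) * h z ^ 2) :=
      II_congr fun z _ => by ring
    have c1 : ContinuousOn (fun z => g z ^ 2) (ball 0 1) := hg.pow 2
    have c2 : ContinuousOn (fun z => (2 * t) * (g z * h z)) (ball 0 1) :=
      continuousOn_const.mul (hg.mul hh)
    have c3 : ContinuousOn (fun z => (t * t) * h z ^ 2) (ball 0 1) :=
      continuousOn_const.mul (hh.pow 2)
    have c4 : ContinuousOn (fun z => g z ^ 2 + (2 * t) * (g z * h z)) (ball 0 1) := c1.add c2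
    rw [h2, II_add hχ c4 c3, II_add hχ c1 c2, II_const_mul, II_const_mul] at h1
    linarith
  have h3 := discrim_le_zero key
  unfold discrim at h3
  linarith

end Pool.Agent.MP27775c.AHL
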