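import Mathlib
import Pool.Agent.Lib.MP_27775c_an_AHL.In

/-!
Derivation and continuity of integrals over the quotient depending on a parameter.
-/

set_option autoImplicit false
set_option linter.unusedSectionVars false

open MeasureTheory Metric Filter Topology Set

namespace Pool.Agent.MP27775c.AHL

variable {Γ : Type*} [Group Γ] {a : Γ → ℂ → ℂ} {χ : ℂ → ℝ}

private theorem dd_bound (hχ : Cut a χ) {x B : ℝ} (z : ℂ) (h : |x| ≤ B) :
    ‖χ z * x * hw z‖ ≤ χ z * B * hw z := by
  have h1 : 0 ≤ hw z := by unfold hw; positivity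
  rw [norm_mul, norm_mul, Real.norm_of_nonneg (hχ.nonneg z), Real.norm_of_nonneg h1,
    Real.norm_eq_abs]
  exact mul_le_mul_of_nonneg_right (mul_le_mul_of_nonneg_left h (hχ.nonneg z)) h1

theorem II_hasDerivAt (hχ : Cut a χ) {φ φ' : ℝ → ℂ → ℝ} {B : ℝ}
    (hc : ∀ t, ContinuousOn (φ t) (ball 0 1)) (hc' : ∀ t, ContinuousOn (φ' t) (ball 0 1))
    (hd : ∀ t z, ‖z‖ < 1 → HasDerivAt (fun s => φ s z) (φ' t z) t)
    (hB : ∀ t z, ‖z‖ < 1 → |φ' t z| ≤ B) (t : ℝ) :
    HasDerivAt (fun s => II χ (φ s)) (II χ (φ' t)) t := by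
  refine (hasDerivAt_integral_of_dominated_loc_of_deriv_le
    (μ := volume.restrict (ball (0 : ℂ) 1))
    (F := fun s z => χ z * φ s z * hw z) (F' := fun s z => χ z * φ' s z * hw z)
    (s := univ) (bound := fun z => χ z * B * hw z) univ_mem
    (Eventually.of_forall fun s => (II_integrable hχ (hc s)).aestronglyMeasurable)
    (II_integrable hχ (hc t)) (II_integrable hχ (hc' t)).aestronglyMeasurable
    ?_ (II_integrable hχ (g := fun _ => B) continuousOn_const) ?_).2
  · filter_upwards [ae_restrict_mem measurableSet_ball] with z hz s _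
    exact dd_bound hχ z (hB s z (by simpa using hz))
  · filter_upwards [ae_restrict_mem measurableSet_ball] with z hz s _
    exact ((hd s z (by simpa using hz)).const_mul (χ z)).mul_const (hw z)

theorem II_continuous (hχ : Cut a χ) {φ : ℝ → ℂ → ℝ} {B : ℝ}
    (hc : ∀ t, ContinuousOn (φ t) (ball 0 1))
    (hct : ∀ z, ‖z‖ < 1 → Continuous (fun s => φ s z))
    (hB : ∀ t z, ‖z‖ < 1 → |φ t z| ≤ B) :
    Continuous (fun s => II χ (φ s)) := by
  unfold II
  refine continuous_of_dominated (bound := fun z => χ z * B * hw z)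
    (fun s => (II_integrable hχ (hc s)).aestronglyMeasurable) ?_
    (II_integrable hχ (g := fun _ => B) continuousOn_const) ?_
  · intro s
    filter_upwards [ae_restrict_mem measurableSet_ball] with z hz
    exact dd_bound hχ z (hB s z (by simpa using hz))
  · filter_upwards [ae_restrict_mem measurableSet_ball] with z hz
    exact (continuous_const.mul (hct z (by simpa using hz))).mul continuous_const

end Pool.Agent.MP27775c.AHL
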