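import Mathlib
import Pool.Agent.Lib.MP_27775c_an_AHL.In
import Pool.Agent.Lib.MP_27775c_an_AHL.Ar

/-!
Unfolding: symmetry of the double integrals over the quotient.
-/

set_option autoImplicit false
set_option linter.unusedSectionVars false

open MeasureTheory Metric Filter Topology Set

namespace Pool.Agent.MP27775c.AHL

variable {Γ : Type*} [Group Γ] {a : Γ → ℂ → ℂ} {χ : ℂ → ℝ}

private theorem un_hw_nonneg (z : ℂ) : 0 ≤ hw z := by
  unfold hw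
  positivity

private theorem un_hw_le {r : ℝ} (hr : r < 1) {z : ℂ} (hz : ‖z‖ ≤ r) :
    hw z ≤ 4 / (1 - r ^ 2) ^ 2 := by
  have hz0 := norm_nonneg z
  have hr0 : 0 ≤ r := hz0.trans hz
  have h1 : 0 < 1 - r ^ 2 := by nlinarith
  have h2 : 1 - r ^ 2 ≤ 1 - ‖z‖ ^ 2 := by nlinarith
  unfold hw
  apply div_le_div_of_nonneg_left (by norm_num) (by positivity)
  exact pow_le_pow_left₀ h1.le h2 2

private theorem un_meas_hw : Measurable hw := by
  unfold hw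
  fun_prop

private theorem un_int {F : ℂ × ℂ → ℝ} {C r : ℝ} (hr : r < 1)
    (hm : AEStronglyMeasurable F
      ((volume.restrict (ball (0 : ℂ) 1)).prod (volume.restrict (ball (0 : ℂ) 1))))
    (hb : ∀ p : ℂ × ℂ, ‖p.1‖ < 1 → ‖p.2‖ < 1 → |F p| ≤ C)
    (hs : ∀ p : ℂ × ℂ, ‖p.1‖ < 1 → ‖p.2‖ < 1 → F p ≠ 0 → ‖p.1‖ ≤ r ∧ ‖p.2‖ ≤ r) :
    Integrable (fun p : ℂ × ℂ => F p * hw p.1 * hw p.2)
      ((volume.restrict (ball (0 : ℂ) 1)).prod (volume.restrict (ball (0 : ℂ) 1))) := by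
  have hfin : IsFiniteMeasure (volume.restrict (ball (0 : ℂ) 1)) :=
    ⟨by simp⟩
  refine Integrable.of_bound (C := |C| * (4 / (1 - r ^ 2) ^ 2) * (4 / (1 - r ^ 2) ^ 2)) ?_ ?_
  · exact (hm.mul (un_meas_hw.comp measurable_fst).aestronglyMeasurable).mul
      (un_meas_hw.comp measurable_snd).aestronglyMeasurable
  · rw [Measure.prod_restrict]
    refine (ae_restrict_iff' (measurableSet_ball.prod measurableSet_ball)).2
      (Eventually.of_forall fun p hp => ?_)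
    obtain ⟨h1, h2⟩ := hp
    rw [mem_ball_zero_iff] at h1 h2
    by_cases h0 : F p = 0
    · rw [h0, zero_mul, zero_mul, norm_zero]
      positivity
    · obtain ⟨h3, h4⟩ := hs p h1 h2 h0
      rw [norm_mul, norm_mul, Real.norm_eq_abs, Real.norm_of_nonneg (un_hw_nonneg _),
        Real.norm_of_nonneg (un_hw_nonneg _)]
      have h5 : |F p| ≤ |C| := (hb p h1 h2).trans (le_abs_self C)
      exact mul_le_mul (mul_le_mul h5 (un_hw_le hr h3) (un_hw_nonneg _) (abs_nonneg _))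
        (un_hw_le hr h4) (un_hw_nonneg _) (by positivity)

private theorem un_term_int (hF : Fuchs a) (hc : Continuous χ) {C : ℝ}
    (hC : ∀ z, ‖z‖ < 1 → |χ z| ≤ C) {K : ℂ → ℂ → ℝ} {B r : ℝ} (hr : r < 1)
    (hKm : Measurable (fun p : ℂ × ℂ => K p.1 p.2)) (hKB : ∀ z w, |K z w| ≤ B)
    (hs : ∀ z w, ‖z‖ < 1 → ‖w‖ < 1 → χ z ≠ 0 → K z w ≠ 0 → ‖z‖ ≤ r ∧ ‖w‖ ≤ r) (γ : Γ) :
    Integrable (fun p : ℂ × ℂ => χ p.1 * χ (a γ p.2) * K p.1 p.2 * hw p.1 * hw p.2)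
      ((volume.restrict (ball (0 : ℂ) 1)).prod (volume.restrict (ball (0 : ℂ) 1))) := by
  have hC0 : 0 ≤ C := (abs_nonneg _).trans (hC 0 (by simp))
  refine un_int (C := C * C * B) hr ?_ ?_ ?_
  · have h1 : AEStronglyMeasurable (fun w => χ (a γ w)) (volume.restrict (ball (0 : ℂ) 1)) :=
      (hc.comp_continuousOn (hF.continuousOn γ)).aestronglyMeasurable measurableSet_ball
    exact ((hc.comp continuous_fst).aestronglyMeasurable.mul h1.comp_snd).mul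
      hKm.aestronglyMeasurable
  · intro p h1 h2
    rw [abs_mul, abs_mul]
    exact mul_le_mul (mul_le_mul (hC _ h1) (hC _ (hF.lt γ _ h2)) (abs_nonneg _) hC0) (hKB _ _)
      (abs_nonneg _) (by positivity)
  · intro p h1 h2 h3
    refine hs p.1 p.2 h1 h2 (fun h => h3 ?_) (fun h => h3 ?_)
    · simp [h]
    · simp [h]

private theorem un_exp (hF : Fuchs a) (hc : Continuous χ) {C : ℝ}
    (hC : ∀ z, ‖z‖ < 1 → |χ z| ≤ C) {K : ℂ → ℂ → ℝ} {B r : ℝ} (hr : r < 1)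
    (hKm : Measurable (fun p : ℂ × ℂ => K p.1 p.2)) (hKB : ∀ z w, |K z w| ≤ B)
    (hs : ∀ z w, ‖z‖ < 1 → ‖w‖ < 1 → χ z ≠ 0 → K z w ≠ 0 → ‖z‖ ≤ r ∧ ‖w‖ ≤ r) (s : Finset Γ)
    (hsum : ∀ z, ‖z‖ ≤ r → ∑ γ ∈ s, χ (a γ z) = 1) :
    ∫ z in ball (0 : ℂ) 1, χ z * hw z * ∫ w in ball (0 : ℂ) 1, K z w * hw w =
      ∑ γ ∈ s, ∫ z in ball (0 : ℂ) 1, ∫ w in ball (0 : ℂ) 1,
        χ z * χ (a γ w) * K z w * hw z * hw w := by
  have h1 : ∫ z in ball (0 : ℂ) 1, χ z * hw z * ∫ w in ball (0 : ℂ) 1, K z w * hw w =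
      ∫ z in ball (0 : ℂ) 1, ∫ w in ball (0 : ℂ) 1,
        ∑ γ ∈ s, χ z * χ (a γ w) * K z w * hw z * hw w := by
    refine setIntegral_congr_fun measurableSet_ball fun z hz => ?_
    rw [mem_ball_zero_iff] at hz
    rw [← integral_const_mul]
    refine setIntegral_congr_fun measurableSet_ball fun w hw' => ?_
    rw [mem_ball_zero_iff] at hw'
    have h2 : ∑ γ ∈ s, χ z * χ (a γ w) * K z w * hw z * hw w =
        (χ z * K z w * hw z * hw w) * ∑ γ ∈ s, χ (a γ w) := by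
      rw [Finset.mul_sum]
      refine Finset.sum_congr rfl fun γ _ => ?_
      ring
    rw [h2]
    by_cases h3 : χ z = 0
    · simp [h3]
    by_cases h4 : K z w = 0
    · simp [h4]
    rw [hsum w (hs z w hz hw' h3 h4).2]
    ring
  have hint := fun γ : Γ => un_term_int hF hc hC hr hKm hKB hs γ
  rw [h1, integral_integral (f := fun z w => ∑ γ ∈ s, χ z * χ (a γ w) * K z w * hw z * hw w)
    (integrable_finsetSum s fun γ _ => hint γ), integral_finsetSum s fun γ _ => hint γ]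
  refine Finset.sum_congr rfl fun γ _ => ?_
  exact (integral_integral (f := fun z w => χ z * χ (a γ w) * K z w * hw z * hw w)
    (hint γ)).symm

/-- `K` is an invariant bounded kernel which vanishes for `dh z w ≥ ρ`. -/
theorem unfolding (hF : Fuchs a) (hχ : Cut a χ) {K : ℂ → ℂ → ℝ} {B ρ : ℝ}
    (hKm : Measurable (fun p : ℂ × ℂ => K p.1 p.2)) (hKB : ∀ z w, |K z w| ≤ B)
    (hKs : ∀ z w, ‖z‖ < 1 → ‖w‖ < 1 → ρ ≤ dh z w → K z w = 0)
    (hKi : ∀ γ z w, ‖z‖ < 1 → ‖w‖ < 1 → K (a γ z) (a γ w) = K z w) :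
    ∫ z in ball (0 : ℂ) 1, χ z * hw z * ∫ w in ball (0 : ℂ) 1, K z w * hw w =
      ∫ w in ball (0 : ℂ) 1, χ w * hw w * ∫ z in ball (0 : ℂ) 1, K z w * hw z := by
  classical
  obtain ⟨r₁, hr₁, h1⟩ := hχ.supp
  obtain ⟨r₂, hr₂, h2⟩ := exists_radius hr₁ ρ
  obtain ⟨r, hr0⟩ : ∃ r, r = max r₁ r₂ := ⟨_, rfl⟩
  have hr : r < 1 := by rw [hr0]; exact max_lt hr₁ hr₂
  have hr1 : r₁ ≤ r := by rw [hr0]; exact le_max_left _ _
  have hr2 : r₂ ≤ r := by rw [hr0]; exact le_max_right _ _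
  obtain ⟨s₀, hs₀⟩ := hχ.sum r hr
  obtain ⟨s, hs⟩ : ∃ s, s = s₀ ∪ s₀.image (fun γ => γ⁻¹) := ⟨_, rfl⟩
  have hsym : ∀ γ, γ ∈ s ↔ (Equiv.inv Γ) γ ∈ s := by
    intro γ
    rw [hs, Equiv.inv_apply]
    simp only [Finset.mem_union, Finset.mem_image]
    constructor
    · rintro (h | ⟨b, hb, rfl⟩)
      · exact Or.inr ⟨γ, h, rfl⟩
      · exact Or.inl (by rwa [inv_inv])
    · rintro (h | ⟨b, hb, h⟩)
      · exact Or.inr ⟨γ⁻¹, h, inv_inv γ⟩
      · exact Or.inl (by rwa [← inv_injective h])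
  have hsum : ∀ z, ‖z‖ ≤ r → ∑ γ ∈ s, χ (a γ z) = 1 := by
    intro z hz
    rw [← (hs₀ z hz).2]
    refine (Finset.sum_subset ?_ fun γ _ hγ => (hs₀ z hz).1 γ hγ).symm
    rw [hs]
    exact Finset.subset_union_left
  obtain ⟨C, hC⟩ : ∃ C : ℝ, ∀ z, ‖z‖ < 1 → |χ z| ≤ C := by
    obtain ⟨C, hC⟩ := (isCompact_closedBall (0 : ℂ) 1).exists_bound_of_continuousOn
      hχ.cont.continuousOn
    refine ⟨C, fun z hz => ?_⟩
    exact hC z (by rw [mem_closedBall_zero_iff]; exact hz.le)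
  have hχr : ∀ z, χ z ≠ 0 → ‖z‖ ≤ r₁ := by
    intro z hz
    by_contra h
    exact hz (h1 z (not_le.1 h))
  have hd : ∀ z w, ‖z‖ < 1 → ‖w‖ < 1 → K z w ≠ 0 → dh z w ≤ ρ := by
    intro z w hz hw' hK
    by_contra h
    exact hK (hKs z w hz hw' (not_le.1 h).le)
  have ha1 : ∀ z w, ‖z‖ < 1 → ‖w‖ < 1 → χ z ≠ 0 → K z w ≠ 0 → ‖z‖ ≤ r ∧ ‖w‖ ≤ r :=
    fun z w hz hw' hχz hK => ⟨(hχr z hχz).trans hr1,
      (h2 z w (hχr z hχz) hw' (hd z w hz hw' hK)).trans hr2⟩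
  have ha2 : ∀ w z, ‖w‖ < 1 → ‖z‖ < 1 → χ w ≠ 0 → K z w ≠ 0 → ‖w‖ ≤ r ∧ ‖z‖ ≤ r :=
    fun w z hw' hz hχw hK => ⟨(hχr w hχw).trans hr1,
      (h2 w z (hχr w hχw) hz (by rw [dh_comm]; exact hd z w hz hw' hK)).trans hr2⟩
  have hKm' : Measurable (fun p : ℂ × ℂ => (fun w z => K z w) p.1 p.2) :=
    hKm.comp measurable_swap
  rw [un_exp hF hχ.cont hC hr hKm hKB ha1 s hsum,
    un_exp (K := fun w z => K z w) hF hχ.cont hC hr hKm' (fun w z => hKB z w) ha2 s hsum]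
  refine Finset.sum_equiv (Equiv.inv Γ) hsym fun γ _ => ?_
  rw [Equiv.inv_apply]
  have hsw := integral_integral_swap (f := fun z w => χ z * χ (a γ w) * K z w * hw z * hw w)
    (un_term_int hF hχ.cont hC hr hKm hKB ha1 γ)
  rw [hsw]
  obtain ⟨H, hH⟩ : ∃ H : ℂ → ℝ, H = fun w => χ w *
    ∫ z in ball (0 : ℂ) 1, χ (a γ⁻¹ z) * K z w * hw z := ⟨_, rfl⟩
  have e1 : ∫ w in ball (0 : ℂ) 1, ∫ z in ball (0 : ℂ) 1,
      χ z * χ (a γ w) * K z w * hw z * hw w = ∫ w in ball (0 : ℂ) 1, H (a γ w) * hw w := by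
    refine setIntegral_congr_fun measurableSet_ball fun w hw' => ?_
    rw [mem_ball_zero_iff] at hw'
    have e2 : ∫ z in ball (0 : ℂ) 1, χ z * χ (a γ w) * K z w * hw z * hw w =
        (χ (a γ w) * ∫ z in ball (0 : ℂ) 1, (χ z * K z w) * hw z) * hw w := by
      rw [← integral_const_mul, ← integral_mul_const]
      refine integral_congr_ae (Eventually.of_forall fun z => ?_)
      beta_reduce
      ring
    rw [e2, ← integral_fuchs hF γ⁻¹ (fun z => χ z * K z w), hH]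
    beta_reduce
    congr 2
    refine setIntegral_congr_fun measurableSet_ball fun z hz => ?_
    rw [mem_ball_zero_iff] at hz
    rw [← hKi γ (a γ⁻¹ z) w (hF.lt _ z hz) hw', hF.apply_inv γ hz]
  rw [e1, integral_fuchs hF γ H, hH]
  refine setIntegral_congr_fun measurableSet_ball fun w hw' => ?_
  beta_reduce
  rw [← integral_const_mul, ← integral_mul_const]
  refine integral_congr_ae (Eventually.of_forall fun z => ?_)
  beta_reduce
  ring

end Pool.Agent.MP27775c.AHL
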