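import Mathlib
import Pool.Agent.Lib.MP_27775c_an_AHL.Un
import Pool.Agent.Lib.MP_27775c_an_AHL.Dd

/-!
The averaging operators are symmetric on the quotient.
-/

set_option autoImplicit false
set_option linter.unusedSectionVars false

open MeasureTheory Metric Filter Topology Set

namespace Pool.Agent.MP27775c.AHL

variable {Γ : Type*} [Group Γ] {a : Γ → ℂ → ℂ} {χ : ℂ → ℝ}

variable {g h : ℂ → ℝ}

private theorem sy_hw_cont : ContinuousOn hw (ball (0 : ℂ) 1) := by
  unfold hw
  refine ContinuousOn.div continuousOn_const (by fun_prop) fun y hy => ?_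
  rw [mem_ball_zero_iff] at hy
  have h1 : ‖y‖ ^ 2 < 1 := by
    have := norm_nonneg y
    nlinarith
  have h2 : (0 : ℝ) < 1 - ‖y‖ ^ 2 := by linarith
  positivity

private theorem sy_meas {u : ℂ → ℝ} (hu : ContinuousOn u (ball 0 1)) :
    Measurable ((ball (0 : ℂ) 1).indicator u) := by
  classical
  have h1 : Measurable ((ball (0 : ℂ) 1).piecewise u 0) :=
    ContinuousOn.measurable_piecewise hu continuousOn_const measurableSet_ball
  rwa [Set.piecewise_eq_indicator] at h1

private theorem sy_bdd (hF : Fuchs a) (hg : ContinuousOn g (ball 0 1))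
    (gi : ∀ γ z, ‖z‖ < 1 → g (a γ z) = g z) : ∃ B : ℝ, 0 ≤ B ∧ ∀ z, ‖z‖ < 1 → |g z| ≤ B := by
  obtain ⟨B, hB⟩ := (unif_of_inv hF hg gi).2
  have h0 := hB () 0 (by simp)
  exact ⟨B, (abs_nonneg _).trans h0, fun z hz => hB () z hz⟩

/-- exchange of the integrals over time and over the quotient -/
private theorem sy_swap (hχ : Cut a χ) {φ : ℝ → ℂ → ℝ}
    (hc : ContinuousOn (fun p : ℝ × ℂ => φ p.1 p.2) {p | ‖p.2‖ < 1}) {ρ : ℝ} (hρ : 0 ≤ ρ) :
    ∫ t in (0 : ℝ)..ρ, II χ (φ t) =
      ∫ z in ball (0 : ℂ) 1, χ z * hw z * ∫ t in (0 : ℝ)..ρ, φ t z := by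
  obtain ⟨r, hr, hs⟩ := hχ.supp
  have hc1 : ContinuousOn (fun p : ℝ × ℂ => χ p.2 * φ p.1 p.2 * hw p.2)
      (Icc 0 ρ ×ˢ closedBall (0 : ℂ) r) := by
    have h1 : ContinuousOn (fun p : ℝ × ℂ => φ p.1 p.2) (Icc 0 ρ ×ˢ closedBall (0 : ℂ) r) := by
      refine hc.mono fun p hp => ?_
      have h2 := hp.2
      rw [mem_closedBall_zero_iff] at h2
      exact h2.trans_lt hr
    have h3 : ContinuousOn (fun p : ℝ × ℂ => hw p.2) (Icc 0 ρ ×ˢ closedBall (0 : ℂ) r) := by
      refine sy_hw_cont.comp continuousOn_snd fun p hp => ?_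
      exact closedBall_subset_ball hr hp.2
    exact ((hχ.cont.comp_continuousOn continuousOn_snd).mul h1).mul h3
  have hi : Integrable (Function.uncurry fun (t : ℝ) (z : ℂ) => χ z * φ t z * hw z)
      ((volume.restrict (Ioc 0 ρ)).prod (volume.restrict (ball (0 : ℂ) 1))) := by
    rw [Measure.prod_restrict]
    have h4 : IntegrableOn (fun p : ℝ × ℂ => χ p.2 * φ p.1 p.2 * hw p.2)
        (Icc 0 ρ ×ˢ closedBall (0 : ℂ) r) (volume.prod volume) :=
      hc1.integrableOn_compact (isCompact_Icc.prod (isCompact_closedBall 0 r))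
    refine h4.of_forall_sdiff_eq_zero (measurableSet_Ioc.prod measurableSet_ball) fun p hp => ?_
    have h5 : r < ‖p.2‖ := by
      by_contra hcon
      push Not at hcon
      exact hp.2 ⟨⟨hp.1.1.1.le, hp.1.1.2⟩, by rwa [mem_closedBall_zero_iff]⟩
    rw [hs _ h5]
    ring
  have h6 := integral_integral_swap hi
  unfold II
  rw [intervalIntegral.integral_of_le hρ, h6]
  refine integral_congr_ae (ae_of_all _ fun z => ?_)
  simp only
  rw [intervalIntegral.integral_of_le hρ, ← integral_const_mul]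
  refine integral_congr_ae (ae_of_all _ fun t => ?_)
  simp only
  ring

/-- the integral of the kernel over one variable -/
private theorem sy_kernel (hg : ContinuousOn g (ball 0 1)) {z : ℂ} (hz : ‖z‖ < 1) {ρ : ℝ}
    (hρ : 0 ≤ ρ) (c : ℝ) :
    ∫ w in ball (0 : ℂ) 1, (if dh z w < ρ then (ball (0 : ℂ) 1).indicator g w * c else 0) * hw w =
      2 * Real.pi * ((∫ t in (0 : ℝ)..ρ, Real.sinh t * Av t g z) * c) := by
  have hm : MeasurableSet {w : ℂ | dh z w < ρ} :=
    measurableSet_lt (measurable_dh.comp (measurable_const.prodMk measurable_id)) measurable_const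
  have h1 : ∫ w in ball (0 : ℂ) 1,
      (if dh z w < ρ then (ball (0 : ℂ) 1).indicator g w * c else 0) * hw w =
      ∫ w in ball (0 : ℂ) 1, {w : ℂ | dh z w < ρ}.indicator (fun w => g w * hw w * c) w := by
    refine setIntegral_congr_fun measurableSet_ball fun w hw1 => ?_
    by_cases hd : dh z w < ρ
    · have h2 : w ∈ {w : ℂ | dh z w < ρ} := hd
      simp only [if_pos hd, Set.indicator_of_mem hw1, Set.indicator_of_mem h2]
      ring
    · have h2 : w ∉ {w : ℂ | dh z w < ρ} := hd
      simp only [if_neg hd, Set.indicator_of_notMem h2, zero_mul]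
  have h3 : ball (0 : ℂ) 1 ∩ {w : ℂ | dh z w < ρ} = {w : ℂ | ‖w‖ < 1 ∧ dh z w < ρ} := by
    ext w
    simp
  rw [h1, setIntegral_indicator hm, h3, integral_mul_const, ← integral_ball_mob g hz ρ,
    polar_mob hg hz hρ, ← mul_assoc, ← intervalIntegral.integral_const_mul]
  congr 1
  refine intervalIntegral.integral_congr fun t _ => ?_
  ring

private theorem sy_avc (hg : ContinuousOn g (ball 0 1)) (t : ℝ) :
    ContinuousOn (fun z => Av t g z) (ball 0 1) := by
  refine (continuousOn_Av hg).comp (f := fun z : ℂ => (t, z))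
    (continuousOn_const.prodMk continuousOn_id) fun z hz => ?_
  rw [mem_ball_zero_iff] at hz
  exact hz

private theorem sy_avt (hg : ContinuousOn g (ball 0 1)) {z : ℂ} (hz : ‖z‖ < 1) :
    Continuous (fun t => Av t g z) :=
  (continuousOn_Av hg).comp_continuous (f := fun t : ℝ => (t, z)) (by fun_prop) fun _ => hz

private theorem sy_avp (hg : ContinuousOn g (ball 0 1)) (hh : ContinuousOn h (ball 0 1)) :
    ContinuousOn (fun p : ℝ × ℂ => Real.sinh p.1 * (Av p.1 g p.2 * h p.2)) {p | ‖p.2‖ < 1} := by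
  have h1 : ContinuousOn (fun p : ℝ × ℂ => h p.2) {p | ‖p.2‖ < 1} := by
    refine hh.comp continuousOn_snd fun p hp => ?_
    rw [mem_ball_zero_iff]
    exact hp
  exact (Real.continuous_sinh.comp_continuousOn continuousOn_fst).mul
    ((continuousOn_Av hg).mul h1)

/-- one side of the identity -/
private theorem sy_side (hχ : Cut a χ) (hg : ContinuousOn g (ball 0 1))
    (hh : ContinuousOn h (ball 0 1)) {ρ : ℝ} (hρ : 0 ≤ ρ) :
    2 * Real.pi * ∫ t in (0 : ℝ)..ρ, Real.sinh t * II χ (fun z => Av t g z * h z) =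
      ∫ z in ball (0 : ℂ) 1, χ z * hw z * ∫ w in ball (0 : ℂ) 1,
        (if dh z w < ρ then (ball (0 : ℂ) 1).indicator g w * (ball (0 : ℂ) 1).indicator h z
          else 0) * hw w := by
  have h1 := sy_swap hχ (φ := fun t z => Real.sinh t * (Av t g z * h z)) (sy_avp hg hh) hρ
  have h2 : ∀ t : ℝ, II χ (fun z => Real.sinh t * (Av t g z * h z)) =
      Real.sinh t * II χ (fun z => Av t g z * h z) := fun t => II_const_mul _ _
  simp only [h2] at h1
  rw [h1, ← integral_const_mul]
  refine setIntegral_congr_fun measurableSet_ball fun z hz => ?_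
  have hz1 : ‖z‖ < 1 := by simpa using hz
  rw [sy_kernel hg hz1 hρ, Set.indicator_of_mem hz, ← intervalIntegral.integral_mul_const]
  have h3 : ∀ t : ℝ, Real.sinh t * (Av t g z * h z) = Real.sinh t * Av t g z * h z := fun t => by
    ring
  simp only [h3]
  ring

theorem II_ball_symm (hF : Fuchs a) (hχ : Cut a χ) (hg : ContinuousOn g (ball 0 1))
    (hh : ContinuousOn h (ball 0 1)) (gi : ∀ γ z, ‖z‖ < 1 → g (a γ z) = g z)
    (hi : ∀ γ z, ‖z‖ < 1 → h (a γ z) = h z) {ρ : ℝ} (hρ : 0 ≤ ρ) :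
    ∫ t in (0 : ℝ)..ρ, Real.sinh t * II χ (fun z => Av t g z * h z) =
      ∫ t in (0 : ℝ)..ρ, Real.sinh t * II χ (fun z => g z * Av t h z) := by
  have hpi : (0 : ℝ) < 2 * Real.pi := Real.two_pi_pos
  obtain ⟨Bg, hBg0, hBg⟩ := sy_bdd hF hg gi
  obtain ⟨Bh, hBh0, hBh⟩ := sy_bdd hF hh hi
  have hG : ∀ w, |(ball (0 : ℂ) 1).indicator g w| ≤ Bg := by
    intro w
    by_cases hw1 : w ∈ ball (0 : ℂ) 1
    · rw [Set.indicator_of_mem hw1]
      exact hBg w (by simpa using hw1)
    · rw [Set.indicator_of_notMem hw1, abs_zero]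
      exact hBg0
  have hH : ∀ w, |(ball (0 : ℂ) 1).indicator h w| ≤ Bh := by
    intro w
    by_cases hw1 : w ∈ ball (0 : ℂ) 1
    · rw [Set.indicator_of_mem hw1]
      exact hBh w (by simpa using hw1)
    · rw [Set.indicator_of_notMem hw1, abs_zero]
      exact hBh0
  have hU := unfolding hF hχ (K := fun z w =>
    if dh z w < ρ then (ball (0 : ℂ) 1).indicator g w * (ball (0 : ℂ) 1).indicator h z else 0)
    (B := Bg * Bh) (ρ := ρ)
    (Measurable.ite (measurableSet_lt measurable_dh measurable_const)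
      (((sy_meas hg).comp measurable_snd).mul ((sy_meas hh).comp measurable_fst))
      measurable_const)
    (fun z w => by
      split_ifs
      · rw [abs_mul]
        exact mul_le_mul (hG w) (hH z) (abs_nonneg _) hBg0
      · rw [abs_zero]
        exact mul_nonneg hBg0 hBh0)
    (fun z w _ _ hd => if_neg (not_lt.2 hd))
    (fun γ z w hz hw1 => by
      have hz' : z ∈ ball (0 : ℂ) 1 := by simpa using hz
      have hw' : w ∈ ball (0 : ℂ) 1 := by simpa using hw1
      have haz : a γ z ∈ ball (0 : ℂ) 1 := by simpa using hF.lt γ z hz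
      have haw : a γ w ∈ ball (0 : ℂ) 1 := by simpa using hF.lt γ w hw1
      rw [hF.dh_eq γ hz hw1, Set.indicator_of_mem hz', Set.indicator_of_mem hw',
        Set.indicator_of_mem haz, Set.indicator_of_mem haw, gi γ w hw1, hi γ z hz])
  have h1 := sy_side hχ hg hh hρ
  have h2 := sy_side hχ hh hg hρ
  have h3 : ∀ z w : ℂ, (if dh z w < ρ then
      (ball (0 : ℂ) 1).indicator h w * (ball (0 : ℂ) 1).indicator g z else 0) =
      (if dh w z < ρ then
      (ball (0 : ℂ) 1).indicator g z * (ball (0 : ℂ) 1).indicator h w else 0) := by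
    intro z w
    rw [dh_comm, mul_comm ((ball (0 : ℂ) 1).indicator h w)]
  simp only [h3] at h2
  rw [← h1, ← h2] at hU
  have h4 := mul_left_cancel₀ hpi.ne' hU
  rw [h4]
  refine intervalIntegral.integral_congr fun t _ => ?_
  congr 1
  exact II_congr fun z _ => mul_comm _ _

theorem II_symm (hF : Fuchs a) (hχ : Cut a χ) (hg : ContinuousOn g (ball 0 1))
    (hh : ContinuousOn h (ball 0 1)) (gi : ∀ γ z, ‖z‖ < 1 → g (a γ z) = g z)
    (hi : ∀ γ z, ‖z‖ < 1 → h (a γ z) = h z) (R : ℝ) :
    II χ (fun z => Av R g z * h z) = II χ (fun z => g z * Av R h z) := by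
  obtain ⟨Bg, hBg0, hBg⟩ := sy_bdd hF hg gi
  obtain ⟨Bh, hBh0, hBh⟩ := sy_bdd hF hh hi
  have hc1 : Continuous (fun t => II χ (fun z => Av t g z * h z)) := by
    refine II_continuous hχ (φ := fun t z => Av t g z * h z) (B := Bg * Bh)
      (fun t => (sy_avc hg t).mul hh) (fun z hz => (sy_avt hg hz).mul continuous_const) ?_
    intro t z hz
    rw [abs_mul]
    exact mul_le_mul (abs_Av_le hg hz hBg t) (hBh z hz) (abs_nonneg _) hBg0
  have hc2 : Continuous (fun t => II χ (fun z => g z * Av t h z)) := by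
    refine II_continuous hχ (φ := fun t z => g z * Av t h z) (B := Bg * Bh)
      (fun t => hg.mul (sy_avc hh t)) (fun z hz => continuous_const.mul (sy_avt hh hz)) ?_
    intro t z hz
    rw [abs_mul]
    exact mul_le_mul (hBg z hz) (abs_Av_le hh hz hBh t) (abs_nonneg _) hBg0
  have key : ∀ ρ : ℝ, 0 < ρ →
      II χ (fun z => Av ρ g z * h z) = II χ (fun z => g z * Av ρ h z) := by
    intro ρ hρ
    have hd1 := intervalIntegral.integral_hasDerivAt_right (f := fun t => Real.sinh t *
      II χ (fun z => Av t g z * h z)) (a := 0) (b := ρ)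
      ((Real.continuous_sinh.mul hc1).intervalIntegrable _ _)
      ((Real.continuous_sinh.mul hc1).stronglyMeasurableAtFilter _ _)
      (Real.continuous_sinh.mul hc1).continuousAt
    have hd2 := intervalIntegral.integral_hasDerivAt_right (f := fun t => Real.sinh t *
      II χ (fun z => g z * Av t h z)) (a := 0) (b := ρ)
      ((Real.continuous_sinh.mul hc2).intervalIntegrable _ _)
      ((Real.continuous_sinh.mul hc2).stronglyMeasurableAtFilter _ _)
      (Real.continuous_sinh.mul hc2).continuousAt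
    have he : (fun u : ℝ => ∫ t in (0 : ℝ)..u, Real.sinh t * II χ (fun z => g z * Av t h z))
        =ᶠ[𝓝 ρ] fun u : ℝ => ∫ t in (0 : ℝ)..u, Real.sinh t * II χ (fun z => Av t g z * h z) := by
      filter_upwards [lt_mem_nhds hρ] with u hu
      exact (II_ball_symm hF hχ hg hh gi hi hu.le).symm
    have h1 := hd1.unique (hd2.congr_of_eventuallyEq he.symm)
    have hs : Real.sinh ρ ≠ 0 := (Real.sinh_pos_iff.2 hρ).ne'
    exact mul_left_cancel₀ hs h1
  rcases lt_trichotomy R 0 with hR | hR | hR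
  · have h1 := key (-R) (neg_pos.2 hR)
    simp only [Av_neg] at h1
    exact h1
  · subst hR
    refine II_congr fun z _ => ?_
    rw [Av_zero, Av_zero]
  · exact key R hR

theorem II_Av (hF : Fuchs a) (hχ : Cut a χ) (hg : ContinuousOn g (ball 0 1))
    (gi : ∀ γ z, ‖z‖ < 1 → g (a γ z) = g z) (R : ℝ) : II χ (fun z => Av R g z) = II χ g := by
  have h1 := II_symm hF hχ hg (h := fun _ => 1) continuousOn_const gi (fun _ _ _ => rfl) R
  have h2 : II χ (fun z => Av R g z * 1) = II χ (fun z => Av R g z) :=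
    II_congr fun z _ => mul_one _
  have h3 : II χ (fun z => g z * Av R (fun _ => 1) z) = II χ g :=
    II_congr fun z _ => by rw [Av_const, mul_one]
  rw [← h2, ← h3]
  exact h1

theorem II_Av_mul_le (hF : Fuchs a) (hχ : Cut a χ) (hg : ContinuousOn g (ball 0 1))
    (gi : ∀ γ z, ‖z‖ < 1 → g (a γ z) = g z) (R : ℝ) :
    II χ (fun z => Av R g z * g z) ≤ II χ (fun z => g z ^ 2) := by
  have hg2 : ContinuousOn (fun z => g z ^ 2) (ball 0 1) := hg.pow 2
  have hA2 : ContinuousOn (fun z => Av R (fun w => g w ^ 2) z) (ball 0 1) := sy_avc hg2 R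
  have h1 : II χ (fun z => Av R g z * g z) ≤
      II χ (fun z => (1 / 2 : ℝ) * (Av R (fun w => g w ^ 2) z + g z ^ 2)) := by
    refine II_mono hχ ((sy_avc hg R).mul hg) (continuousOn_const.mul (hA2.add hg2)) ?_
    intro z hz
    have h2 := sq_Av_le hg hz R
    nlinarith [sq_nonneg (Av R g z - g z)]
  have h3 : II χ (fun z => Av R (fun w => g w ^ 2) z) = II χ (fun z => g z ^ 2) :=
    II_Av hF hχ hg2 (fun γ z hz => by rw [gi γ z hz]) R
  rw [II_const_mul, II_add hχ hA2 hg2, h3] at h1
  linarith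

end Pool.Agent.MP27775c.AHL
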