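import Mathlib
import Pool.Agent.Lib.MP_27775c_an_AHL.Sy
import Pool.Agent.Lib.MP_27775c_an_AHL.Sm
import Pool.Agent.Lib.MP_27775c_an_AHL.Bt

/-!
Symmetry and sign of `Φ⋅⋅ + Φ⋅` for the elements of `Sol`.
-/

set_option autoImplicit false
set_option linter.unusedSectionVars false

open MeasureTheory Metric Filter Topology Set

namespace Pool.Agent.MP27775c.AHL

variable {Γ : Type*} [Group Γ] {a : Γ → ℂ → ℂ} {χ : ℂ → ℝ}

variable {Φ Ψ : ℕ → ℝ → ℂ → ℝ}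

private theorem en_small {x K : ℝ} (hK : 0 ≤ K) (h : ∀ S : ℝ, 0 < S → S ≤ 1 → x ≤ K * S) :
    x ≤ 0 := by
  by_contra hx
  push Not at hx
  have hK1 : 0 < 2 * (K + 1) := by linarith
  have h1 := h (min 1 (x / (2 * (K + 1)))) (lt_min one_pos (div_pos hx hK1)) (min_le_left _ _)
  have h2 : K * min 1 (x / (2 * (K + 1))) ≤ (K + 1) * (x / (2 * (K + 1))) := by
    apply mul_le_mul (by linarith) (min_le_right _ _) (le_min zero_le_one (div_pos hx hK1).le)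
      (by linarith)
  have h3 : (K + 1) * (x / (2 * (K + 1))) = x / 2 := by
    field_simp
  linarith

private theorem en_bound (hΦ : Tower a Φ 3) :
    ∃ M : ℝ, 0 ≤ M ∧ ∀ k, k ≤ 3 → ∀ t z, ‖z‖ < 1 → |Φ k t z| ≤ M := by
  obtain ⟨B0, h0⟩ := (hΦ.sol 0 (by norm_num)).bdd
  obtain ⟨B1, h1⟩ := (hΦ.sol 1 (by norm_num)).bdd
  obtain ⟨B2, h2⟩ := (hΦ.sol 2 (by norm_num)).bdd
  obtain ⟨B3, h3⟩ := (hΦ.sol 3 (by norm_num)).bdd
  refine ⟨max (max |B0| |B1|) (max |B2| |B3|), ?_, ?_⟩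
  · exact (abs_nonneg B0).trans ((le_max_left _ _).trans (le_max_left _ _))
  · intro k hk t z hz
    interval_cases k
    · exact (h0 t z hz).trans ((le_abs_self _).trans ((le_max_left _ _).trans (le_max_left _ _)))
    · exact (h1 t z hz).trans ((le_abs_self _).trans ((le_max_right _ _).trans (le_max_left _ _)))
    · exact (h2 t z hz).trans ((le_abs_self _).trans ((le_max_left _ _).trans (le_max_right _ _)))
    · exact (h3 t z hz).trans ((le_abs_self _).trans ((le_max_right _ _).trans (le_max_right _ _)))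

private theorem en_exp (hΦ : Tower a Φ 3) : ∃ C : ℝ, 0 ≤ C ∧ ∀ t S z, ‖z‖ < 1 → 0 ≤ S → S ≤ 1 →
    |Av S (Φ 0 t) z - Φ 0 t z - S ^ 2 / 4 * (Φ 1 t z + Φ 2 t z)| ≤ C * S ^ 3 := by
  obtain ⟨M, hM, hb⟩ := en_bound hΦ
  obtain ⟨C, hC, hT⟩ := taylor_avg
  refine ⟨C * M, mul_nonneg hC hM, fun t S z hz hS0 hS1 => ?_⟩
  have h1 := hT (fun t => Φ 0 t z) (fun t => Φ 1 t z) (fun t => Φ 2 t z) (fun t => Φ 3 t z) M
    (fun t => hΦ.der 0 (by norm_num) t z hz) (fun t => hΦ.der 1 (by norm_num) t z hz)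
    (fun t => hΦ.der 2 (by norm_num) t z hz) (fun t => hb 1 (by norm_num) t z hz)
    (fun t => hb 2 (by norm_num) t z hz) (fun t => hb 3 (by norm_num) t z hz) t S hS0 hS1
  rw [(hΦ.sol 0 (by norm_num)).wave S t z hS0 hz]
  exact h1

private theorem en_cont_Av {u : ℂ → ℝ} (hu : ContinuousOn u (ball 0 1)) (S : ℝ) :
    ContinuousOn (fun z => Av S u z) (ball 0 1) := by
  have h := continuousOn_Av hu
  have h2 : ContinuousOn (fun z : ℂ => (S, z)) (ball 0 1) := by fun_prop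
  have h3 : MapsTo (fun z : ℂ => (S, z)) (ball 0 1) {p : ℝ × ℂ | ‖p.2‖ < 1} := by
    intro z hz
    exact mem_ball_zero_iff.1 hz
  exact ContinuousOn.comp (g := fun p : ℝ × ℂ => Av p.1 u p.2) (f := fun z : ℂ => (S, z)) h h2 h3

private theorem en_key (hχ : Cut a χ) (hΦ : Tower a Φ 3) {g : ℂ → ℝ}
    (hg : ContinuousOn g (ball 0 1)) {N : ℝ} (hgN : ∀ z, ‖z‖ < 1 → |g z| ≤ N) (t : ℝ) :
    ∃ K : ℝ, 0 ≤ K ∧ ∀ S : ℝ, 0 ≤ S → S ≤ 1 →
      |II χ (fun z => Av S (Φ 0 t) z * g z) - II χ (fun z => Φ 0 t z * g z) -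
        S ^ 2 / 4 * II χ (fun z => (Φ 2 t z + Φ 1 t z) * g z)| ≤ K * S ^ 3 := by
  obtain ⟨C, hC, hE⟩ := en_exp hΦ
  have hN : 0 ≤ N := (abs_nonneg (g 0)).trans (hgN 0 (by simp))
  have hI : 0 ≤ II χ (fun _ => 1) := II_nonneg hχ (fun _ _ => zero_le_one)
  refine ⟨C * N * II χ (fun _ => 1), by positivity, fun S hS0 hS1 => ?_⟩
  have c0 := (hΦ.sol 0 (by norm_num)).cont_z t
  have c1 := (hΦ.sol 1 (by norm_num)).cont_z t
  have c2 := (hΦ.sol 2 (by norm_num)).cont_z t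
  have cA := en_cont_Av c0 S
  have e1 : II χ (fun z => Av S (Φ 0 t) z * g z) - II χ (fun z => Φ 0 t z * g z) -
        S ^ 2 / 4 * II χ (fun z => (Φ 2 t z + Φ 1 t z) * g z) =
      II χ (fun z => (Av S (Φ 0 t) z * g z - Φ 0 t z * g z) -
        S ^ 2 / 4 * ((Φ 2 t z + Φ 1 t z) * g z)) := by
    have f1 : ContinuousOn (fun z => Av S (Φ 0 t) z * g z) (ball 0 1) := cA.mul hg
    have f2 : ContinuousOn (fun z => Φ 0 t z * g z) (ball 0 1) := c0.mul hg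
    have f3 : ContinuousOn (fun z => Av S (Φ 0 t) z * g z - Φ 0 t z * g z) (ball 0 1) := f1.sub f2
    have f4 : ContinuousOn (fun z => S ^ 2 / 4 * ((Φ 2 t z + Φ 1 t z) * g z)) (ball 0 1) :=
      continuousOn_const.mul ((c2.add c1).mul hg)
    rw [II_sub hχ f3 f4, II_sub hχ f1 f2, II_const_mul]
  rw [e1]
  have h1 := abs_II_le hχ (g := fun z => (Av S (Φ 0 t) z * g z - Φ 0 t z * g z) -
        S ^ 2 / 4 * ((Φ 2 t z + Φ 1 t z) * g z)) (B := C * S ^ 3 * N)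
    (((cA.mul hg).sub (c0.mul hg)).sub (continuousOn_const.mul ((c2.add c1).mul hg))) (by
      intro z hz
      have e2 : (Av S (Φ 0 t) z * g z - Φ 0 t z * g z) - S ^ 2 / 4 * ((Φ 2 t z + Φ 1 t z) * g z) =
          (Av S (Φ 0 t) z - Φ 0 t z - S ^ 2 / 4 * (Φ 1 t z + Φ 2 t z)) * g z := by ring
      rw [e2, abs_mul]
      exact mul_le_mul (hE t S z hz hS0 hS1) (hgN z hz) (abs_nonneg _) (by positivity))
  calc _ ≤ C * S ^ 3 * N * II χ (fun _ => 1) := h1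
    _ = C * N * II χ (fun _ => 1) * S ^ 3 := by ring

theorem wave_symm (hF : Fuchs a) (hχ : Cut a χ) (hΦ : Tower a Φ 3) (hΨ : Tower a Ψ 3) (t t' : ℝ) :
    II χ (fun z => (Φ 2 t z + Φ 1 t z) * Ψ 0 t' z) =
      II χ (fun z => Φ 0 t z * (Ψ 2 t' z + Ψ 1 t' z)) := by
  obtain ⟨M, hM, hbΦ⟩ := en_bound hΦ
  obtain ⟨M', hM', hbΨ⟩ := en_bound hΨ
  have cΦ := (hΦ.sol 0 (by norm_num)).cont_z t
  have cΨ := (hΨ.sol 0 (by norm_num)).cont_z t'
  obtain ⟨K, hK, h1⟩ := en_key hχ hΦ cΨ (hbΨ 0 (by norm_num) t') t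
  obtain ⟨K', hK', h2⟩ := en_key hχ hΨ cΦ (hbΦ 0 (by norm_num) t) t'
  have hcomm : II χ (fun z => (Ψ 2 t' z + Ψ 1 t' z) * Φ 0 t z) =
      II χ (fun z => Φ 0 t z * (Ψ 2 t' z + Ψ 1 t' z)) := by
    congr 1
    funext z
    ring
  rw [← hcomm]
  have hle : |II χ (fun z => (Φ 2 t z + Φ 1 t z) * Ψ 0 t' z) -
      II χ (fun z => (Ψ 2 t' z + Ψ 1 t' z) * Φ 0 t z)| ≤ 0 := by
    apply en_small (K := 4 * (K + K')) (by positivity)
    intro S hS0 hS1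
    have a1 := h1 S hS0.le hS1
    have a2 := h2 S hS0.le hS1
    have e1 : II χ (fun z => Av S (Φ 0 t) z * Ψ 0 t' z) =
        II χ (fun z => Av S (Ψ 0 t') z * Φ 0 t z) := by
      rw [II_symm hF hχ cΦ cΨ (fun γ z hz => (hΦ.sol 0 (by norm_num)).inv γ t z hz)
        (fun γ z hz => (hΨ.sol 0 (by norm_num)).inv γ t' z hz) S]
      congr 1
      funext z
      ring
    have e2 : II χ (fun z => Φ 0 t z * Ψ 0 t' z) = II χ (fun z => Ψ 0 t' z * Φ 0 t z) := by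
      congr 1
      funext z
      ring
    rw [e1, e2] at a1
    rw [abs_le] at a1 a2
    have hS2 : 0 < S ^ 2 := by positivity
    set x := II χ (fun z => (Φ 2 t z + Φ 1 t z) * Ψ 0 t' z) with hx
    set y := II χ (fun z => (Ψ 2 t' z + Ψ 1 t' z) * Φ 0 t z) with hy
    have b1 : S ^ 2 * (x - y) ≤ S ^ 2 * (4 * (K + K') * S) := by
      have : S ^ 2 * (4 * (K + K') * S) = 4 * (K * S ^ 3 + K' * S ^ 3) := by ring
      rw [this]
      linarith [a1.1, a1.2, a2.1, a2.2]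
    have b2 : S ^ 2 * (y - x) ≤ S ^ 2 * (4 * (K + K') * S) := by
      have : S ^ 2 * (4 * (K + K') * S) = 4 * (K * S ^ 3 + K' * S ^ 3) := by ring
      rw [this]
      linarith [a1.1, a1.2, a2.1, a2.2]
    have c1 := le_of_mul_le_mul_left b1 hS2
    have c2 := le_of_mul_le_mul_left b2 hS2
    rw [abs_le]
    constructor <;> linarith
  exact sub_eq_zero.1 (abs_nonpos_iff.1 hle)

theorem wave_nonpos (hF : Fuchs a) (hχ : Cut a χ) (hΦ : Tower a Φ 3) (t : ℝ) :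
    II χ (fun z => (Φ 2 t z + Φ 1 t z) * Φ 0 t z) ≤ 0 := by
  obtain ⟨M, hM, hbΦ⟩ := en_bound hΦ
  have cΦ := (hΦ.sol 0 (by norm_num)).cont_z t
  obtain ⟨K, hK, h1⟩ := en_key hχ hΦ cΦ (hbΦ 0 (by norm_num) t) t
  apply en_small (K := 4 * K) (by positivity)
  intro S hS0 hS1
  have a1 := h1 S hS0.le hS1
  have a2 := II_Av_mul_le hF hχ cΦ (fun γ z hz => (hΦ.sol 0 (by norm_num)).inv γ t z hz) S
  have e2 : II χ (fun z => Φ 0 t z * Φ 0 t z) = II χ (fun z => Φ 0 t z ^ 2) := by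
    congr 1
    funext z
    ring
  rw [e2, abs_le] at a1
  have hS2 : 0 < S ^ 2 := by positivity
  have b1 : S ^ 2 * II χ (fun z => (Φ 2 t z + Φ 1 t z) * Φ 0 t z) ≤ S ^ 2 * (4 * K * S) := by
    have : S ^ 2 * (4 * K * S) = 4 * (K * S ^ 3) := by ring
    rw [this]
    linarith [a1.1, a1.2]
  exact le_of_mul_le_mul_left b1 hS2

end Pool.Agent.MP27775c.AHL
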