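import Mathlib
import Pool.Agent.Lib.MP_27775c_an_AHL.En
import Pool.Agent.Lib.MP_27775c_an_AHL.Ba

/-!
The energy of a smooth element of `Sol`.
-/

set_option autoImplicit false
set_option linter.unusedSectionVars false

open MeasureTheory Metric Filter Topology Set

namespace Pool.Agent.MP27775c.AHL

variable {Γ : Type*} [Group Γ] {a : Γ → ℂ → ℂ} {χ : ℂ → ℝ}

variable {Ψ : ℕ → ℝ → ℂ → ℝ}

/-- The energy. -/
noncomputable def Erg (χ : ℂ → ℝ) (Ψ : ℕ → ℝ → ℂ → ℝ) (t : ℝ) : ℝ :=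
  II χ (fun z => Ψ 1 t z ^ 2) - II χ (fun z => (Ψ 2 t z + Ψ 1 t z) * Ψ 0 t z)

private theorem er_bd (hΨ : Tower a Ψ 3) :
    ∃ B : ℝ, 0 ≤ B ∧ ∀ k, k ≤ 3 → ∀ t z, ‖z‖ < 1 → |Ψ k t z| ≤ B := by
  have h1 : ∀ k, ∃ B : ℝ, k ≤ 3 → ∀ t z, ‖z‖ < 1 → |Ψ k t z| ≤ B := by
    intro k
    by_cases hk : k ≤ 3
    · obtain ⟨B, hB⟩ := (hΨ.sol k hk).bdd
      exact ⟨B, fun _ => hB⟩
    · exact ⟨0, fun h => absurd h hk⟩
  choose b hb using h1
  have h2 : ∀ k, k ≤ 3 → b k ≤ |b 0| + |b 1| + |b 2| + |b 3| := by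
    intro k hk
    have e0 := le_abs_self (b 0)
    have e1 := le_abs_self (b 1)
    have e2 := le_abs_self (b 2)
    have e3 := le_abs_self (b 3)
    have f0 := abs_nonneg (b 0)
    have f1 := abs_nonneg (b 1)
    have f2 := abs_nonneg (b 2)
    have f3 := abs_nonneg (b 3)
    interval_cases k <;> linarith
  exact ⟨|b 0| + |b 1| + |b 2| + |b 3|, by positivity,
    fun k hk t z hz => (hb k hk t z hz).trans (h2 k hk)⟩

private theorem er_c (hΨ : Tower a Ψ 3) (k : ℕ) (hk : k ≤ 3) (t : ℝ) :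
    ContinuousOn (Ψ k t) (ball 0 1) := (hΨ.sol k hk).cont_z t

private theorem er_mul {x y B : ℝ} (hx : |x| ≤ B) (hy : |y| ≤ B) : |x * y| ≤ B ^ 2 := by
  rw [abs_mul, sq]
  exact mul_le_mul hx hy (abs_nonneg _) ((abs_nonneg _).trans hx)

private theorem er_mul2 {x x' y B : ℝ} (hx : |x| ≤ B) (hx' : |x'| ≤ B) (hy : |y| ≤ B) :
    |(x + x') * y| ≤ 2 * B ^ 2 := by
  have h1 := er_mul hx hy
  have h2 := er_mul hx' hy
  have h3 := abs_add_le (x * y) (x' * y)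
  rw [add_mul]
  linarith

private theorem er_d1 (hχ : Cut a χ) (hΨ : Tower a Ψ 3) (t : ℝ) :
    HasDerivAt (fun s => II χ (fun z => Ψ 1 s z ^ 2)) (II χ (fun z => 2 * (Ψ 2 t z * Ψ 1 t z)))
      t := by
  obtain ⟨B, hB0, hB⟩ := er_bd hΨ
  refine II_hasDerivAt hχ (φ := fun s z => Ψ 1 s z ^ 2)
    (φ' := fun s z => 2 * (Ψ 2 s z * Ψ 1 s z)) (B := 2 * B ^ 2) ?_ ?_ ?_ ?_ t
  · intro t
    exact (er_c hΨ 1 (by omega) t).pow 2
  · intro t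
    exact continuousOn_const.mul ((er_c hΨ 2 (by omega) t).mul (er_c hΨ 1 (by omega) t))
  · intro t z hz
    refine ((hΨ.der 1 (by omega) t z hz).pow 2).congr_deriv ?_
    push_cast
    ring
  · intro t z hz
    rw [abs_mul, abs_two]
    have := er_mul (hB 2 (by omega) t z hz) (hB 1 (by omega) t z hz)
    linarith

private theorem er_d2 (hχ : Cut a χ) (hΨ : Tower a Ψ 3) (t t' : ℝ) :
    HasDerivAt (fun s => II χ (fun z => (Ψ 2 t z + Ψ 1 t z) * Ψ 0 s z))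
      (II χ (fun z => (Ψ 2 t z + Ψ 1 t z) * Ψ 1 t' z)) t' := by
  obtain ⟨B, hB0, hB⟩ := er_bd hΨ
  refine II_hasDerivAt hχ (φ := fun s z => (Ψ 2 t z + Ψ 1 t z) * Ψ 0 s z)
    (φ' := fun s z => (Ψ 2 t z + Ψ 1 t z) * Ψ 1 s z) (B := 2 * B ^ 2) ?_ ?_ ?_ ?_ t'
  · intro s
    exact ((er_c hΨ 2 (by omega) t).add (er_c hΨ 1 (by omega) t)).mul (er_c hΨ 0 (by omega) s)
  · intro s
    exact ((er_c hΨ 2 (by omega) t).add (er_c hΨ 1 (by omega) t)).mul (er_c hΨ 1 (by omega) s)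
  · intro s z hz
    exact (hΨ.der 0 (by omega) s z hz).const_mul _
  · intro s z hz
    exact er_mul2 (hB 2 (by omega) t z hz) (hB 1 (by omega) t z hz) (hB 1 (by omega) s z hz)

private theorem er_d3 (hχ : Cut a χ) (hΨ : Tower a Ψ 3) (t t' : ℝ) :
    HasDerivAt (fun s => II χ (fun z => Ψ 0 t z * (Ψ 2 s z + Ψ 1 s z)))
      (II χ (fun z => (Ψ 3 t' z + Ψ 2 t' z) * Ψ 0 t z)) t' := by
  obtain ⟨B, hB0, hB⟩ := er_bd hΨ
  refine II_hasDerivAt hχ (φ := fun s z => Ψ 0 t z * (Ψ 2 s z + Ψ 1 s z))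
    (φ' := fun s z => (Ψ 3 s z + Ψ 2 s z) * Ψ 0 t z) (B := 2 * B ^ 2) ?_ ?_ ?_ ?_ t'
  · intro s
    exact (er_c hΨ 0 (by omega) t).mul ((er_c hΨ 2 (by omega) s).add (er_c hΨ 1 (by omega) s))
  · intro s
    exact ((er_c hΨ 3 (by omega) s).add (er_c hΨ 2 (by omega) s)).mul (er_c hΨ 0 (by omega) t)
  · intro s z hz
    refine (((hΨ.der 2 (by omega) s z hz).add
      (hΨ.der 1 (by omega) s z hz)).const_mul (Ψ 0 t z)).congr_deriv ?_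
    exact mul_comm _ _
  · intro s z hz
    exact er_mul2 (hB 3 (by omega) s z hz) (hB 2 (by omega) s z hz) (hB 0 (by omega) t z hz)

private theorem er_d4 (hχ : Cut a χ) (hΨ : Tower a Ψ 3) (t : ℝ) :
    HasDerivAt (fun s => II χ (fun z => (Ψ 2 s z + Ψ 1 s z) * Ψ 0 s z))
      (II χ (fun z => (Ψ 3 t z + Ψ 2 t z) * Ψ 0 t z + (Ψ 2 t z + Ψ 1 t z) * Ψ 1 t z)) t := by
  obtain ⟨B, hB0, hB⟩ := er_bd hΨ
  refine II_hasDerivAt hχ (φ := fun s z => (Ψ 2 s z + Ψ 1 s z) * Ψ 0 s z)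
    (φ' := fun s z => (Ψ 3 s z + Ψ 2 s z) * Ψ 0 s z + (Ψ 2 s z + Ψ 1 s z) * Ψ 1 s z)
    (B := 4 * B ^ 2) ?_ ?_ ?_ ?_ t
  · intro s
    exact ((er_c hΨ 2 (by omega) s).add (er_c hΨ 1 (by omega) s)).mul (er_c hΨ 0 (by omega) s)
  · intro s
    exact (((er_c hΨ 3 (by omega) s).add (er_c hΨ 2 (by omega) s)).mul
      (er_c hΨ 0 (by omega) s)).add
      (((er_c hΨ 2 (by omega) s).add (er_c hΨ 1 (by omega) s)).mul (er_c hΨ 1 (by omega) s))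
  · intro s z hz
    exact ((hΨ.der 2 (by omega) s z hz).add (hΨ.der 1 (by omega) s z hz)).mul
      (hΨ.der 0 (by omega) s z hz)
  · intro s z hz
    have h1 := er_mul2 (hB 3 (by omega) s z hz) (hB 2 (by omega) s z hz)
      (hB 0 (by omega) s z hz)
    have h2 := er_mul2 (hB 2 (by omega) s z hz) (hB 1 (by omega) s z hz)
      (hB 1 (by omega) s z hz)
    have h3 := abs_add_le ((Ψ 3 s z + Ψ 2 s z) * Ψ 0 s z) ((Ψ 2 s z + Ψ 1 s z) * Ψ 1 s z)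
    linarith

theorem Erg_hasDerivAt (hF : Fuchs a) (hχ : Cut a χ) (hΨ : Tower a Ψ 3) (t : ℝ) :
    HasDerivAt (Erg χ Ψ) (-2 * II χ (fun z => Ψ 1 t z ^ 2)) t := by
  have c0 := er_c hΨ 0 (by omega) t
  have c1 := er_c hΨ 1 (by omega) t
  have c2 := er_c hΨ 2 (by omega) t
  have c3 := er_c hΨ 3 (by omega) t
  have hsym : II χ (fun z => (Ψ 2 t z + Ψ 1 t z) * Ψ 1 t z) =
      II χ (fun z => (Ψ 3 t z + Ψ 2 t z) * Ψ 0 t z) := by
    have h1 := er_d2 hχ hΨ t t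
    have h2 := er_d3 hχ hΨ t t
    have h3 : (fun s => II χ (fun z => (Ψ 2 t z + Ψ 1 t z) * Ψ 0 s z)) =
        fun s => II χ (fun z => Ψ 0 t z * (Ψ 2 s z + Ψ 1 s z)) := by
      funext s
      exact wave_symm hF hχ hΨ hΨ t s
    rw [h3] at h1
    exact h1.unique h2
  refine ((er_d1 hχ hΨ t).sub (er_d4 hχ hΨ t)).congr_deriv ?_
  rw [II_add hχ (g := fun z => (Ψ 3 t z + Ψ 2 t z) * Ψ 0 t z)
    (h := fun z => (Ψ 2 t z + Ψ 1 t z) * Ψ 1 t z) ((c3.add c2).mul c0) ((c2.add c1).mul c1),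
    ← hsym, II_const_mul]
  have h4 : II χ (fun z => (Ψ 2 t z + Ψ 1 t z) * Ψ 1 t z) =
      II χ (fun z => Ψ 2 t z * Ψ 1 t z) + II χ (fun z => Ψ 1 t z ^ 2) := by
    rw [← II_add hχ (g := fun z => Ψ 2 t z * Ψ 1 t z) (h := fun z => Ψ 1 t z ^ 2)
      (c2.mul c1) (c1.pow 2)]
    exact II_congr fun z _ => by ring
  rw [h4]
  ring

theorem le_Erg (hF : Fuchs a) (hχ : Cut a χ) (hΨ : Tower a Ψ 3) (t : ℝ) :
    II χ (fun z => Ψ 1 t z ^ 2) ≤ Erg χ Ψ t := by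
  have h1 := wave_nonpos hF hχ hΨ t
  unfold Erg
  linarith

theorem Erg_bdd (hF : Fuchs a) (hχ : Cut a χ) (hΨ : Tower a Ψ 3) : ∃ M : ℝ, ∀ t, |Erg χ Ψ t| ≤ M := by
  obtain ⟨B, hB0, hB⟩ := er_bd hΨ
  have h1 := II_one_pos hF hχ
  refine ⟨B ^ 2 * II χ (fun _ => 1) + 2 * B ^ 2 * II χ (fun _ => 1), fun t => ?_⟩
  have h2 : |II χ (fun z => Ψ 1 t z ^ 2)| ≤ B ^ 2 * II χ (fun _ => 1) := by
    refine abs_II_le hχ ((er_c hΨ 1 (by omega) t).pow 2) fun z hz => ?_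
    rw [sq]
    exact er_mul (hB 1 (by omega) t z hz) (hB 1 (by omega) t z hz)
  have h3 : |II χ (fun z => (Ψ 2 t z + Ψ 1 t z) * Ψ 0 t z)| ≤
      2 * B ^ 2 * II χ (fun _ => 1) := by
    refine abs_II_le hχ (((er_c hΨ 2 (by omega) t).add (er_c hΨ 1 (by omega) t)).mul
      (er_c hΨ 0 (by omega) t)) fun z hz => ?_
    exact er_mul2 (hB 2 (by omega) t z hz) (hB 1 (by omega) t z hz) (hB 0 (by omega) t z hz)
  unfold Erg
  have h4 := abs_sub (II χ (fun z => Ψ 1 t z ^ 2)) (II χ (fun z => (Ψ 2 t z + Ψ 1 t z) * Ψ 0 t z))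
  linarith

theorem tendsto_der_sq (hF : Fuchs a) (hχ : Cut a χ) (hΨ : Tower a Ψ 3) :
    Tendsto (fun t => II χ (fun z => Ψ 1 t z ^ 2)) atBot (𝓝 0) := by
  obtain ⟨M, hM⟩ := Erg_bdd hF hχ hΨ
  obtain ⟨B, hB0, hB⟩ := er_bd hΨ
  refine barbalat (E := Erg χ Ψ) (M := M) (L := 2 * B ^ 2 * II χ (fun _ => 1))
    (Erg_hasDerivAt hF hχ hΨ) hM (fun t => II_nonneg hχ fun z _ => sq_nonneg _) fun s t => ?_
  have h1 := Convex.norm_image_sub_le_of_norm_hasDerivWithin_le (𝕜 := ℝ) (s := univ)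
    (f := fun t => II χ (fun z => Ψ 1 t z ^ 2)) (C := 2 * B ^ 2 * II χ (fun _ => 1))
    (fun x _ => (er_d1 hχ hΨ x).hasDerivWithinAt) (fun x _ => by
      rw [Real.norm_eq_abs]
      refine abs_II_le hχ (continuousOn_const.mul ((er_c hΨ 2 (by omega) x).mul
        (er_c hΨ 1 (by omega) x))) fun z hz => ?_
      rw [abs_mul, abs_two]
      have := er_mul (hB 2 (by omega) x z hz) (hB 1 (by omega) x z hz)
      linarith) convex_univ (mem_univ t) (mem_univ s)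
  rwa [Real.norm_eq_abs, Real.norm_eq_abs] at h1

end Pool.Agent.MP27775c.AHL
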