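import Mathlib
import Pool.Agent.Lib.MP_27775c_an_AHL.Er
import Pool.Agent.Lib.MP_27775c_an_AHL.Mx

/-!
The Liouville theorem: the elements of `Sol` are constant.
-/

set_option autoImplicit false
set_option linter.unusedSectionVars false

open MeasureTheory Metric Filter Topology Set

namespace Pool.Agent.MP27775c.AHL

variable {Γ : Type*} [Group Γ] {a : Γ → ℂ → ℂ}

theorem Tower.der_eq_zero (hF : Fuchs a) {Ψ : ℕ → ℝ → ℂ → ℝ} (hΨ : Tower a Ψ 4) (t : ℝ) {z : ℂ}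
    (hz : ‖z‖ < 1) : Ψ 1 t z = 0 := by
  obtain ⟨χ, hχ⟩ := exists_cut hF
  have h3 : Tower a Ψ 3 := hΨ.mono (by norm_num)
  have hs : Tower a (fun k => Ψ (k + 1)) 3 := hΨ.succ
  have hP1 : Tendsto (fun t => II χ (fun z => Ψ 1 t z ^ 2)) atBot (𝓝 0) :=
    tendsto_der_sq hF hχ h3
  have hP2 : Tendsto (fun t => II χ (fun z => Ψ 2 t z ^ 2)) atBot (𝓝 0) :=
    tendsto_der_sq hF hχ hs
  have c0 : ∀ t, ContinuousOn (Ψ 0 t) (ball 0 1) := (h3.sol 0 (by norm_num)).cont_z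
  have c1 : ∀ t, ContinuousOn (Ψ 1 t) (ball 0 1) := (h3.sol 1 (by norm_num)).cont_z
  have c2 : ∀ t, ContinuousOn (Ψ 2 t) (ball 0 1) := (h3.sol 2 (by norm_num)).cont_z
  obtain ⟨B, hB⟩ := (h3.sol 0 (by norm_num)).bdd
  set C : ℝ := B ^ 2 * II χ (fun _ => 1) with hC
  have hII0 : ∀ t, II χ (fun z => Ψ 0 t z ^ 2) ≤ C := by
    intro t
    have h := abs_II_le hχ ((c0 t).pow 2) (B := B ^ 2) (fun z hz => by
      change |Ψ 0 t z ^ 2| ≤ B ^ 2
      rw [abs_pow]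
      exact pow_le_pow_left₀ (abs_nonneg _) (hB t z hz) 2)
    exact (le_abs_self _).trans h
  have hX : ∀ t, (II χ (fun z => (Ψ 2 t z + Ψ 1 t z) * Ψ 0 t z)) ^ 2 ≤
      (2 * II χ (fun z => Ψ 2 t z ^ 2) + 2 * II χ (fun z => Ψ 1 t z ^ 2)) * C := by
    intro t
    have e1 := II_cs hχ ((c2 t).add (c1 t)) (c0 t)
    have e2 : II χ (fun z => (Ψ 2 t z + Ψ 1 t z) ^ 2) ≤
        2 * II χ (fun z => Ψ 2 t z ^ 2) + 2 * II χ (fun z => Ψ 1 t z ^ 2) := by
      have d2 : ContinuousOn (fun z => 2 * Ψ 2 t z ^ 2) (ball 0 1) :=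
        continuousOn_const.mul ((c2 t).pow 2)
      have d1 : ContinuousOn (fun z => 2 * Ψ 1 t z ^ 2) (ball 0 1) :=
        continuousOn_const.mul ((c1 t).pow 2)
      have d0 : ContinuousOn (fun z => (Ψ 2 t z + Ψ 1 t z) ^ 2) (ball 0 1) :=
        ((c2 t).add (c1 t)).pow 2
      rw [← II_const_mul, ← II_const_mul, ← II_add hχ d2 d1]
      refine II_mono hχ d0 (d2.add d1) fun z _ => ?_
      linarith [sq_nonneg (Ψ 2 t z - Ψ 1 t z)]
    have e3 : 0 ≤ II χ (fun z => Ψ 0 t z ^ 2) := II_nonneg hχ fun z _ => sq_nonneg _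
    have e4 : 0 ≤ 2 * II χ (fun z => Ψ 2 t z ^ 2) + 2 * II χ (fun z => Ψ 1 t z ^ 2) := by
      have := II_nonneg hχ (g := fun z => Ψ 2 t z ^ 2) fun z _ => sq_nonneg _
      have := II_nonneg hχ (g := fun z => Ψ 1 t z ^ 2) fun z _ => sq_nonneg _
      linarith
    refine e1.trans ?_
    exact mul_le_mul e2 (hII0 t) e3 e4
  have hXt : Tendsto (fun t => II χ (fun z => (Ψ 2 t z + Ψ 1 t z) * Ψ 0 t z)) atBot (𝓝 0) := by
    have e1 : Tendsto (fun t => Real.sqrt ((2 * II χ (fun z => Ψ 2 t z ^ 2) +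
        2 * II χ (fun z => Ψ 1 t z ^ 2)) * C)) atBot (𝓝 0) := by
      have e2 := ((hP2.const_mul 2).add (hP1.const_mul 2)).mul_const C
      have e3 := (Real.continuous_sqrt.tendsto _).comp e2
      simp only [mul_zero, add_zero, zero_mul, Real.sqrt_zero] at e3
      exact e3
    refine squeeze_zero_norm (fun t => ?_) e1
    rw [Real.norm_eq_abs]
    exact Real.abs_le_sqrt (hX t)
  have hE : Tendsto (Erg χ Ψ) atBot (𝓝 0) := by
    have e1 := hP1.sub hXt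
    rw [sub_zero] at e1
    exact e1
  have hanti : Antitone (Erg χ Ψ) := by
    refine antitone_of_deriv_nonpos (fun t => (Erg_hasDerivAt hF hχ h3 t).differentiableAt) ?_
    intro t
    rw [(Erg_hasDerivAt hF hχ h3 t).deriv]
    have := II_nonneg hχ (g := fun z => Ψ 1 t z ^ 2) fun z _ => sq_nonneg _
    linarith
  have hle : Erg χ Ψ t ≤ 0 := by
    refine ge_of_tendsto hE ?_
    filter_upwards [eventually_le_atBot t] with s hst
    exact hanti hst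
  have h0 : II χ (fun z => Ψ 1 t z ^ 2) = 0 := by
    refine le_antisymm ((le_Erg hF hχ h3 t).trans hle) ?_
    exact II_nonneg hχ fun z _ => sq_nonneg _
  have h1 := eq_zero_of_II hF hχ ((c1 t).pow 2) (fun z _ => sq_nonneg _) (fun γ z hz => by
    change Ψ 1 t (a γ z) ^ 2 = Ψ 1 t z ^ 2
    rw [(h3.sol 1 (by norm_num)).inv γ t z hz]) h0 z hz
  exact pow_eq_zero_iff (two_ne_zero) |>.1 h1

theorem Sol.const (hF : Fuchs a) {Φ : ℝ → ℂ → ℝ} (hΦ : Sol a Φ) :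
    ∃ c : ℝ, ∀ t z, ‖z‖ < 1 → Φ t z = c := by
  have hz0 : ‖(0 : ℂ)‖ < 1 := by rw [norm_zero]; exact one_pos
  have key : ∀ h : ℝ, 0 < h → ∀ t z, ‖z‖ < 1 →
      Mt h (Mt h (Mt h (Mt h Φ))) t z = Mt h (Mt h (Mt h (Mt h Φ))) 0 0 := by
    intro h hh t z hz
    obtain ⟨Ψ, hΨ, h0⟩ := exists_tower hΦ hh
    have ht : ∀ (s s' : ℝ) (w : ℂ), ‖w‖ < 1 → Ψ 0 s w = Ψ 0 s' w := by
      intro s s' w hw
      have hd : ∀ s, HasDerivAt (fun s => Ψ 0 s w) (Ψ (0 + 1) s w) s :=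
        fun s => hΨ.der 0 (by norm_num) s w hw
      refine is_const_of_deriv_eq_zero (f := fun s => Ψ 0 s w)
        (fun s => (hd s).differentiableAt) (fun s => ?_) s s'
      rw [(hd s).deriv]
      exact hΨ.der_eq_zero hF s hw
    have hu : Harm (Ψ 0 0) := by
      refine ⟨(hΨ.sol 0 (by norm_num)).cont_z 0, fun S w hS hw => ?_⟩
      rw [(hΨ.sol 0 (by norm_num)).wave S 0 w hS hw]
      have e1 : ∀ ψ : ℝ, Ψ 0 (0 + bs S ψ) w = Ψ 0 0 w := fun ψ => ht _ _ w hw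
      simp only [e1, intervalIntegral.integral_const, sub_zero, smul_eq_mul]
      rw [← mul_assoc, inv_mul_cancel₀, one_mul]
      have := Real.pi_pos
      positivity
    have hc := hu.const_of_inv hF (fun γ w hw => (hΨ.sol 0 (by norm_num)).inv γ 0 w hw)
    rw [← h0 t z hz, ← h0 0 0 hz0, ht t 0 z hz]
    exact hc z hz
  refine ⟨Φ 0 0, fun t z hz => ?_⟩
  apply eq_of_forall_dist_le
  intro ε hε
  obtain ⟨h₀, hh₀, hap⟩ := hΦ.mt_approx (half_pos hε)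
  have e1 := hap h₀ hh₀ le_rfl t z hz
  have e2 := hap h₀ hh₀ le_rfl 0 0 hz0
  rw [key h₀ hh₀ t z hz] at e1
  rw [Real.dist_eq]
  rw [abs_le] at e1 e2 ⊢
  constructor <;> linarith [e1.1, e1.2, e2.1, e2.2]

end Pool.Agent.MP27775c.AHL
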