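import Mathlib
import Pool.Agent.Lib.MP_27775c_an_AHL.Uu
import Pool.Agent.Lib.MP_27775c_an_AHL.Rr
import Pool.Agent.Lib.MP_27775c_an_AHL.Aw

/-!
Limits of the averages of an invariant family are in `Sol`.
-/

set_option autoImplicit false
set_option linter.unusedSectionVars false

open MeasureTheory Metric Filter Topology Set

namespace Pool.Agent.MP27775c.AHL

variable {Γ : Type*} [Group Γ] {a : Γ → ℂ → ℂ}

private theorem tl_eq_of_abs {x y : ℝ} (h : ∀ ε : ℝ, 0 < ε → |x - y| ≤ ε) : x = y := by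
  have h1 : |x - y| ≤ 0 := le_of_forall_pos_le_add fun ε hε => by
    rw [zero_add]
    exact h ε hε
  exact sub_eq_zero.1 (abs_nonpos_iff.1 h1)

private theorem tl_cont_radius {u : ℂ → ℝ} (hu : ContinuousOn u (ball 0 1)) {z : ℂ}
    (hz : ‖z‖ < 1) {g : ℝ → ℝ} (hg : Continuous g) : Continuous (fun ψ => Av (g ψ) u z) := by
  have h1 : Continuous (fun ψ : ℝ => ((g ψ, z) : ℝ × ℂ)) := by fun_prop
  have h2 : ∀ ψ : ℝ, ((g ψ, z) : ℝ × ℂ) ∈ {p : ℝ × ℂ | ‖p.2‖ < 1} := fun _ => hz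
  exact ContinuousOn.comp_continuous (g := fun p : ℝ × ℂ => Av p.1 u p.2)
    (f := fun ψ : ℝ => ((g ψ, z) : ℝ × ℂ)) (continuousOn_Av hu) h1 h2

theorem limit_sol (hF : Fuchs a) {X : Type*} {b : Γ → X → X} {f : X → ℂ → ℝ}
    (hinv : ∀ γ x z, ‖z‖ < 1 → f (b γ x) (a γ z) = f x z) (hB : UBd f) (hU : UEC f)
    (hC : ∀ ε : ℝ, 0 < ε → ∃ R₀ : ℝ, ∀ R, R₀ ≤ R → ∀ x x' z, ‖z‖ < 1 →
      |Av R (f x) z - Av R (f x') z| ≤ ε)
    {R : ℕ → ℝ} (hR : Tendsto R atTop atTop) (x : ℕ → X) :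
    Sol a (fun t z => UL (fun n => Av (R n + t) (f (x n)) z)) := by
  have hev : ∀ t R₀ : ℝ, ∀ᶠ n in (hyperfilter ℕ : Filter ℕ), R₀ ≤ R n + t := by
    intro t R₀
    refine Nat.hyperfilter_le_atTop ?_
    filter_upwards [hR.eventually_ge_atTop (R₀ - t)] with n hn
    linarith
  have hU1 : UEC (fun p : ℝ × X => Av p.1 (f p.2)) := UEC_Av hU hB
  have hB1 : UBd (fun p : ℝ × X => Av p.1 (f p.2)) := UBd_Av hU hB
  obtain ⟨B, hBd⟩ := hB1
  have hU2 : UEC (fun p : ℝ × ℕ => Av (R p.2 + p.1) (f (x p.2))) :=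
    hU1.reindex (fun p : ℝ × ℕ => ((R p.2 + p.1, x p.2) : ℝ × X))
  have hB2 : UBd (fun p : ℝ × ℕ => Av (R p.2 + p.1) (f (x p.2))) :=
    ⟨B, fun p z hz => hBd (R p.2 + p.1, x p.2) z hz⟩
  have hbd : ∀ (t : ℝ) (z : ℂ), ‖z‖ < 1 → ∀ n, |Av (R n + t) (f (x n)) z| ≤ B :=
    fun t z hz n => hBd (R n + t, x n) z hz
  refine ⟨?_, ?_, ?_, ?_, ?_⟩
  · exact UBd_UL (F := fun (t : ℝ) (n : ℕ) (z : ℂ) => Av (R n + t) (f (x n)) z) hB2
  · exact UEC_UL (F := fun (t : ℝ) (n : ℕ) (z : ℂ) => Av (R n + t) (f (x n)) z) hU2 hB2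
  · intro ε hε
    obtain ⟨δ, hδ, h⟩ := hU.radius ε hε
    refine ⟨δ, hδ, fun t t' z hz htt => ?_⟩
    refine abs_UL_sub_le (hbd t z hz) (hbd t' z hz) (Eventually.of_forall fun n => ?_)
    refine h (x n) _ _ z hz ?_
    have : R n + t - (R n + t') = t - t' := by ring
    rwa [this]
  · intro γ t z hz
    refine tl_eq_of_abs fun ε hε => ?_
    obtain ⟨R₀, h⟩ := hC ε hε
    refine abs_UL_sub_le (hbd t _ (hF.lt γ z hz)) (hbd t z hz) ?_
    filter_upwards [hev t R₀] with n hn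
    have h1 : Av (R n + t) (f (x n)) z = Av (R n + t) (f (b γ (x n))) (a γ z) := by
      rw [← Av_fuchs hF γ hz]
      exact Av_congr (fun w hw => (hinv γ (x n) w hw).symm) hz _
    rw [h1]
    exact h _ hn _ _ _ (hF.lt γ z hz)
  · intro S t z hS hz
    have hUF : UEC (fun (n : ℕ) (w : ℂ) => Av (R n + t) (f (x n)) w) :=
      hU2.reindex (fun n : ℕ => ((t, n) : ℝ × ℕ))
    have hBF : UBd (fun (n : ℕ) (w : ℂ) => Av (R n + t) (f (x n)) w) :=
      ⟨B, fun n w hw => hbd t w hw n⟩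
    have hpi : (0 : ℝ) < 2 * Real.pi := Real.two_pi_pos
    have T1 := tendsto_Av_UL hUF hBF S hz
    have hbsc : Continuous (fun ψ : ℝ => bs S ψ) :=
      Continuous.comp (g := fun p : ℝ × ℝ => bs p.1 p.2) (f := fun ψ : ℝ => ((S, ψ) : ℝ × ℝ))
        continuous_bs (by fun_prop)
    have T2 := (UL_integral (G := fun n ψ => Av (R n + (t + bs S ψ)) (f (x n)) z)
      (p := 0) (q := 2 * Real.pi) (B := B) hpi.le
      (fun n ψ _ => hbd (t + bs S ψ) z hz n) (fun ε hε => by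
        obtain ⟨δ, hδ, h⟩ := hU.radius ε hε
        have huc : UniformContinuousOn (fun ψ : ℝ => bs S ψ) (Icc 0 (2 * Real.pi)) :=
          isCompact_Icc.uniformContinuousOn_of_continuous hbsc.continuousOn
        obtain ⟨η, hη, hh⟩ := Metric.uniformContinuousOn_iff_le.1 huc δ hδ
        refine ⟨η, hη, fun n s hs s' hs' hss => ?_⟩
        refine h (x n) _ _ z hz ?_
        have h2 := hh s hs s' hs' (by rwa [Real.dist_eq])
        rw [Real.dist_eq] at h2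
        have h3 : R n + (t + bs S s) - (R n + (t + bs S s')) = bs S s - bs S s' := by ring
        rwa [h3])).2
    have T3 := T1.sub (T2.const_mul (2 * Real.pi)⁻¹)
    refine tl_eq_of_abs fun ε hε => ?_
    refine le_of_tendsto T3.abs ?_
    obtain ⟨δ, hδ, h⟩ := hU.radius ε hε
    obtain ⟨R₀, -, hr⟩ := rr_sub_tendsto hS hδ
    filter_upwards [hev t R₀] with n hn
    have hfc : ContinuousOn (f (x n)) (ball 0 1) := hU.continuousOn (x n)
    have hrc : Continuous (fun ψ : ℝ => rr S (R n + t) ψ) :=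
      Continuous.comp (g := fun p : ℝ × ℝ × ℝ => rr p.1 p.2.1 p.2.2)
        (f := fun ψ : ℝ => ((S, R n + t, ψ) : ℝ × ℝ × ℝ)) continuous_rr (by fun_prop)
    have c1 : Continuous (fun ψ : ℝ => Av (rr S (R n + t) ψ) (f (x n)) z) :=
      tl_cont_radius hfc hz hrc
    have c2 : Continuous (fun ψ : ℝ => Av (R n + (t + bs S ψ)) (f (x n)) z) :=
      tl_cont_radius hfc hz (by fun_prop)
    rw [Av_Av hfc hz, ← mul_sub, ← intervalIntegral.integral_sub (c1.intervalIntegrable _ _)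
      (c2.intervalIntegrable _ _), abs_mul, abs_of_pos (inv_pos.2 hpi), inv_mul_le_iff₀ hpi,
      ← Real.norm_eq_abs]
    have hb : ‖∫ ψ in (0 : ℝ)..(2 * Real.pi), (Av (rr S (R n + t) ψ) (f (x n)) z -
        Av (R n + (t + bs S ψ)) (f (x n)) z)‖ ≤ ε * |2 * Real.pi - 0| := by
      refine intervalIntegral.norm_integral_le_of_norm_le_const fun ψ _ => ?_
      rw [Real.norm_eq_abs]
      refine h (x n) _ _ z hz ?_
      have h3 : rr S (R n + t) ψ - (R n + (t + bs S ψ)) =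
          rr S (R n + t) ψ - (R n + t) - bs S ψ := by ring
      rw [h3]
      exact hr _ hn ψ
    rw [sub_zero, abs_of_pos hpi] at hb
    exact hb.trans (le_of_eq (mul_comm _ _))

end Pool.Agent.MP27775c.AHL
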