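import Mathlib
import Pool.Agent.Lib.MP_27775c_an_AHL.Tl
import Pool.Agent.Lib.MP_27775c_an_AHL.Li

/-!
Uniform convergence of the averages of an invariant family.
-/

set_option autoImplicit false
set_option linter.unusedSectionVars false

open MeasureTheory Metric Filter Topology Set

namespace Pool.Agent.MP27775c.AHL

variable {Γ : Type*} [Group Γ] {a : Γ → ℂ → ℂ}

/-- Along every sequence the averages are uniformly close to the constant. -/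
private theorem tm_unif (hF : Fuchs a) {X : Type*} {b : Γ → X → X} {f : X → ℂ → ℝ}
    (hinv : ∀ γ x z, ‖z‖ < 1 → f (b γ x) (a γ z) = f x z) (hB : UBd f) (hU : UEC f)
    (hC : ∀ ε : ℝ, 0 < ε → ∃ R₀ : ℝ, ∀ R, R₀ ≤ R → ∀ x x' z, ‖z‖ < 1 →
      |Av R (f x) z - Av R (f x') z| ≤ ε)
    {R : ℕ → ℝ} (hR : Tendsto R atTop atTop) (x : ℕ → X) :
    ∃ α : ℝ, ∀ ε : ℝ, 0 < ε → ∀ᶠ n in (hyperfilter ℕ : Filter ℕ), ∀ x' z, ‖z‖ < 1 →
      |Av (R n) (f x') z - α| ≤ ε := by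
  obtain ⟨α, hα⟩ := Sol.const hF (limit_sol hF hinv hB hU hC hR x)
  refine ⟨α, fun ε hε => ?_⟩
  obtain ⟨r, _, hr1, hr⟩ := hF.cpt
  have h0 : ∀ z, ‖z‖ < 1 → UL (fun n => Av (R n) (f (x n)) z) = α := by
    intro z hz
    have h := hα 0 z hz
    simpa using h
  have hFU : UEC (fun n => Av (R n) (f (x n))) :=
    (UEC_Av hU hB).reindex (fun n : ℕ => (R n, x n))
  have hFB : UBd (fun n => Av (R n) (f (x n))) := by
    obtain ⟨B, h⟩ := UBd_Av hU hB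
    exact ⟨B, fun n z hz => h (R n, x n) z hz⟩
  obtain ⟨R₀, hR₀⟩ := hC (ε / 2) (by positivity)
  have h1 := UL_unif hFU hFB hr1 (show 0 < ε / 2 by positivity)
  have h2 : ∀ᶠ n in (hyperfilter ℕ : Filter ℕ), R₀ ≤ R n :=
    (hR.eventually_ge_atTop R₀).filter_mono Nat.hyperfilter_le_atTop
  filter_upwards [h1, h2] with n hn1 hn2
  have hsmall : ∀ x' z, ‖z‖ ≤ r → |Av (R n) (f x') z - α| ≤ ε := by
    intro x' z hz
    have hz1 : ‖z‖ < 1 := hz.trans_lt hr1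
    have h3 := hn1 z hz
    rw [h0 z hz1] at h3
    have h4 := hR₀ (R n) hn2 x' (x n) z hz1
    have h5 : Av (R n) (f x') z - α =
        (Av (R n) (f x') z - Av (R n) (f (x n)) z) + (Av (R n) (f (x n)) z - α) := by ring
    rw [h5]
    exact (abs_add_le _ _).trans (by linarith)
  intro x' z hz
  obtain ⟨γ, hγ⟩ := hr z hz
  have h6 : Av (R n) (f x') z = Av (R n) (f (b γ x')) (a γ z) := by
    rw [← Av_fuchs hF γ hz]
    exact Av_congr (fun w hw' => (hinv γ x' w hw').symm) hz _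
  rw [h6]
  exact hsmall _ _ hγ

private theorem tm_near {u : ℂ → ℝ} (hu : ContinuousOn u (ball 0 1)) {c ε : ℝ}
    (h : ∀ z, ‖z‖ < 1 → |u z - c| ≤ ε) (S : ℝ) {z : ℂ} (hz : ‖z‖ < 1) : |Av S u z - c| ≤ ε := by
  have h1 : Av S u z - c = Av S (fun w => u w - c) z := by
    rw [Av_sub hu continuousOn_const hz, Av_const]
  rw [h1]
  exact abs_Av_le (hu.sub continuousOn_const) hz h S

theorem average_tendsto (hF : Fuchs a) {X : Type*} [Nonempty X] {b : Γ → X → X} {f : X → ℂ → ℝ}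
    (hinv : ∀ γ x z, ‖z‖ < 1 → f (b γ x) (a γ z) = f x z) (hB : UBd f) (hU : UEC f)
    (hC : ∀ ε : ℝ, 0 < ε → ∃ R₀ : ℝ, ∀ R, R₀ ≤ R → ∀ x x' z, ‖z‖ < 1 →
      |Av R (f x) z - Av R (f x') z| ≤ ε) :
    ∃ c : ℝ, ∀ ε : ℝ, 0 < ε → ∃ R₀ : ℝ, ∀ R, R₀ ≤ R → ∀ x z, ‖z‖ < 1 →
      |Av R (f x) z - c| ≤ ε := by
  obtain ⟨x₀⟩ := ‹Nonempty X›
  obtain ⟨c, hc⟩ := tm_unif hF hinv hB hU hC
    (R := fun n : ℕ => (n : ℝ)) tendsto_natCast_atTop_atTop (fun _ => x₀)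
  have hcont : ∀ (R : ℝ) (x : X), ContinuousOn (Av R (f x)) (ball 0 1) := fun R x =>
    (UEC_Av hU hB).continuousOn (R, x)
  -- the constant does not depend on the sequence
  have huniq : ∀ (R' : ℕ → ℝ) (α : ℝ), (∀ ε : ℝ, 0 < ε → ∀ᶠ n in (hyperfilter ℕ : Filter ℕ),
      ∀ x' z, ‖z‖ < 1 → |Av (R' n) (f x') z - α| ≤ ε) → α = c := by
    intro R' α hα
    by_contra hne
    have hd : 0 < |α - c| := abs_pos.mpr (sub_ne_zero.mpr hne)
    obtain ⟨n, hn⟩ := (hc (|α - c| / 3) (by positivity)).exists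
    obtain ⟨m, hm⟩ := (hα (|α - c| / 3) (by positivity)).exists
    have hz0 : ‖(0 : ℂ)‖ < 1 := by simp
    have e1 : |Av (R' m) (fun w => Av (n : ℝ) (f x₀) w) 0 - c| ≤ |α - c| / 3 :=
      tm_near (hcont _ _) (fun z hz => hn x₀ z hz) (R' m) hz0
    have e2 : |Av (n : ℝ) (fun w => Av (R' m) (f x₀) w) 0 - α| ≤ |α - c| / 3 :=
      tm_near (hcont _ _) (fun z hz => hm x₀ z hz) (n : ℝ) hz0
    rw [Av_comm (hU.continuousOn x₀) hz0] at e1
    have e3 : |α - c| ≤ |α - c| / 3 + |α - c| / 3 := by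
      have h5 : α - c = (Av (n : ℝ) (fun w => Av (R' m) (f x₀) w) 0 - c) -
        (Av (n : ℝ) (fun w => Av (R' m) (f x₀) w) 0 - α) := by ring
      calc |α - c| = |(Av (n : ℝ) (fun w => Av (R' m) (f x₀) w) 0 - c) -
        (Av (n : ℝ) (fun w => Av (R' m) (f x₀) w) 0 - α)| := by rw [← h5]
        _ ≤ _ := abs_sub _ _
        _ ≤ _ := add_le_add e1 e2
    linarith
  refine ⟨c, fun ε hε => ?_⟩
  by_contra hcon
  push Not at hcon
  choose R' hR' x' z' hz' hbad using fun n : ℕ => hcon (n : ℝ)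
  have hRt : Tendsto R' atTop atTop := tendsto_atTop_mono hR' tendsto_natCast_atTop_atTop
  obtain ⟨α, hα⟩ := tm_unif hF hinv hB hU hC hRt x'
  have hαc := huniq R' α hα
  obtain ⟨n, hn⟩ := (hα ε hε).exists
  have h1 := hn (x' n) (z' n) (hz' n)
  rw [hαc] at h1
  exact absurd h1 (not_le.mpr (hbad n))

end Pool.Agent.MP27775c.AHL
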