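import Mathlib
import Pool.Agent.Lib.MP_27775c_an_AHL.Jf
import Pool.Agent.Lib.MP_27775c_an_AHL.Tm

/-!
Uniform convergence of the averages of a continuous function on the quotient.
-/

set_option autoImplicit false
set_option linter.unusedSectionVars false

open MeasureTheory Metric Filter Topology Set

namespace Pool.Agent.MP27775c.AHL

variable {Γ : Type*} [Group Γ] {a : Γ → ℂ → ℂ} {d : ℕ} {σ ρ : Γ →* (Vec d →L[ℂ] Vec d)}
  {ν : ℂ → Measure (Vec d)}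

theorem InvFun.average (hF : Fuchs a) (hρ : SIC ρ) {f : ℂ → Vec d → ℝ} (hf : InvFun a ρ f) :
    ∃ c : ℝ, ∀ ε : ℝ, 0 < ε → ∃ R₀ : ℝ, ∀ R, R₀ ≤ R → ∀ z v, ‖z‖ < 1 → v ≠ 0 →
      |Av R (fun w => f w v) z - c| ≤ ε := by
  have : Nonempty {v : Vec d // v ≠ 0} := by
    have hd := SIC.pos hρ
    have : Nonempty (Fin d) := ⟨⟨0, hd⟩⟩
    obtain ⟨v, hv⟩ := exists_ne (0 : Vec d)
    exact ⟨⟨v, hv⟩⟩
  obtain ⟨c, hc⟩ := average_tendsto (X := {v : Vec d // v ≠ 0})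
    (b := fun γ v => ⟨ρ γ v.1, rho_ne ρ γ v.2⟩) (f := fun v z => f z v.1) hF
    (fun γ x z hz => hf.inv γ z x.1 hz x.2) (by
      obtain ⟨B, hB⟩ := hf.bdd hF
      exact ⟨B, fun x z hz => hB z x.1 hz x.2⟩) (hf.uec hF) (by
      intro ε hε
      obtain ⟨R₀, hR₀⟩ := hf.contraction hF hρ hε
      exact ⟨R₀, fun R hR x x' z hz => hR₀ R hR z x.1 x'.1 hz x.2 x'.2⟩)
  refine ⟨c, fun ε hε => ?_⟩
  obtain ⟨R₀, hR₀⟩ := hc ε hε
  exact ⟨R₀, fun R hR z v hz hv => hR₀ R hR ⟨v, hv⟩ z hz⟩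

end Pool.Agent.MP27775c.AHL
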