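import Mathlib
import Pool.Agent.Lib.MP_27775c_an_AHL.Fd
import Pool.Agent.Lib.MP_27775c_an_AHL.Kd
import Pool.Agent.Lib.MP_27775c_an_AHL.Ff

/-!
The limit functional on the smooth functions on the quotient.
-/

set_option autoImplicit false
set_option linter.unusedSectionVars false

open MeasureTheory Metric Filter Topology Set

namespace Pool.Agent.MP27775c.AHL

variable {Γ : Type*} [Group Γ] {d : ℕ} {j : Γ →* Matrix.SpecialLinearGroup (Fin 2) ℂ}
  {ρ : Γ →* (Vec d →L[ℂ] Vec d)}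

/-- `c` is the uniform limit of the averages of `u` over large circles of the leaves. -/
def AvLim (u : ℂ → Vec d → ℝ) (c : ℝ) : Prop :=
  ∀ ε : ℝ, 0 < ε → ∃ R₀ : ℝ, ∀ R, R₀ ≤ R → ∀ z v, ‖z‖ < 1 → v ≠ 0 →
    |Av R (fun w => u w v) z - c| ≤ ε

private theorem fg_vec (hd : 0 < d) : ∃ v : Vec d, v ≠ 0 := by
  have : Nonempty (Fin d) := ⟨⟨0, hd⟩⟩
  exact exists_ne (0 : Vec d)

theorem exists_avLim (hj : IsUniform j) (hρ : SIC ρ) {u : ℂ → Vec d → ℝ} (hu : IsFun j ρ u) :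
    ∃ c : ℝ, AvLim u c :=
  InvFun.average (moeb_fuchs hj) hρ hu.invFun

theorem AvLim.unique (hd : 0 < d) {u : ℂ → Vec d → ℝ} {c c' : ℝ} (h : AvLim u c) (h' : AvLim u c') :
    c = c' := by
  obtain ⟨v, hv⟩ := fg_vec hd
  by_contra hne
  have hpos : 0 < |c - c'| := abs_pos.2 (sub_ne_zero.2 hne)
  obtain ⟨R₀, h1⟩ := h (|c - c'| / 3) (by positivity)
  obtain ⟨R₁, h2⟩ := h' (|c - c'| / 3) (by positivity)
  have h3 := h1 (max R₀ R₁) (le_max_left _ _) 0 v (by simp) hv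
  have h4 := h2 (max R₀ R₁) (le_max_right _ _) 0 v (by simp) hv
  have h5 : |c - c'| ≤ |Av (max R₀ R₁) (fun w => u w v) 0 - c| +
      |Av (max R₀ R₁) (fun w => u w v) 0 - c'| := by
    have h6 := abs_sub_le c (Av (max R₀ R₁) (fun w => u w v) 0) c'
    rwa [abs_sub_comm c (Av (max R₀ R₁) (fun w => u w v) 0)] at h6
  linarith

theorem AvLim.congr {u u' : ℂ → Vec d → ℝ} {c : ℝ} (h : AvLim u c)
    (he : ∀ z v, ‖z‖ < 1 → v ≠ 0 → u' z v = u z v) : AvLim u' c := by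
  intro ε hε
  obtain ⟨R₀, hR⟩ := h ε hε
  refine ⟨R₀, fun R hRR z v hz hv => ?_⟩
  rw [Av_congr (u := fun w => u' w v) (v := fun w => u w v) (fun w hw' => he w v hw' hv) hz R]
  exact hR R hRR z v hz hv

private theorem fg_cont {u : ℂ → Vec d → ℝ} (hu : IsFun j ρ u) {v : Vec d} (hv : v ≠ 0) :
    ContinuousOn (fun w => u w v) (ball 0 1) :=
  hu.invFun.slice hv

theorem AvLim.add {u u' : ℂ → Vec d → ℝ} {c c' : ℝ} (hu : IsFun j ρ u) (hu' : IsFun j ρ u')
    (h : AvLim u c) (h' : AvLim u' c') : AvLim (fun z v => u z v + u' z v) (c + c') := by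
  intro ε hε
  obtain ⟨R₀, hR₀⟩ := h (ε / 2) (by positivity)
  obtain ⟨R₁, hR₁⟩ := h' (ε / 2) (by positivity)
  refine ⟨max R₀ R₁, fun R hR z v hz hv => ?_⟩
  have h1 := hR₀ R ((le_max_left _ _).trans hR) z v hz hv
  have h2 := hR₁ R ((le_max_right _ _).trans hR) z v hz hv
  have h3 : Av R (fun w => u w v + u' w v) z =
      Av R (fun w => u w v) z + Av R (fun w => u' w v) z :=
    Av_add (fg_cont hu hv) (fg_cont hu' hv) hz R
  rw [h3]
  have h4 : Av R (fun w => u w v) z + Av R (fun w => u' w v) z - (c + c') =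
      (Av R (fun w => u w v) z - c) + (Av R (fun w => u' w v) z - c') := by ring
  rw [h4]
  refine (abs_add_le _ _).trans ?_
  linarith

theorem AvLim.const_mul {u : ℂ → Vec d → ℝ} {c : ℝ} (h : AvLim u c) (b : ℝ) :
    AvLim (fun z v => b * u z v) (b * c) := by
  intro ε hε
  have hb : 0 < |b| + 1 := by positivity
  obtain ⟨R₀, hR₀⟩ := h (ε / (|b| + 1)) (by positivity)
  refine ⟨R₀, fun R hR z v hz hv => ?_⟩
  have h1 := hR₀ R hR z v hz hv
  have h3 : Av R (fun w => b * u w v) z = b * Av R (fun w => u w v) z := Av_const_mul b _ R z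
  rw [h3, ← mul_sub, abs_mul]
  have h4 : |b| * |Av R (fun w => u w v) z - c| ≤ (|b| + 1) * (ε / (|b| + 1)) :=
    mul_le_mul (by linarith) h1 (abs_nonneg _) hb.le
  rw [mul_div_cancel₀ _ hb.ne'] at h4
  exact h4

/-- If `u ≥ m` on the quotient then the limit is at least `m`. -/
theorem AvLim.ge (hd : 0 < d) {u : ℂ → Vec d → ℝ} {c m : ℝ} (hu : IsFun j ρ u) (h : AvLim u c)
    (hm : ∀ z v, ‖z‖ < 1 → v ≠ 0 → m ≤ u z v) : m ≤ c := by
  obtain ⟨v, hv⟩ := fg_vec hd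
  refine le_of_forall_pos_le_add fun ε hε => ?_
  obtain ⟨R₀, hR₀⟩ := h ε hε
  have h1 := hR₀ R₀ le_rfl 0 v (by simp) hv
  have h2 := Av_mono (u := fun _ => m) (v := fun w => u w v) continuousOn_const (fg_cont hu hv)
    (z := 0) (by simp) (fun w hw' => hm w v hw' hv) R₀
  rw [Av_const] at h2
  have h3 := (abs_le.1 h1).2
  linarith

theorem AvLim.lh_eq_zero (hj : IsUniform j) (hρ : SIC ρ) {u : ℂ → Vec d → ℝ} (hu : IsFun j ρ u)
    {c : ℝ} (h : AvLim (fun z v => lh (fun w => u w v) z) c) : c = 0 := by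
  obtain ⟨v, hv⟩ := fg_vec (SIC.pos hρ)
  obtain ⟨B, hB⟩ := hu.invFun.bdd (moeb_fuchs hj)
  obtain ⟨B', hB'⟩ := (hu.hlap hj).invFun.bdd (moeb_fuchs hj)
  have hc : ContDiffOn ℝ 2 (fun w => u w v) (ball 0 1) := by
    exact_mod_cast hu.smoothHom.slice hv 2
  refine limit_lh_eq_zero (z := 0) hc (B := max B B')
    (fun w hw' => (hB w v hw' hv).trans (le_max_left _ _))
    (fun w hw' => (hB' w v hw' hv).trans (le_max_right _ _)) (by simp) ?_
  rw [Metric.tendsto_atTop]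
  intro ε hε
  obtain ⟨R₀, hR₀⟩ := h (ε / 2) (by positivity)
  refine ⟨R₀, fun R hR => ?_⟩
  have h1 := hR₀ R hR 0 v (by simp) hv
  rw [Real.dist_eq]
  exact h1.trans_lt (by linarith)

end Pool.Agent.MP27775c.AHL
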