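import Mathlib
import Pool.Agent.Lib.MP_27775c_an_AHL.Fg

/-!
Existence of the harmonic current.
-/

set_option autoImplicit false
set_option linter.unusedSectionVars false

open MeasureTheory Metric Filter Topology Set

namespace Pool.Agent.MP27775c.AHL

variable {Γ : Type*} [Group Γ] {d : ℕ} {j : Γ →* Matrix.SpecialLinearGroup (Fin 2) ℂ}
  {ρ : Γ →* (Vec d →L[ℂ] Vec d)}

private theorem fh_hw_pos {z : ℂ} (hz : ‖z‖ < 1) : 0 < hw z := by
  unfold hw
  have h1 : 0 < 1 - ‖z‖ ^ 2 := by nlinarith [norm_nonneg z]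
  positivity

/-- the limit of the averages -/
private noncomputable def fhL (hj : IsUniform j) (hρ : SIC ρ) (g : leafForms j ρ) : ℝ :=
  (exists_avLim hj hρ (leaf_fun hj g.2)).choose

private theorem fhL_spec (hj : IsUniform j) (hρ : SIC ρ) (g : leafForms j ρ) :
    AvLim (fun z v => g.1 z v / hw z) (fhL hj hρ g) :=
  (exists_avLim hj hρ (leaf_fun hj g.2)).choose_spec

private theorem fhL_unique (hj : IsUniform j) (hρ : SIC ρ) (g : leafForms j ρ) {c : ℝ}
    (h : AvLim (fun z v => g.1 z v / hw z) c) : fhL hj hρ g = c :=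
  AvLim.unique hρ.pos (fhL_spec hj hρ g) h

private theorem fhL_add (hj : IsUniform j) (hρ : SIC ρ) (g g' : leafForms j ρ) :
    fhL hj hρ (g + g') = fhL hj hρ g + fhL hj hρ g' := by
  apply fhL_unique
  refine (AvLim.add (leaf_fun hj g.2) (leaf_fun hj g'.2) (fhL_spec hj hρ g)
    (fhL_spec hj hρ g')).congr fun z v _ _ => ?_
  exact add_div (g.1 z v) (g'.1 z v) (hw z)

private theorem fhL_smul (hj : IsUniform j) (hρ : SIC ρ) (b : ℝ) (g : leafForms j ρ) :
    fhL hj hρ (b • g) = b * fhL hj hρ g := by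
  apply fhL_unique
  refine ((fhL_spec hj hρ g).const_mul b).congr fun z v _ _ => ?_
  exact mul_div_assoc b (g.1 z v) (hw z)

theorem exists_current (hj : IsUniform j) (hρ : SIC ρ) {om : ℂ → Vec d → ℝ}
    (hom : om ∈ leafForms j ρ) (hpos : ∀ z v, ‖z‖ < 1 → v ≠ 0 → 0 < om z v) :
    ∃ (T : leafForms j ρ →ₗ[ℝ] ℝ) (c₀ : ℝ), IsHarmonicCurrent j ρ T ∧ T ⟨om, hom⟩ = 1 ∧ 0 < c₀ ∧
      AvLim (fun z v => om z v / hw z) c₀ ∧
      ∀ g : leafForms j ρ, AvLim (fun z v => g.1 z v / hw z) (T g * c₀) := by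
  have hfun := leaf_fun hj hom
  obtain ⟨m, hm0, hm⟩ := hfun.invFun.lower (moeb_fuchs hj) hρ.pos fun z v hz hv =>
    div_pos (hpos z v hz hv) (fh_hw_pos hz)
  set c₀ : ℝ := fhL hj hρ ⟨om, hom⟩ with hc₀
  have hlim : AvLim (fun z v => om z v / hw z) c₀ := fhL_spec hj hρ ⟨om, hom⟩
  have hc0 : 0 < c₀ := hm0.trans_le (AvLim.ge hρ.pos hfun hlim hm)
  let T : leafForms j ρ →ₗ[ℝ] ℝ :=
    { toFun := fun g => fhL hj hρ g / c₀
      map_add' := fun g g' => by rw [fhL_add, add_div]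
      map_smul' := fun b g => by
        rw [fhL_smul, RingHom.id_apply, smul_eq_mul, mul_div_assoc] }
  have hT : ∀ g : leafForms j ρ, T g = fhL hj hρ g / c₀ := fun g => rfl
  refine ⟨T, c₀, ⟨fun g hg => ?_, fun u g hu hug => ?_⟩, ?_, hc0, hlim, fun g => ?_⟩
  · rw [hT]
    refine div_nonneg ?_ hc0.le
    refine AvLim.ge hρ.pos (leaf_fun hj g.2) (fhL_spec hj hρ g) fun z v hz hv => ?_
    exact div_nonneg (hg z v hz hv) (fh_hw_pos hz).le
  · obtain ⟨c₁, hc₁⟩ := exists_avLim hj hρ (hu.hlap hj)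
    have h1 := AvLim.lh_eq_zero hj hρ hu hc₁
    rw [h1] at hc₁
    have h2 : AvLim (fun z v => g.1 z v / hw z) ((2 * Real.pi)⁻¹ * 0) := by
      refine (hc₁.const_mul (2 * Real.pi)⁻¹).congr fun z v hz hv => ?_
      simp only [lh]
      rw [hug z v hz hv, mul_div_assoc]
    rw [hT, fhL_unique hj hρ g h2, mul_zero, zero_div]
  · rw [hT, ← hc₀, div_self hc0.ne']
  · rw [hT, div_mul_cancel₀ _ hc0.ne']
    exact fhL_spec hj hρ g

end Pool.Agent.MP27775c.AHL
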