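import Mathlib
import Pool.Agent.Lib.MP_27775c_an_AHL.Fg

/-!
Uniqueness of the harmonic current.
-/

set_option autoImplicit false
set_option linter.unusedSectionVars false

open MeasureTheory Metric Filter Topology Set

namespace Pool.Agent.MP27775c.AHL

variable {Γ : Type*} [Group Γ] {d : ℕ} {j : Γ →* Matrix.SpecialLinearGroup (Fin 2) ℂ}
  {ρ : Γ →* (Vec d →L[ℂ] Vec d)}

private theorem fi_hw_pos {z : ℂ} (hz : ‖z‖ < 1) : 0 < hw z := by
  have h0 := norm_nonneg z
  have h1 : 0 < 1 - ‖z‖ ^ 2 := by nlinarith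
  unfold hw
  positivity

private theorem fi_mono {T : leafForms j ρ →ₗ[ℝ] ℝ} (hT : IsHarmonicCurrent j ρ T)
    {g g' : leafForms j ρ} (h : ∀ z v, ‖z‖ < 1 → v ≠ 0 → g.1 z v ≤ g'.1 z v) : T g ≤ T g' := by
  have h1 := hT.nonneg (g' - g) fun z v hz hv => sub_nonneg.2 (h z v hz hv)
  rw [map_sub] at h1
  exact sub_nonneg.1 h1

/-- A harmonic current is the limit functional times its value on the hyperbolic metric. -/
theorem current_eq (hj : IsUniform j) (hρ : SIC ρ) {T : leafForms j ρ →ₗ[ℝ] ℝ}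
    (hT : IsHarmonicCurrent j ρ T) {h₁ : leafForms j ρ} (h1 : ∀ z v, h₁.1 z v = hw z)
    (g : leafForms j ρ) {c : ℝ} (hc : AvLim (fun z v => g.1 z v / hw z) c) : T g = c * T h₁ := by
  obtain ⟨f, hf0⟩ : ∃ f : ℂ → Vec d → ℝ, f = fun z v => g.1 z v / hw z := ⟨_, rfl⟩
  rw [← hf0] at hc
  have hf : IsFun j ρ f := by
    rw [hf0]
    exact leaf_fun hj g.2
  have hfg : ∀ z v, ‖z‖ < 1 → f z v * hw z = g.1 z v := by
    intro z v hz
    rw [hf0]
    have := (fi_hw_pos hz).ne'
    field_simp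
  have hpos : 0 ≤ T h₁ := hT.nonneg h₁ fun z v hz _ => by
    rw [h1]
    exact (fi_hw_pos hz).le
  -- the averages of `f` give the same value
  have key : ∀ R : ℝ, 0 ≤ R → ∃ gR : leafForms j ρ,
      (∀ z v, gR.1 z v = Av R (fun w => f w v) z * hw z) ∧ T gR = T g := by
    intro R hR
    have hu := hf.kg hj hR
    obtain ⟨G, hG⟩ : ∃ G : leafForms j ρ, ∀ z v, G.1 z v =
        (2 * Real.pi)⁻¹ * Laplacian.laplacian (fun w => KG R (fun y => f y v) w) z :=
      ⟨⟨_, laplacian_leaf hj hu⟩, fun _ _ => rfl⟩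
    have hTG : T G = 0 := hT.ddc _ G hu fun z v _ _ => hG z v
    obtain ⟨gR, hgR⟩ : ∃ gR : leafForms j ρ, ∀ z v, gR.1 z v = Av R (fun w => f w v) z * hw z :=
      ⟨⟨_, fun_leaf hj (hf.av hj hR)⟩, fun _ _ => rfl⟩
    refine ⟨gR, hgR, ?_⟩
    have he : ∀ z v, ‖z‖ < 1 → v ≠ 0 → gR.1 z v = (g + (2 * Real.pi) • G).1 z v := by
      intro z v hz hv
      have h2 : (g + (2 * Real.pi) • G).1 z v = g.1 z v + 2 * Real.pi * G.1 z v := rfl
      have h3 := hf.lh_kg hj hR hz hv
      have h4 := fi_hw_pos hz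
      have h5 : Laplacian.laplacian (fun w => KG R (fun y => f y v) w) z =
          (Av R (fun w => f w v) z - f z v) * hw z := by
        rw [← h3, lh]
        field_simp
      rw [h2, hG, hgR, h5, ← hfg z v hz]
      have h6 := Real.pi_pos
      field_simp
      ring
    have h7 : T gR = T (g + (2 * Real.pi) • G) :=
      le_antisymm (fi_mono hT fun z v hz hv => (he z v hz hv).le)
        (fi_mono hT fun z v hz hv => (he z v hz hv).ge)
    rw [h7, map_add, map_smul, hTG, smul_zero, add_zero]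
  have hb : ∀ ε : ℝ, 0 < ε → T g ≤ (c + ε) * T h₁ ∧ (c - ε) * T h₁ ≤ T g := by
    intro ε hε
    obtain ⟨R₀, hR₀⟩ := hc ε hε
    obtain ⟨gR, hgR, hTg⟩ := key (max R₀ 0) (le_max_right _ _)
    rw [← hTg]
    have h8 := hR₀ (max R₀ 0) (le_max_left _ _)
    constructor
    · rw [← smul_eq_mul, ← map_smul]
      refine fi_mono hT fun z v hz hv => ?_
      have h9 : ((c + ε) • h₁).1 z v = (c + ε) * h₁.1 z v := rfl
      rw [h9, h1, hgR]
      have h10 := abs_le.1 (h8 z v hz hv)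
      exact mul_le_mul_of_nonneg_right (by linarith [h10.2]) (fi_hw_pos hz).le
    · rw [← smul_eq_mul, ← map_smul]
      refine fi_mono hT fun z v hz hv => ?_
      have h9 : ((c - ε) • h₁).1 z v = (c - ε) * h₁.1 z v := rfl
      rw [h9, h1, hgR]
      have h10 := abs_le.1 (h8 z v hz hv)
      exact mul_le_mul_of_nonneg_right (by linarith [h10.1]) (fi_hw_pos hz).le
  have hs : ∀ ε : ℝ, 0 < ε → ε / (T h₁ + 1) * T h₁ ≤ ε := by
    intro ε hε
    rw [div_mul_eq_mul_div, div_le_iff₀ (by linarith)]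
    nlinarith
  apply le_antisymm
  · refine le_of_forall_pos_le_add fun ε hε => ?_
    have h11 := (hb (ε / (T h₁ + 1)) (by positivity)).1
    have h12 := hs ε hε
    linarith
  · refine le_of_forall_pos_le_add fun ε hε => ?_
    have h11 := (hb (ε / (T h₁ + 1)) (by positivity)).2
    have h12 := hs ε hε
    linarith

end Pool.Agent.MP27775c.AHL
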