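import Mathlib
import Pool.Agent.Lib.MP_27775c_an_AHL.Fh
import Pool.Agent.Lib.MP_27775c_an_AHL.Fi
import Pool.Agent.Lib.MP_27775c_an_AHL.Fe

/-!
Final statement.
-/

set_option autoImplicit false
set_option linter.unusedSectionVars false

open MeasureTheory Metric Filter Topology Set

namespace Pool.Agent.MP27775c.AHL

variable {Γ : Type*} [Group Γ] {d : ℕ} {j : Γ →* Matrix.SpecialLinearGroup (Fin 2) ℂ}
  {ρ : Γ →* (Vec d →L[ℂ] Vec d)}

/-- the averages of a leafwise form depend continuously on the radius -/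
private theorem fin_cont (hj : IsUniform j) (g : leafForms j ρ) {z : ℂ} {v : Vec d}
    (hz : ‖z‖ < 1) (hv : v ≠ 0) : Continuous (fun t : ℝ => Av t (fun w => g.1 w v / hw w) z) := by
  have h0 : ContinuousOn (fun w => g.1 w v / hw w) (ball 0 1) :=
    (leaf_fun hj g.2).invFun.slice hv
  have h1 := continuousOn_Av h0
  have h2 : Continuous (fun t : ℝ => ((t, z) : ℝ × ℂ)) := by fun_prop
  have h3 := h1.comp_continuous h2 (fun t => by rw [mem_ofPred_eq]; exact hz)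
  exact h3

private theorem fin_bdd (hj : IsUniform j) (g : leafForms j ρ) :
    ∃ B : ℝ, ∀ z v, ‖z‖ < 1 → v ≠ 0 → ∀ t : ℝ, |Av t (fun w => g.1 w v / hw w) z| ≤ B := by
  obtain ⟨B, hB⟩ := InvFun.bdd (moeb_fuchs hj) (leaf_fun hj g.2).invFun
  refine ⟨B, fun z v hz hv t => ?_⟩
  exact abs_Av_le ((leaf_fun hj g.2).invFun.slice hv) hz (fun w hw' => hB w v hw' hv) t

private theorem fin_radius {M r : ℝ} (h : Real.tanh (M / 2) < r) (hr : r < 1) :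
    ∃ R : ℝ, M ≤ R ∧ Real.tanh (R / 2) = r := by
  have h1 : -1 < Real.tanh (M / 2) := Real.neg_one_lt_tanh _
  refine ⟨2 * Real.artanh r, ?_, ?_⟩
  · have h2 := Real.artanh_lt_artanh h1 hr h
    rw [Real.artanh_tanh] at h2
    linarith
  · rw [mul_div_cancel_left₀ _ (two_ne_zero)]
    exact Real.tanh_artanh ⟨h1.trans h, hr⟩

theorem ahlfors_currents (hj : IsUniform j) (hρ : SIC ρ) {om : ℂ → Vec d → ℝ}
    (hom : om ∈ leafForms j ρ) (hpos : ∀ z v, ‖z‖ < 1 → v ≠ 0 → 0 < om z v) :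
    ∃ T : leafForms j ρ →ₗ[ℝ] ℝ, IsHarmonicCurrent j ρ T ∧ T ⟨om, hom⟩ = 1 ∧
      (∀ T' : leafForms j ρ →ₗ[ℝ] ℝ, IsHarmonicCurrent j ρ T' → T' ⟨om, hom⟩ = 1 → T' = T) ∧
      ∀ (th : leafForms j ρ) (ε : ℝ), 0 < ε → ∃ r₀ : ℝ, r₀ < 1 ∧ ∀ r, r₀ < r → r < 1 →
        ∀ z v, ‖z‖ < 1 → v ≠ 0 → |ahlfors om th.1 z v r - T th| < ε := by
  obtain ⟨T, c₀, hT, hT1, hc0, hlim, hall⟩ := exists_current hj hρ hom hpos
  refine ⟨T, hT, hT1, ?_, ?_⟩
  · intro T' hT' hT'1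
    obtain ⟨h₁, h1⟩ : ∃ h₁ : leafForms j ρ, ∀ z v, h₁.1 z v = hw z :=
      ⟨⟨_, fun_leaf hj (IsFun.const (ρ := ρ) (d := d) 1)⟩, fun z v => one_mul _⟩
    have e1 := current_eq hj hρ hT' h1 ⟨om, hom⟩ hlim
    rw [hT'1] at e1
    ext g
    have e2 := current_eq hj hρ hT' h1 g (hall g)
    rw [e2, mul_assoc, ← e1, mul_one]
  · intro th ε hε
    obtain ⟨B1, hB1⟩ := fin_bdd hj th
    obtain ⟨B2, hB2⟩ := fin_bdd hj (⟨om, hom⟩ : leafForms j ρ)
    obtain ⟨R₀, hR₀⟩ := ratio_tendsto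
      (ι := {p : ℂ × Vec d // ‖p.1‖ < 1 ∧ p.2 ≠ 0})
      (F := fun p t => Av t (fun w => th.1 w p.1.2 / hw w) p.1.1)
      (G := fun p t => Av t (fun w => om w p.1.2 / hw w) p.1.1)
      (B := max B1 B2) (c := T th * c₀) (c' := c₀)
      (fun p => fin_cont hj th p.2.1 p.2.2)
      (fun p => fin_cont hj (⟨om, hom⟩ : leafForms j ρ) p.2.1 p.2.2)
      (fun p t => (hB1 _ _ p.2.1 p.2.2 t).trans (le_max_left _ _))
      (fun p t => (hB2 _ _ p.2.1 p.2.2 t).trans (le_max_right _ _))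
      (fun δ hδ => by
        obtain ⟨R, hR⟩ := hall th δ hδ
        exact ⟨R, fun t ht p => hR t ht _ _ p.2.1 p.2.2⟩)
      (fun δ hδ => by
        obtain ⟨R, hR⟩ := hlim δ hδ
        exact ⟨R, fun t ht p => hR t ht _ _ p.2.1 p.2.2⟩) hc0 hε
    refine ⟨Real.tanh (max R₀ 0 / 2), Real.tanh_lt_one _, fun r hr hr1 z v hz hv => ?_⟩
    obtain ⟨R, hR, hRr⟩ := fin_radius hr hr1
    have h0 : 0 ≤ R := (le_max_right _ _).trans hR
    have h1 := hR₀ R ((le_max_left _ _).trans hR) ⟨(z, v), hz, hv⟩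
    rw [mul_div_cancel_right₀ _ hc0.ne'] at h1
    rw [ahlfors, ← hRr, discInt_eq th.2.1 hz hv h0, discInt_eq hom.1 hz hv h0]
    exact h1

end Pool.Agent.MP27775c.AHL
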