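import Mathlib
import Pool.Agent.Lib.MP_27775c_an_AHL.Fin
import Pool.Agent.Lib.MP_27775c_an_AHL.Fdf

/-!
The final statement in coordinates, from the theorem `ahlfors_currents`.
-/

set_option autoImplicit false

open Filter Topology Matrix

namespace Pool.Agent.MP27775c.AHL

variable {Γ : Type*} [Group Γ] {d : ℕ}

/-- functions of vectors of the hermitian space -/
private def cv_up (g : ℂ → (Fin d → ℂ) → ℝ) : ℂ → Vec d → ℝ := fun z x => g z (WithLp.ofLp x)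

/-- functions of coordinate vectors -/
private def cv_dn (h : ℂ → Vec d → ℝ) : ℂ → (Fin d → ℂ) → ℝ := fun z v => h z (WithLp.toLp 2 v)

/-- the representation on the hermitian space -/
private noncomputable def cv_rho (ρ : Γ →* Matrix (Fin d) (Fin d) ℂ) :
    Γ →* (Vec d →L[ℂ] Vec d) where
  toFun γ := Matrix.toEuclideanCLM (n := Fin d) (𝕜 := ℂ) (ρ γ)
  map_one' := by rw [map_one, map_one]
  map_mul' γ δ := by rw [map_mul, map_mul]

private theorem cv_rho_toLp (ρ : Γ →* Matrix (Fin d) (Fin d) ℂ) (γ : Γ) (v : Fin d → ℂ) :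
    cv_rho ρ γ (WithLp.toLp 2 v) = WithLp.toLp 2 (ρ γ *ᵥ v) :=
  Matrix.toEuclideanCLM_toLp (ρ γ) v

private theorem cv_rho_ofLp (ρ : Γ →* Matrix (Fin d) (Fin d) ℂ) (γ : Γ) (x : Vec d) :
    WithLp.ofLp (cv_rho ρ γ x) = ρ γ *ᵥ (WithLp.ofLp x) := by
  have h := cv_rho_toLp ρ γ (WithLp.ofLp x)
  rw [WithLp.toLp_ofLp] at h
  rw [h]

private theorem cv_toLp_ne {v : Fin d → ℂ} (hv : v ≠ 0) : (WithLp.toLp 2 v : Vec d) ≠ 0 := by
  intro h
  apply hv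
  have h1 := congrArg WithLp.ofLp h
  exact h1

private theorem cv_ofLp_ne {x : Vec d} (hx : x ≠ 0) : WithLp.ofLp x ≠ 0 := by
  intro h
  apply hx
  have h1 := congrArg (WithLp.toLp 2) h
  exact h1

private theorem cv_contDiff_up :
    ContDiff ℝ (⊤ : ℕ∞) (fun p : ℂ × Vec d => (p.1, (WithLp.ofLp p.2 : Fin d → ℂ))) := by
  have h1 : ContDiff ℝ (⊤ : ℕ∞) (fun x : Vec d => (WithLp.ofLp x : Fin d → ℂ)) :=
    (((EuclideanSpace.equiv (Fin d) ℂ) : Vec d →L[ℂ] (Fin d → ℂ)).restrictScalars ℝ).contDiff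
  exact contDiff_fst.prodMk (h1.comp contDiff_snd)

private theorem cv_contDiff_dn :
    ContDiff ℝ (⊤ : ℕ∞) (fun p : ℂ × (Fin d → ℂ) => (p.1, (WithLp.toLp 2 p.2 : Vec d))) := by
  have h1 : ContDiff ℝ (⊤ : ℕ∞) (fun x : Fin d → ℂ => (WithLp.toLp 2 x : Vec d)) :=
    (((EuclideanSpace.equiv (Fin d) ℂ).symm : (Fin d → ℂ) →L[ℂ] Vec d).restrictScalars ℝ).contDiff
  exact contDiff_fst.prodMk (h1.comp contDiff_snd)

private theorem cv_smooth_up {g : ℂ → (Fin d → ℂ) → ℝ} (h : Stmt.SmoothHom g) :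
    SmoothHom (cv_up g) := by
  refine ⟨?_, ?_⟩
  · exact h.smooth.comp cv_contDiff_up.contDiffOn fun p hp => ⟨hp.1, cv_ofLp_ne hp.2⟩
  · intro z v c hz hv hc
    exact h.hom z (WithLp.ofLp v) c hz (cv_ofLp_ne hv) hc

private theorem cv_smooth_dn {g : ℂ → Vec d → ℝ} (h : SmoothHom g) :
    Stmt.SmoothHom (cv_dn g) := by
  refine ⟨?_, ?_⟩
  · exact h.smooth.comp cv_contDiff_dn.contDiffOn fun p hp => ⟨hp.1, cv_toLp_ne hp.2⟩
  · intro z v c hz hv hc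
    exact h.hom z (WithLp.toLp 2 v) c hz (cv_toLp_ne hv) hc

variable {j : Γ →* SpecialLinearGroup (Fin 2) ℂ} {ρ : Γ →* Matrix (Fin d) (Fin d) ℂ}

private theorem cv_fun_up {u : ℂ → (Fin d → ℂ) → ℝ} (h : Stmt.IsFun j ρ u) :
    IsFun j (cv_rho ρ) (cv_up u) := by
  refine ⟨cv_smooth_up h.smoothHom, fun γ z v hz hv => ?_⟩
  show u (moeb (j γ) z) (WithLp.ofLp (cv_rho ρ γ v)) = u z (WithLp.ofLp v)
  rw [cv_rho_ofLp]
  exact h.inv γ z _ hz (cv_ofLp_ne hv)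

private theorem cv_fun_dn {u : ℂ → Vec d → ℝ} (h : IsFun j (cv_rho ρ) u) :
    Stmt.IsFun j ρ (cv_dn u) := by
  refine ⟨cv_smooth_dn h.smoothHom, fun γ z v hz hv => ?_⟩
  show u (moeb (j γ) z) (WithLp.toLp 2 (ρ γ *ᵥ v)) = u z (WithLp.toLp 2 v)
  rw [← cv_rho_toLp]
  exact h.inv γ z _ hz (cv_toLp_ne hv)

private theorem cv_leaf_up {g : ℂ → (Fin d → ℂ) → ℝ} (h : Stmt.IsLeafForm j ρ g) :
    cv_up g ∈ leafForms j (cv_rho ρ) := by
  refine ⟨cv_smooth_up h.smoothHom, fun γ z v hz hv => ?_⟩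
  show g (moeb (j γ) z) (WithLp.ofLp (cv_rho ρ γ v)) * ‖moebDeriv (j γ) z‖ ^ 2 =
    g z (WithLp.ofLp v)
  rw [cv_rho_ofLp]
  exact h.inv γ z _ hz (cv_ofLp_ne hv)

private theorem cv_leaf_dn {g : ℂ → Vec d → ℝ} (h : g ∈ leafForms j (cv_rho ρ)) :
    Stmt.IsLeafForm j ρ (cv_dn g) := by
  refine ⟨cv_smooth_dn h.1, fun γ z v hz hv => ?_⟩
  show g (moeb (j γ) z) (WithLp.toLp 2 (ρ γ *ᵥ v)) * ‖moebDeriv (j γ) z‖ ^ 2 =
    g z (WithLp.toLp 2 v)
  rw [← cv_rho_toLp]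
  exact h.2 γ z _ hz (cv_toLp_ne hv)

private theorem cv_uniform (hj : Stmt.IsUniform j) : IsUniform j :=
  ⟨hj.su10, hj.su11, hj.discrete, hj.cocompact⟩

private theorem cv_irr (hs : Stmt.StronglyIrreducible ρ) :
    ∀ H : Subgroup Γ, H.FiniteIndex → ∀ W : Submodule ℂ (Vec d),
      (∀ γ ∈ H, ∀ v ∈ W, cv_rho ρ γ v ∈ W) → W = ⊥ ∨ W = ⊤ := by
  intro H hH W hW
  have h1 := hs H hH
    (W.comap ((EuclideanSpace.equiv (Fin d) ℂ).symm : (Fin d → ℂ) →ₗ[ℂ] Vec d)) (by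
      intro γ hγ v hv
      rw [Submodule.mem_comap] at hv ⊢
      have h2 := hW γ hγ _ hv
      have h3 := cv_rho_toLp ρ γ v
      show WithLp.toLp 2 (ρ γ *ᵥ v) ∈ W
      rw [← h3]
      exact h2)
  rcases h1 with h1 | h1
  · left
    rw [Submodule.eq_bot_iff]
    intro x hx
    have h2 : WithLp.ofLp x ∈ W.comap
        ((EuclideanSpace.equiv (Fin d) ℂ).symm : (Fin d → ℂ) →ₗ[ℂ] Vec d) := hx
    rw [h1, Submodule.mem_bot] at h2
    by_contra hne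
    exact cv_ofLp_ne hne h2
  · right
    rw [Submodule.eq_top_iff']
    intro x
    have h2 : WithLp.ofLp x ∈ W.comap
        ((EuclideanSpace.equiv (Fin d) ℂ).symm : (Fin d → ℂ) →ₗ[ℂ] Vec d) := by
      rw [h1]
      exact Submodule.mem_top
    exact h2

private theorem cv_rank {π : Matrix (Fin d) (Fin d) ℂ} (hπ : π.rank = 1) :
    Module.finrank ℂ (LinearMap.range
      (Matrix.toEuclideanCLM (n := Fin d) (𝕜 := ℂ) π : Vec d →ₗ[ℂ] Vec d)) = 1 := by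
  have h1 : Matrix.toEuclideanLin π =
      Matrix.toLin (PiLp.basisFun 2 ℂ (Fin d)) (PiLp.basisFun 2 ℂ (Fin d)) π :=
    congrArg (fun f => f π) (Matrix.toLpLin_eq_toLin (R := ℂ) (m := Fin d) (n := Fin d) 2 2)
  rw [Matrix.coe_toEuclideanCLM_eq_toEuclideanLin, h1, ← Matrix.rank_eq_finrank_range_toLin]
  exact hπ

private theorem cv_ctr (hc : Stmt.Contracting ρ) :
    ∃ (g : ℕ → Γ) (π : Vec d →L[ℂ] Vec d),
    Module.finrank ℂ (LinearMap.range (π : Vec d →ₗ[ℂ] Vec d)) = 1 ∧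
      Tendsto (fun n => ‖cv_rho ρ (g n)‖⁻¹ • cv_rho ρ (g n)) atTop (𝓝 π) := by
  obtain ⟨g, c, π, hπ, hlim⟩ := hc
  obtain ⟨τ, hτ⟩ : ∃ τ : Vec d →L[ℂ] Vec d, τ = Matrix.toEuclideanCLM (n := Fin d) (𝕜 := ℂ) π :=
    ⟨_, rfl⟩
  have hrank : Module.finrank ℂ (LinearMap.range (τ : Vec d →ₗ[ℂ] Vec d)) = 1 := by
    rw [hτ]
    exact cv_rank hπ
  have hτ0 : τ ≠ 0 := by
    intro h
    have h1 : LinearMap.range (τ : Vec d →ₗ[ℂ] Vec d) = ⊥ := by
      rw [h]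
      exact LinearMap.range_zero
    rw [h1, finrank_bot] at hrank
    exact zero_ne_one hrank
  have hA : Tendsto (fun n => c n • cv_rho ρ (g n)) atTop (𝓝 τ) := by
    let f : (Fin d → Fin d → ℂ) →ₗ[ℂ] (Vec d →L[ℂ] Vec d) :=
      { toFun := fun M => Matrix.toEuclideanCLM (n := Fin d) (𝕜 := ℂ) (Matrix.of M)
        map_add' := fun M M' => by
          rw [← map_add]
          rfl
        map_smul' := fun a M => by
          rw [RingHom.id_apply, ← map_smul]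
          rfl }
    have hf : Continuous f := f.continuous_of_finiteDimensional
    have h1 : Tendsto (fun n => (fun i k => c n * ρ (g n) i k : Fin d → Fin d → ℂ)) atTop
        (𝓝 (fun i k => π i k)) := by
      rw [tendsto_pi_nhds]
      intro i
      rw [tendsto_pi_nhds]
      intro k
      exact hlim i k
    have h2 := (hf.tendsto _).comp h1
    have h3 : f (fun i k => π i k) = τ := by
      rw [hτ]
      rfl
    rw [h3] at h2
    refine h2.congr fun n => ?_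
    show f (c n • (fun i k => ρ (g n) i k)) = _
    rw [map_smul]
    rfl
  have hnorm : 0 < ‖τ‖ := norm_pos_iff.2 hτ0
  have hN : Tendsto (fun n => ‖c n • cv_rho ρ (g n)‖⁻¹ • (c n • cv_rho ρ (g n))) atTop
      (𝓝 (‖τ‖⁻¹ • τ)) := (hA.norm.inv₀ hnorm.ne').smul hA
  have hev : ∀ᶠ n in atTop, c n ≠ 0 := by
    filter_upwards [hA.norm.eventually (lt_mem_nhds hnorm)] with n hn h0
    have h1 : c n • cv_rho ρ (g n) = 0 := by
      rw [h0]
      exact zero_smul ℂ (cv_rho ρ (g n) : Vec d →L[ℂ] Vec d)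
    rw [h1, norm_zero] at hn
    exact lt_irrefl _ hn
  obtain ⟨u, hu, φ, hφ, hlimu⟩ := (isCompact_closedBall (0 : ℂ) 1).tendsto_subseq
    (x := fun n => ((‖c n‖ : ℝ) : ℂ) / c n) (fun n => by
      rw [mem_closedBall_zero_iff, norm_div, Complex.norm_real, norm_norm]
      exact div_self_le_one _)
  have hu1 : ‖u‖ = 1 := by
    have h1 : Tendsto (fun n => ‖((‖c (φ n)‖ : ℝ) : ℂ) / c (φ n)‖) atTop (𝓝 ‖u‖) := hlimu.norm
    refine tendsto_nhds_unique h1 (tendsto_const_nhds.congr' ?_)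
    filter_upwards [hφ.tendsto_atTop.eventually hev] with n hn
    rw [norm_div, Complex.norm_real, norm_norm, div_self (norm_ne_zero_iff.2 hn)]
  have hu0 : u ≠ 0 := by
    intro h
    rw [h, norm_zero] at hu1
    exact zero_ne_one hu1
  refine ⟨g ∘ φ, u • (‖τ‖⁻¹ • τ), ?_, ?_⟩
  · have h1 : u • (‖τ‖⁻¹ • τ) = (u * ((‖τ‖⁻¹ : ℝ) : ℂ)) • τ := by
      rw [mul_smul]
      rfl
    have h2 : u * ((‖τ‖⁻¹ : ℝ) : ℂ) ≠ 0 :=
      mul_ne_zero hu0 (by exact_mod_cast (inv_pos.2 hnorm).ne')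
    rw [h1, ContinuousLinearMap.toLinearMap_smul, LinearMap.range_smul _ _ h2]
    exact hrank
  · have h1 := hlimu.smul (hN.comp hφ.tendsto_atTop)
    refine h1.congr' ?_
    filter_upwards [hφ.tendsto_atTop.eventually hev] with n hn
    show (((‖c (φ n)‖ : ℝ) : ℂ) / c (φ n)) • (‖c (φ n) • cv_rho ρ (g (φ n))‖⁻¹ •
      (c (φ n) • cv_rho ρ (g (φ n)))) = ‖cv_rho ρ (g (φ n))‖⁻¹ • cv_rho ρ (g (φ n))
    rw [norm_smul, mul_inv]
    have h3 : ∀ (a : ℝ) (x : Vec d →L[ℂ] Vec d), a • x = (a : ℂ) • x := fun a x => rfl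
    rw [h3, h3, smul_smul, smul_smul]
    congr 1
    have h4 : ((‖c (φ n)‖ : ℝ) : ℂ) ≠ 0 := by
      exact_mod_cast (norm_ne_zero_iff.2 hn)
    push_cast
    field_simp

theorem final {j : Γ →* SpecialLinearGroup (Fin 2) ℂ} {ρ : Γ →* Matrix (Fin d) (Fin d) ℂ}
    (hj : Stmt.IsUniform j) (hs : Stmt.StronglyIrreducible ρ) (hc : Stmt.Contracting ρ)
    {om : ℂ → (Fin d → ℂ) → ℝ} (hom : Stmt.IsLeafForm j ρ om)
    (hpos : ∀ z v, ‖z‖ < 1 → v ≠ 0 → 0 < om z v) :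
    ∃ T : (ℂ → (Fin d → ℂ) → ℝ) → ℝ, Stmt.IsHarmonicCurrent j ρ T ∧ T om = 1 ∧
      (∀ T', Stmt.IsHarmonicCurrent j ρ T' → T' om = 1 →
        ∀ th, Stmt.IsLeafForm j ρ th → T' th = T th) ∧
      ∀ th, Stmt.IsLeafForm j ρ th → ∀ ε : ℝ, 0 < ε → ∃ r₀ : ℝ, r₀ < 1 ∧ ∀ r, r₀ < r → r < 1 →
        ∀ z v, ‖z‖ < 1 → v ≠ 0 → |Stmt.ahlfors om th z v r - T th| < ε := by
  classical
  obtain ⟨T0, hT0, hT01, huniq, hconv⟩ := ahlfors_currents (cv_uniform hj)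
    (⟨cv_irr hs, cv_ctr hc⟩ : SIC (cv_rho ρ)) (cv_leaf_up hom)
    (fun z v hz hv => hpos z _ hz (cv_ofLp_ne hv))
  obtain ⟨T, hT⟩ : ∃ T : (ℂ → (Fin d → ℂ) → ℝ) → ℝ,
      ∀ g (h : cv_up g ∈ leafForms j (cv_rho ρ)), T g = T0 ⟨cv_up g, h⟩ :=
    ⟨fun g => if h : cv_up g ∈ leafForms j (cv_rho ρ) then T0 ⟨cv_up g, h⟩ else 0,
      fun g h => dif_pos h⟩
  refine ⟨T, ⟨?_, ?_, ?_, ?_⟩, ?_, ?_, ?_⟩
  · intro g h hg hh
    have h1 := cv_leaf_up hg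
    have h2 := cv_leaf_up hh
    rw [hT g h1, hT h h2, ← map_add]
    exact hT (fun z v => g z v + h z v) (add_mem h1 h2)
  · intro c g hg
    have h1 := cv_leaf_up hg
    rw [hT g h1]
    have h2 := hT (fun z v => c * g z v) (Submodule.smul_mem _ c h1)
    rw [h2]
    exact T0.map_smul c ⟨cv_up g, h1⟩
  · intro g hg hpos'
    rw [hT g (cv_leaf_up hg)]
    exact hT0.nonneg _ fun z v hz hv => hpos' z _ hz (cv_ofLp_ne hv)
  · intro u g hu hg hug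
    rw [hT g (cv_leaf_up hg)]
    exact hT0.ddc (cv_up u) _ (cv_fun_up hu) fun z v hz hv => hug z _ hz (cv_ofLp_ne hv)
  · rw [hT om (cv_leaf_up hom)]
    exact hT01
  · intro T' hT' hT'1 th hth
    let T1 : leafForms j (cv_rho ρ) →ₗ[ℝ] ℝ :=
      { toFun := fun h => T' (cv_dn h.1)
        map_add' := fun h h' => hT'.add _ _ (cv_leaf_dn h.2) (cv_leaf_dn h'.2)
        map_smul' := fun c h => hT'.mul c _ (cv_leaf_dn h.2) }
    have h1 : IsHarmonicCurrent j (cv_rho ρ) T1 := by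
      refine ⟨?_, ?_⟩
      · intro g hg
        exact hT'.nonneg _ (cv_leaf_dn g.2) fun z v hz hv => hg z _ hz (cv_toLp_ne hv)
      · intro u g hu hug
        exact hT'.ddc (cv_dn u) _ (cv_fun_dn hu) (cv_leaf_dn g.2)
          fun z v hz hv => hug z _ hz (cv_toLp_ne hv)
    have h2 := huniq T1 h1 hT'1
    rw [hT th (cv_leaf_up hth), ← h2]
    rfl
  · intro th hth ε hε
    obtain ⟨r₀, hr₀, h1⟩ := hconv ⟨cv_up th, cv_leaf_up hth⟩ ε hε
    refine ⟨r₀, hr₀, fun r hr hr1 z v hz hv => ?_⟩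
    rw [hT th (cv_leaf_up hth)]
    exact h1 r hr hr1 z (WithLp.toLp 2 v) hz (cv_toLp_ne hv)

end Pool.Agent.MP27775c.AHL
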